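import Pool.Agent.Lib.MJ29.Base

/-! One-star sabotage complexity. -/

namespace Pool.Agent.Lib.MJ29

open scoped ENNReal
open Pool.Agent.Lib.MP_099303_lc

/-- flipping coordinate `l` of `z` decides the value of `f`: setting it to `b` gives `b` -/
def Pivot {ι : Type} [DecidableEq ι] (f : (ι → Bool) → Bool) (z : ι → Bool) (l : ι) : Prop :=
  ∀ b, f (Function.update z l b) = b

/-- number of queries on `z` up to and including the first query of `l` -/
def upto {ι : Type} [DecidableEq ι] (l : ι) : DT ι → (ι → Bool) → ℕ
  | .halt, _ => 0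
  | .query i t0 t1, z => 1 + if i = l then 0 else bif z i then upto l t1 z else upto l t0 z

/-- one-star sabotage complexity: least worst-case expected number of queries until a hidden
pivotal coordinate is queried, over probability distributions on trees that query `l` on `z`
for every pivotal pair `(z, l)` -/
noncomputable def RS {ι : Type} [DecidableEq ι] (f : (ι → Bool) → Bool) : ℝ≥0∞ :=
  ⨅ (A : PMF (DT ι)) (_ : ∀ T ∈ A.support, ∀ z l, Pivot f z l → l ∈ T.queried z),
    ⨆ (z : ι → Bool) (l : ι) (_ : Pivot f z l), ∑' T, A T * (upto l T z : ℝ≥0∞)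

def St_rsge : Prop := ∀ (ι : Type) [Fintype ι] [DecidableEq ι] (f : (ι → Bool) → Bool) (r : ℝ),
  Hard f r → ENNReal.ofReal r ≤ RS f

def St_rsle : Prop := ∀ (ι : Type) [Fintype ι] [DecidableEq ι] (f : (ι → Bool) → Bool) (r : ℝ),
  ENNReal.ofReal r < RS f → Hard f r

end Pool.Agent.Lib.MJ29
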