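import Pool.Agent.Lib.MJ29.Err
import Pool.Agent.Lib.MJ29.Sab

/-! The row proofs (by the row owners) in one module, so that equation lemmas are generated once. -/


/-! Separation of a convex set from the negative orthant, and the hint or lock dichotomy. -/

namespace Pool.Agent.Lib.MJ29

open Finset Pool.Agent.Lib.MP_099303_lc

namespace Mm

lemma apply_eq {X : Type} [Fintype X] [DecidableEq X] (f : (X → ℝ) →L[ℝ] ℝ) (v : X → ℝ) :
    f v = ∑ x, f (Pi.single x 1) * v x := by
  have h : v = ∑ x, v x • (Pi.single x (1 : ℝ) : X → ℝ) := by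
    funext y
    simp [Finset.sum_apply, Pi.single_apply]
  conv_lhs => rw [h]
  rw [map_sum]
  exact sum_congr rfl fun x _ => by rw [map_smul, smul_eq_mul, mul_comm]

lemma nonpos_of_ray {a c u : ℝ} (h : ∀ t : ℝ, 0 ≤ t → c + t * a < u) : a ≤ 0 := by
  by_contra ha
  have ha : 0 < a := not_le.mp ha
  have h0 := h 0 le_rfl
  have h1 := h ((u - c) / a) (div_nonneg (by linarith) ha.le)
  rw [div_mul_cancel₀ _ ha.ne'] at h1
  linarith

end Mm

open Mm

theorem st_mm : St_mm := by
  intro X _ V S hS hne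
  classical
  by_cases h1 : ∃ v ∈ S, ∀ x, V x → v x < 0
  · exact Or.inl h1
  right
  set U : Set (X → ℝ) := {u | ∀ x, V x → u x < 0} with hU
  have hUc : Convex ℝ U := by
    intro u hu v hv a b ha hb hab x hx
    have h2 := hu x hx
    have h3 := hv x hx
    simp only [Pi.add_apply, Pi.smul_apply, smul_eq_mul]
    rcases ha.eq_or_lt with h | h
    · have hb1 : b = 1 := by linarith
      rw [← h, hb1]
      linarith
    · have h4 := mul_neg_of_pos_of_neg h h2
      have h5 := mul_nonpos_of_nonneg_of_nonpos hb h3.le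
      linarith
  have hUo : IsOpen U := by
    have h2 : U = ⋂ x, {u : X → ℝ | V x → u x < 0} := by
      ext u
      simp [hU]
    rw [h2]
    refine isOpen_iInter_of_finite fun x => ?_
    by_cases hx : V x
    · have h3 : {u : X → ℝ | V x → u x < 0} = {u : X → ℝ | u x < 0} := by
        ext u
        simp [hx]
      rw [h3]
      exact isOpen_lt (continuous_apply x) continuous_const
    · have h3 : {u : X → ℝ | V x → u x < 0} = Set.univ := by
        ext u
        simp [hx]
      rw [h3]
      exact isOpen_univ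
  have hd : Disjoint U S := Set.disjoint_left.mpr fun u hu hs => h1 ⟨u, hs, hu⟩
  obtain ⟨f, u, hf1, hf2⟩ := geometric_hahn_banach_open hUc hUo hS hd
  set a : X → ℝ := fun x => f (Pi.single x 1) with ha
  have ray : ∀ (x : X) (t : ℝ), (V x → t ≤ 0) →
      f (fun _ => -1) + t * a x < u := by
    intro x t ht
    have h2 : ((fun _ => -1) + t • (Pi.single x (1 : ℝ) : X → ℝ)) ∈ U := by
      intro y hy
      by_cases hxy : y = x
      · subst hxy
        have := ht hy
        simp only [Pi.add_apply, Pi.smul_apply, smul_eq_mul, Pi.single_eq_same]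
        linarith
      · simp [Pi.single_eq_of_ne hxy]
    have h3 := hf1 _ h2
    rwa [map_add, map_smul, smul_eq_mul] at h3
  have a0 : ∀ x, 0 ≤ a x := by
    intro x
    have h2 : -a x ≤ 0 := nonpos_of_ray (c := f fun _ => -1) (u := u) fun t ht => by
      have := ray x (-t) fun _ => by linarith
      linarith
    linarith
  have aV : ∀ x, a x ≠ 0 → V x := by
    intro x hx
    by_contra hv
    exact hx (le_antisymm (nonpos_of_ray fun t _ => ray x t fun h => absurd h hv) (a0 x))
  have hconst : ∀ ε : ℝ, 0 < ε → -(ε * ∑ x, a x) < u := by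
    intro ε hε
    have h2 : (fun _ : X => -ε) ∈ U := fun y _ => by simpa using hε
    have h3 := hf1 _ h2
    rw [apply_eq, ← sum_mul] at h3
    linarith
  have hA0 : 0 ≤ ∑ x, a x := sum_nonneg fun x _ => a0 x
  have hA : 0 < ∑ x, a x := by
    refine hA0.lt_of_ne fun h => ?_
    have hz : ∀ x, a x = 0 := fun x =>
      (sum_eq_zero_iff_of_nonneg fun x _ => a0 x).mp h.symm x (mem_univ x)
    obtain ⟨v, hv⟩ := hne
    have h2 := hf2 v hv
    rw [apply_eq, sum_eq_zero fun x _ => by rw [show f (Pi.single x 1) = 0 from hz x, zero_mul]]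
      at h2
    have h3 := hconst 1 one_pos
    rw [← h] at h3
    linarith
  have hu : 0 ≤ u := by
    by_contra hu
    have hu : u < 0 := not_le.mp hu
    have h2 := hconst (-u / ∑ x, a x) (div_pos (by linarith) hA)
    rw [div_mul_cancel₀ _ hA.ne'] at h2
    linarith
  refine ⟨fun x => a x / ∑ y, a y, ⟨fun x => div_nonneg (a0 x) hA0, ?_⟩, fun x hx => ?_,
    fun v hv => ?_⟩
  · rw [← sum_div, div_self hA.ne']
  · exact aV x fun h => hx (by simp [h])
  · have h2 := hf2 v hv
    rw [apply_eq] at h2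
    have h3 : Ex (fun x => a x / ∑ y, a y) v = (∑ x, a x * v x) / ∑ y, a y := by
      rw [Ex, sum_div]
      exact sum_congr rfl fun x _ => by ring
    rw [h3]
    exact div_nonneg (hu.trans h2) hA0

theorem st_dich (hmm : St_mm) : St_dich := by
  intro ι _ _ f m g hm
  set S : Set ((ι → Bool) × (ι → Bool) → ℝ) :=
    {v | ∃ t : WT ι, (∀ x, cost t x ≤ m) ∧ v = fun q => g - (P t q.1 - P t q.2)} with hS
  have hc : Convex ℝ S := by
    rintro _ ⟨t0, h0, rfl⟩ _ ⟨t1, h1, rfl⟩ a b ha hb hab
    have hb1 : b = 1 - a := by linarith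
    subst hb1
    refine ⟨.mix ⟨a, ha, by linarith⟩ t0 t1, fun x => ?_, ?_⟩
    · have h2 := mul_le_mul_of_nonneg_left (h0 x) ha
      have h3 := mul_le_mul_of_nonneg_left (h1 x) hb
      simp only [cost]
      linarith
    · funext q
      simp only [Pi.add_apply, Pi.smul_apply, smul_eq_mul, P]
      ring
  have hne : S.Nonempty := ⟨_, .leaf false, fun x => by simpa [cost] using hm, rfl⟩
  rcases hmm _ (fun q : (ι → Bool) × (ι → Bool) => f q.1 = true ∧ f q.2 = false) S hc hne with
    ⟨_, ⟨t, ht, rfl⟩, h⟩ | ⟨ν, hν, hV, h⟩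
  · left
    refine ⟨t, ht, fun x1 x0 h1 h0 => ?_⟩
    have := h (x1, x0) ⟨h1, h0⟩
    simp only at this
    linarith
  · right
    refine ⟨ν, hν, hV, fun t ht => ?_⟩
    have h2 := h _ ⟨t, ht, rfl⟩
    have h3 : Ex ν (fun q => g - (P t q.1 - P t q.2)) = g - Ex ν fun q => P t q.1 - P t q.2 := by
      simp only [Ex, mul_sub (ν _) g, sum_sub_distrib, ← sum_mul, hν.2, one_mul]
    rw [h3] at h2
    linarith

end Pool.Agent.Lib.MJ29


/-! Passing between weighted trees and distributions on deterministic trees. -/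

namespace Pool.Agent.Lib.MJ29

open Finset Pool.Agent.Lib.MP_099303_lc
open scoped ENNReal

namespace Pmf

variable {ι : Type}

lemma P_mem (t : WT ι) (x : ι → Bool) : 0 ≤ P t x ∧ P t x ≤ 1 := by
  induction t with
  | leaf a => cases a <;> simp [P, ind]
  | query i t0 t1 h0 h1 => cases h : x i <;> simp only [P, h, cond] <;> assumption
  | mix p t0 t1 h0 h1 =>
    have a := p.2.1
    have b := sub_nonneg.2 p.2.2
    simp only [P]
    exact ⟨add_nonneg (mul_nonneg a h0.1) (mul_nonneg b h1.1), by
      nlinarith [mul_le_mul_of_nonneg_left h0.2 a, mul_le_mul_of_nonneg_left h1.2 b]⟩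

lemma cost_ge (t : WT ι) (x : ι → Bool) : 0 ≤ cost t x := by
  induction t with
  | leaf a => exact le_rfl
  | query i t0 t1 h0 h1 => cases h : x i <;> simp only [cost, h, cond] <;> positivity
  | mix p t0 t1 h0 h1 =>
    exact add_nonneg (mul_nonneg p.2.1 h0) (mul_nonneg (sub_nonneg.2 p.2.2) h1)

lemma extreme {p u v : ℝ} {b : Bool} (h0 : 0 < p) (h1 : p ≤ 1) (hu : 0 ≤ u ∧ u ≤ 1)
    (hv : 0 ≤ v ∧ v ≤ 1) (h : p * u + (1 - p) * v = ind b) : u = ind b := by
  have c := sub_nonneg.2 h1
  cases b
  · have e : p * u + (1 - p) * v = 0 := h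
    have e2 : p * u ≤ p * 0 := by nlinarith [mul_nonneg c hv.1]
    exact le_antisymm (le_of_mul_le_mul_left e2 h0) hu.1
  · have e : p * u + (1 - p) * v = 1 := h
    have e2 : p * 1 ≤ p * u := by nlinarith [mul_nonneg c (sub_nonneg.2 hv.2)]
    exact le_antisymm hu.2 (le_of_mul_le_mul_left e2 h0)

lemma ind_inj {a b : Bool} (h : ind a = ind b) : a = b := by
  cases a <;> cases b <;> simp_all [ind]

lemma mean_bind {α β : Type} (p : PMF α) (f : α → PMF β) (g : β → ℝ≥0∞) :
    ∑' b, p.bind f b * g b = ∑' a, p a * ∑' b, f a b * g b := by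
  simp only [PMF.bind_apply, ← ENNReal.tsum_mul_right, ← ENNReal.tsum_mul_left, mul_assoc]
  exact ENNReal.tsum_comm

lemma mean_pure {β : Type} (a : β) (g : β → ℝ≥0∞) : ∑' b, PMF.pure a b * g b = g a := by
  rw [tsum_eq_single a fun b hb => by simp [hb]]
  simp

/-- a coin with bias `p` -/
noncomputable def coin (p : unitInterval) : PMF Bool :=
  PMF.ofFintype (fun c => ENNReal.ofReal (bif c then (p : ℝ) else 1 - p)) (by
    rw [Fintype.sum_bool]
    simp only [cond]
    rw [← ENNReal.ofReal_add p.2.1 (sub_nonneg.2 p.2.2), add_sub_cancel, ENNReal.ofReal_one])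

lemma coin_apply (p : unitInterval) (c : Bool) :
    coin p c = ENNReal.ofReal (bif c then (p : ℝ) else 1 - p) := rfl

lemma law (t : WT ι) : ∃ A : PMF (DT ι), (∀ T ∈ A.support, ∀ x y : ι → Bool,
    (∀ i ∈ T.queried x, y i = x i) → ∀ b b', P t x = ind b → P t y = ind b' → b' = b) ∧
    ∀ x, ∑' T, A T * ((T.queried x).length : ℝ≥0∞) = ENNReal.ofReal (cost t x) := by
  induction t with
  | leaf a =>
    refine ⟨PMF.pure .halt, fun T _ x y _ b b' h h' => ind_inj (h'.symm.trans h), fun x => ?_⟩
    rw [mean_pure]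
    simp [DT.queried, cost]
  | query i t0 t1 h0 h1 =>
    obtain ⟨A0, p0, q0⟩ := h0
    obtain ⟨A1, p1, q1⟩ := h1
    refine ⟨A0.bind fun T0 => A1.bind fun T1 => PMF.pure (.query i T0 T1), ?_, fun x => ?_⟩
    · intro T hT x y hxy b b' h h'
      simp only [PMF.mem_support_bind_iff, PMF.mem_support_pure_iff] at hT
      obtain ⟨T0, m0, T1, m1, rfl⟩ := hT
      have e := hxy i (by simp [DT.queried])
      cases ex : x i
      · simp only [P, ex, e.trans ex, cond] at h h'
        exact p0 T0 m0 x y (fun j hj => hxy j (by simp [DT.queried, ex, hj])) b b' h h'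
      · simp only [P, ex, e.trans ex, cond] at h h'
        exact p1 T1 m1 x y (fun j hj => hxy j (by simp [DT.queried, ex, hj])) b b' h h'
    · simp only [mean_bind, mean_pure]
      cases ex : x i
      · simp only [DT.queried, ex, cond, cost, List.length_cons, Nat.cast_succ,
          ENNReal.tsum_mul_right, PMF.tsum_coe, one_mul, mul_add, ENNReal.tsum_add, q0, mul_one]
        rw [ENNReal.ofReal_add zero_le_one (cost_ge _ _), ENNReal.ofReal_one, add_comm]
      · simp only [DT.queried, ex, cond, cost, List.length_cons, Nat.cast_succ,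
          ENNReal.tsum_mul_right, PMF.tsum_coe, one_mul, mul_add, ENNReal.tsum_add, q1, mul_one]
        rw [ENNReal.ofReal_add zero_le_one (cost_ge _ _), ENNReal.ofReal_one, add_comm]
  | mix p t0 t1 h0 h1 =>
    obtain ⟨A0, p0, q0⟩ := h0
    obtain ⟨A1, p1, q1⟩ := h1
    have a := p.2.1
    have c := sub_nonneg.2 p.2.2
    refine ⟨(coin p).bind fun r => bif r then A0 else A1, ?_, fun x => ?_⟩
    · intro T hT x y hxy b b' h h'
      obtain ⟨r, hr, m⟩ := (PMF.mem_support_bind_iff _ _ _).1 hT
      rw [PMF.mem_support_iff, coin_apply, Ne, ENNReal.ofReal_eq_zero, not_le] at hr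
      simp only [P] at h h'
      cases r
      · have k : ∀ (z : ι → Bool) (d : Bool), p * P t0 z + (1 - p) * P t1 z = ind d →
            P t1 z = ind d := fun z d e =>
          extreme (p := 1 - p) hr (by linarith) (P_mem t1 z) (P_mem t0 z) (by linarith)
        exact p1 T m x y hxy b b' (k x b h) (k y b' h')
      · exact p0 T m x y hxy b b' (extreme hr p.2.2 (P_mem t0 x) (P_mem t1 x) h)
          (extreme hr p.2.2 (P_mem t0 y) (P_mem t1 y) h')
    · rw [mean_bind, tsum_fintype, Fintype.sum_bool]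
      simp only [coin_apply, cond, q0, q1, cost]
      rw [ENNReal.ofReal_add (mul_nonneg a (cost_ge _ _)) (mul_nonneg c (cost_ge _ _)),
        ENNReal.ofReal_mul a, ENNReal.ofReal_mul c]

lemma label (f : (ι → Bool) → Bool) (A : DT ι) : ∀ S : (ι → Bool) → Prop,
    (∀ x y, S x → S y → (∀ i ∈ A.queried x, y i = x i) → f y = f x) →
    ∃ t : WT ι, (∀ x, S x → P t x = ind (f x)) ∧ ∀ x, cost t x = (A.queried x).length := by
  induction A with
  | halt =>
    intro S h
    by_cases e : ∃ z, S z
    · obtain ⟨z, hz⟩ := e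
      refine ⟨.leaf (f z), fun x hx => ?_, fun x => by simp [cost, DT.queried]⟩
      rw [h z x hz hx (by simp [DT.queried])]
      rfl
    · exact ⟨.leaf false, fun x hx => (e ⟨x, hx⟩).elim, fun x => by simp [cost, DT.queried]⟩
  | query i A0 A1 h0 h1 =>
    intro S h
    obtain ⟨t0, p0, q0⟩ := h0 (fun x => S x ∧ x i = false) fun x y hx hy e =>
      h x y hx.1 hy.1 fun j hj => by
        simp only [DT.queried, hx.2, cond, List.mem_cons] at hj
        rcases hj with rfl | hj
        exacts [hy.2.trans hx.2.symm, e j hj]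
    obtain ⟨t1, p1, q1⟩ := h1 (fun x => S x ∧ x i = true) fun x y hx hy e =>
      h x y hx.1 hy.1 fun j hj => by
        simp only [DT.queried, hx.2, cond, List.mem_cons] at hj
        rcases hj with rfl | hj
        exacts [hy.2.trans hx.2.symm, e j hj]
    refine ⟨.query i t0 t1, fun x hx => ?_, fun x => ?_⟩
    · cases ex : x i
      · simp only [P, ex, cond]
        exact p0 x ⟨hx, ex⟩
      · simp only [P, ex, cond]
        exact p1 x ⟨hx, ex⟩
    · cases ex : x i
      · simp only [cost, DT.queried, ex, cond, q0, List.length_cons, Nat.cast_succ]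
        exact add_comm _ _
      · simp only [cost, DT.queried, ex, cond, q1, List.length_cons, Nat.cast_succ]
        exact add_comm _ _

end Pmf

theorem st_pmf : St_pmf := by
  rintro ι f C ⟨t, ht⟩
  obtain ⟨A, p, q⟩ := Pmf.law t
  have e : ∀ x, P t x = ind (f x) := fun x => sub_eq_zero.1 (abs_nonpos_iff.1 (ht x).2)
  refine iInf₂_le_of_le A (fun T hT x y hxy => p T hT x y hxy _ _ (e x) (e y))
    (iSup_le fun x => ?_)
  rw [q]
  exact ENNReal.ofReal_le_ofReal (ht x).1

theorem st_ofDT : St_ofDT := fun _ _ f A h =>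
  (Pmf.label f A (fun _ => True) fun x y _ _ => h x y).imp fun _ ht =>
    ⟨fun x => ht.1 x trivial, ht.2⟩

theorem st_fin : St_fin := by
  intro ι _ _ f
  refine ne_top_of_le_ne_top (ENNReal.natCast_ne_top (univ : Finset ι).toList.length) ?_
  refine iInf₂_le_of_le (PMF.pure (full (univ : Finset ι).toList)) (fun T hT x y hxy => ?_)
    (iSup_le fun x => ?_)
  · obtain rfl := (PMF.mem_support_pure_iff _ _).1 hT
    rw [funext fun i => hxy i (by simp [queried_full])]
  · rw [Pmf.mean_pure, queried_full]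

theorem st_up (h : St_pmf) : St_up := fun ι f C hA =>
  ENNReal.toReal_le_of_le_ofReal
    (hA.elim fun t ht => (Pmf.cost_ge t fun _ => false).trans (ht _).1) (h ι f C hA)

end Pool.Agent.Lib.MJ29


namespace Pool.Agent.Lib.MJ29

open Finset Pool.Agent.Lib.MP_099303_lc

namespace YAO

variable {ι : Type}

theorem p_mem (t : WT ι) (x : ι → Bool) : 0 ≤ P t x ∧ P t x ≤ 1 := by
  induction t with
  | leaf b => cases b <;> simp [P, ind]
  | query i t0 t1 h0 h1 =>
    rw [P]
    cases x i
    · exact h0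
    · exact h1
  | mix p t0 t1 h0 h1 =>
    rw [P]
    have hp := p.2.1
    have hq := p.2.2
    constructor <;> nlinarith [h0.1, h0.2, h1.1, h1.2]

theorem c_nonneg (t : WT ι) (x : ι → Bool) : 0 ≤ cost t x := by
  induction t with
  | leaf b => exact le_rfl
  | query i t0 t1 h0 h1 =>
    rw [cost]
    cases x i
    · exact add_nonneg zero_le_one h0
    · exact add_nonneg zero_le_one h1
  | mix p t0 t1 h0 h1 =>
    rw [cost]
    exact add_nonneg (mul_nonneg p.2.1 h0) (mul_nonneg (sub_nonneg.2 p.2.2) h1)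

theorem gap_le (t : WT ι) (x y : ι → Bool) : P t x - P t y ≤ cost t x := by
  induction t with
  | leaf b => simp [P, cost]
  | query i t0 t1 _ _ =>
    have h1 := (p_mem (.query i t0 t1) x).2
    have h2 := (p_mem (.query i t0 t1) y).1
    have h3 : 1 ≤ cost (.query i t0 t1) x := by
      rw [cost]
      cases x i
      · exact le_add_of_nonneg_right (c_nonneg t0 x)
      · exact le_add_of_nonneg_right (c_nonneg t1 x)
    linarith
  | mix p t0 t1 h0 h1 =>
    rw [P, P, cost]
    have h2 := mul_le_mul_of_nonneg_left h0 p.2.1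
    have h3 := mul_le_mul_of_nonneg_left h1 (sub_nonneg.2 p.2.2)
    linarith

theorem alt (hmm : St_mm) (hDT : St_ofDT) [Fintype ι] [DecidableEq ι] (f : (ι → Bool) → Bool)
    (C : ℝ) : Apx f C 0 ∨
      ∃ ν : (ι → Bool) → ℝ, IsP ν ∧ ∀ t : WT ι, Exact f t → C ≤ Ex ν (cost t) := by
  have h := hmm (ι → Bool) (fun _ => True)
    {v | ∃ t : WT ι, Exact f t ∧ v = fun x => cost t x - C} ?_ ?_
  · rcases h with ⟨v, ⟨t, ht, rfl⟩, hv⟩ | ⟨ν, hν, -, h⟩
    · refine Or.inl ⟨t, fun x => ⟨by linarith [hv x trivial], ?_⟩⟩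
      rw [ht x, sub_self, abs_zero]
    · refine Or.inr ⟨ν, hν, fun t ht => ?_⟩
      have h1 := h _ ⟨t, ht, rfl⟩
      simp only [Ex, mul_sub, sum_sub_distrib, ← sum_mul, hν.2, one_mul] at h1
      simp only [Ex]
      linarith
  · rintro v ⟨t0, h0, rfl⟩ w ⟨t1, h1, rfl⟩ a b ha hb hab
    obtain rfl : b = 1 - a := by linarith
    refine ⟨.mix ⟨a, ha, by linarith⟩ t0 t1, fun x => ?_, funext fun x => ?_⟩
    · rw [P, h0 x, h1 x]
      ring
    · simp only [cost, Pi.add_apply, Pi.smul_apply, smul_eq_mul]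
      ring
  · obtain ⟨t, ht, -⟩ := hDT ι f (full (univ : Finset ι).toList) fun x y h => by
      rw [queried_full] at h
      rw [show y = x from funext fun i => h i (mem_toList.2 (mem_univ i))]
    exact ⟨_, t, ht, rfl⟩

theorem maj_self (b : Bool) : maj b b b = b := by
  cases b <;> rfl

theorem iter_const (b : Bool) : ∀ k, iterMaj k (fun _ => b) = b
  | 0 => rfl
  | k + 1 => by
    rw [iterMaj, iter_const b k, maj_self]

theorem tv_le (halg : St_alg) (hup : St_up) (hcomp : St_comp) (J J' : Type) [Fintype J]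
    [DecidableEq J] (E : J → J') (G : (J → Bool) → Bool) :
    Tv (fun x : J' → Bool => G fun j => x (E j)) ≤ Tv G := by
  refine le_of_forall_gt_imp_ge_of_dense fun C hC => ?_
  have h := hcomp J J' G (fun j x => x (E j)) C 0 1 zero_le_one (halg J G C hC) fun j =>
    ⟨.query (E j) (.leaf false) (.leaf true), fun x => by
      cases h : x (E j) <;> simp [cost, P, ind, h]⟩
  rw [mul_one] at h
  exact hup J' _ C h

end YAO

theorem st_alg (hmm : St_mm) (hDT : St_ofDT) (hfin : St_fin) : St_alg := by
  intro ι _ _ f C hC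
  rcases YAO.alt hmm hDT f C with h | ⟨ν, hν, h⟩
  · exact h
  · have h0 : 0 ≤ C := ENNReal.toReal_nonneg.trans hC.le
    have h1 := R_ge f ν hν.1 (by rw [hν.2]; exact one_pos) C h0 fun A hA => by
      obtain ⟨t, ht, hc⟩ := hDT ι f A hA
      have h2 := h t ht
      simp only [Ex, hc] at h2
      rw [hν.2, mul_one]
      exact h2
    exact absurd ((ENNReal.ofReal_le_iff_le_toReal (hfin ι f)).1 h1) (not_le.2 hC)

theorem st_yao (hmm : St_mm) (hDT : St_ofDT) (hup : St_up) : St_yao := by
  intro ι _ _ f C hC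
  rcases YAO.alt hmm hDT f C with h | h
  · exact absurd (hup ι f C h) (not_le.2 hC)
  · exact h

theorem st_one (halg : St_alg) : St_one := by
  intro ι _ _ f x1 x0 h1 h0
  refine le_of_forall_gt_imp_ge_of_dense fun C hC => ?_
  obtain ⟨t, ht⟩ := halg ι f C hC
  have h2 := abs_nonpos_iff.1 (ht x1).2
  have h3 := abs_nonpos_iff.1 (ht x0).2
  have h4 := YAO.gap_le t x1 x0
  have h5 := (ht x1).1
  rw [h1] at h2
  rw [h0] at h3
  simp only [ind, cond_true, cond_false] at h2 h3
  linarith

theorem st_T1 (hone : St_one) (hfin : St_fin) : St_T1 := by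
  intro k
  refine ⟨hone _ _ _ _ (YAO.iter_const true k) (YAO.iter_const false k), ?_, ?_⟩
  · exact ENNReal.toReal_le_of_le_ofReal (by positivity) (R_le k)
  · exact (ENNReal.ofReal_toReal (hfin _ _)).symm

theorem st_tvE (halg : St_alg) (hup : St_up) (hcomp : St_comp) : St_tvE := by
  intro J J' _ _ _ _ E G
  refine le_antisymm (YAO.tv_le halg hup hcomp J J' E G) ?_
  have h := YAO.tv_le halg hup hcomp J' J E.symm fun x : J' → Bool => G fun j => x (E j)
  simpa only [Equiv.symm_apply_apply] using h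

end Pool.Agent.Lib.MJ29


/-! Amplification: a hint of advantage `g` gives error `1 / 10` at a constant factor. -/

namespace Pool.Agent.Lib.MJ29

namespace Amp

variable {ι : Type}

theorem P_mem (t : WT ι) (x : ι → Bool) : 0 ≤ P t x ∧ P t x ≤ 1 := by
  induction t with
  | leaf b => cases b <;> simp [P, ind]
  | query i t0 t1 h0 h1 => cases h : x i <;> simp [P, h, h0, h1]
  | mix p t0 t1 h0 h1 =>
    have hp0 : (0 : ℝ) ≤ p := p.2.1
    have hp1 : (p : ℝ) ≤ 1 := p.2.2
    simp only [P]
    constructor <;> nlinarith [h0.1, h0.2, h1.1, h1.2, mul_nonneg hp0 h0.1,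
      mul_nonneg (sub_nonneg.2 hp1) h1.1, mul_nonneg hp0 (sub_nonneg.2 h0.2),
      mul_nonneg (sub_nonneg.2 hp1) (sub_nonneg.2 h1.2)]

theorem cost_nn (t : WT ι) (x : ι → Bool) : 0 ≤ cost t x := by
  induction t with
  | leaf b => simp [cost]
  | query i t0 t1 h0 h1 => cases h : x i <;> simp only [cost, h, cond_true, cond_false] <;> linarith
  | mix p t0 t1 h0 h1 =>
    have hp0 : (0 : ℝ) ≤ p := p.2.1
    have hp1 : (p : ℝ) ≤ 1 := p.2.2
    simp only [cost]
    exact add_nonneg (mul_nonneg hp0 h0) (mul_nonneg (sub_nonneg.2 hp1) h1)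

theorem P_bd (t : WT ι) (k : Bool → WT ι) (x : ι → Bool) :
    P (bind t k) x = P t x * P (k true) x + (1 - P t x) * P (k false) x := by
  induction t with
  | leaf b => cases b <;> simp [P, bind, ind]
  | query i t0 t1 h0 h1 => cases h : x i <;> simp only [P, bind, h, cond_true, cond_false, h0, h1]
  | mix p t0 t1 h0 h1 => simp only [P, bind, h0, h1]; ring

theorem cost_bd (t : WT ι) (k : Bool → WT ι) (x : ι → Bool) :
    cost (bind t k) x =
      cost t x + (P t x * cost (k true) x + (1 - P t x) * cost (k false) x) := by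
  induction t with
  | leaf b => cases b <;> simp [P, cost, bind, ind]
  | query i t0 t1 h0 h1 =>
    cases h : x i <;> simp only [P, cost, bind, h, cond_true, cond_false, h0, h1] <;> ring
  | mix p t0 t1 h0 h1 => simp only [P, cost, bind, h0, h1]; ring

/-- majority of three independent runs -/
def maj3 (t : WT ι) : WT ι :=
  bind t fun a => bind t fun b => bif a == b then .leaf a else t

theorem P_maj3 (t : WT ι) (x : ι → Bool) : P (maj3 t) x = 3 * P t x ^ 2 - 2 * P t x ^ 3 := by
  simp only [maj3, P_bd]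
  simp [P, ind]
  ring

theorem cost_maj3 (t : WT ι) (x : ι → Bool) : cost (maj3 t) x ≤ 3 * cost t x := by
  have h := P_mem t x
  have hc := cost_nn t x
  have e : cost (maj3 t) x = 2 * cost t x + 2 * (P t x * (1 - P t x)) * cost t x := by
    simp only [maj3, cost_bd]
    simp [cost]
    ring
  have h2 : 2 * (P t x * (1 - P t x)) ≤ 1 := by nlinarith [sq_nonneg (2 * P t x - 1)]
  rw [e]
  nlinarith [mul_le_mul_of_nonneg_right h2 hc]

theorem key (u δ : ℝ) (h0 : 0 ≤ δ) (h1 : δ ≤ 2 / 5) (h2 : δ ≤ u) (h3 : u ≤ 1 / 2) :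
    11 / 10 * δ ≤ 3 / 2 * u - 2 * u ^ 3 := by
  have hu : 0 ≤ u := h0.trans h2
  have a1 : u ^ 2 ≤ 1 / 4 := by nlinarith
  have a2 : δ ^ 2 ≤ 4 / 25 := by nlinarith
  have a3 : u * δ ≤ 1 / 4 := by nlinarith
  have b1 : 0 ≤ (u - δ) * (3 / 2 - 2 * (u ^ 2 + u * δ + δ ^ 2)) :=
    mul_nonneg (sub_nonneg.2 h2) (by linarith)
  have b2 : 0 ≤ δ * (2 / 5 - 2 * δ ^ 2) := mul_nonneg h0 (by linarith)
  nlinarith

theorem step {f : (ι → Bool) → Bool} {M δ : ℝ} (h0 : 0 ≤ δ) (h1 : δ ≤ 2 / 5)
    (h : Apx f M (1 / 2 - δ)) : Apx f (3 * M) (1 / 2 - 11 / 10 * δ) := by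
  obtain ⟨t, ht⟩ := h
  refine ⟨maj3 t, fun x => ⟨(cost_maj3 t x).trans (by linarith [(ht x).1]), ?_⟩⟩
  have hp := P_mem t x
  have hq := P_mem (maj3 t) x
  have he := abs_le.1 (ht x).2
  rw [P_maj3] at hq ⊢
  rw [abs_le]
  cases hf : f x
  · simp only [hf, ind, cond_false] at he ⊢
    have k := key (1 / 2 - P t x) δ h0 h1 (by linarith [he.2]) (by linarith [hp.1])
    constructor <;> nlinarith [hq.1]
  · simp only [hf, ind, cond_true] at he ⊢
    have k := key (P t x - 1 / 2) δ h0 h1 (by linarith [he.1]) (by linarith [hp.2])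
    constructor <;> nlinarith [hq.2]

theorem mono {f : (ι → Bool) → Bool} {M M' e e' : ℝ} (h : Apx f M e) (hM : M ≤ M') (he : e ≤ e') :
    Apx f M' e' := by
  obtain ⟨t, ht⟩ := h
  exact ⟨t, fun x => ⟨(ht x).1.trans hM, (ht x).2.trans he⟩⟩

theorem iter (f : (ι → Bool) → Bool) (k : ℕ) : ∀ M δ : ℝ, 0 ≤ M → 0 ≤ δ →
    2 / 5 ≤ δ * (11 / 10) ^ k → Apx f M (1 / 2 - δ) → Apx f (3 ^ k * M) (1 / 10) := by
  induction k with
  | zero =>
    intro M δ _ _ hk h
    exact mono h (by simp) (by simp only [pow_zero] at hk; linarith)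
  | succ k ih =>
    intro M δ hM hδ hk h
    rcases le_total (2 / 5) δ with hc | hc
    · refine mono h ?_ (by linarith)
      have : (1 : ℝ) ≤ 3 ^ (k + 1) := one_le_pow₀ (by norm_num)
      nlinarith
    · have := ih (3 * M) (11 / 10 * δ) (by linarith) (by linarith)
        (by rw [pow_succ] at hk; linarith) (step hδ hc h)
      exact mono this (by rw [pow_succ]; linarith) le_rfl

theorem shift [Fintype ι] [DecidableEq ι] {f : (ι → Bool) → Bool} {m g : ℝ} (hg : 0 < g)
    (h : Hint f m g) : 0 ≤ m ∧ (Apx f m 0 ∨ Apx f m (1 / 2 - g / 4)) := by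
  obtain ⟨t, hc, ht⟩ := h
  have hm : 0 ≤ m := (cost_nn t fun _ => true).trans (hc _)
  refine ⟨hm, ?_⟩
  by_cases h1 : ∃ x, f x = true
  · by_cases h0 : ∃ x, f x = false
    · right
      obtain ⟨x1, hx1⟩ := h1
      obtain ⟨y, hy, hmax⟩ := Set.exists_max_image {x | f x = false} (fun x => P t x)
        (Set.toFinite _) h0
      have hb := P_mem t y
      have ha := P_mem t x1
      have hgap := ht x1 y hx1 hy
      refine ⟨.mix ⟨1 / 2, by norm_num, by norm_num⟩ t
        (.mix ⟨1 - (P t y + g / 2), by linarith [ha.2], by linarith [hb.1]⟩ (.leaf true)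
          (.leaf false)), fun x => ⟨?_, ?_⟩⟩
      · simp only [cost]
        linarith [hc x]
      · have hp := P_mem t x
        rw [abs_le]
        cases hf : f x
        · have := hmax x hf
          simp only [P, ind, cond_true, cond_false] at this ⊢
          constructor <;> linarith [hp.1, ha.2]
        · have := ht x y hf hy
          simp only [P, ind, cond_true, cond_false]
          constructor <;> linarith [hp.2, hb.1]
    · left
      refine ⟨.leaf true, fun x => ⟨by simpa [cost] using hm, ?_⟩⟩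
      have : f x = true := by
        cases hf : f x
        · exact absurd ⟨x, hf⟩ h0
        · rfl
      simp [P, this]
  · left
    refine ⟨.leaf false, fun x => ⟨by simpa [cost] using hm, ?_⟩⟩
    have : f x = false := by
      cases hf : f x
      · rfl
      · exact absurd ⟨x, hf⟩ h1
    simp [P, this]

end Amp

theorem st_amp : St_amp := by
  intro g hg
  obtain ⟨k, hk⟩ := pow_unbounded_of_one_lt (2 / 5 / (g / 4)) (by norm_num : (1 : ℝ) < 11 / 10)
  have hg4 : 0 < g / 4 := by linarith
  have hk' : 2 / 5 ≤ g / 4 * (11 / 10) ^ k := by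
    rw [div_lt_iff₀ hg4] at hk
    linarith
  refine ⟨3 ^ k, by positivity, fun ι _ _ f m h => ?_⟩
  obtain ⟨hm, h | h⟩ := Amp.shift hg h
  · refine Amp.mono h ?_ (by norm_num)
    have : (1 : ℝ) ≤ 3 ^ k := one_le_pow₀ (by norm_num)
    nlinarith
  · exact Amp.iter f k m (g / 4) hm hg4.le hk' h

end Pool.Agent.Lib.MJ29


/-! Substitution of exact trees, and one majority step guided by hints. -/

namespace Pool.Agent.Lib.MJ29

open Finset Pool.Agent.Lib.MP_099303_lc

namespace Step

variable {ι J : Type}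

lemma P_mem (t : WT ι) (x : ι → Bool) : 0 ≤ P t x ∧ P t x ≤ 1 := by
  induction t with
  | leaf b => cases b <;> simp [P, ind]
  | query i t0 t1 h0 h1 => cases h : x i <;> simp [P, h, h0, h1]
  | mix p t0 t1 h0 h1 =>
    have hp0 : (0 : ℝ) ≤ p := p.2.1
    have hp1 : (p : ℝ) ≤ 1 := p.2.2
    simp only [P]
    constructor <;> nlinarith [h0.1, h0.2, h1.1, h1.2]

lemma cost_ge (t : WT ι) (x : ι → Bool) : 0 ≤ cost t x := by
  induction t with
  | leaf b => simp [cost]
  | query i t0 t1 h0 h1 => cases h : x i <;> simp only [cost, h, cond_true, cond_false] <;> linarith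
  | mix p t0 t1 h0 h1 =>
    have hp0 : (0 : ℝ) ≤ p := p.2.1
    have hp1 : (p : ℝ) ≤ 1 := p.2.2
    simp only [cost]
    nlinarith

lemma Pb (t : WT ι) (k : Bool → WT ι) (x : ι → Bool) :
    P (bind t k) x = P t x * P (k true) x + (1 - P t x) * P (k false) x := by
  induction t with
  | leaf b => cases b <;> simp [bind, P, ind]
  | query i t0 t1 h0 h1 => cases h : x i <;> simp [bind, P, h, h0, h1]
  | mix p t0 t1 h0 h1 => simp only [bind, P, h0, h1]; ring

lemma cb (t : WT ι) (k : Bool → WT ι) (x : ι → Bool) :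
    cost (bind t k) x =
      cost t x + (P t x * cost (k true) x + (1 - P t x) * cost (k false) x) := by
  induction t with
  | leaf b => cases b <;> simp [bind, P, cost, ind]
  | query i t0 t1 h0 h1 =>
    cases h : x i <;> simp only [bind, P, cost, h, h0, h1, cond_true, cond_false] <;> ring
  | mix p t0 t1 h0 h1 => simp only [bind, P, cost, h0, h1]; ring

/-- every query is answered by a tree -/
def subst (s : ι → WT J) : WT ι → WT J
  | .leaf b => .leaf b
  | .query i t0 t1 => bind (s i) fun b => bif b then subst s t1 else subst s t0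
  | .mix p t0 t1 => .mix p (subst s t0) (subst s t1)

lemma subst_spec (s : ι → WT J) (x : J → Bool) (y : ι → Bool) (C : ℝ)
    (h : ∀ i, cost (s i) x ≤ C ∧ P (s i) x = ind (y i)) (t : WT ι) :
    P (subst s t) x = P t y ∧ cost (subst s t) x ≤ cost t y * C := by
  induction t with
  | leaf b => simp [subst, P, cost]
  | query i t0 t1 h0 h1 =>
    have h2 := (h i).1
    simp only [subst, Pb, cb, (h i).2, P, cost, cond_true, cond_false]
    cases y i
    · simp only [ind, cond_false]
      exact ⟨by rw [h0.1]; ring, by linarith [h0.2]⟩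
    · simp only [ind, cond_true]
      exact ⟨by rw [h1.1]; ring, by linarith [h1.2]⟩
  | mix p t0 t1 h0 h1 =>
    have hp0 : (0 : ℝ) ≤ p := p.2.1
    have hp1 : (0 : ℝ) ≤ 1 - p := sub_nonneg.2 p.2.2
    simp only [subst, P, cost, h0.1, h1.1, true_and]
    have h2 := mul_le_mul_of_nonneg_left h0.2 hp0
    have h3 := mul_le_mul_of_nonneg_left h1.2 hp1
    linarith

lemma exact_of {f : (J → Bool) → Bool} {C : ℝ} (h : Apx f C 0) :
    ∃ t : WT J, ∀ x, cost t x ≤ C ∧ P t x = ind (f x) := by
  obtain ⟨t, ht⟩ := h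
  exact ⟨t, fun x => ⟨(ht x).1, sub_eq_zero.1 (abs_nonpos_iff.1 (ht x).2)⟩⟩

/-- evaluate two children, and the third one only if they differ -/
def ev (a b c : WT J) : WT J := bind a fun u => bind b fun v => bif u == v then .leaf u else c

/-- indicator of different bits -/
def df (u v : Bool) : ℝ := bif u == v then 0 else 1

lemma ev_spec {a b c : WT J} {x : J → Bool} {u v w : Bool} {B : ℝ}
    (ha : cost a x ≤ B ∧ P a x = ind u) (hb : cost b x ≤ B ∧ P b x = ind v)
    (hc : cost c x ≤ B ∧ P c x = ind w) :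
    P (ev a b c) x = ind (maj u v w) ∧ cost (ev a b c) x ≤ 2 * B + df u v * B := by
  have h1 := ha.1
  have h2 := hb.1
  have h3 := hc.1
  simp only [ev, Pb, cb, ha.2, hb.2]
  cases u <;> cases v <;> cases w <;>
    simp [P, cost, ind, maj, df, hc.2] <;> linarith

lemma tri {x y z : ℝ} (hx : 9 / 10 ≤ x) (hy : 9 / 10 ≤ y) (hz : 9 / 10 ≤ z) :
    7 / 10 ≤ x * y * z := by
  have h1 : 9 / 10 * (9 / 10) ≤ x * y := mul_le_mul hx hy (by norm_num) (by linarith)
  have h2 : 9 / 10 * (9 / 10) * (9 / 10) ≤ x * y * z :=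
    mul_le_mul h1 hz (by norm_num) (by linarith)
  linarith

lemma key {p q r : ℝ} {u v w : Bool} (hp : 0 ≤ p ∧ p ≤ 1) (hq : 0 ≤ q ∧ q ≤ 1)
    (hr : 0 ≤ r ∧ r ≤ 1) (ep : |p - ind u| ≤ 1 / 10) (eq : |q - ind v| ≤ 1 / 10)
    (er : |r - ind w| ≤ 1 / 10) :
    (p * q + (1 - p) * (1 - q)) * df u v + (p * (1 - q) * r + (1 - p) * q * (1 - r)) * df u w +
      (p * (1 - q) * (1 - r) + (1 - p) * q * r) * df v w ≤ 3 / 10 := by
  have hp' := sub_nonneg.2 hp.2
  have hq' := sub_nonneg.2 hq.2
  have hr' := sub_nonneg.2 hr.2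
  have a1 := mul_nonneg (mul_nonneg hp.1 hq.1) hr.1
  have a2 := mul_nonneg (mul_nonneg hp.1 hq.1) hr'
  have a3 := mul_nonneg (mul_nonneg hp.1 hq') hr.1
  have a4 := mul_nonneg (mul_nonneg hp.1 hq') hr'
  have a5 := mul_nonneg (mul_nonneg hp' hq.1) hr.1
  have a6 := mul_nonneg (mul_nonneg hp' hq.1) hr'
  have a7 := mul_nonneg (mul_nonneg hp' hq') hr.1
  have a8 := mul_nonneg (mul_nonneg hp' hq') hr'
  rw [abs_le] at ep eq er
  obtain ⟨p1, p2⟩ := ep
  obtain ⟨q1, q2⟩ := eq
  obtain ⟨r1, r2⟩ := er
  cases u <;> cases v <;> cases w <;>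
    simp only [ind, df, cond_true, cond_false, beq_self_eq_true, Bool.true_beq, Bool.false_beq,
      Bool.not_true, Bool.not_false] at p1 p2 q1 q2 r1 r2 ⊢
  · linarith
  · linarith [tri (x := 1 - p) (y := 1 - q) (z := r) (by linarith) (by linarith) (by linarith)]
  · linarith [tri (x := 1 - p) (y := q) (z := 1 - r) (by linarith) (by linarith) (by linarith)]
  · linarith [tri (x := 1 - p) (y := q) (z := r) (by linarith) (by linarith) (by linarith)]
  · linarith [tri (x := p) (y := 1 - q) (z := 1 - r) (by linarith) (by linarith) (by linarith)]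
  · linarith [tri (x := p) (y := 1 - q) (z := r) (by linarith) (by linarith) (by linarith)]
  · linarith [tri (x := p) (y := q) (z := 1 - r) (by linarith) (by linarith) (by linarith)]
  · linarith

end Step

open Step

theorem st_comp : St_comp := by
  intro ι J f g M e C hC hf hg
  obtain ⟨t, ht⟩ := hf
  choose s hs using fun i => exact_of (hg i)
  refine ⟨subst s t, fun x => ?_⟩
  obtain ⟨h1, h2⟩ := subst_spec s x (fun i => g i x) C (fun i => hs i x) t
  refine ⟨h2.trans (mul_le_mul_of_nonneg_right (ht _).1 hC), ?_⟩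
  rw [h1]
  exact (ht _).2

theorem st_step : St_step := by
  intro J f0 f1 f2 M B h0 h1 h2 e0 e1 e2
  obtain ⟨s0, h0⟩ := h0
  obtain ⟨s1, h1⟩ := h1
  obtain ⟨s2, h2⟩ := h2
  obtain ⟨t0, e0⟩ := exact_of e0
  obtain ⟨t1, e1⟩ := exact_of e1
  obtain ⟨t2, e2⟩ := exact_of e2
  refine ⟨bind s0 fun a => bind s1 fun b => bind s2 fun c =>
    bif a == b then ev t0 t1 t2 else bif a == c then ev t0 t2 t1 else ev t1 t2 t0, fun x => ?_⟩
  have hB : 0 ≤ B := (cost_ge t0 x).trans (e0 x).1
  obtain ⟨a1, a2⟩ := ev_spec (e0 x) (e1 x) (e2 x)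
  obtain ⟨b1, b2⟩ := ev_spec (e0 x) (e2 x) (e1 x)
  obtain ⟨c1, c2⟩ := ev_spec (e1 x) (e2 x) (e0 x)
  have m1 : maj (f0 x) (f2 x) (f1 x) = maj (f0 x) (f1 x) (f2 x) := by
    cases f0 x <;> cases f1 x <;> cases f2 x <;> rfl
  have m2 : maj (f1 x) (f2 x) (f0 x) = maj (f0 x) (f1 x) (f2 x) := by
    cases f0 x <;> cases f1 x <;> cases f2 x <;> rfl
  rw [m1] at b1
  rw [m2] at c1
  have hp := P_mem s0 x
  have hq := P_mem s1 x
  have hr := P_mem s2 x
  have hk := mul_le_mul_of_nonneg_right (key hp hq hr (h0 x).2 (h1 x).2 (h2 x).2) hB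
  have k0 := (h0 x).1
  have k1 := (h1 x).1
  have k2 := (h2 x).1
  simp only [Pb, cb, cond_true, cond_false, beq_self_eq_true, Bool.true_beq, Bool.false_beq,
    Bool.not_true, Bool.not_false, a1, b1, c1]
  generalize P s0 x = p at *
  generalize P s1 x = q at *
  generalize P s2 x = r at *
  have hp' := sub_nonneg.2 hp.2
  have hq' := sub_nonneg.2 hq.2
  have hr' := sub_nonneg.2 hr.2
  have w1 := mul_le_mul_of_nonneg_left a2
    (add_nonneg (mul_nonneg hp.1 hq.1) (mul_nonneg hp' hq'))
  have w2 := mul_le_mul_of_nonneg_left b2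
    (add_nonneg (mul_nonneg (mul_nonneg hp.1 hq') hr.1) (mul_nonneg (mul_nonneg hp' hq.1) hr'))
  have w3 := mul_le_mul_of_nonneg_left c2
    (add_nonneg (mul_nonneg (mul_nonneg hp.1 hq') hr') (mul_nonneg (mul_nonneg hp' hq.1) hr.1))
  refine ⟨by linarith, ?_⟩
  rw [abs_nonpos_iff]
  ring

end Pool.Agent.Lib.MJ29


/-! Rows `cont` and `push`: ratio-hard laws, and laws given by a random experiment. -/

namespace Pool.Agent.Lib.MJ29

open Finset Pool.Agent.Lib.MP_099303_lc

namespace Cont

variable {ι : Type}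

theorem P_ge (t : WT ι) (x : ι → Bool) : 0 ≤ P t x := by
  induction t with
  | leaf b => cases b <;> simp [P, ind]
  | query i t0 t1 h0 h1 => cases h : x i <;> simp [P, h, h0, h1]
  | mix p t0 t1 h0 h1 =>
    exact add_nonneg (mul_nonneg p.2.1 h0) (mul_nonneg (sub_nonneg.2 p.2.2) h1)

variable [DecidableEq ι]

theorem hit_l (b : Bool) (z : ι → Bool) (l : ι) : hit (.leaf b) z l = 0 := by
  simp [hit, hitT, P, ind]

theorem hc_l (b : Bool) (z : ι → Bool) (l : ι) : hc (.leaf b) z l = 0 := by
  simp [hc, hitT, cost]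

theorem hit_q (i : ι) (t0 t1 : WT ι) (z : ι → Bool) (l : ι) : hit (.query i t0 t1) z l =
    if i = l then 1 else bif z i then hit t1 z l else hit t0 z l := by
  by_cases h : i = l
  · cases h' : z i <;> simp [hit, hitT, P, ind, h]
  · simp [hit, hitT, P, h]

theorem hc_q (i : ι) (t0 t1 : WT ι) (z : ι → Bool) (l : ι) : hc (.query i t0 t1) z l =
    if i = l then 1 else 1 + bif z i then hc t1 z l else hc t0 z l := by
  by_cases h : i = l
  · cases h' : z i <;> simp [hc, hitT, cost, h]
  · simp [hc, hitT, cost, h]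

theorem hit_m (p : unitInterval) (t0 t1 : WT ι) (z : ι → Bool) (l : ι) :
    hit (.mix p t0 t1) z l = p * hit t0 z l + (1 - p) * hit t1 z l := rfl

theorem hc_m (p : unitInterval) (t0 t1 : WT ι) (z : ι → Bool) (l : ι) :
    hc (.mix p t0 t1) z l = p * hc t0 z l + (1 - p) * hc t1 z l := rfl

/-- query all the coordinates of a list -/
def full : List ι → WT ι
  | [] => .leaf false
  | i :: L => .query i (full L) (full L)

theorem hit_full (L : List ι) (z : ι → Bool) (l : ι) (h : l ∈ L) : hit (full L) z l = 1 := by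
  induction L with
  | nil => simp at h
  | cons i L ih =>
    rw [full, hit_q]
    by_cases e : i = l
    · rw [if_pos e]
    · rw [if_neg e, Bool.cond_self]
      exact ih ((List.mem_cons.1 h).resolve_left fun k => e k.symm)

theorem hc_full (L : List ι) (z : ι → Bool) (l : ι) : hc (full L) z l ≤ L.length := by
  induction L with
  | nil => simp [full, hc_l]
  | cons i L ih =>
    rw [full, hc_q, List.length_cons, Nat.cast_succ]
    have h0 : (0 : ℝ) ≤ L.length := Nat.cast_nonneg _
    by_cases e : i = l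
    · rw [if_pos e]
      linarith
    · rw [if_neg e, Bool.cond_self]
      linarith

variable [Fintype ι]

theorem hits (z : ι → Bool) (l : ι) : hit (full (univ : Finset ι).toList) z l = 1 :=
  hit_full _ z l (mem_toList.2 (mem_univ l))

theorem hard_le {f : (ι → Bool) → Bool} {r : ℝ} (h : Hard f r) :
    r ≤ (univ : Finset ι).toList.length := by
  obtain ⟨s, ⟨s0, s1⟩, -, hs⟩ := h
  refine (hs _ fun a _ => hits a.1 a.2).trans ?_
  refine (sum_le_sum fun a _ => mul_le_mul_of_nonneg_left (hc_full _ a.1 a.2) (s0 a)).trans ?_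
  rw [← sum_mul, s1, one_mul]

/-- every weight has a cheap tree that always hits -/
theorem cheap {f : (ι → Bool) → Bool} {ρ : ℝ} (h : ¬ Hard f ρ) (s : (ι → Bool) × ι → ℝ)
    (s0 : ∀ a, 0 ≤ s a) (sv : ∀ a, s a ≠ 0 → Valid f a) :
    ∃ u : WT ι, (∀ a, Valid f a → hit u a.1 a.2 = 1) ∧
      ∑ a, s a * hc u a.1 a.2 ≤ ∑ a, s a * ρ := by
  rcases (sum_nonneg fun a (_ : a ∈ univ) => s0 a).eq_or_lt with e | e
  · have z : ∀ a, s a = 0 := fun a =>
      (sum_eq_zero_iff_of_nonneg fun a _ => s0 a).1 e.symm a (mem_univ a)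
    exact ⟨_, fun a _ => hits a.1 a.2, by simp [z]⟩
  · by_contra hc'
    refine h ⟨fun a => s a / ∑ b, s b, ⟨fun a => div_nonneg (s0 a) e.le, ?_⟩,
      fun a ha => sv a fun k => ha (by simp [k]), fun u hu => ?_⟩
    · rw [← sum_div, div_self e.ne']
    · have h1 : ∑ a, s a * ρ < ∑ a, s a * hc u a.1 a.2 := not_le.1 fun k => hc' ⟨u, hu, k⟩
      rw [← sum_mul] at h1
      unfold Ex
      simp only [div_mul_eq_mul_div]
      rw [← sum_div, le_div_iff₀ e]
      linarith

/-- every tree can be continued -/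
theorem cont {f : (ι → Bool) → Bool} {ρ : ℝ} (h : ¬ Hard f ρ) (t : WT ι) :
    ∀ s : (ι → Bool) × ι → ℝ, (∀ a, 0 ≤ s a) → (∀ a, s a ≠ 0 → Valid f a) →
    ∃ u : WT ι, (∀ a, Valid f a → hit u a.1 a.2 = 1) ∧
      ∑ a, s a * hc u a.1 a.2 ≤ ∑ a, s a * (hc t a.1 a.2 + ρ * (1 - hit t a.1 a.2)) := by
  induction t with
  | leaf b =>
    intro s s0 sv
    simpa only [hit_l, hc_l, sub_zero, mul_one, zero_add] using cheap h s s0 sv
  | query i t0 t1 h0 h1 =>
    intro s s0 sv
    obtain ⟨u0, a0, b0⟩ := h0 (fun a => if i ≠ a.2 ∧ a.1 i = false then s a else 0)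
      (fun a => by split_ifs; exacts [s0 a, le_rfl]) fun a ha => sv a fun k => ha (by simp [k])
    obtain ⟨u1, a1, b1⟩ := h1 (fun a => if i ≠ a.2 ∧ a.1 i = true then s a else 0)
      (fun a => by split_ifs; exacts [s0 a, le_rfl]) fun a ha => sv a fun k => ha (by simp [k])
    refine ⟨.query i u0 u1, fun a ha => ?_, ?_⟩
    · rw [hit_q, a0 a ha, a1 a ha, Bool.cond_self, ite_self]
    · have e1 : ∑ a, s a * hc (.query i u0 u1) a.1 a.2 = ∑ a, s a +
          (∑ a, (if i ≠ a.2 ∧ a.1 i = false then s a else 0) * hc u0 a.1 a.2 +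
            ∑ a, (if i ≠ a.2 ∧ a.1 i = true then s a else 0) * hc u1 a.1 a.2) := by
        rw [← sum_add_distrib, ← sum_add_distrib]
        refine sum_congr rfl fun a _ => ?_
        rw [hc_q]
        by_cases e : i = a.2
        · simp [e]
        · cases k : a.1 i <;> simp [e, mul_add]
      have e2 : ∑ a, s a * (hc (.query i t0 t1) a.1 a.2 + ρ * (1 - hit (.query i t0 t1) a.1 a.2)) =
          ∑ a, s a + (∑ a, (if i ≠ a.2 ∧ a.1 i = false then s a else 0) *
            (hc t0 a.1 a.2 + ρ * (1 - hit t0 a.1 a.2)) +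
            ∑ a, (if i ≠ a.2 ∧ a.1 i = true then s a else 0) *
              (hc t1 a.1 a.2 + ρ * (1 - hit t1 a.1 a.2))) := by
        rw [← sum_add_distrib, ← sum_add_distrib]
        refine sum_congr rfl fun a _ => ?_
        rw [hc_q, hit_q]
        by_cases e : i = a.2
        · simp [e]
        · cases k : a.1 i <;> simp [e, mul_add, add_assoc]
      rw [e1, e2]
      linarith
  | mix p t0 t1 h0 h1 =>
    intro s s0 sv
    obtain ⟨u0, a0, b0⟩ := h0 s s0 sv
    obtain ⟨u1, a1, b1⟩ := h1 s s0 sv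
    refine ⟨.mix p u0 u1, fun a ha => ?_, ?_⟩
    · rw [hit_m, a0 a ha, a1 a ha]
      ring
    · have c := add_le_add (mul_le_mul_of_nonneg_left b0 p.2.1)
        (mul_le_mul_of_nonneg_left b1 (sub_nonneg.2 p.2.2))
      rw [mul_sum, mul_sum, mul_sum, mul_sum, ← sum_add_distrib, ← sum_add_distrib] at c
      refine le_trans (le_of_eq (sum_congr rfl fun a _ => ?_))
        (c.trans (le_of_eq (sum_congr rfl fun a _ => ?_)))
      · rw [hc_m]
        ring
      · rw [hc_m, hit_m]
        ring

end Cont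

theorem st_cont : St_cont := by
  intro ι _ _ f r ε hr hε
  classical
  have hex : ∃ n : ℕ, ¬ Hard f (r + n * ε) := by
    obtain ⟨n, hn⟩ := exists_nat_gt (((univ : Finset ι).toList.length - r) / ε)
    refine ⟨n, fun h => ?_⟩
    have h1 := Cont.hard_le h
    rw [div_lt_iff₀ hε] at hn
    linarith
  have h0 : Nat.find hex ≠ 0 := fun e => by
    have h1 := Nat.find_spec hex
    rw [e, Nat.cast_zero, zero_mul, add_zero] at h1
    exact h1 hr
  obtain ⟨m, hm⟩ := Nat.exists_eq_succ_of_ne_zero h0
  have h1 := Nat.find_spec hex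
  rw [hm, Nat.cast_succ] at h1
  obtain ⟨s, ⟨s0, s1⟩, sv, hs⟩ := not_not.1 (Nat.find_min hex (m := m) (by omega))
  refine ⟨s, ⟨s0, s1⟩, sv, fun t => ?_⟩
  obtain ⟨u, hu, h2⟩ := Cont.cont h1 t s s0 sv
  have h3 := hs u hu
  have h4 : 0 ≤ ∑ a, s a * hit t a.1 a.2 := sum_nonneg fun a _ => mul_nonneg (s0 a) (Cont.P_ge _ _)
  have h5 : ∑ a, s a * (hc t a.1 a.2 + (r + (m + 1) * ε) * (1 - hit t a.1 a.2)) =
      ∑ a, s a * hc t a.1 a.2 + (r + (m + 1) * ε) * (∑ a, s a - ∑ a, s a * hit t a.1 a.2) := by
    rw [← sum_sub_distrib, mul_sum, ← sum_add_distrib]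
    exact sum_congr rfl fun a _ => by ring
  rw [h5, s1] at h2
  have h6 : 0 ≤ ((m : ℝ) + 1) * ε * ∑ a, s a * hit t a.1 a.2 := by positivity
  unfold Ex at h3 ⊢
  linarith

theorem st_push : St_push := by
  intro ι Ω _ _ _ f r w φ hw hv h
  classical
  have key : ∀ F : (ι → Bool) × ι → ℝ,
      ∑ a, (∑ o ∈ univ.filter fun o => φ o = a, w o) * F a = ∑ o, w o * F (φ o) := fun F => by
    rw [← sum_fiberwise univ φ fun o => w o * F (φ o)]
    refine sum_congr rfl fun a _ => ?_
    rw [sum_mul]
    exact sum_congr rfl fun o ho => by rw [(mem_filter.1 ho).2]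
  refine ⟨fun a => ∑ o ∈ univ.filter fun o => φ o = a, w o,
    ⟨fun a => sum_nonneg fun o _ => hw.1 o, ?_⟩, fun a ha => ?_, fun t ht => ?_⟩
  · simpa only [mul_one, hw.2] using key fun _ => 1
  · obtain ⟨o, ho, h1⟩ := exists_ne_zero_of_sum_ne_zero ha
    exact (mem_filter.1 ho).2 ▸ hv o h1
  · exact (h t ht).trans (le_of_eq (key fun a => hc t a.1 a.2).symm)

end Pool.Agent.Lib.MJ29


/-! Rows `St_res`, `St_dd`, `St_ds`. -/

namespace Pool.Agent.Lib.MJ29

open Finset

namespace Ds

variable {ι J α Λ B : Type}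

lemma hit_leaf [DecidableEq ι] (b : Bool) (x : ι → Bool) (l : ι) :
    hit (.leaf b) x l = 0 := by
  simp [hit, hitT, P, ind]

lemma hit_query [DecidableEq ι] (i : ι) (t0 t1 : WT ι) (x : ι → Bool) (l : ι) :
    hit (.query i t0 t1) x l =
      if i = l then 1 else bif x i then hit t1 x l else hit t0 x l := by
  unfold hit
  by_cases h : i = l
  · simp only [hitT, if_pos h, P, ind]
    cases x i <;> simp
  · simp only [hitT, if_neg h, P]

lemma hit_mix [DecidableEq ι] (p : unitInterval) (t0 t1 : WT ι) (x : ι → Bool) (l : ι) :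
    hit (.mix p t0 t1) x l = p * hit t0 x l + (1 - p) * hit t1 x l := by
  simp only [hit, hitT, P]

lemma hc_leaf [DecidableEq ι] (b : Bool) (x : ι → Bool) (l : ι) :
    hc (.leaf b) x l = 0 := by
  simp [hc, hitT, cost]

lemma hc_query [DecidableEq ι] (i : ι) (t0 t1 : WT ι) (x : ι → Bool) (l : ι) :
    hc (.query i t0 t1) x l =
      if i = l then 1 else 1 + bif x i then hc t1 x l else hc t0 x l := by
  unfold hc
  by_cases h : i = l
  · simp only [hitT, if_pos h, cost]
    cases x i <;> simp
  · simp only [hitT, if_neg h, cost]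

lemma hc_mix [DecidableEq ι] (p : unitInterval) (t0 t1 : WT ι) (x : ι → Bool) (l : ι) :
    hc (.mix p t0 t1) x l = p * hc t0 x l + (1 - p) * hc t1 x l := by
  simp only [hc, hitT, cost]

lemma p0 (p : unitInterval) : (0 : ℝ) ≤ p := p.2.1

lemma p1 (p : unitInterval) : (0 : ℝ) ≤ 1 - p := sub_nonneg.2 p.2.2

lemma cost_nonneg (t : WT ι) (x : ι → Bool) : 0 ≤ cost t x := by
  induction t with
  | leaf b => simp [cost]
  | query i t0 t1 h0 h1 =>
    simp only [cost]
    cases x i
    · simp only [cond_false]; linarith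
    · simp only [cond_true]; linarith
  | mix p t0 t1 h0 h1 =>
    simp only [cost]
    exact add_nonneg (mul_nonneg (p0 p) h0) (mul_nonneg (p1 p) h1)

lemma hc_le_cost [DecidableEq ι] (t : WT ι) (x : ι → Bool) (l : ι) : hc t x l ≤ cost t x := by
  induction t with
  | leaf b => simp [hc_leaf, cost]
  | query i t0 t1 h0 h1 =>
    rw [hc_query]
    simp only [cost]
    have a0 := cost_nonneg t0 x
    have a1 := cost_nonneg t1 x
    split_ifs
    · cases x i
      · simp only [cond_false]; linarith
      · simp only [cond_true]; linarith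
    · cases x i
      · simp only [cond_false]; linarith
      · simp only [cond_true]; linarith
  | mix p t0 t1 h0 h1 =>
    rw [hc_mix]
    simp only [cost]
    exact add_le_add (mul_le_mul_of_nonneg_left h0 (p0 p)) (mul_le_mul_of_nonneg_left h1 (p1 p))

lemma hit_update [DecidableEq ι] (t : WT ι) (x : ι → Bool) (l : ι) (u : Bool) :
    hit t (Function.update x l u) l = hit t x l := by
  induction t with
  | leaf b => simp [hit_leaf]
  | query i t0 t1 h0 h1 =>
    rw [hit_query, hit_query]
    by_cases h : i = l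
    · rw [if_pos h, if_pos h]
    · rw [if_neg h, if_neg h, Function.update_of_ne h, h0, h1]
  | mix p t0 t1 h0 h1 => rw [hit_mix, hit_mix, h0, h1]

lemma hc_update [DecidableEq ι] (t : WT ι) (x : ι → Bool) (l : ι) (u : Bool) :
    hc t (Function.update x l u) l = hc t x l := by
  induction t with
  | leaf b => simp [hc_leaf]
  | query i t0 t1 h0 h1 =>
    rw [hc_query, hc_query]
    by_cases h : i = l
    · rw [if_pos h, if_pos h]
    · rw [if_neg h, if_neg h, Function.update_of_ne h, h0, h1]
  | mix p t0 t1 h0 h1 => rw [hc_mix, hc_mix, h0, h1]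

lemma cost_pull (d : J → Option ι) (x : J → Bool) (t : WT J) (y : ι → Bool) :
    cost (pull d x t) y = qc (fun j => (d j).isSome) t (ov d x y) := by
  induction t with
  | leaf b => simp [pull, cost, qc]
  | query j t0 t1 h0 h1 =>
    cases hj : d j with
    | none =>
      have e1 : ov d x y j = x j := by simp [ov, hj]
      simp only [pull, qc, hj, Option.elim, e1, Option.isSome_none, ind, cond_false, zero_add]
      cases x j
      · simpa using h0
      · simpa using h1
    | some i =>
      have e1 : ov d x y j = y i := by simp [ov, hj]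
      simp only [pull, qc, hj, Option.elim, e1, Option.isSome_some, ind, cond_true, cost, h0, h1]
  | mix p t0 t1 h0 h1 => simp only [pull, cost, qc, h0, h1]

lemma hit_pull [DecidableEq ι] [DecidableEq J] (d : J → Option ι) (x : J → Bool) (t : WT J)
    (y : ι → Bool) (i : ι) (j0 : J) (hd : ∀ j, d j = some i ↔ j = j0) :
    hit (pull d x t) y i = hit t (ov d x y) j0 := by
  induction t with
  | leaf b => simp [pull, hit_leaf]
  | query j t0 t1 h0 h1 =>
    cases hj : d j with
    | none =>
      have e1 : ov d x y j = x j := by simp [ov, hj]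
      have hne : j ≠ j0 := fun h => by
        have := (hd j).2 h
        rw [hj] at this
        cases this
      rw [hit_query, if_neg hne, e1]
      simp only [pull, hj, Option.elim]
      cases x j
      · simpa using h0
      · simpa using h1
    | some i' =>
      have e1 : ov d x y j = y i' := by simp [ov, hj]
      rw [hit_query, e1]
      simp only [pull, hj, Option.elim]
      rw [hit_query, h0, h1]
      by_cases h : i' = i
      · rw [if_pos h, if_pos ((hd j).1 (by rw [hj, h]))]
      · have hne : j ≠ j0 := fun h' => by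
          have := (hd j).2 h'
          rw [hj] at this
          exact h (Option.some.inj this)
        rw [if_neg h, if_neg hne]
  | mix p t0 t1 h0 h1 => simp only [pull, hit_mix, h0, h1]

lemma ind_sum [Fintype B] [DecidableEq B] (c : B → Bool)
    (h : ∀ b b', c b = true → c b' = true → b = b') : ∑ b, ind (c b) ≤ 1 := by
  by_cases he : ∃ b, c b = true
  · obtain ⟨b0, hb0⟩ := he
    rw [Finset.sum_eq_single b0]
    · simp [ind, hb0]
    · intro b _ hb
      cases hc : c b with
      | false => simp [ind]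
      | true => exact absurd (h b b0 hc hb0) hb
    · intro hb
      exact absurd (Finset.mem_univ b0) hb
  · have : ∀ b, ind (c b) = 0 := fun b => by
      cases hc : c b with
      | false => simp [ind]
      | true => exact absurd ⟨b, hc⟩ he
    simp [this]

lemma qc_sum [Fintype B] [DecidableEq B] (S : B → J → Bool)
    (h : ∀ b b' j, S b j = true → S b' j = true → b = b') (t : WT J) (x : J → Bool) :
    ∑ b, qc (S b) t x ≤ cost t x := by
  induction t with
  | leaf b => simp [qc, cost]
  | query j t0 t1 h0 h1 =>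
    have a := ind_sum (fun b => S b j) fun b b' => h b b' j
    simp only [qc, cost, Finset.sum_add_distrib]
    cases x j
    · simp only [cond_false]; linarith
    · simp only [cond_true]; linarith
  | mix p t0 t1 h0 h1 =>
    simp only [qc, cost, Finset.sum_add_distrib, ← Finset.mul_sum]
    exact add_le_add (mul_le_mul_of_nonneg_left h0 (p0 p)) (mul_le_mul_of_nonneg_left h1 (p1 p))

lemma Ex_mono [Fintype α] {w F G : α → ℝ} (hw : ∀ a, 0 ≤ w a) (h : ∀ a, F a ≤ G a) :
    Ex w F ≤ Ex w G :=
  Finset.sum_le_sum fun a _ => mul_le_mul_of_nonneg_left (h a) (hw a)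

lemma Ex_aff [Fintype α] {w : α → ℝ} (hw : IsP w) (F : α → ℝ) (r ε : ℝ) :
    (Ex w fun a => r * F a - ε) = r * Ex w F - ε := by
  unfold Ex
  have : ∀ a, w a * (r * F a - ε) = r * (w a * F a) - ε * w a := fun a => by ring
  simp only [this, Finset.sum_sub_distrib, ← Finset.mul_sum, hw.2, mul_one]

lemma Ex_sum [Fintype α] [Fintype B] (w : α → ℝ) (F : B → α → ℝ) :
    ∑ b, Ex w (F b) = Ex w fun a => ∑ b, F b a := by
  unfold Ex
  rw [Finset.sum_comm]
  simp only [Finset.mul_sum]

lemma pw_swap [Fintype Λ] [DecidableEq Λ] (w : α → ℝ) (q : Λ → α) (l : Λ) (a : α) :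
    pw w q * w a = pw w (Function.update q l a) * w (q l) := by
  unfold pw
  rw [← Finset.mul_prod_erase Finset.univ _ (Finset.mem_univ l),
    ← Finset.mul_prod_erase Finset.univ (fun l' => w (Function.update q l a l'))
      (Finset.mem_univ l)]
  have : ∏ l' ∈ Finset.univ.erase l, w (Function.update q l a l') =
      ∏ l' ∈ Finset.univ.erase l, w (q l') :=
    Finset.prod_congr rfl fun l' hl' => by
      rw [Function.update_of_ne (Finset.ne_of_mem_erase hl')]
  rw [this, Function.update_self]
  ring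

/-- the swap of the coordinate `l` with a fresh sample -/
def sw [DecidableEq Λ] (l : Λ) : (Λ → α) × α ≃ (Λ → α) × α where
  toFun z := (Function.update z.1 l z.2, z.1 l)
  invFun z := (Function.update z.1 l z.2, z.1 l)
  left_inv z := by simp
  right_inv z := by simp

lemma dd_aux [Fintype ι] [DecidableEq ι] (t : WT ι) : ∀ (S : Finset ι) (y : ι → Bool),
    ∃ t' : WT ι, ∀ x, (∀ i ∈ S, x i = y i) →
      P t' x = P t x ∧ cost t' x ≤ ∑ i ∈ Sᶜ, hit t x i := by
  induction t with
  | leaf b =>
    intro S y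
    exact ⟨.leaf b, fun x _ => ⟨rfl, by simp [cost, hit_leaf]⟩⟩
  | query j t0 t1 h0 h1 =>
    intro S y
    by_cases hj : j ∈ S
    · have hs : ∀ x : ι → Bool, ∑ i ∈ Sᶜ, hit (.query j t0 t1) x i =
          ∑ i ∈ Sᶜ, bif x j then hit t1 x i else hit t0 x i := fun x =>
        Finset.sum_congr rfl fun i hi => by
          have hne : j ≠ i := fun h => (Finset.mem_compl.1 hi) (h ▸ hj)
          rw [hit_query, if_neg hne]
      cases hy : y j with
      | false =>
        obtain ⟨t', ht⟩ := h0 S y
        refine ⟨t', fun x hx => ?_⟩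
        have hxj : x j = false := (hx j hj).trans hy
        rw [hs]
        simp only [P, hxj, cond_false]
        exact ht x hx
      | true =>
        obtain ⟨t', ht⟩ := h1 S y
        refine ⟨t', fun x hx => ?_⟩
        have hxj : x j = true := (hx j hj).trans hy
        rw [hs]
        simp only [P, hxj, cond_true]
        exact ht x hx
    · have hs : ∀ x : ι → Bool, ∑ i ∈ Sᶜ, hit (.query j t0 t1) x i =
          1 + ∑ i ∈ (insert j S)ᶜ, bif x j then hit t1 x i else hit t0 x i := fun x => by
        rw [← Finset.add_sum_erase _ _ (Finset.mem_compl.2 hj), hit_query, if_pos rfl,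
          Finset.compl_insert]
        congr 1
        exact Finset.sum_congr rfl fun i hi => by
          rw [hit_query, if_neg (Finset.ne_of_mem_erase hi).symm]
      have hag : ∀ (x : ι → Bool) (u : Bool), (∀ i ∈ S, x i = y i) → x j = u →
          ∀ i ∈ insert j S, x i = Function.update y j u i := fun x u hx hu i hi => by
        rcases Finset.mem_insert.1 hi with h | h
        · rw [h, Function.update_self, hu]
        · have hne : i ≠ j := fun h' => hj (h' ▸ h)
          rw [Function.update_of_ne hne, hx i h]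
      obtain ⟨s0, hs0⟩ := h0 (insert j S) (Function.update y j false)
      obtain ⟨s1, hs1⟩ := h1 (insert j S) (Function.update y j true)
      refine ⟨.query j s0 s1, fun x hx => ?_⟩
      rw [hs]
      cases hxj : x j with
      | false =>
        have := hs0 x (hag x false hx hxj)
        simp only [P, cost, hxj, cond_false]
        exact ⟨this.1, by linarith [this.2]⟩
      | true =>
        have := hs1 x (hag x true hx hxj)
        simp only [P, cost, hxj, cond_true]
        exact ⟨this.1, by linarith [this.2]⟩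
  | mix p t0 t1 h0 h1 =>
    intro S y
    obtain ⟨s0, hs0⟩ := h0 S y
    obtain ⟨s1, hs1⟩ := h1 S y
    refine ⟨.mix p s0 s1, fun x hx => ?_⟩
    have a0 := hs0 x hx
    have a1 := hs1 x hx
    simp only [P, cost, hit_mix, Finset.sum_add_distrib, ← Finset.mul_sum, a0.1, a1.1]
    exact ⟨trivial, add_le_add (mul_le_mul_of_nonneg_left a0.2 (p0 p))
      (mul_le_mul_of_nonneg_left a1.2 (p1 p))⟩

end Ds

theorem st_res : St_res := by
  intro Λ α _ _ _ w hw
  refine ⟨⟨fun q => Finset.prod_nonneg fun l _ => hw.1 _, ?_⟩, fun l F => ?_⟩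
  · have := Finset.prod_univ_sum (fun _ : Λ => (Finset.univ : Finset α)) fun _ a => w a
    rw [Fintype.piFinset_univ] at this
    unfold pw
    rw [← this]
    simp [hw.2]
  · have e1 : (Ex (pw w) fun q => Ex w fun a => F (Function.update q l a)) =
        ∑ z : (Λ → α) × α, pw w (Ds.sw l z).1 * w (Ds.sw l z).2 * F (Ds.sw l z).1 := by
      unfold Ex
      rw [Fintype.sum_prod_type]
      refine Finset.sum_congr rfl fun q _ => ?_
      rw [Finset.mul_sum]
      refine Finset.sum_congr rfl fun a _ => ?_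
      rw [← mul_assoc, Ds.pw_swap w q l a]
      rfl
    rw [e1, Equiv.sum_comp (Ds.sw l) fun z : (Λ → α) × α => pw w z.1 * w z.2 * F z.1,
      Fintype.sum_prod_type]
    unfold Ex
    refine Finset.sum_congr rfl fun q _ => ?_
    have : ∀ a, pw w q * w a * F q = pw w q * F q * w a := fun a => by ring
    simp only [this, ← Finset.mul_sum, hw.2, mul_one]

theorem st_dd : St_dd := by
  intro ι _ _ t
  obtain ⟨t', ht⟩ := Ds.dd_aux t ∅ fun _ => false
  refine ⟨t', fun x => ?_⟩
  have := ht x fun i hi => absurd hi (Finset.notMem_empty i)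
  rwa [Finset.compl_empty] at this

theorem st_ds : St_ds := by
  intro B ι J _ _ _ _ _ s r ε d e X t hs hR hd hdis hX
  obtain ⟨hP, hres⟩ := st_res B _ s hs
  have key : ∀ b, r * (Ex (pw s) fun o => hit t (X o) (e b (o b).2)) - ε ≤
      Ex (pw s) fun o => qc (fun j => (d b j).isSome) t (X o) := by
    intro b
    rw [hres b fun o => hit t (X o) (e b (o b).2),
      hres b fun o => qc (fun j => (d b j).isSome) t (X o), ← Ds.Ex_aff hP]
    refine Ds.Ex_mono hP.1 fun o => ?_
    have h1 := hR (pull (d b) (X o) t)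
    have h2 : (Ex s fun a => hit t (X (Function.update o b a))
        (e b (Function.update o b a b).2)) =
        Ex s fun a => hit (pull (d b) (X o) t) a.1 a.2 := by
      congr 1
      funext a
      obtain ⟨u, hu⟩ := hX o b a
      rw [Function.update_self, hu, ← Ds.hit_update _ a.1 a.2 u]
      exact (Ds.hit_pull (d b) (X o) t _ a.2 (e b a.2) fun j => hd b j a.2).symm
    have h3 : (Ex s fun a => hc (pull (d b) (X o) t) a.1 a.2) ≤
        Ex s fun a => qc (fun j => (d b j).isSome) t (X (Function.update o b a)) := by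
      refine Ds.Ex_mono hs.1 fun a => ?_
      obtain ⟨u, hu⟩ := hX o b a
      rw [hu, ← Ds.cost_pull, ← Ds.hc_update _ a.1 a.2 u]
      exact Ds.hc_le_cost _ _ _
    rw [h2]
    exact h1.trans h3
  have hsum := Finset.sum_le_sum fun b (_ : b ∈ (Finset.univ : Finset B)) => key b
  rw [Finset.sum_sub_distrib, ← Finset.mul_sum, Finset.sum_const, Finset.card_univ,
    nsmul_eq_mul, Ds.Ex_sum (pw s) fun b o => qc (fun j => (d b j).isSome) t (X o)] at hsum
  exact hsum.trans (Ds.Ex_mono hP.1 fun o =>
    Ds.qc_sum (fun b j => (d b j).isSome) hdis t (X o))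

end Pool.Agent.Lib.MJ29


/-! Rows `St_hyb` (hybrid argument) and `St_hardE` (hardness is invariant under relabelling). -/

namespace Pool.Agent.Lib.MJ29

open Finset Pool.Agent.Lib.MP_099303_lc

namespace Hyb

section ex

variable {α : Type} [Fintype α]

theorem ex_mono {w F G : α → ℝ} (hw : IsP w) (h : ∀ a, F a ≤ G a) : Ex w F ≤ Ex w G :=
  Finset.sum_le_sum fun a _ => mul_le_mul_of_nonneg_left (h a) (hw.1 a)

theorem ex_const {w : α → ℝ} (hw : IsP w) (c : ℝ) : (Ex w fun _ => c) = c := by
  unfold Ex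
  rw [← Finset.sum_mul, hw.2, one_mul]

theorem ex_sub (w F G : α → ℝ) : (Ex w fun a => F a - G a) = Ex w F - Ex w G := by
  unfold Ex
  rw [← Finset.sum_sub_distrib]
  exact Finset.sum_congr rfl fun a _ => by ring

end ex

section hyb

variable {Λ ι : Type} [DecidableEq Λ]

/-- first components on `S`, second components elsewhere -/
def cfg (S : Finset Λ) (q : Λ → (ι → Bool) × (ι → Bool)) : Λ → ι → Bool :=
  fun l => if l ∈ S then (q l).1 else (q l).2

theorem cfg_in (S : Finset Λ) (l : Λ) (q : Λ → (ι → Bool) × (ι → Bool))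
    (a : (ι → Bool) × (ι → Bool)) :
    cfg (insert l S) (Function.update q l a) = Function.update (cfg S q) l a.1 := by
  funext k
  by_cases hk : k = l
  · subst hk
    simp [cfg]
  · simp [cfg, hk]

theorem cfg_out (S : Finset Λ) (l : Λ) (hl : l ∉ S) (q : Λ → (ι → Bool) × (ι → Bool))
    (a : (ι → Bool) × (ι → Bool)) :
    cfg S (Function.update q l a) = Function.update (cfg S q) l a.2 := by
  funext k
  by_cases hk : k = l
  · subst hk
    simp [cfg, hl]
  · simp [cfg, hk]

end hyb

section relabel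

variable {J J' : Type}

/-- relabel the queries of a tree -/
def rel (φ : J' → J) : WT J' → WT J
  | .leaf b => .leaf b
  | .query i t0 t1 => .query (φ i) (rel φ t0) (rel φ t1)
  | .mix p t0 t1 => .mix p (rel φ t0) (rel φ t1)

theorem P_rel (φ : J' → J) (t : WT J') (z : J → Bool) :
    P (rel φ t) z = P t fun j => z (φ j) := by
  induction t with
  | leaf b => rfl
  | query i t0 t1 h0 h1 => simp only [rel, P, h0, h1]
  | mix p t0 t1 h0 h1 => simp only [rel, P, h0, h1]

theorem cost_rel (φ : J' → J) (t : WT J') (z : J → Bool) :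
    cost (rel φ t) z = cost t fun j => z (φ j) := by
  induction t with
  | leaf b => rfl
  | query i t0 t1 h0 h1 => simp only [rel, cost, h0, h1]
  | mix p t0 t1 h0 h1 => simp only [rel, cost, h0, h1]

theorem hitT_rel [DecidableEq J] [DecidableEq J'] (E : J ≃ J') (t : WT J') (l : J) :
    hitT l (rel E.symm t) = rel E.symm (hitT (E l) t) := by
  induction t with
  | leaf b => rfl
  | query i t0 t1 h0 h1 =>
    by_cases h : i = E l
    · have h' : E.symm i = l := by rw [h]; simp
      simp only [rel, hitT, if_pos h, if_pos h']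
    · have h' : ¬ E.symm i = l := fun e => h (by rw [← e]; simp)
      simp only [rel, hitT, if_neg h, if_neg h', h0, h1]
  | mix p t0 t1 h0 h1 => simp only [rel, hitT, h0, h1]

theorem upd_E [DecidableEq J] [DecidableEq J'] (E : J ≃ J') (z : J → Bool) (l : J) (b : Bool) :
    (fun j => Function.update (fun j' => z (E.symm j')) (E l) b (E j)) = Function.update z l b := by
  funext j
  by_cases h : j = l
  · subst h
    simp
  · have h' : E j ≠ E l := fun e => h (E.injective e)
    simp [h, h']

end relabel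

end Hyb

open Hyb

theorem st_hyb (hres : St_res) : St_hyb := by
  intro Λ ι _ _ _ _ ν m g G u hν hL hg hG
  obtain ⟨hp, hr⟩ := hres Λ ((ι → Bool) × (ι → Bool)) ν hν
  have key : ∀ S : Finset Λ, (Ex (pw ν) fun q => G (cfg S q)) ≤
      (Ex (pw ν) fun q => G (cfg ∅ q)) + S.card * g := by
    intro S
    induction S using Finset.induction_on with
    | empty => simp
    | insert l S hl ih =>
      have h1 : (Ex (pw ν) fun q => G (cfg (insert l S) q) - G (cfg S q)) ≤ g := by
        rw [hr l]
        refine le_trans (ex_mono hp fun q => ?_) (ex_const hp g).le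
        obtain ⟨t, ht, hPt⟩ := hG l (cfg S q)
        have := hL t ht
        simp only [cfg_in, cfg_out S l hl, hPt]
        exact this
      rw [ex_sub] at h1
      rw [Finset.card_insert_of_notMem hl]
      push_cast
      linarith
  have hS := key (univ.filter fun l => u l = true)
  have e1 : ∀ q : Λ → (ι → Bool) × (ι → Bool),
      cfg (univ.filter fun l => u l = true) q = fun l => bif u l then (q l).1 else (q l).2 := by
    intro q
    funext l
    cases h : u l <;> simp [cfg, h]
  have e2 : ∀ q : Λ → (ι → Bool) × (ι → Bool), cfg (∅ : Finset Λ) q = fun l => (q l).2 := by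
    intro q
    funext l
    simp [cfg]
  simp only [e1, e2] at hS
  have hc : ((univ.filter fun l => u l = true).card : ℝ) ≤ Fintype.card Λ := by
    exact_mod_cast Finset.card_le_univ _
  have := mul_le_mul_of_nonneg_right hc hg
  linarith

theorem st_hardE (hpush : St_push) : St_hardE := by
  intro J J' _ _ _ _ E G r hH
  obtain ⟨s, hs, hsv, hst⟩ := hH
  have hv : ∀ a : (J → Bool) × J, Valid G a →
      Valid (fun x : J' → Bool => G fun j => x (E j)) (fun j' => a.1 (E.symm j'), E a.2) := by
    intro a ha b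
    have := ha b
    simp only [upd_E]
    exact this
  refine hpush J' ((J → Bool) × J) _ r s (fun a => (fun j' => a.1 (E.symm j'), E a.2)) hs
    (fun o ho => hv o (hsv o ho)) fun t ht => ?_
  have h := hst (rel E.symm t) fun a ha => by
    have := ht _ (hv a ha)
    unfold hit at this ⊢
    rw [hitT_rel, P_rel]
    exact this
  refine h.trans (le_of_eq ?_)
  unfold hc
  simp only [hitT_rel, cost_rel]

end Pool.Agent.Lib.MJ29


/-! Row F2: a hard law for the inner function multiplies the cost of the outer function. -/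

namespace Pool.Agent.Lib.MJ29

open Finset Function Pool.Agent.Lib.MP_099303_lc

namespace F2

variable {ι J B : Type}

lemma P_pl (d : J → Option ι) (x : J → Bool) (y : ι → Bool) (t : WT J) :
    P (pull d x t) y = P t (ov d x y) := by
  induction t with
  | leaf b => rfl
  | query j t0 t1 h0 h1 =>
    cases h : d j with
    | none => cases hx : x j <;> simp [pull, P, ov, h, hx, h0, h1]
    | some i => cases hy : y i <;> simp [pull, P, ov, h, hy, h0, h1]
  | mix p t0 t1 h0 h1 => simp only [pull, P, h0, h1]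

lemma hit_pl [DecidableEq ι] [DecidableEq J] (d : J → Option ι) (x : J → Bool) (y : ι → Bool)
    (i : ι) (l : J) (hd : ∀ j, d j = some i ↔ j = l) (t : WT J) :
    hit (pull d x t) y i = hit t (ov d x y) l := by
  unfold hit
  induction t with
  | leaf b => rfl
  | query j t0 t1 h0 h1 =>
    cases h : d j with
    | none =>
      have hj : j ≠ l := fun e => by
        have := (hd j).2 e
        rw [h] at this
        exact absurd this (by simp)
      cases hx : x j <;> simp [pull, hitT, P, ov, h, hx, hj, h0, h1]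
    | some i' =>
      by_cases hi : i' = i
      · have hj : j = l := (hd j).1 (h.trans (congrArg some hi))
        simp [pull, hitT, P, h, hi, hj.symm]
      · have hj : j ≠ l := fun e => hi (Option.some.inj (h.symm.trans ((hd j).2 e)))
        cases hy : y i' <;> simp [pull, hitT, P, ov, h, hy, hi, hj, h0, h1]
  | mix p t0 t1 h0 h1 => simp only [pull, hitT, P, h0, h1]

/-- block `b` is the drawn input with its star set to `y b` -/
def X [DecidableEq ι] (y : B → Bool) (o : B → (ι → Bool) × ι) (j : B × ι) : Bool :=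
  update (o j.1).1 (o j.1).2 (y j.1) j.2

/-- decoder of one block -/
def dB [DecidableEq B] (b : B) (j : B × ι) : Option ι := if j.1 = b then some j.2 else none

/-- decoder of the stars -/
def dS [DecidableEq ι] (o : B → (ι → Bool) × ι) (j : B × ι) : Option B :=
  if j.2 = (o j.1).2 then some j.1 else none

lemma ov_dS [DecidableEq ι] (y : B → Bool) (o : B → (ι → Bool) × ι) :
    ov (dS o) (fun j => (o j.1).1 j.2) y = X y o := by
  funext j
  by_cases h : j.2 = (o j.1).2
  · simp [ov, dS, X, h]
  · simp [ov, dS, X, h]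

lemma dS_iff [DecidableEq ι] (o : B → (ι → Bool) × ι) (b : B) (j : B × ι) :
    dS o j = some b ↔ j = (b, (o b).2) := by
  obtain ⟨b', i⟩ := j
  unfold dS
  by_cases h : i = (o b').2
  · rw [if_pos h]
    constructor
    · intro e
      obtain rfl : b' = b := Option.some.inj e
      rw [h]
    · intro e
      exact congrArg some (congrArg Prod.fst e)
  · rw [if_neg h]
    constructor
    · intro e
      exact absurd e (by simp)
    · intro e
      obtain ⟨rfl, rfl⟩ := Prod.mk.inj e
      exact absurd rfl h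

lemma dB_iff [DecidableEq B] (b : B) (j : B × ι) (i : ι) : dB b j = some i ↔ j = (b, i) := by
  obtain ⟨b', i'⟩ := j
  by_cases h : b' = b <;> simp [dB, h]

lemma X_upd [DecidableEq B] [DecidableEq ι] (y : B → Bool) (o : B → (ι → Bool) × ι) (b : B)
    (a : (ι → Bool) × ι) : X y (update o b a) = ov (dB b) (X y o) (update a.1 a.2 (y b)) := by
  funext j
  obtain ⟨b', i⟩ := j
  by_cases h : b' = b
  · subst h
    simp [X, ov, dB]
  · simp [X, ov, dB, h]

lemma ex_le {α : Type} [Fintype α] {w F : α → ℝ} (hw : IsP w) {c : ℝ}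
    (h : ∀ a, w a ≠ 0 → F a ≤ c) : Ex w F ≤ c := by
  calc Ex w F ≤ ∑ a, w a * c := sum_le_sum fun a _ => by
        by_cases h0 : w a = 0
        · simp [h0]
        · exact mul_le_mul_of_nonneg_left (h a h0) (hw.1 a)
    _ = c := by rw [← sum_mul, hw.2, one_mul]

lemma le_ex {α : Type} [Fintype α] {w F : α → ℝ} (hw : IsP w) {c : ℝ}
    (h : ∀ a, w a ≠ 0 → c ≤ F a) : c ≤ Ex w F := by
  calc c = ∑ a, w a * c := by rw [← sum_mul, hw.2, one_mul]
    _ ≤ Ex w F := sum_le_sum fun a _ => by
        by_cases h0 : w a = 0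
        · simp [h0]
        · exact mul_le_mul_of_nonneg_left (h a h0) (hw.1 a)

lemma swap {α β : Type} [Fintype α] [Fintype β] [Fintype B] (w : α → ℝ) (v : β → ℝ) (r : ℝ)
    (h : α → β → B → ℝ) :
    (Ex w fun o => r * Ex v fun y => ∑ b, h o y b) =
      Ex v fun y => r * ∑ b, Ex w fun o => h o y b := by
  simp only [Ex, mul_sum]
  rw [sum_comm]
  refine sum_congr rfl fun y _ => ?_
  rw [sum_comm]
  exact sum_congr rfl fun b _ => sum_congr rfl fun o _ => by ring

lemma core (hcont : St_cont) (hdd : St_dd) (hds : St_ds) (hres : St_res) (hyao : St_yao)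
    (halg : St_alg) [Fintype B] [DecidableEq B] [Fintype ι] [DecidableEq ι]
    (f : (B → Bool) → Bool) (g : (ι → Bool) → Bool) {r C D ε : ℝ} (hr : 0 ≤ r) (hg : Hard g r)
    (hC : C < Tv f) (hD : Tv (cmp f g) < D) (hε : 0 < ε) : r * C ≤ D + Fintype.card B * ε := by
  obtain ⟨s, sP, sV, sR⟩ := hcont ι g r ε hg hε
  obtain ⟨ν, νP, νC⟩ := hyao B f C hC
  obtain ⟨t, ht⟩ := halg (B × ι) (cmp f g) D hD
  have wP : IsP (pw s : (B → (ι → Bool) × ι) → ℝ) := (hres B _ s sP).1
  have h1 : ∀ o : B → (ι → Bool) × ι, pw s o ≠ 0 →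
      r * C ≤ r * Ex ν fun y => ∑ b, hit t (X y o) (b, (o b).2) := by
    intro o ho
    have hv : ∀ b, Valid g (o b) := fun b => sV _ (prod_ne_zero_iff.1 ho b (mem_univ b))
    obtain ⟨t', ht'⟩ := hdd B (pull (dS o) (fun j => (o j.1).1 j.2) t)
    have ex : Exact f t' := fun y => by
      have e : cmp f g (X y o) = f y := congrArg f (funext fun b => hv b (y b))
      have := abs_nonpos_iff.1 (ht (X y o)).2
      rw [(ht' y).1, P_pl, ov_dS, ← e]
      linarith
    refine mul_le_mul_of_nonneg_left ((νC t' ex).trans (sum_le_sum fun y _ =>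
      mul_le_mul_of_nonneg_left ((ht' y).2.trans (le_of_eq (sum_congr rfl fun b _ => ?_)))
        (νP.1 y))) hr
    rw [hit_pl _ _ y b (b, (o b).2) (dS_iff o b), ov_dS]
  refine (le_ex wP h1).trans ?_
  rw [swap]
  refine ex_le νP fun y _ => ?_
  have h2 := hds B ι (B × ι) s r ε dB Prod.mk (X y) t sP sR dB_iff
    (fun b b' j k k' => by
      by_cases e : j.1 = b
      · by_cases e' : j.1 = b'
        · exact e.symm.trans e'
        · simp [dB, e'] at k'
      · simp [dB, e] at k)
    fun o b a => ⟨y b, X_upd y o b a⟩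
  have h3 : (Ex (pw s) fun o : B → (ι → Bool) × ι => cost t (X y o)) ≤ D :=
    ex_le wP fun o _ => (ht _).1
  linarith

end F2

theorem st_f2 (hcont : St_cont) (hdd : St_dd) (hds : St_ds) (hres : St_res) (hyao : St_yao)
    (halg : St_alg) : St_f2 := by
  intro B ι _ _ _ _ f g r hr hg
  refine le_of_forall_pos_le_add fun δ hδ => ?_
  have hN : (0 : ℝ) ≤ Fintype.card B := Nat.cast_nonneg _
  have h0 : 0 < δ / (r + 1 + Fintype.card B) := by positivity
  have h1 := F2.core hcont hdd hds hres hyao halg f g hr hg (sub_lt_self (Tv f) h0)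
    (lt_add_of_pos_right (Tv (cmp f g)) h0) h0
  have h2 : (r + 1 + Fintype.card B) * (δ / (r + 1 + Fintype.card B)) = δ := by field_simp
  nlinarith

end Pool.Agent.Lib.MJ29


/-! Row LOCK: hiding a star behind locks. -/

namespace Pool.Agent.Lib.MJ29

open Finset Function Pool.Agent.Lib.MP_099303_lc

namespace Lock

section trees

variable {ι J : Type}

theorem mixle (p : unitInterval) {a b c d : ℝ} (h1 : a ≤ c) (h2 : b ≤ d) :
    p * a + (1 - p) * b ≤ p * c + (1 - p) * d :=
  add_le_add (mul_le_mul_of_nonneg_left h1 p.2.1)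
    (mul_le_mul_of_nonneg_left h2 (sub_nonneg.2 p.2.2))

theorem P01 (t : WT ι) (x : ι → Bool) : 0 ≤ P t x ∧ P t x ≤ 1 := by
  induction t with
  | leaf b => cases b <;> simp [P, ind]
  | query i t0 t1 h0 h1 => cases h : x i <;> simp [P, h, h0.1, h0.2, h1.1, h1.2]
  | mix p t0 t1 h0 h1 =>
    have a := mixle p h0.1 h1.1
    have b := mixle p h0.2 h1.2
    simp only [P]
    constructor <;> linarith

theorem cost0 (t : WT ι) (x : ι → Bool) : 0 ≤ cost t x := by
  induction t with
  | leaf b => simp [cost]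
  | query i t0 t1 h0 h1 => cases h : x i <;> simp only [cost, h, cond_true, cond_false] <;> linarith
  | mix p t0 t1 h0 h1 =>
    have a := mixle p h0 h1
    simp only [cost]
    linarith

theorem Ppull (d : J → Option ι) (x : J → Bool) (t : WT J) (y : ι → Bool) :
    P (pull d x t) y = P t (ov d x y) ∧ cost (pull d x t) y ≤ cost t (ov d x y) := by
  induction t with
  | leaf b => simp [pull, P, cost]
  | query j t0 t1 h0 h1 =>
    cases hd : d j with
    | none =>
      have e : ov d x y j = x j := by simp [ov, hd]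
      cases h : x j <;> simp only [pull, hd, Option.elim, P, cost, e, h, cond_true, cond_false]
      · exact ⟨h0.1, by linarith [h0.2]⟩
      · exact ⟨h1.1, by linarith [h1.2]⟩
    | some i =>
      have e : ov d x y j = y i := by simp [ov, hd]
      cases h : y i <;> simp only [pull, hd, Option.elim, P, cost, e, h, cond_true, cond_false]
      · exact ⟨h0.1, by linarith [h0.2]⟩
      · exact ⟨h1.1, by linarith [h1.2]⟩
  | mix p t0 t1 h0 h1 =>
    simp only [pull, P, cost, h0.1, h1.1, true_and]
    exact mixle p h0.2 h1.2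

theorem costT (t : WT ι) (x : ι → Bool) : ∀ n : ℕ, cost (trunc n t) x ≤ n := by
  induction t with
  | leaf b => intro n; simp [trunc, cost]
  | query i t0 t1 h0 h1 =>
    intro n
    cases n with
    | zero => simp [trunc, cost]
    | succ n =>
      have a := h0 n
      have b := h1 n
      cases h : x i <;> simp only [trunc, cost, h, cond_true, cond_false] <;> push_cast <;> linarith
  | mix p t0 t1 h0 h1 =>
    intro n
    have a := mixle p (h0 n) (h1 n)
    have e : trunc n (.mix p t0 t1) = .mix p (trunc n t0) (trunc n t1) := by cases n <;> rfl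
    rw [e]
    simp only [cost]
    linarith

variable [DecidableEq ι]

theorem costH (l : ι) (t : WT ι) (x : ι → Bool) : cost (hitT l t) x ≤ cost t x := by
  induction t with
  | leaf b => simp [hitT, cost]
  | query i t0 t1 h0 h1 =>
    have a := cost0 t0 x
    have b := cost0 t1 x
    by_cases e : i = l <;> cases h : x i <;>
      simp only [hitT, e, if_true, if_false, cost, h, cond_true, cond_false] <;>
      first | linarith | (rw [← e, h]; simp only [cond_true, cond_false]; linarith)
  | mix p t0 t1 h0 h1 => exact mixle p h0 h1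

theorem markov' (l : ι) (t : WT ι) (x : ι → Bool) : ∀ n : ℕ,
    ((n : ℝ) + 1) * (hit t x l - hit (trunc n t) x l) ≤ hc t x l := by
  unfold hit hc
  induction t with
  | leaf b => intro n; cases n <;> simp [trunc, hitT, cost, P]
  | query i t0 t1 h0 h1 =>
    intro n
    have a0 := P01 (hitT l t0) x
    have a1 := P01 (hitT l t1) x
    by_cases e : i = l
    · cases n with
      | zero => cases h : x i <;> simp [trunc, hitT, e, cost, P, ind]
      | succ n => cases h : x i <;> simp [trunc, hitT, e, cost, P, ind]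
    · cases n with
      | zero =>
        have c0 := cost0 (hitT l t0) x
        have c1 := cost0 (hitT l t1) x
        cases h : x i <;>
          simp only [trunc, hitT, e, if_false, cost, P, ind, h, cond_true, cond_false] <;>
          push_cast <;> linarith [a0.2, a1.2]
      | succ n =>
        have b0 := P01 (hitT l (trunc n t0)) x
        have b1 := P01 (hitT l (trunc n t1)) x
        have c0 := h0 n
        have c1 := h1 n
        cases h : x i <;>
          simp only [trunc, hitT, e, if_false, cost, P, h, cond_true, cond_false] <;>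
          push_cast <;> linarith [a0.2, a1.2, b0.1, b1.1]
  | mix p t0 t1 h0 h1 =>
    intro n
    have a := mixle p (h0 n) (h1 n)
    have e : trunc n (.mix p t0 t1) = .mix p (trunc n t0) (trunc n t1) := by cases n <;> rfl
    rw [e]
    simp only [hitT, cost, P]
    linarith

end trees

section ex

variable {α β : Type} [Fintype α] [Fintype β]

theorem exle {w F G : α → ℝ} (hw : IsP w) (h : ∀ a, w a ≠ 0 → F a ≤ G a) : Ex w F ≤ Ex w G :=
  sum_le_sum fun a _ => by
    by_cases e : w a = 0
    · simp [e]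
    · exact mul_le_mul_of_nonneg_left (h a e) (hw.1 a)

theorem exaff {w : α → ℝ} (hw : IsP w) (F : α → ℝ) (c k : ℝ) :
    (Ex w fun a => c * F a + k) = c * Ex w F + k := by
  unfold Ex
  simp only [mul_add, sum_add_distrib, ← sum_mul, hw.2, one_mul, mul_sum]
  congr 1
  exact sum_congr rfl fun a _ => by ring

theorem exswap (w : α → ℝ) (v : β → ℝ) (F : α → β → ℝ) :
    (Ex w fun a => Ex v fun b => F a b) = Ex v fun b => Ex w fun a => F a b := by
  unfold Ex
  simp only [mul_sum]
  rw [sum_comm]
  exact sum_congr rfl fun b _ => sum_congr rfl fun a _ => by ring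

theorem exprod (w : α → ℝ) (v : β → ℝ) (F : α × β → ℝ) :
    Ex (fun z : α × β => w z.1 * v z.2) F = Ex w fun a => Ex v fun b => F (a, b) := by
  unfold Ex
  rw [Fintype.sum_prod_type]
  simp only [mul_sum, mul_assoc]

theorem isprod {w : α → ℝ} {v : β → ℝ} (hw : IsP w) (hv : IsP v) :
    IsP fun z : α × β => w z.1 * v z.2 := by
  refine ⟨fun z => mul_nonneg (hw.1 _) (hv.1 _), ?_⟩
  rw [Fintype.sum_prod_type]
  simp only [← mul_sum, hv.2, mul_one, hw.2]

end ex

section blocks

variable {B ι : Type}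

/-- the input with data cells `o` and locks `y` -/
def inp (o : B → (ι → Bool) × ι) (y : B × Bool → ι → Bool) (j : B × Option Bool × ι) : Bool :=
  j.2.1.elim ((o j.1).1 j.2.2) fun c => y (j.1, c) j.2.2

variable [DecidableEq B]

/-- decoder of one cell -/
def dec (b : B) (c : Option Bool) (j : B × Option Bool × ι) : Option ι :=
  if j.1 = b ∧ j.2.1 = c then some j.2.2 else none

theorem ov_lock (o : B → (ι → Bool) × ι) (y : B × Bool → ι → Bool) (l : B × Bool) (w : ι → Bool) :
    ov (dec l.1 (some l.2)) (inp o y) w = inp o (update y l w) := by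
  funext ⟨b, c, i⟩
  obtain ⟨b', c'⟩ := l
  cases c with
  | none => simp [ov, dec, inp]
  | some c =>
    by_cases h : (b, c) = (b', c')
    · obtain ⟨rfl, rfl⟩ := Prod.mk.inj h
      simp [ov, dec, inp]
    · have h' : ¬ (b = b' ∧ c = c') := fun e => h (Prod.ext e.1 e.2)
      simp [ov, dec, inp, h']

theorem ov_data (o : B → (ι → Bool) × ι) (y : B × Bool → ι → Bool) (b' : B)
    (a : (ι → Bool) × ι) : inp (update o b' a) y = ov (dec b' none) (inp o y) a.1 := by
  funext ⟨b, c, i⟩
  cases c with
  | some c => simp [ov, dec, inp]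
  | none =>
    by_cases h : b = b'
    · subst h
      simp [ov, dec, inp]
    · simp [ov, dec, inp, h]

theorem valid [DecidableEq ι] {g : (B → Bool) → Bool} {f : (ι → Bool) → Bool} {v : B → Bool}
    {b : B} (hv : Valid g (v, b)) {o : B → (ι → Bool) × ι} (ho : Valid f (o b))
    {y : B × Bool → ι → Bool} (hy : ∀ l, f (y l) = if l.1 = b then l.2 else v l.1) :
    Valid (lk g f) (inp o y, (b, none, (o b).2)) := by
  intro β
  refine Eq.trans ?_ (hv β)
  unfold lk
  congr 1
  funext b'
  have e : ∀ c, (fun i => update (inp o y) (b, none, (o b).2) β (b', some c, i)) = y (b', c) :=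
    fun c => funext fun i => by
      rw [update_of_ne (by simp)]
      rfl
  show maj (f fun i => update (inp o y) (b, none, (o b).2) β (b', none, i))
    (f fun i => update (inp o y) (b, none, (o b).2) β (b', some false, i))
    (f fun i => update (inp o y) (b, none, (o b).2) β (b', some true, i)) = update v b β b'
  rw [e, e, hy, hy]
  by_cases h : b' = b
  · subst h
    have e2 : (fun i => update (inp o y) (b', none, (o b').2) β (b', none, i)) =
        update (o b').1 (o b').2 β := funext fun i => by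
      by_cases hi : i = (o b').2
      · rw [hi, update_self, update_self]
      · rw [update_of_ne (by simpa using hi), update_of_ne hi]
        rfl
    rw [e2, ho β, update_self]
    cases β <;> simp [maj]
  · rw [update_of_ne h]
    simp only [h, if_false]
    generalize f _ = z
    cases z <;> cases v b' <;> rfl

end blocks

end Lock

open Lock in
theorem st_lock (hC : St_cont) (hD : St_ds) (hH : St_hyb) (hR : St_res) (hP : St_push) :
    St_lock := by
  intro B ι _ _ _ _ _ g f r hr hv hh hl
  choose v hv using hv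
  obtain ⟨s, s1, s2, s3⟩ := hC ι f r (r / 4) hh (by linarith)
  obtain ⟨ν, n1, n2, n3⟩ := hl
  set N : ℝ := (Fintype.card B : ℝ) with hN
  have N0 : 0 < N := Nat.cast_pos.2 Fintype.card_pos
  have pB : IsP fun _ : B => N⁻¹ := ⟨fun _ => inv_nonneg.2 N0.le, by
    rw [sum_const, card_univ, nsmul_eq_mul, ← hN, mul_inv_cancel₀ N0.ne']⟩
  have pS := (hR B _ s s1).1
  have pN := (hR (B × Bool) _ ν n1).1
  set u : B → B × Bool → Bool := fun b l => if l.1 = b then l.2 else v b l.1 with hu
  have pW := isprod pB (isprod pS pN)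
  have hval : ∀ z : B × (B → (ι → Bool) × ι) × (B × Bool → (ι → Bool) × (ι → Bool)),
      N⁻¹ * (pw s z.2.1 * pw ν z.2.2) ≠ 0 → Valid (lk g f)
        (inp z.2.1 fun l => bif u z.1 l then (z.2.2 l).1 else (z.2.2 l).2,
          (z.1, none, (z.2.1 z.1).2)) := by
    rintro ⟨b, o, q⟩ hz
    have h1 := right_ne_zero_of_mul hz
    have h2 := prod_ne_zero_iff.1 (left_ne_zero_of_mul h1) b (mem_univ _)
    refine valid (hv b) (s2 _ h2) fun l => ?_
    have h3 := n2 _ (prod_ne_zero_iff.1 (right_ne_zero_of_mul h1) l (mem_univ _))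
    show f (bif u b l then (q l).1 else (q l).2) = u b l
    cases u b l
    · exact h3.2
    · exact h3.1
  refine hP _ _ (lk g f) _ _ _ pW hval fun t ht => ?_
  set n := ⌊N * r / 4⌋₊ with hn
  have hn1 : (n : ℝ) ≤ N * r / 4 := Nat.floor_le (by positivity)
  have hn2 : N * r / 4 < n + 1 := Nat.lt_floor_add_one _
  set t' := trunc n t with ht'
  have null : ∀ y : B × Bool → ι → Bool,
      (Ex (fun _ : B => N⁻¹) fun b => Ex (pw s) fun o : B → (ι → Bool) × ι =>
        hit t' (inp o y) (b, none, (o b).2)) ≤ 1 / 2 := by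
    intro y
    have h := hD B ι _ s r (r / 4) (fun b => dec b none) (fun b i => (b, none, i))
      (fun o => inp o y) t' s1 s3
      (by
        rintro b ⟨b', c, i'⟩ i
        unfold dec
        split_ifs with h
        · obtain ⟨rfl, rfl⟩ : b' = b ∧ c = none := h
          simp
        · simp only [Prod.mk.injEq, false_iff]
          exact fun e => h ⟨e.1, e.2.1⟩)
      (by
        intro b b' j h1 h2
        unfold dec at h1 h2
        split_ifs at h1 h2 with e1 e2
        · exact e1.1.symm.trans e2.1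
        all_goals simp at h1 h2)
      (fun o b a => ⟨a.1 a.2, by rw [update_eq_self]; exact ov_data o y b a⟩)
    have h2 : (Ex (pw s) fun o : B → (ι → Bool) × ι => cost t' (inp o y)) ≤
        Ex (pw s) fun _ : B → (ι → Bool) × ι => 0 * 0 + (n : ℝ) :=
      exle pS fun o _ => by simpa using costT t _ n
    rw [exaff pS (fun _ => 0)] at h2
    unfold Ex at h ⊢
    rw [← mul_sum, inv_mul_le_iff₀ N0]
    refine le_of_mul_le_mul_left ?_ hr
    unfold Ex at h2
    linarith
  have real : ∀ (b : B) (o : B → (ι → Bool) × ι),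
      (Ex (pw ν) fun q : B × Bool → (ι → Bool) × (ι → Bool) =>
        hit t' (inp o fun l => bif u b l then (q l).1 else (q l).2) (b, none, (o b).2)) ≤
      1 * (Ex (pw ν) fun q : B × Bool → (ι → Bool) × (ι → Bool) =>
        hit t' (inp o fun l => (q l).2) (b, none, (o b).2)) + 1 / 4 := by
    intro b o
    have h := hH (B × Bool) ι ν _ _ (fun y => hit t' (inp o y) (b, none, (o b).2)) (u b) n1 n3
      (by positivity) fun l y => by
        refine ⟨pull (dec l.1 (some l.2)) (inp o y) (hitT (b, none, (o b).2) t'), fun w => ?_,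
          fun w => ?_⟩
        · exact (Ppull _ _ _ w).2.trans ((costH _ _ _).trans ((costT t _ n).trans hn1))
        · rw [(Ppull _ _ _ w).1, ov_lock]
          rfl
    have e : (Fintype.card (B × Bool) : ℝ) * (1 / (8 * N)) = 1 / 4 := by
      rw [Fintype.card_prod, Fintype.card_bool, Nat.cast_mul, ← hN]
      field_simp
      norm_num
    rw [e] at h
    rw [one_mul]
    exact h
  have tot : (Ex (fun z : B × (B → (ι → Bool) × ι) × (B × Bool → (ι → Bool) × (ι → Bool)) =>
      N⁻¹ * (pw s z.2.1 * pw ν z.2.2)) fun z => hit t'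
        (inp z.2.1 fun l => bif u z.1 l then (z.2.2 l).1 else (z.2.2 l).2)
          (z.1, none, (z.2.1 z.1).2)) ≤ 3 / 4 := by
    rw [exprod (fun _ : B => N⁻¹) (fun z : (B → (ι → Bool) × ι) ×
      (B × Bool → (ι → Bool) × (ι → Bool)) => pw s z.1 * pw ν z.2)]
    simp only [exprod (pw s) (pw ν)]
    refine (exle pB fun b _ => exle pS fun o _ => real b o).trans ?_
    simp only [exaff pS]
    rw [exaff pB, one_mul]
    simp only [exswap (pw s) (pw ν)]
    rw [exswap (fun _ : B => N⁻¹) (pw ν)]
    have h := exle pN (G := fun _ => 0 * 0 + 1 / 2)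
      fun (q : B × Bool → (ι → Bool) × (ι → Bool)) _ => (null fun l => (q l).2).trans (by norm_num)
    rw [exaff pN (fun _ => 0)] at h
    linarith
  refine le_trans ?_ (exle pW (F := fun z => -((n : ℝ) + 1) * hit t'
    (inp z.2.1 fun l => bif u z.1 l then (z.2.2 l).1 else (z.2.2 l).2)
      (z.1, none, (z.2.1 z.1).2) + ((n : ℝ) + 1)) fun z hz => ?_)
  · rw [exaff pW]
    have := mul_le_mul_of_nonneg_left tot (by positivity : (0 : ℝ) ≤ (n : ℝ) + 1)
    linarith
  · have h1 := ht _ (hval z hz)
    have h2 := markov' (z.1, none, (z.2.1 z.1).2) t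
      (inp z.2.1 fun l => bif u z.1 l then (z.2.2 l).1 else (z.2.2 l).2) n
    simp only at h1 ⊢
    rw [h1] at h2
    linarith

end Pool.Agent.Lib.MJ29


/-! Index bookkeeping for the iterated majority. -/

namespace Pool.Agent.Lib.MJ29

open Finset Pool.Agent.Lib.MP_099303_lc

namespace Idx

def eI (k l : ℕ) : Fin (3 ^ k) × Fin (3 ^ l) ≃ Fin (3 ^ (l + k)) :=
  finProdFinEquiv.trans (finCongr (by rw [pow_add, mul_comm]))

lemma eI_val (k l : ℕ) (b : Fin (3 ^ k)) (i : Fin (3 ^ l)) :
    (eI k l (b, i) : ℕ) = i + 3 ^ l * b := rfl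

lemma blk_val (k : ℕ) (c : Fin 3) (i : Fin (3 ^ k)) : (blk k c i : ℕ) = 3 ^ k * c + i := rfl

lemma blk_eI (k l : ℕ) (c : Fin 3) (b : Fin (3 ^ k)) (i : Fin (3 ^ l)) :
    blk (l + k) c (eI k l (b, i)) = eI (k + 1) l (blk k c b, i) := by
  apply Fin.ext
  rw [blk_val, eI_val, eI_val, blk_val, pow_add]
  ring

lemma iter_eI (l : ℕ) : ∀ (k : ℕ) (x : Fin (3 ^ (l + k)) → Bool),
    iterMaj (l + k) x = iterMaj k fun b => iterMaj l fun i => x (eI k l (b, i))
  | 0, x => by
    show iterMaj l x = iterMaj l fun i => x (eI 0 l (0, i))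
    refine congrArg _ (funext fun i => congrArg _ (Fin.ext ?_))
    rw [eI_val]
    simp
  | k + 1, x => by
    show maj (iterMaj (l + k) fun i => x (blk (l + k) 0 i))
      (iterMaj (l + k) fun i => x (blk (l + k) 1 i))
      (iterMaj (l + k) fun i => x (blk (l + k) 2 i)) =
      maj (iterMaj k fun b => iterMaj l fun i => x (eI (k + 1) l (blk k 0 b, i)))
        (iterMaj k fun b => iterMaj l fun i => x (eI (k + 1) l (blk k 1 b, i)))
        (iterMaj k fun b => iterMaj l fun i => x (eI (k + 1) l (blk k 2 b, i)))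
    rw [iter_eI l k, iter_eI l k, iter_eI l k]
    simp only [blk_eI]

def e3 (k : ℕ) : Fin 3 × Fin (3 ^ k) ≃ Fin (3 ^ (k + 1)) :=
  finProdFinEquiv.trans (finCongr (by rw [pow_succ, mul_comm]))

lemma e3_eq (k : ℕ) (c : Fin 3) (i : Fin (3 ^ k)) : e3 k (c, i) = blk k c i := by
  apply Fin.ext
  rw [blk_val]
  exact add_comm _ _

def ob : Option Bool ≃ Fin 3 where
  toFun o := match o with
    | none => 0
    | some false => 1
    | some true => 2
  invFun c := if c = 0 then none else if c = 1 then some false else some true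
  left_inv := by decide
  right_inv := by decide

lemma iter_const : ∀ (k : ℕ) (a : Bool), iterMaj k (fun _ => a) = a
  | 0, _ => rfl
  | k + 1, a => by
    show maj (iterMaj k fun _ => a) (iterMaj k fun _ => a) (iterMaj k fun _ => a) = a
    rw [iter_const k a]
    cases a <;> rfl

lemma valid : ∀ (t : ℕ) (b : Fin (3 ^ t)), ∃ v, Valid (iterMaj t) (v, b)
  | 0, b => by
    refine ⟨fun _ => false, fun β => ?_⟩
    have hb : b = 0 := by
      apply Fin.ext
      have := b.2
      simp only [pow_zero] at this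
      simp only [Fin.val_zero]
      omega
    subst hb
    exact Function.update_self _ _ _
  | t + 1, b => by
    obtain ⟨⟨c, i⟩, rfl⟩ := (e3 t).surjective b
    obtain ⟨v, hv⟩ := valid t i
    let w : Fin 3 × Fin (3 ^ t) → Bool := fun p =>
      if p.1 = c then v p.2 else decide (p.1 = c + 1)
    refine ⟨fun j => w ((e3 t).symm j), fun β => ?_⟩
    have key : ∀ c' : Fin 3, (iterMaj t fun i' =>
        Function.update (fun j => w ((e3 t).symm j)) (e3 t (c, i)) β (blk t c' i')) =
        if c' = c then β else decide (c' = c + 1) := by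
      intro c'
      by_cases h : c' = c
      · subst h
        rw [if_pos rfl, ← hv β]
        congr 1
        funext i'
        rw [← e3_eq]
        by_cases hi : i' = i
        · subst hi
          rw [hv β]
          simp
        · rw [Function.update_of_ne (fun h => hi (congrArg Prod.snd ((e3 t).injective h))),
            Function.update_of_ne hi]
          simp [w]
      · rw [if_neg h, ← iter_const t (decide (c' = c + 1))]
        congr 1
        funext i'
        rw [← e3_eq,
          Function.update_of_ne (fun h' => h (congrArg Prod.fst ((e3 t).injective h')))]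
        simp [w, h]
    show maj (iterMaj t fun i' => _) (iterMaj t fun i' => _) (iterMaj t fun i' => _) = β
    rw [key 0, key 1, key 2]
    clear key hv
    revert c β
    decide

lemma hit_le {ι : Type} [DecidableEq ι] (l : ι) (z : ι → Bool) :
    ∀ t : WT ι, P (hitT l t) z ≤ cost (hitT l t) z
  | .leaf _ => by simp [hitT, P, cost, ind]
  | .query i t0 t1 => by
    have h0 := hit_le l z t0
    have h1 := hit_le l z t1
    unfold hitT
    split_ifs
    · cases hz : z i <;> simp [P, cost, ind, hz]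
    · cases hz : z i <;> simp only [P, cost, hz, cond_true, cond_false] <;> linarith
  | .mix p t0 t1 => by
    have h0 := hit_le l z t0
    have h1 := hit_le l z t1
    have hp := p.2.1
    have hq : (0 : ℝ) ≤ 1 - p := sub_nonneg.2 p.2.2
    simp only [hitT, P, cost]
    exact add_le_add (mul_le_mul_of_nonneg_left h0 hp) (mul_le_mul_of_nonneg_left h1 hq)

lemma pull_spec {ι J : Type} (d : J → Option ι) (x : J → Bool) (y : ι → Bool) :
    ∀ t : WT J, P (pull d x t) y = P t (ov d x y) ∧ cost (pull d x t) y ≤ cost t (ov d x y)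
  | .leaf _ => ⟨rfl, le_rfl⟩
  | .query j t0 t1 => by
    obtain ⟨a0, b0⟩ := pull_spec d x y t0
    obtain ⟨a1, b1⟩ := pull_spec d x y t1
    cases hd : d j with
    | none =>
      have ho : ov d x y j = x j := by simp [ov, hd]
      cases hx : x j <;>
        simp only [pull, P, cost, hd, ho, hx, Option.elim, cond_true, cond_false] <;>
        exact ⟨by assumption, by linarith⟩
    | some i =>
      have ho : ov d x y j = y i := by simp [ov, hd]
      cases hx : y i <;>
        simp only [pull, P, cost, hd, ho, hx, Option.elim, cond_true, cond_false] <;>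
        exact ⟨by assumption, by linarith⟩
  | .mix p t0 t1 => by
    obtain ⟨a0, b0⟩ := pull_spec d x y t0
    obtain ⟨a1, b1⟩ := pull_spec d x y t1
    have hp := p.2.1
    have hq : (0 : ℝ) ≤ 1 - p := sub_nonneg.2 p.2.2
    simp only [pull, P, cost, a0, a1, true_and]
    exact add_le_add (mul_le_mul_of_nonneg_left b0 hp) (mul_le_mul_of_nonneg_left b1 hq)

end Idx

open Idx

theorem st_idx : St_idx := fun k l => ⟨eI k l, fun x => iter_eI l k x⟩

theorem st_idx3 : St_idx3 := by
  intro t k
  refine ⟨(Equiv.prodCongr (Equiv.refl _)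
    ((Equiv.prodCongr ob (Equiv.refl _)).trans (e3 k))).trans (eI t (k + 1)), fun x => ?_⟩
  rw [iter_eI]
  unfold lk
  congr 1
  funext b
  show maj _ _ _ = maj (iterMaj k fun i => x (eI t (k + 1) (b, e3 k (0, i))))
    (iterMaj k fun i => x (eI t (k + 1) (b, e3 k (1, i))))
    (iterMaj k fun i => x (eI t (k + 1) (b, e3 k (2, i))))
  simp only [e3_eq]

theorem st_valid : St_valid := valid

theorem st_hard1 : St_hard1 := by
  intro k
  obtain ⟨v, hv⟩ := valid k 0
  refine ⟨fun a => if a = (v, 0) then 1 else 0, ⟨fun a => ?_, by simp⟩, fun a ha => ?_,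
    fun t ht => ?_⟩
  · dsimp only
    split_ifs <;> norm_num
  · have : a = (v, 0) := by
      by_contra h
      exact ha (if_neg h)
    rw [this]
    exact hv
  · have h1 := ht _ hv
    have h2 := hit_le (0 : Fin (3 ^ k)) v t
    simp only [Ex, ite_mul, one_mul, zero_mul, sum_ite_eq', mem_univ, if_true]
    unfold hit at h1
    unfold hc
    linarith

theorem st_restr : St_restr := by
  rintro h d m g ⟨t, hc, hg⟩
  obtain ⟨v, hv⟩ := valid d 0
  let D : Fin (3 ^ (h + d)) → Option (Fin (3 ^ h)) := fun j =>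
    if ((eI d h).symm j).1 = 0 then some ((eI d h).symm j).2 else none
  let X : Fin (3 ^ (h + d)) → Bool := fun j => v ((eI d h).symm j).1
  have key : ∀ y, iterMaj (h + d) (ov D X y) = iterMaj h y := by
    intro y
    rw [iter_eI, ← hv (iterMaj h y)]
    congr 1
    funext b
    by_cases hb : b = 0
    · subst hb
      simp [ov, D]
    · rw [Function.update_of_ne hb]
      simp [ov, D, X, hb, iter_const]
  refine ⟨pull D X t, fun y => (pull_spec D X y t).2.trans (hc _), fun y1 y0 h1 h0 => ?_⟩
  rw [(pull_spec D X y1 t).1, (pull_spec D X y0 t).1]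
  exact hg _ _ ((key y1).trans h1) ((key y0).trans h0)

end Pool.Agent.Lib.MJ29


/-! Sequence lemmas and the link between `cStar` and the values `T k`. -/

namespace Pool.Agent.Lib.MJ29

open Filter Topology Pool.Agent.Lib.MP_099303_lc

namespace Seq

theorem ev_le {b c : ℝ} (hb : 0 < b) (h : b < c) (A : ℝ) :
    ∀ᶠ n : ℕ in atTop, A * b ^ n ≤ c ^ n := by
  have h1 : Tendsto (fun n : ℕ => (c / b) ^ n) atTop atTop :=
    tendsto_pow_atTop_atTop_of_one_lt ((one_lt_div hb).mpr h)
  refine (h1.eventually_ge_atTop A).mono fun n hn => ?_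
  rwa [div_pow, le_div_iff₀ (pow_pos hb n)] at hn

theorem le_of_pow {b c A : ℝ} (hb : 0 < b) (h : ∀ n : ℕ, c ^ n ≤ A * b ^ n) : c ≤ b := by
  by_contra hc
  obtain ⟨n, hn⟩ := (ev_le hb (not_le.1 hc) (A + 1)).exists
  linarith [h n, pow_pos hb n]

theorem cStar_nonneg : 0 ≤ cStar := Real.sInf_nonneg fun _ h => h.1.le

theorem grow {U : ℕ → ℝ} {b : ℝ} {k : ℕ} (hb : 1 ≤ b) (h3 : ∀ H, U H ≤ 3 ^ H)
    (hs : ∀ l, (∀ n, n < l + k + 1 → U n ≤ 3 ^ k * b ^ n) →
      U (l + k + 1) ≤ 3 ^ k * b ^ (l + k + 1)) (n : ℕ) : U n ≤ 3 ^ k * b ^ n := by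
  induction n using Nat.strong_induction_on with
  | _ n ih =>
    rcases le_or_gt n k with h | h
    · have h1 : (3 : ℝ) ^ n ≤ 3 ^ k := pow_le_pow_right₀ (by norm_num) h
      have h2 : (1 : ℝ) ≤ b ^ n := one_le_pow₀ hb
      have h4 : (0 : ℝ) < 3 ^ k := by positivity
      nlinarith [h3 n]
    · obtain ⟨l, rfl⟩ : ∃ l, n = l + k + 1 := ⟨n - k - 1, by omega⟩
      exact hs l ih

end Seq

open _root_.Pool.Agent.Lib.MJ29.Seq

theorem st_seqF : St_seqF := by
  intro U c A hc h0 h
  refine ⟨max 1 (10 / 3 * A), fun H => ?_⟩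
  have k1 := le_max_left 1 (10 / 3 * A)
  have k2 := le_max_right 1 (10 / 3 * A)
  generalize max 1 (10 / 3 * A) = K at k1 k2
  induction H with
  | zero => simpa using h0.trans k1
  | succ H ih =>
    have hp : 0 < c ^ H := pow_pos (by linarith) H
    have e1 : A * c ^ H ≤ 3 / 10 * K * c ^ H := mul_le_mul_of_nonneg_right (by linarith) hp.le
    have e2 : 13 / 5 * (K * c ^ H) ≤ c * (K * c ^ H) :=
      mul_le_mul_of_nonneg_right hc (by positivity)
    have e3 : K * c ^ (H + 1) = c * (K * c ^ H) := by ring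
    linarith [h H]

theorem st_seqG : St_seqG := by
  intro U c a k hc ha hl h3 hs
  by_contra hcon
  have hp : 0 < c ^ k := pow_pos (by linarith) k
  have h1 : a + 23 / 10 * c ^ k < c ^ (k + 1) := by
    have : 13 / 5 * c ^ k ≤ c * c ^ k := mul_le_mul_of_nonneg_right hc hp.le
    rw [pow_succ']
    linarith [not_le.1 hcon]
  have h2 : ∀ᶠ x in 𝓝 c, a + 23 / 10 * x ^ k < x ^ (k + 1) :=
    ContinuousAt.eventually_lt (f := fun x : ℝ => a + 23 / 10 * x ^ k)
      (g := fun x : ℝ => x ^ (k + 1)) (by fun_prop) (by fun_prop) h1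
  obtain ⟨b, hbc, hb, hb1⟩ := (h2.and (lt_mem_nhds (show (1 : ℝ) < c by linarith))).exists_lt
  have hb0 : 0 < b := by linarith
  have key := grow (U := U) (k := k) hb1.le h3 fun l ih => by
    have i1 := mul_le_mul_of_nonneg_left (ih l (by omega)) ha
    have i2 := ih (l + k) (by omega)
    have i3 := mul_le_mul_of_nonneg_left hb.le (by positivity : 0 ≤ 3 ^ k * b ^ l)
    have e1 : 3 ^ k * b ^ (l + k + 1) = 3 ^ k * b ^ l * b ^ (k + 1) := by ring
    have e2 : 3 ^ k * b ^ l * (a + 23 / 10 * b ^ k) =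
        a * (3 ^ k * b ^ l) + 23 / 10 * (3 ^ k * b ^ (l + k)) := by ring
    linarith [hs l]
  exact absurd (le_of_pow hb0 fun n => (hl n).trans (key n)) (not_le.2 hbc)

theorem st_c2 : St_c2 := by
  intro c hc
  obtain ⟨c', ⟨h0, h1⟩, h2⟩ := exists_lt_of_csInf_lt
    (s := {c : ℝ | 0 < c ∧ ∀ᶠ k in atTop, R (iterMaj k) ≤ ENNReal.ofReal (c ^ k)})
    ⟨3, by norm_num, Eventually.of_forall R_le⟩ hc
  refine h1.mono fun k hk => ?_
  exact (ENNReal.toReal_le_of_le_ofReal (pow_pos h0 k).le hk).trans
    (pow_le_pow_left₀ h0.le h2.le k)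

theorem st_c1 (hsub : St_sub) (hT : St_T1) : St_c1 := by
  intro k
  cases k with
  | zero => simpa using (hT 0).1
  | succ k =>
    have h1 := (hT (k + 1)).1
    obtain ⟨b, hb1, hb⟩ : ∃ b : ℝ, 1 ≤ b ∧ b ^ (k + 1) = T (k + 1) :=
      ⟨T (k + 1) ^ (((k + 1 : ℕ) : ℝ)⁻¹), Real.one_le_rpow h1 (by positivity),
        Real.rpow_inv_natCast_pow (by linarith) (Nat.succ_ne_zero k)⟩
    have hb0 : 0 < b := by linarith
    have key := grow (U := T) (k := k) hb1 (fun H => (hT H).2.1) fun l ih => by
      have i1 := mul_le_mul_of_nonneg_left (ih l (by omega)) (by linarith : 0 ≤ T (k + 1))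
      have i2 : T (l + k + 1) ≤ T (k + 1) * T l := hsub (k + 1) l
      have e1 : 3 ^ k * b ^ (l + k + 1) = b ^ (k + 1) * (3 ^ k * b ^ l) := by ring
      rw [e1, hb]
      exact i2.trans i1
    have hle : cStar ≤ b := le_of_forall_gt_imp_ge_of_dense fun c hc =>
      csInf_le ⟨0, fun _ h => h.1.le⟩ ⟨hb0.trans hc, (ev_le hb0 hc (3 ^ k)).mono fun n hn => by
        rw [(hT n).2.2]
        exact ENNReal.ofReal_le_ofReal ((key n).trans hn)⟩
    rw [← hb]
    exact pow_le_pow_left₀ cStar_nonneg hle _

theorem st_rle (hf : St_f2) (hi : St_idx) (hE : St_tvE) (h2 : St_c2) (hT : St_T1) : St_rle := by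
  intro l r hH
  rcases le_or_gt r 0 with hr | hr
  · exact hr.trans (pow_nonneg cStar_nonneg l)
  have step : ∀ k, r * T k ≤ T (l + k) := by
    intro k
    obtain ⟨E, hE'⟩ := hi k l
    have e : T (l + k) = Tv (cmp (iterMaj k) (iterMaj l)) := by
      rw [T, funext hE']
      exact hE _ _ E _
    rw [e]
    exact hf _ _ (iterMaj k) (iterMaj l) r hr.le hH
  have pw_le : ∀ j, r ^ j ≤ T (l * j) := by
    intro j
    induction j with
    | zero => simpa using (hT 0).1
    | succ j ih =>
      rw [pow_succ', Nat.mul_succ, Nat.add_comm]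
      exact (mul_le_mul_of_nonneg_left ih hr.le).trans (step _)
  rcases Nat.eq_zero_or_pos l with rfl | hl
  · have h0 := step 0
    have h1 := (hT 0).1
    rw [pow_zero]
    rw [Nat.add_zero] at h0
    nlinarith
  by_contra hcon
  have h3 : ∀ᶠ x in 𝓝 cStar, x ^ l < r :=
    ContinuousAt.eventually_lt (f := fun x : ℝ => x ^ l) (g := fun _ : ℝ => r) (by fun_prop)
      (by fun_prop) (not_le.1 hcon)
  obtain ⟨c, hc, hcr⟩ := h3.exists_gt
  obtain ⟨N, hN⟩ := eventually_atTop.1 (h2 c hc)
  have h4 := (pw_le (N + 1)).trans (hN (l * (N + 1)) (by nlinarith))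
  rw [pow_mul] at h4
  exact absurd h4 (not_le.2 (pow_lt_pow_left₀ hcr
    (pow_nonneg (cStar_nonneg.trans hc.le) l) (Nat.succ_ne_zero N)))

end Pool.Agent.Lib.MJ29


/-! From a distribution on trees with small error to one weighted tree. -/

namespace Pool.Agent.Lib.MJ29

open Finset
open scoped ENNReal

namespace Berr

variable {ι : Type}

/-- a deterministic tree as a weighted tree -/
def toW : LT ι → WT ι
  | .leaf b => .leaf b
  | .query i t0 t1 => .query i (toW t0) (toW t1)

lemma P_toW (T : LT ι) (x : ι → Bool) : P (toW T) x = ind (T.out x) := by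
  induction T with
  | leaf b => rfl
  | query i t0 t1 h0 h1 => cases h : x i <;> simp only [toW, P, LT.out, h, cond, h0, h1]

lemma cost_toW (T : LT ι) (x : ι → Bool) : cost (toW T) x = T.len x := by
  induction T with
  | leaf b => simp [toW, cost, LT.len]
  | query i t0 t1 h0 h1 =>
    cases h : x i <;> simp only [toW, cost, LT.len, h, cond, h0, h1, Nat.cast_add, Nat.cast_one]

/-- finite sub-convex combinations of trees -/
lemma fin_mix (F : Finset (LT ι)) : ∀ w : LT ι → ℝ, (∀ T, 0 ≤ w T) → ∑ T ∈ F, w T ≤ 1 →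
    ∃ t : WT ι, ∀ x, P t x = ∑ T ∈ F, w T * ind (T.out x) ∧
      cost t x = ∑ T ∈ F, w T * (T.len x : ℝ) := by
  classical
  induction F using Finset.induction_on with
  | empty => exact fun w _ _ => ⟨.leaf false, fun x => ⟨by simp [P], by simp [cost]⟩⟩
  | insert a F ha ih =>
    intro w hw hs
    rw [sum_insert ha] at hs
    have h0 : 0 ≤ ∑ T ∈ F, w T := sum_nonneg fun T _ => hw T
    have h1 : w a ≤ 1 := by linarith
    have h2 : 0 ≤ 1 - w a := sub_nonneg.2 h1
    have key : ∀ T ∈ F, (1 - w a) * (w T / (1 - w a)) = w T := fun T hT => by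
      by_cases e : 1 - w a = 0
      · have h3 : w T ≤ ∑ T ∈ F, w T := single_le_sum (fun T _ => hw T) hT
        have h4 := hw T
        rw [e, zero_mul]
        linarith
      · exact mul_div_cancel₀ _ e
    obtain ⟨t, ht⟩ := ih (fun T => w T / (1 - w a)) (fun T => div_nonneg (hw T) h2) (by
      rw [← sum_div]
      exact div_le_one_of_le₀ (by linarith) h2)
    refine ⟨.mix ⟨w a, hw a, h1⟩ (toW a) t, fun x => ⟨?_, ?_⟩⟩
    · rw [sum_insert ha]
      simp only [P, P_toW, (ht x).1, mul_sum]
      exact congrArg _ (sum_congr rfl fun T hT => by rw [← mul_assoc, key T hT])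
    · rw [sum_insert ha]
      simp only [cost, cost_toW, (ht x).2, mul_sum]
      exact congrArg _ (sum_congr rfl fun T hT => by rw [← mul_assoc, key T hT])

lemma ofReal_sum {α : Type} (A : PMF α) (F : Finset α) (g : α → ℝ) (hg : ∀ a, 0 ≤ g a) :
    ENNReal.ofReal (∑ a ∈ F, (A a).toReal * g a) = ∑ a ∈ F, A a * ENNReal.ofReal (g a) := by
  rw [ENNReal.ofReal_sum_of_nonneg fun a _ => mul_nonneg ENNReal.toReal_nonneg (hg a)]
  exact sum_congr rfl fun a _ => by
    rw [ENNReal.ofReal_mul ENNReal.toReal_nonneg, ENNReal.ofReal_toReal (A.apply_ne_top a)]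

lemma sum_le {α : Type} (A : PMF α) (F : Finset α) (g : α → ℝ) (hg : ∀ a, 0 ≤ g a) {c : ℝ}
    (hc : 0 ≤ c) (h : ∑' a, A a * ENNReal.ofReal (g a) ≤ ENNReal.ofReal c) :
    ∑ a ∈ F, (A a).toReal * g a ≤ c := by
  rw [← ENNReal.ofReal_le_ofReal_iff hc, ofReal_sum A F g hg]
  exact (ENNReal.sum_le_tsum F).trans h

lemma big {α : Type} (A : PMF α) {η : ℝ} (hη : 0 < η) :
    ∃ F : Finset α, 1 - η ≤ ∑ a ∈ F, (A a).toReal := by
  have h1 : ENNReal.ofReal (1 - η) < ⨆ F : Finset α, ∑ a ∈ F, A a := by
    rw [← ENNReal.tsum_eq_iSup_sum, A.tsum_coe]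
    exact ENNReal.ofReal_lt_one.2 (by linarith)
  obtain ⟨F, hF⟩ := lt_iSup_iff.1 h1
  refine ⟨F, ?_⟩
  have h2 := ofReal_sum A F (fun _ => 1) fun _ => zero_le_one
  simp only [mul_one, ENNReal.ofReal_one] at h2
  rw [← h2] at hF
  exact (ENNReal.ofReal_le_ofReal_iff (sum_nonneg fun _ _ => ENNReal.toReal_nonneg)).1 hF.le

end Berr

theorem st_berr : St_berr := by
  intro ι f M δ δ' hδ hδ' h
  have hM : 0 ≤ M := (ENNReal.ofReal_pos.1 (lt_of_le_of_lt zero_le h)).le
  obtain ⟨A, hA⟩ := iInf_lt_iff.1 h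
  obtain ⟨he, hc⟩ := iInf_lt_iff.1 hA
  obtain ⟨F, hF⟩ := Berr.big A (sub_pos.2 hδ')
  have hs : ∑ T ∈ F, (A T).toReal ≤ 1 := by
    have := Berr.sum_le A F (fun _ => 1) (fun _ => zero_le_one) zero_le_one
      (by simp only [ENNReal.ofReal_one, mul_one, A.tsum_coe, le_refl])
    simpa only [mul_one] using this
  obtain ⟨t, ht⟩ := Berr.fin_mix F (fun T => (A T).toReal) (fun _ => ENNReal.toReal_nonneg) hs
  refine ⟨t, fun x => ⟨?_, ?_⟩⟩
  · rw [(ht x).2]
    refine Berr.sum_le A F _ (fun T => Nat.cast_nonneg _) hM ?_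
    simp only [ENNReal.ofReal_natCast]
    exact (le_iSup (fun x : ι → Bool => ∑' T, A T * (T.len x : ℝ≥0∞)) x).trans hc.le
  · have h1 := Berr.sum_le A F (fun T => if T.out x = f x then 0 else 1)
      (fun T => by split_ifs <;> norm_num) hδ (by
        refine le_trans (le_of_eq (tsum_congr fun T => ?_)) (he x)
        split_ifs <;> simp)
    rw [(ht x).1]
    cases e : f x
    · have h2 : ∑ T ∈ F, (A T).toReal * ind (T.out x) =
          ∑ T ∈ F, (A T).toReal * (if T.out x = f x then (0 : ℝ) else 1) :=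
        sum_congr rfl fun T _ => by rw [e]; cases T.out x <;> simp
      have h3 : 0 ≤ ∑ T ∈ F, (A T).toReal * ind (T.out x) :=
        sum_nonneg fun T _ => mul_nonneg ENNReal.toReal_nonneg (ind_nonneg _)
      rw [ind_false, sub_zero, abs_of_nonneg h3, h2]
      linarith
    · have h2 : ∑ T ∈ F, (A T).toReal * ind (T.out x) = ∑ T ∈ F, (A T).toReal -
          ∑ T ∈ F, (A T).toReal * (if T.out x = f x then (0 : ℝ) else 1) := by
        rw [← sum_sub_distrib]
        exact sum_congr rfl fun T _ => by rw [e]; cases T.out x <;> simp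
      have h3 : 0 ≤ ∑ T ∈ F, (A T).toReal * (if T.out x = f x then (0 : ℝ) else 1) :=
        sum_nonneg fun T _ => mul_nonneg ENNReal.toReal_nonneg (by split_ifs <;> norm_num)
      rw [ind_true, h2, abs_le]
      constructor <;> linarith

end Pool.Agent.Lib.MJ29


/-! Bounded error is at most zero error. -/

namespace Pool.Agent.Lib.MJ29

open scoped ENNReal
open Pool.Agent.Lib.MP_099303_lc

namespace Errle

variable {ι : Type} [DecidableEq ι]

/-- label the leaves by the value on a background input updated along the path -/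
def lab (f : (ι → Bool) → Bool) : DT ι → (ι → Bool) → LT ι
  | .halt, z => .leaf (f z)
  | .query i t0 t1, z =>
      .query i (lab f t0 (Function.update z i false)) (lab f t1 (Function.update z i true))

lemma lab_len (f : (ι → Bool) → Bool) (T : DT ι) (z x : ι → Bool) :
    (lab f T z).len x = (T.queried x).length := by
  induction T generalizing z with
  | halt => rfl
  | query i t0 t1 h0 h1 =>
    cases h : x i <;> simp [lab, LT.len, DT.queried, h, h0, h1, add_comm]

lemma lab_out (f : (ι → Bool) → Bool) (T : DT ι) (z x : ι → Bool) :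
    ∃ y, (lab f T z).out x = f y ∧ ∀ j, (z j = x j ∨ j ∈ T.queried x) → y j = x j := by
  induction T generalizing z with
  | halt => exact ⟨z, rfl, fun j hj => hj.resolve_right (by simp [DT.queried])⟩
  | query i t0 t1 h0 h1 =>
    have key : ∀ (L : List ι) (j : ι), (z j = x j ∨ j ∈ i :: L) →
        (Function.update z i (x i) j = x j ∨ j ∈ L) := fun L j hj => by
      by_cases hji : j = i
      · subst hji; exact Or.inl (Function.update_self _ _ _)
      · rw [Function.update_of_ne hji]
        exact hj.imp_right fun h => (List.mem_cons.1 h).resolve_left hji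
    cases h : x i
    · obtain ⟨y, e, hy⟩ := h0 (Function.update z i false)
      refine ⟨y, by simpa [lab, LT.out, h] using e, fun j hj => hy j ?_⟩
      rw [← h]
      exact key _ j (by simpa [DT.queried, h] using hj)
    · obtain ⟨y, e, hy⟩ := h1 (Function.update z i true)
      refine ⟨y, by simpa [lab, LT.out, h] using e, fun j hj => hy j ?_⟩
      rw [← h]
      exact key _ j (by simpa [DT.queried, h] using hj)

lemma tsum_map {α β : Type} (A : PMF α) (g : α → β) (F : β → ℝ≥0∞) :
    ∑' b, A.map g b * F b = ∑' a, A a * F (g a) := by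
  classical
  simp only [PMF.map_apply, ← ENNReal.tsum_mul_right]
  rw [ENNReal.tsum_comm]
  refine tsum_congr fun a => ?_
  rw [tsum_eq_single (g a) fun b hb => by rw [if_neg hb, zero_mul], if_pos rfl]

end Errle

open Errle in
theorem st_errle : St_errle := by
  intro ι _ f δ
  unfold R Rerr
  refine le_iInf₂ fun A hA => ?_
  refine iInf₂_le_of_le (A.map fun T => lab f T fun _ => false) (fun x => ?_) (iSup_mono fun x => ?_)
  · rw [tsum_map, ENNReal.tsum_eq_zero.2 fun T => ?_]
    · exact zero_le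
    · by_cases hT : T ∈ A.support
      · obtain ⟨y, e, hy⟩ := lab_out f T (fun _ => false) x
        rw [e, hA T hT x y fun i hi => hy i (Or.inr hi), if_pos rfl, mul_zero]
      · rw [(PMF.apply_eq_zero_iff A T).2 hT, zero_mul]
  · rw [tsum_map]
    simp only [lab_len, le_refl]

end Pool.Agent.Lib.MJ29


namespace Pool.Agent.Lib.MJ29

open Finset Pool.Agent.Lib.MP_099303_lc
open scoped ENNReal

namespace Rsge

variable {ι : Type}

def toW : DT ι → WT ι
  | .halt => .leaf false
  | .query i t0 t1 => .query i (toW t0) (toW t1)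

variable [DecidableEq ι]

lemma hc_toW (A : DT ι) (z : ι → Bool) (l : ι) : hc (toW A) z l = upto l A z := by
  induction A with
  | halt => simp [toW, upto, hc_leaf]
  | query i t0 t1 h0 h1 =>
    rw [toW, hc_query, upto, h0, h1]
    split_ifs
    · simp
    · cases z i <;> simp

lemma hit_toW (A : DT ι) (z : ι → Bool) (l : ι) (h : l ∈ A.queried z) :
    hit (toW A) z l = 1 := by
  induction A with
  | halt => simp [DT.queried] at h
  | query i t0 t1 h0 h1 =>
    rw [toW, hit_query]
    split_ifs with e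
    · rfl
    · rw [DT.queried, List.mem_cons] at h
      rcases h with h | h
      · exact absurd h.symm e
      · cases hz : z i
        · rw [hz] at h; exact h0 h
        · rw [hz] at h; exact h1 h

end Rsge

theorem st_rsge : St_rsge := by
  rintro ι _ _ f r ⟨s, hs, hv, h⟩
  refine le_iInf₂ fun A hA => ?_
  set S := ⨆ (z : ι → Bool) (l : ι) (_ : Pivot f z l), ∑' T, A T * (upto l T z : ℝ≥0∞)
  have h1 : ∑ a, ENNReal.ofReal (s a) * ∑' T, A T * (upto a.2 T a.1 : ℝ≥0∞) ≤ S := by
    have : S = ∑ a, ENNReal.ofReal (s a) * S := by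
      rw [← sum_mul, ← ENNReal.ofReal_sum_of_nonneg (fun a _ => hs.1 a), hs.2]
      simp
    rw [this]
    refine sum_le_sum fun a _ => ?_
    by_cases e : s a = 0
    · simp [e]
    · refine mul_le_mul_right ?_ _
      exact le_iSup_of_le a.1 (le_iSup₂_of_le a.2 (hv a e) le_rfl)
  refine le_trans ?_ h1
  simp only [← ENNReal.tsum_mul_left]
  rw [← Summable.tsum_finsetSum (fun _ _ => ENNReal.summable), ← one_mul (ENNReal.ofReal r),
    ← A.tsum_coe, ← ENNReal.tsum_mul_right]
  refine ENNReal.tsum_le_tsum fun T => ?_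
  by_cases hT : T ∈ A.support
  · have h2 := ENNReal.ofReal_le_ofReal
      (h (Rsge.toW T) fun a ha => Rsge.hit_toW T _ _ (hA T hT a.1 a.2 ha))
    rw [Ex, ENNReal.ofReal_sum_of_nonneg
      (fun a _ => mul_nonneg (hs.1 a) (hc_nonneg _ _ _))] at h2
    refine (mul_le_mul_right h2 _).trans (le_of_eq ?_)
    rw [mul_sum]
    refine sum_congr rfl fun a _ => ?_
    rw [ENNReal.ofReal_mul (hs.1 a), Rsge.hc_toW, ENNReal.ofReal_natCast]
    ring
  · rw [PMF.mem_support_iff, not_not] at hT
    simp [hT]

end Pool.Agent.Lib.MJ29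

namespace Pool.Agent.Lib.MJ29

open Finset Pool.Agent.Lib.MP_099303_lc
open scoped ENNReal

namespace Rs29

variable {ι : Type} [DecidableEq ι]

lemma law (t : WT ι) : ∃ A : PMF (DT ι),
    (∀ T ∈ A.support, ∀ z l, hit t z l = 1 → l ∈ T.queried z) ∧
    ∀ z l, ∑' T, A T * (upto l T z : ℝ≥0∞) = ENNReal.ofReal (hc t z l) := by
  induction t with
  | leaf a =>
    refine ⟨PMF.pure .halt, fun T _ z l h => ?_, fun z l => ?_⟩
    · simp [hit_leaf] at h
    · rw [Pmf.mean_pure]
      simp [upto, hc_leaf]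
  | query i t0 t1 h0 h1 =>
    obtain ⟨A0, p0, q0⟩ := h0
    obtain ⟨A1, p1, q1⟩ := h1
    refine ⟨A0.bind fun T0 => A1.bind fun T1 => PMF.pure (.query i T0 T1), ?_, fun z l => ?_⟩
    · intro T hT z l h
      simp only [PMF.mem_support_bind_iff, PMF.mem_support_pure_iff] at hT
      obtain ⟨T0, m0, T1, m1, rfl⟩ := hT
      rw [hit_query] at h
      by_cases e : i = l
      · simp [DT.queried, e]
      · rw [if_neg e] at h
        cases ex : z i
        · rw [ex] at h
          simp [DT.queried, ex, p0 T0 m0 z l h]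
        · rw [ex] at h
          simp [DT.queried, ex, p1 T1 m1 z l h]
    · simp only [Pmf.mean_bind, Pmf.mean_pure, hc_query, upto]
      by_cases e : i = l
      · simp [e, ENNReal.tsum_mul_right, PMF.tsum_coe]
      · cases ex : z i
        · simp only [e, if_false, cond, Nat.cast_add, Nat.cast_one, ENNReal.tsum_mul_right,
            PMF.tsum_coe, one_mul, mul_add, ENNReal.tsum_add, q0, mul_one]
          rw [ENNReal.ofReal_add zero_le_one (hc_nonneg _ _ _), ENNReal.ofReal_one]
        · simp only [e, if_false, cond, Nat.cast_add, Nat.cast_one, ENNReal.tsum_mul_right,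
            PMF.tsum_coe, one_mul, mul_add, ENNReal.tsum_add, q1, mul_one]
          rw [ENNReal.ofReal_add zero_le_one (hc_nonneg _ _ _), ENNReal.ofReal_one]
  | mix p t0 t1 h0 h1 =>
    obtain ⟨A0, p0, q0⟩ := h0
    obtain ⟨A1, p1, q1⟩ := h1
    have a := p.2.1
    have c := sub_nonneg.2 p.2.2
    refine ⟨(Pmf.coin p).bind fun r => bif r then A0 else A1, ?_, fun z l => ?_⟩
    · intro T hT z l h
      obtain ⟨r, hr, m⟩ := (PMF.mem_support_bind_iff _ _ _).1 hT
      rw [PMF.mem_support_iff, Pmf.coin_apply, Ne, ENNReal.ofReal_eq_zero, not_le] at hr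
      rw [hit_mix] at h
      have b0 := And.intro (hit_nonneg t0 z l) (hit_le_one t0 z l)
      have b1 := And.intro (hit_nonneg t1 z l) (hit_le_one t1 z l)
      cases r
      · exact p1 T m z l (Pmf.extreme (b := true) (p := 1 - p) hr (by linarith) b1 b0
          (by rw [ind_true]; linarith))
      · exact p0 T m z l (Pmf.extreme (b := true) hr p.2.2 b0 b1 h)
    · rw [Pmf.mean_bind, tsum_fintype, Fintype.sum_bool]
      simp only [Pmf.coin_apply, cond, q0, q1, hc_mix]
      rw [ENNReal.ofReal_add (mul_nonneg a (hc_nonneg _ _ _)) (mul_nonneg c (hc_nonneg _ _ _)),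
        ENNReal.ofReal_mul a, ENNReal.ofReal_mul c]

end Rs29

theorem rsle29 (hmm : St_mm) : St_rsle := by
  intro ι _ _ f r h
  let S : Set ((ι → Bool) × ι → ℝ) := {v | ∃ t : WT ι, (∀ a, Valid f a → hit t a.1 a.2 = 1) ∧
    v = fun a => hc t a.1 a.2 - r}
  have hc' : Convex ℝ S := by
    rintro _ ⟨t0, h0, rfl⟩ _ ⟨t1, h1, rfl⟩ a b ha hb hab
    obtain rfl : b = 1 - a := by linarith
    refine ⟨.mix ⟨a, ha, by linarith⟩ t0 t1, fun x hx => ?_, funext fun x => ?_⟩
    · rw [hit_mix, h0 x hx, h1 x hx]; ring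
    · simp only [hc_mix, Pi.add_apply, Pi.smul_apply, smul_eq_mul]; ring
  have hn : S.Nonempty := ⟨_, Rsge.toW (full (univ : Finset ι).toList), fun a _ =>
    Rsge.hit_toW _ _ _ (by rw [queried_full]; simp), rfl⟩
  rcases hmm _ (Valid f) S hc' hn with ⟨_, ⟨t, h1, rfl⟩, h2⟩ | ⟨ν, h1, h2, h3⟩
  · exfalso
    obtain ⟨A, p, q⟩ := Rs29.law t
    refine absurd h (not_lt.2 (iInf₂_le_of_le A (fun T hT z l hz => p T hT z l (h1 (z, l) hz))
      (iSup_le fun z => iSup₂_le fun l hz => ?_)))
    rw [q]
    exact ENNReal.ofReal_le_ofReal (sub_neg.1 (h2 (z, l) hz)).le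
  · refine ⟨ν, h1, h2, fun t ht => ?_⟩
    have := h3 _ ⟨t, ht, rfl⟩
    rw [Ex_sub, Ex_const h1] at this
    linarith

end Pool.Agent.Lib.MJ29
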