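import Pool.Agent.Lib.MJ29.Top
import Pool.Agent.Lib.MJ29.Low
import Pool.Agent.Lib.MJ29.Rows

/-! All rows put together. -/

namespace Pool.Agent.Lib.MJ29

open Pool.Agent.Lib.MP_099303_lc

theorem a_up : St_up := st_up st_pmf
theorem a_alg : St_alg := st_alg st_mm st_ofDT st_fin
theorem a_yao : St_yao := st_yao st_mm st_ofDT a_up
theorem a_T1 : St_T1 := st_T1 (st_one a_alg) st_fin
theorem a_tvE : St_tvE := st_tvE a_alg a_up st_comp
theorem a_f2 : St_f2 := st_f2 st_cont st_dd st_ds st_res a_yao a_alg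
theorem a_lock : St_lock := st_lock st_cont st_ds (st_hyb st_res) st_res st_push
theorem a_lift : St_lift := st_lift st_comp a_alg st_idx
theorem a_sub : St_sub := st_sub a_lift a_alg a_up a_T1
theorem a_stepT : St_stepT := st_stepT st_step a_alg a_up
theorem a_c1 : St_c1 := st_c1 a_sub a_T1
theorem a_rle : St_rle := st_rle a_f2 st_idx a_tvE st_c2 a_T1
theorem a_lockT : St_lockT :=
  st_lockT (st_dich st_mm) a_lock (st_hardE st_push) st_idx3 st_valid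

theorem a_main : (∃ K0 : ℝ, 0 < K0 ∧ ∀ k, Hard (iterMaj k) (cStar ^ k / K0)) ∧
    ∃ K : ℝ, ∀ k, T k ≤ K * cStar ^ k :=
  main2 st_amp a_lift a_stepT a_T1 a_c1 st_seqG st_seqF a_lockT st_hard1 a_rle st_restr
    low_cStar high_cStar

theorem theta : ∃ K : ℝ, ∀ k, ENNReal.ofReal (cStar ^ k) ≤ R (iterMaj k) ∧
    R (iterMaj k) ≤ ENNReal.ofReal (K * cStar ^ k) := by
  obtain ⟨K, hK⟩ := a_main.2
  refine ⟨K, fun k => ?_⟩
  rw [(a_T1 k).2.2]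
  exact ⟨ENNReal.ofReal_le_ofReal (a_c1 k), ENNReal.ofReal_le_ofReal (hK k)⟩

theorem sab_le (h : St_rsle) (k : ℕ) : RS (iterMaj k) ≤ ENNReal.ofReal (cStar ^ k) := by
  refine le_of_not_gt fun h1 => ?_
  obtain ⟨r, r0, h2, h3⟩ := ENNReal.lt_iff_exists_real_btwn.1 h1
  exact absurd (ENNReal.ofReal_le_ofReal (a_rle k r (h _ _ r h3))) (not_le.2 h2)

theorem le_sab (h : St_rsge) : ∃ K : ℝ, ∀ k,
    R (iterMaj k) ≤ ENNReal.ofReal K * RS (iterMaj k) := by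
  obtain ⟨⟨K0, K00, h0⟩, K, hK⟩ := a_main
  have c0 : ∀ k, 0 < cStar ^ k := fun k => pow_pos (lt_of_lt_of_le (by norm_num) low_cStar) k
  have K1 : 0 ≤ K := by
    have := (a_T1 0).1.trans (hK 0)
    simp at this
    linarith
  refine ⟨K * K0, fun k => ?_⟩
  rw [(a_T1 k).2.2]
  refine le_trans ?_ (mul_le_mul_right (h _ _ _ (h0 k)) _)
  rw [← ENNReal.ofReal_mul (by positivity)]
  refine ENNReal.ofReal_le_ofReal ((hK k).trans (le_of_eq ?_))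
  field_simp

theorem le_err (h : St_berr) {δ : ℝ} (h0 : 0 ≤ δ) (hδ : δ < 1 / 2) : ∃ K : ℝ, ∀ k,
    R (iterMaj k) ≤ ENNReal.ofReal K * Rerr (iterMaj k) δ := by
  obtain ⟨κ, κ0, hκ⟩ := err_lower st_amp a_lift a_stepT a_T1 a_c1 st_seqG h low_cStar h0 hδ
  obtain ⟨K, hK⟩ := a_main.2
  have K1 : 0 ≤ K := by
    have := (a_T1 0).1.trans (hK 0)
    simp at this
    linarith
  refine ⟨K / κ, fun k => ?_⟩
  rw [(a_T1 k).2.2]
  refine le_trans ?_ (mul_le_mul_right (hκ k) _)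
  rw [← ENNReal.ofReal_mul (by positivity)]
  refine ENNReal.ofReal_le_ofReal ((hK k).trans (le_of_eq ?_))
  field_simp

theorem sandwich : ∃ K : ℝ, ∀ k : ℕ,
    RS (iterMaj k) ≤ ENNReal.ofReal (cStar ^ k) ∧
    ENNReal.ofReal (cStar ^ k) ≤ R (iterMaj k) ∧
    R (iterMaj k) ≤ ENNReal.ofReal K * RS (iterMaj k) := by
  obtain ⟨K, hK⟩ := le_sab st_rsge
  obtain ⟨K', hK'⟩ := theta
  exact ⟨K, fun k => ⟨sab_le (rsle29 st_mm) k, (hK' k).1, hK k⟩⟩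

theorem bounded {δ : ℝ} (h0 : 0 ≤ δ) (hδ : δ < 1 / 2) : ∃ K : ℝ, ∀ k : ℕ,
    Rerr (iterMaj k) δ ≤ R (iterMaj k) ∧
    R (iterMaj k) ≤ ENNReal.ofReal K * Rerr (iterMaj k) δ :=
  (le_err st_berr h0 hδ).imp fun _ h k => ⟨st_errle _ _ _, h k⟩

end Pool.Agent.Lib.MJ29
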