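import Pool.Agent.Lib.MJ29.Defs

/-! Amplification: a hint of advantage `g` gives error `1 / 10` at a constant factor. -/

namespace Pool.Agent.Lib.MJ29

namespace Amp

variable {ι : Type}

theorem P_mem (t : WT ι) (x : ι → Bool) : 0 ≤ P t x ∧ P t x ≤ 1 := by
  induction t with
  | leaf b => cases b <;> simp [P, ind]
  | query i t0 t1 h0 h1 => cases h : x i <;> simp [P, h, h0, h1]
  | mix p t0 t1 h0 h1 =>
    have hp0 : (0 : ℝ) ≤ p := p.2.1
    have hp1 : (p : ℝ) ≤ 1 := p.2.2
    simp only [P]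
    constructor <;> nlinarith [h0.1, h0.2, h1.1, h1.2, mul_nonneg hp0 h0.1,
      mul_nonneg (sub_nonneg.2 hp1) h1.1, mul_nonneg hp0 (sub_nonneg.2 h0.2),
      mul_nonneg (sub_nonneg.2 hp1) (sub_nonneg.2 h1.2)]

theorem cost_nn (t : WT ι) (x : ι → Bool) : 0 ≤ cost t x := by
  induction t with
  | leaf b => simp [cost]
  | query i t0 t1 h0 h1 => cases h : x i <;> simp only [cost, h, cond_true, cond_false] <;> linarith
  | mix p t0 t1 h0 h1 =>
    have hp0 : (0 : ℝ) ≤ p := p.2.1
    have hp1 : (p : ℝ) ≤ 1 := p.2.2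
    simp only [cost]
    exact add_nonneg (mul_nonneg hp0 h0) (mul_nonneg (sub_nonneg.2 hp1) h1)

theorem P_bd (t : WT ι) (k : Bool → WT ι) (x : ι → Bool) :
    P (bind t k) x = P t x * P (k true) x + (1 - P t x) * P (k false) x := by
  induction t with
  | leaf b => cases b <;> simp [P, bind, ind]
  | query i t0 t1 h0 h1 => cases h : x i <;> simp only [P, bind, h, cond_true, cond_false, h0, h1]
  | mix p t0 t1 h0 h1 => simp only [P, bind, h0, h1]; ring

theorem cost_bd (t : WT ι) (k : Bool → WT ι) (x : ι → Bool) :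
    cost (bind t k) x =
      cost t x + (P t x * cost (k true) x + (1 - P t x) * cost (k false) x) := by
  induction t with
  | leaf b => cases b <;> simp [P, cost, bind, ind]
  | query i t0 t1 h0 h1 =>
    cases h : x i <;> simp only [P, cost, bind, h, cond_true, cond_false, h0, h1] <;> ring
  | mix p t0 t1 h0 h1 => simp only [P, cost, bind, h0, h1]; ring

/-- majority of three independent runs -/
def maj3 (t : WT ι) : WT ι :=
  bind t fun a => bind t fun b => bif a == b then .leaf a else t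

theorem P_maj3 (t : WT ι) (x : ι → Bool) : P (maj3 t) x = 3 * P t x ^ 2 - 2 * P t x ^ 3 := by
  simp only [maj3, P_bd]
  simp [P, ind]
  ring

theorem cost_maj3 (t : WT ι) (x : ι → Bool) : cost (maj3 t) x ≤ 3 * cost t x := by
  have h := P_mem t x
  have hc := cost_nn t x
  have e : cost (maj3 t) x = 2 * cost t x + 2 * (P t x * (1 - P t x)) * cost t x := by
    simp only [maj3, cost_bd]
    simp [cost]
    ring
  have h2 : 2 * (P t x * (1 - P t x)) ≤ 1 := by nlinarith [sq_nonneg (2 * P t x - 1)]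
  rw [e]
  nlinarith [mul_le_mul_of_nonneg_right h2 hc]

theorem key (u δ : ℝ) (h0 : 0 ≤ δ) (h1 : δ ≤ 2 / 5) (h2 : δ ≤ u) (h3 : u ≤ 1 / 2) :
    11 / 10 * δ ≤ 3 / 2 * u - 2 * u ^ 3 := by
  have hu : 0 ≤ u := h0.trans h2
  have a1 : u ^ 2 ≤ 1 / 4 := by nlinarith
  have a2 : δ ^ 2 ≤ 4 / 25 := by nlinarith
  have a3 : u * δ ≤ 1 / 4 := by nlinarith
  have b1 : 0 ≤ (u - δ) * (3 / 2 - 2 * (u ^ 2 + u * δ + δ ^ 2)) :=
    mul_nonneg (sub_nonneg.2 h2) (by linarith)
  have b2 : 0 ≤ δ * (2 / 5 - 2 * δ ^ 2) := mul_nonneg h0 (by linarith)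
  nlinarith

theorem step {f : (ι → Bool) → Bool} {M δ : ℝ} (h0 : 0 ≤ δ) (h1 : δ ≤ 2 / 5)
    (h : Apx f M (1 / 2 - δ)) : Apx f (3 * M) (1 / 2 - 11 / 10 * δ) := by
  obtain ⟨t, ht⟩ := h
  refine ⟨maj3 t, fun x => ⟨(cost_maj3 t x).trans (by linarith [(ht x).1]), ?_⟩⟩
  have hp := P_mem t x
  have hq := P_mem (maj3 t) x
  have he := abs_le.1 (ht x).2
  rw [P_maj3] at hq ⊢
  rw [abs_le]
  cases hf : f x
  · simp only [hf, ind, cond_false] at he ⊢
    have k := key (1 / 2 - P t x) δ h0 h1 (by linarith [he.2]) (by linarith [hp.1])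
    constructor <;> nlinarith [hq.1]
  · simp only [hf, ind, cond_true] at he ⊢
    have k := key (P t x - 1 / 2) δ h0 h1 (by linarith [he.1]) (by linarith [hp.2])
    constructor <;> nlinarith [hq.2]

theorem mono {f : (ι → Bool) → Bool} {M M' e e' : ℝ} (h : Apx f M e) (hM : M ≤ M') (he : e ≤ e') :
    Apx f M' e' := by
  obtain ⟨t, ht⟩ := h
  exact ⟨t, fun x => ⟨(ht x).1.trans hM, (ht x).2.trans he⟩⟩

theorem iter (f : (ι → Bool) → Bool) (k : ℕ) : ∀ M δ : ℝ, 0 ≤ M → 0 ≤ δ →
    2 / 5 ≤ δ * (11 / 10) ^ k → Apx f M (1 / 2 - δ) → Apx f (3 ^ k * M) (1 / 10) := by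
  induction k with
  | zero =>
    intro M δ _ _ hk h
    exact mono h (by simp) (by simp only [pow_zero] at hk; linarith)
  | succ k ih =>
    intro M δ hM hδ hk h
    rcases le_total (2 / 5) δ with hc | hc
    · refine mono h ?_ (by linarith)
      have : (1 : ℝ) ≤ 3 ^ (k + 1) := one_le_pow₀ (by norm_num)
      nlinarith
    · have := ih (3 * M) (11 / 10 * δ) (by linarith) (by linarith)
        (by rw [pow_succ] at hk; linarith) (step hδ hc h)
      exact mono this (by rw [pow_succ]; linarith) le_rfl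

theorem shift [Fintype ι] [DecidableEq ι] {f : (ι → Bool) → Bool} {m g : ℝ} (hg : 0 < g)
    (h : Hint f m g) : 0 ≤ m ∧ (Apx f m 0 ∨ Apx f m (1 / 2 - g / 4)) := by
  obtain ⟨t, hc, ht⟩ := h
  have hm : 0 ≤ m := (cost_nn t fun _ => true).trans (hc _)
  refine ⟨hm, ?_⟩
  by_cases h1 : ∃ x, f x = true
  · by_cases h0 : ∃ x, f x = false
    · right
      obtain ⟨x1, hx1⟩ := h1
      obtain ⟨y, hy, hmax⟩ := Set.exists_max_image {x | f x = false} (fun x => P t x)
        (Set.toFinite _) h0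
      have hb := P_mem t y
      have ha := P_mem t x1
      have hgap := ht x1 y hx1 hy
      refine ⟨.mix ⟨1 / 2, by norm_num, by norm_num⟩ t
        (.mix ⟨1 - (P t y + g / 2), by linarith [ha.2], by linarith [hb.1]⟩ (.leaf true)
          (.leaf false)), fun x => ⟨?_, ?_⟩⟩
      · simp only [cost]
        linarith [hc x]
      · have hp := P_mem t x
        rw [abs_le]
        cases hf : f x
        · have := hmax x hf
          simp only [P, ind, cond_true, cond_false] at this ⊢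
          constructor <;> linarith [hp.1, ha.2]
        · have := ht x y hf hy
          simp only [P, ind, cond_true, cond_false]
          constructor <;> linarith [hp.2, hb.1]
    · left
      refine ⟨.leaf true, fun x => ⟨by simpa [cost] using hm, ?_⟩⟩
      have : f x = true := by
        cases hf : f x
        · exact absurd ⟨x, hf⟩ h0
        · rfl
      simp [P, this]
  · left
    refine ⟨.leaf false, fun x => ⟨by simpa [cost] using hm, ?_⟩⟩
    have : f x = false := by
      cases hf : f x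
      · rfl
      · exact absurd ⟨x, hf⟩ h1
    simp [P, this]

end Amp

theorem st_amp : St_amp := by
  intro g hg
  obtain ⟨k, hk⟩ := pow_unbounded_of_one_lt (2 / 5 / (g / 4)) (by norm_num : (1 : ℝ) < 11 / 10)
  have hg4 : 0 < g / 4 := by linarith
  have hk' : 2 / 5 ≤ g / 4 * (11 / 10) ^ k := by
    rw [div_lt_iff₀ hg4] at hk
    linarith
  refine ⟨3 ^ k, by positivity, fun ι _ _ f m h => ?_⟩
  obtain ⟨hm, h | h⟩ := Amp.shift hg h
  · refine Amp.mono h ?_ (by norm_num)
    have : (1 : ℝ) ≤ 3 ^ k := one_le_pow₀ (by norm_num)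
    nlinarith
  · exact Amp.iter f k m (g / 4) hm hg4.le hk' h

end Pool.Agent.Lib.MJ29
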