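import Pool.Agent.Lib.MJ29.Defs

/-! Basic lemmas on randomised labelled trees. -/

namespace Pool.Agent.Lib.MJ29

open Finset Pool.Agent.Lib.MP_099303_lc

variable {ι J α : Type}

lemma ind_nonneg (b : Bool) : 0 ≤ ind b := by cases b <;> simp [ind]

lemma ind_le_one (b : Bool) : ind b ≤ 1 := by cases b <;> simp [ind]

@[simp] lemma ind_true : ind true = 1 := rfl

@[simp] lemma ind_false : ind false = 0 := rfl

lemma mix_le {p : unitInterval} {a b a' b' : ℝ} (h : a ≤ a') (h' : b ≤ b') :
    p * a + (1 - p) * b ≤ p * a' + (1 - p) * b' := by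
  have h0 := p.2.1
  have h1 := p.2.2
  nlinarith [mul_le_mul_of_nonneg_left h h0, mul_le_mul_of_nonneg_left h' (sub_nonneg.2 h1)]

lemma mix_le_const {p : unitInterval} {a b c : ℝ} (h : a ≤ c) (h' : b ≤ c) :
    p * a + (1 - p) * b ≤ c := (mix_le h h').trans (le_of_eq (by ring))

lemma const_le_mix {p : unitInterval} {a b c : ℝ} (h : c ≤ a) (h' : c ≤ b) :
    c ≤ p * a + (1 - p) * b := (le_of_eq (by ring)).trans (mix_le h h')

lemma P_nonneg (t : WT ι) (x : ι → Bool) : 0 ≤ P t x := by
  induction t with
  | leaf b => exact ind_nonneg b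
  | query i t0 t1 h0 h1 => cases h : x i <;> simpa [P, h]
  | mix p t0 t1 h0 h1 => exact const_le_mix h0 h1

lemma P_le_one (t : WT ι) (x : ι → Bool) : P t x ≤ 1 := by
  induction t with
  | leaf b => exact ind_le_one b
  | query i t0 t1 h0 h1 => cases h : x i <;> simpa [P, h]
  | mix p t0 t1 h0 h1 => exact mix_le_const h0 h1

lemma cost_nonneg (t : WT ι) (x : ι → Bool) : 0 ≤ cost t x := by
  induction t with
  | leaf b => exact le_rfl
  | query i t0 t1 h0 h1 => cases h : x i <;> simp only [cost, h, cond] <;> linarith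
  | mix p t0 t1 h0 h1 => exact const_le_mix h0 h1

lemma qc_nonneg (S : ι → Bool) (t : WT ι) (x : ι → Bool) : 0 ≤ qc S t x := by
  induction t with
  | leaf b => exact le_rfl
  | query i t0 t1 h0 h1 =>
    have := ind_nonneg (S i)
    cases h : x i <;> simp only [qc, h, cond] <;> linarith
  | mix p t0 t1 h0 h1 => exact const_le_mix h0 h1

lemma P_bind (t : WT ι) (k : Bool → WT ι) (x : ι → Bool) :
    P (bind t k) x = P t x * P (k true) x + (1 - P t x) * P (k false) x := by
  induction t with
  | leaf b => cases b <;> simp [bind, P]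
  | query i t0 t1 h0 h1 => cases h : x i <;> simp only [bind, P, h, cond, h0, h1]
  | mix p t0 t1 h0 h1 => simp only [bind, P, h0, h1]; ring

lemma cost_bind (t : WT ι) (k : Bool → WT ι) (x : ι → Bool) :
    cost (bind t k) x =
      cost t x + (P t x * cost (k true) x + (1 - P t x) * cost (k false) x) := by
  induction t with
  | leaf b => cases b <;> simp [bind, P, cost]
  | query i t0 t1 h0 h1 => cases h : x i <;> simp only [bind, P, cost, h, cond, h0, h1] <;> ring
  | mix p t0 t1 h0 h1 => simp only [bind, P, cost, h0, h1]; ring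

lemma P_pull (d : J → Option ι) (x : J → Bool) (t : WT J) (y : ι → Bool) :
    P (pull d x t) y = P t (ov d x y) := by
  induction t with
  | leaf b => rfl
  | query j t0 t1 h0 h1 =>
    cases hd : d j with
    | none => cases h : x j <;> simp [pull, P, ov, hd, h, h0, h1]
    | some i => cases h : y i <;> simp [pull, P, ov, hd, h, h0, h1]
  | mix p t0 t1 h0 h1 => simp only [pull, P, h0, h1]

lemma cost_pull (d : J → Option ι) (x : J → Bool) (t : WT J) (y : ι → Bool) :
    cost (pull d x t) y = qc (fun j => (d j).isSome) t (ov d x y) := by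
  induction t with
  | leaf b => rfl
  | query j t0 t1 h0 h1 =>
    cases hd : d j with
    | none => cases h : x j <;> simp [pull, qc, ov, hd, h, h0, h1]
    | some i => cases h : y i <;> simp [pull, cost, qc, ov, hd, h, h0, h1]
  | mix p t0 t1 h0 h1 => simp only [pull, cost, qc, h0, h1]

lemma qc_le_cost (S : ι → Bool) (t : WT ι) (x : ι → Bool) : qc S t x ≤ cost t x := by
  induction t with
  | leaf b => exact le_rfl
  | query i t0 t1 h0 h1 =>
    have := ind_le_one (S i)
    cases h : x i <;> simp only [qc, cost, h, cond] <;> linarith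
  | mix p t0 t1 h0 h1 => exact mix_le h0 h1

lemma qc_true (t : WT ι) (x : ι → Bool) : qc (fun _ => true) t x = cost t x := by
  induction t with
  | leaf b => rfl
  | query i t0 t1 h0 h1 => simp only [qc, cost, h0, h1, ind_true]
  | mix p t0 t1 h0 h1 => simp only [qc, cost, h0, h1]

lemma cost_pull_le (d : J → Option ι) (x : J → Bool) (t : WT J) (y : ι → Bool) :
    cost (pull d x t) y ≤ cost t (ov d x y) := (cost_pull d x t y).trans_le (qc_le_cost _ _ _)

lemma qc_sum {B : Type} [Fintype B] (S : B → ι → Bool)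
    (hS : ∀ b b' j, S b j = true → S b' j = true → b = b') (t : WT ι) (x : ι → Bool) :
    ∑ b, qc (S b) t x ≤ cost t x := by
  classical
  induction t with
  | leaf b => simp [qc, cost]
  | query i t0 t1 h0 h1 =>
    have h2 : ∑ b, ind (S b i) ≤ 1 := by
      by_cases h : ∃ b, S b i = true
      · obtain ⟨b, hb⟩ := h
        rw [sum_eq_single b]
        · exact ind_le_one _
        · intro b' _ hb'
          cases e : S b' i
          · rfl
          · exact absurd (hS _ _ _ e hb) hb'
        · simp
      · rw [sum_eq_zero]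
        · exact zero_le_one
        · intro b _
          cases e : S b i
          · rfl
          · exact absurd ⟨b, e⟩ h
    cases h : x i <;> simp only [qc, cost, h, cond, sum_add_distrib] <;> linarith
  | mix p t0 t1 h0 h1 =>
    simp only [qc, cost, sum_add_distrib, ← mul_sum]
    exact mix_le h0 h1

section hit

variable [DecidableEq ι]

lemma hit_leaf (b : Bool) (z : ι → Bool) (l : ι) : hit (.leaf b) z l = 0 := rfl

lemma hc_leaf (b : Bool) (z : ι → Bool) (l : ι) : hc (.leaf b) z l = 0 := rfl

lemma hit_query (i : ι) (t0 t1 : WT ι) (z : ι → Bool) (l : ι) :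
    hit (.query i t0 t1) z l = if i = l then 1 else bif z i then hit t1 z l else hit t0 z l := by
  by_cases h : i = l
  · simp [hit, hitT, h, P]
  · simp [hit, hitT, h, P]

lemma hc_query (i : ι) (t0 t1 : WT ι) (z : ι → Bool) (l : ι) :
    hc (.query i t0 t1) z l =
      1 + if i = l then 0 else bif z i then hc t1 z l else hc t0 z l := by
  by_cases h : i = l
  · simp [hc, hitT, h, cost]
  · simp [hc, hitT, h, cost]

lemma hit_mix (p : unitInterval) (t0 t1 : WT ι) (z : ι → Bool) (l : ι) :
    hit (.mix p t0 t1) z l = p * hit t0 z l + (1 - p) * hit t1 z l := rfl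

lemma hc_mix (p : unitInterval) (t0 t1 : WT ι) (z : ι → Bool) (l : ι) :
    hc (.mix p t0 t1) z l = p * hc t0 z l + (1 - p) * hc t1 z l := rfl

lemma hit_nonneg (t : WT ι) (z : ι → Bool) (l : ι) : 0 ≤ hit t z l := P_nonneg _ _

lemma hit_le_one (t : WT ι) (z : ι → Bool) (l : ι) : hit t z l ≤ 1 := P_le_one _ _

lemma hc_nonneg (t : WT ι) (z : ι → Bool) (l : ι) : 0 ≤ hc t z l := cost_nonneg _ _

lemma hit_le_hc (t : WT ι) (z : ι → Bool) (l : ι) : hit t z l ≤ hc t z l := by
  induction t with
  | leaf b => exact le_rfl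
  | query i t0 t1 h0 h1 =>
    have h2 := hit_le_one (.query i t0 t1) z l
    have h3 := hc_nonneg t0 z l
    have h4 := hc_nonneg t1 z l
    rw [hc_query]
    split_ifs
    · linarith
    · cases z i <;> simp only [cond] <;> linarith
  | mix p t0 t1 h0 h1 => exact mix_le h0 h1

lemma hc_le_cost (t : WT ι) (z : ι → Bool) (l : ι) : hc t z l ≤ cost t z := by
  induction t with
  | leaf b => exact le_rfl
  | query i t0 t1 h0 h1 =>
    have h3 := cost_nonneg t0 z
    have h4 := cost_nonneg t1 z
    rw [hc_query]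
    simp only [cost]
    split_ifs
    · cases z i <;> simp only [cond] <;> linarith
    · cases z i <;> simp only [cond] <;> linarith
  | mix p t0 t1 h0 h1 => exact mix_le h0 h1

lemma hit_update (t : WT ι) (z : ι → Bool) (l : ι) (u : Bool) :
    hit t (Function.update z l u) l = hit t z l := by
  induction t with
  | leaf b => rfl
  | query i t0 t1 h0 h1 =>
    rw [hit_query, hit_query, h0, h1]
    split_ifs with h
    · rfl
    · rw [Function.update_of_ne h]
  | mix p t0 t1 h0 h1 => rw [hit_mix, hit_mix, h0, h1]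

lemma hc_update (t : WT ι) (z : ι → Bool) (l : ι) (u : Bool) :
    hc t (Function.update z l u) l = hc t z l := by
  induction t with
  | leaf b => rfl
  | query i t0 t1 h0 h1 =>
    rw [hc_query, hc_query, h0, h1]
    split_ifs with h
    · rfl
    · rw [Function.update_of_ne h]
  | mix p t0 t1 h0 h1 => rw [hc_mix, hc_mix, h0, h1]

lemma hit_pull [DecidableEq J] (d : J → Option ι) (x : J → Bool) (t : WT J) (y : ι → Bool)
    (i : ι) (j : J) (h : ∀ j', d j' = some i ↔ j' = j) :
    hit (pull d x t) y i = hit t (ov d x y) j := by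
  induction t with
  | leaf b => rfl
  | query j' t0 t1 h0 h1 =>
    rw [hit_query]
    cases hd : d j' with
    | none =>
      have hne : j' ≠ j := fun e => by simpa [hd] using (h j').2 e
      cases hx : x j' <;> simp [pull, ov, hd, hx, hne, h0, h1]
    | some i' =>
      by_cases e : j' = j
      · have : i' = i := by simpa [hd] using (h j').2 e
        rw [if_pos e]
        simp only [pull, hd, Option.elim, hit_query, this, if_true]
      · have : i' ≠ i := fun e' => e ((h j').1 (e' ▸ hd))
        simp only [pull, hd, Option.elim, hit_query, this, e, if_false, h0, h1, ov]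
  | mix p t0 t1 h0 h1 => simp only [pull, hit_mix, h0, h1]

lemma hc_pull_le [DecidableEq J] (d : J → Option ι) (x : J → Bool) (t : WT J) (y : ι → Bool)
    (i : ι) (j : J) (h : ∀ j', d j' = some i ↔ j' = j) :
    hc (pull d x t) y i ≤ hc t (ov d x y) j := by
  induction t with
  | leaf b => exact le_rfl
  | query j' t0 t1 h0 h1 =>
    rw [hc_query]
    cases hd : d j' with
    | none =>
      have hne : j' ≠ j := fun e => by simpa [hd] using (h j').2 e
      cases hx : x j' <;> simp only [pull, ov, hd, hx, hne, Option.elim, cond, if_false] <;>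
        linarith
    | some i' =>
      by_cases e : j' = j
      · have : i' = i := by simpa [hd] using (h j').2 e
        rw [if_pos e]
        simp only [pull, hd, Option.elim, hc_query, this, if_true, le_refl]
      · have : i' ≠ i := fun e' => e ((h j').1 (e' ▸ hd))
        simp only [pull, hd, Option.elim, hc_query, this, e, if_false, ov]
        cases y i' <;> simp only [cond] <;> linarith
  | mix p t0 t1 h0 h1 => exact mix_le h0 h1

lemma markov (t : WT ι) (z : ι → Bool) (l : ι) : ∀ n : ℕ,
    (n + 1) * (hit t z l - hit (trunc n t) z l) ≤ hc t z l := by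
  induction t with
  | leaf b => intro n; cases n <;> simp [trunc, hit_leaf, hc_leaf]
  | query i t0 t1 h0 h1 =>
    intro n
    cases n with
    | zero =>
      have := hit_le_hc (.query i t0 t1) z l
      simpa [trunc, hit_leaf] using this
    | succ n =>
      have a0 := h0 n
      have a1 := h1 n
      have b0 := hit_le_one t0 z l
      have b1 := hit_le_one t1 z l
      have c0 := hit_nonneg (trunc n t0) z l
      have c1 := hit_nonneg (trunc n t1) z l
      simp only [trunc, hit_query, hc_query]
      push_cast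
      split_ifs
      · simp
      · cases z i <;> simp only [cond] <;> linarith
  | mix p t0 t1 h0 h1 =>
    intro n
    have e : trunc n (.mix p t0 t1) = .mix p (trunc n t0) (trunc n t1) := by cases n <;> rfl
    rw [e, hit_mix, hit_mix, hc_mix]
    exact (le_of_eq (by ring)).trans (mix_le (h0 n) (h1 n))

end hit

lemma cost_trunc (t : WT ι) (x : ι → Bool) : ∀ n : ℕ, cost (trunc n t) x ≤ n := by
  induction t with
  | leaf b => intro n; cases n <;> simp [trunc, cost]; positivity
  | query i t0 t1 h0 h1 =>
    intro n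
    cases n with
    | zero => simp [trunc, cost]
    | succ n =>
      have a0 := h0 n
      have a1 := h1 n
      simp only [trunc, cost]
      push_cast
      cases x i <;> simp only [cond] <;> linarith
  | mix p t0 t1 h0 h1 =>
    intro n
    have e : trunc n (.mix p t0 t1) = .mix p (trunc n t0) (trunc n t1) := by cases n <;> rfl
    rw [e]
    exact mix_le_const (h0 n) (h1 n)

section ex

variable [Fintype α] {w F G : α → ℝ}

lemma Ex_mono (hw : ∀ a, 0 ≤ w a) (h : ∀ a, w a ≠ 0 → F a ≤ G a) : Ex w F ≤ Ex w G := by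
  refine sum_le_sum fun a _ => ?_
  by_cases e : w a = 0
  · simp [e]
  · exact mul_le_mul_of_nonneg_left (h a e) (hw a)

lemma Ex_const (hw : IsP w) (c : ℝ) : (Ex w fun _ => c) = c := by
  rw [Ex, ← sum_mul, hw.2, one_mul]

lemma Ex_add (w F G : α → ℝ) : (Ex w fun a => F a + G a) = Ex w F + Ex w G := by
  simp only [Ex, mul_add, sum_add_distrib]

lemma Ex_sub (w F G : α → ℝ) : (Ex w fun a => F a - G a) = Ex w F - Ex w G := by
  simp only [Ex, mul_sub, sum_sub_distrib]

lemma Ex_mul (w F : α → ℝ) (c : ℝ) : (Ex w fun a => c * F a) = c * Ex w F := by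
  simp only [Ex, mul_sum]
  exact sum_congr rfl fun a _ => by ring

lemma Ex_sum {B : Type} [Fintype B] (w : α → ℝ) (F : B → α → ℝ) :
    (Ex w fun a => ∑ b, F b a) = ∑ b, Ex w (F b) := by
  simp only [Ex, mul_sum]
  exact sum_comm

lemma Ex_comm {β : Type} [Fintype β] (w : α → ℝ) (v : β → ℝ) (F : α → β → ℝ) :
    (Ex w fun a => Ex v fun b => F a b) = Ex v fun b => Ex w fun a => F a b := by
  simp only [Ex, mul_sum]
  rw [sum_comm]
  exact sum_congr rfl fun b _ => sum_congr rfl fun a _ => by ring

end ex

lemma Hard.mono [Fintype ι] [DecidableEq ι] {f : (ι → Bool) → Bool} {r r' : ℝ} (h : Hard f r)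
    (hr : r' ≤ r) : Hard f r' := by
  obtain ⟨s, h1, h2, h3⟩ := h
  exact ⟨s, h1, h2, fun t ht => hr.trans (h3 t ht)⟩

lemma Apx.mono {f : (ι → Bool) → Bool} {M e M' e' : ℝ} (h : Apx f M e) (hM : M ≤ M')
    (he : e ≤ e') : Apx f M' e' := by
  obtain ⟨t, ht⟩ := h
  exact ⟨t, fun x => ⟨(ht x).1.trans hM, (ht x).2.trans he⟩⟩

lemma apx_zero {f : (ι → Bool) → Bool} {M : ℝ} :
    Apx f M 0 ↔ ∃ t : WT ι, Exact f t ∧ ∀ x, cost t x ≤ M := by
  constructor
  · rintro ⟨t, ht⟩
    exact ⟨t, fun x => sub_eq_zero.1 (abs_nonpos_iff.1 (ht x).2), fun x => (ht x).1⟩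
  · rintro ⟨t, h1, h2⟩
    exact ⟨t, fun x => ⟨h2 x, by rw [h1 x, sub_self, abs_zero]⟩⟩

lemma Apx.nonneg {f : (ι → Bool) → Bool} {M e : ℝ} (h : Apx f M e) : 0 ≤ M := by
  obtain ⟨t, ht⟩ := h
  exact (cost_nonneg t fun _ => false).trans (ht _).1

lemma Apx.map {f : (ι → Bool) → Bool} {M e : ℝ} (h : Apx f M e) (g : ι → J) :
    Apx (fun x : J → Bool => f fun i => x (g i)) M e := by
  obtain ⟨t, ht⟩ := h
  refine ⟨pull (fun i => some (g i)) (fun _ => false) t, fun x => ⟨?_, ?_⟩⟩
  · exact (cost_pull_le _ _ _ _).trans (ht _).1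
  · rw [P_pull]
    exact (ht _).2

lemma Hint.mono {f : (ι → Bool) → Bool} {m m' g : ℝ} (h : Hint f m g) (hm : m ≤ m') :
    Hint f m' g := by
  obtain ⟨t, h1, h2⟩ := h
  exact ⟨t, fun x => (h1 x).trans hm, h2⟩

end Pool.Agent.Lib.MJ29
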