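import Pool.Agent.Lib.MJ29.Err

/-! From a distribution on trees with small error to one weighted tree. -/

namespace Pool.Agent.Lib.MJ29

open Finset
open scoped ENNReal

namespace Berr

variable {ι : Type}

/-- a deterministic tree as a weighted tree -/
def toW : LT ι → WT ι
  | .leaf b => .leaf b
  | .query i t0 t1 => .query i (toW t0) (toW t1)

lemma P_toW (T : LT ι) (x : ι → Bool) : P (toW T) x = ind (T.out x) := by
  induction T with
  | leaf b => rfl
  | query i t0 t1 h0 h1 => cases h : x i <;> simp only [toW, P, LT.out, h, cond, h0, h1]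

lemma cost_toW (T : LT ι) (x : ι → Bool) : cost (toW T) x = T.len x := by
  induction T with
  | leaf b => simp [toW, cost, LT.len]
  | query i t0 t1 h0 h1 =>
    cases h : x i <;> simp only [toW, cost, LT.len, h, cond, h0, h1, Nat.cast_add, Nat.cast_one]

/-- finite sub-convex combinations of trees -/
lemma fin_mix (F : Finset (LT ι)) : ∀ w : LT ι → ℝ, (∀ T, 0 ≤ w T) → ∑ T ∈ F, w T ≤ 1 →
    ∃ t : WT ι, ∀ x, P t x = ∑ T ∈ F, w T * ind (T.out x) ∧
      cost t x = ∑ T ∈ F, w T * (T.len x : ℝ) := by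
  classical
  induction F using Finset.induction_on with
  | empty => exact fun w _ _ => ⟨.leaf false, fun x => ⟨by simp [P], by simp [cost]⟩⟩
  | insert a F ha ih =>
    intro w hw hs
    rw [sum_insert ha] at hs
    have h0 : 0 ≤ ∑ T ∈ F, w T := sum_nonneg fun T _ => hw T
    have h1 : w a ≤ 1 := by linarith
    have h2 : 0 ≤ 1 - w a := sub_nonneg.2 h1
    have key : ∀ T ∈ F, (1 - w a) * (w T / (1 - w a)) = w T := fun T hT => by
      by_cases e : 1 - w a = 0
      · have h3 : w T ≤ ∑ T ∈ F, w T := single_le_sum (fun T _ => hw T) hT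
        have h4 := hw T
        rw [e, zero_mul]
        linarith
      · exact mul_div_cancel₀ _ e
    obtain ⟨t, ht⟩ := ih (fun T => w T / (1 - w a)) (fun T => div_nonneg (hw T) h2) (by
      rw [← sum_div]
      exact div_le_one_of_le₀ (by linarith) h2)
    refine ⟨.mix ⟨w a, hw a, h1⟩ (toW a) t, fun x => ⟨?_, ?_⟩⟩
    · rw [sum_insert ha]
      simp only [P, P_toW, (ht x).1, mul_sum]
      exact congrArg _ (sum_congr rfl fun T hT => by rw [← mul_assoc, key T hT])
    · rw [sum_insert ha]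
      simp only [cost, cost_toW, (ht x).2, mul_sum]
      exact congrArg _ (sum_congr rfl fun T hT => by rw [← mul_assoc, key T hT])

lemma ofReal_sum {α : Type} (A : PMF α) (F : Finset α) (g : α → ℝ) (hg : ∀ a, 0 ≤ g a) :
    ENNReal.ofReal (∑ a ∈ F, (A a).toReal * g a) = ∑ a ∈ F, A a * ENNReal.ofReal (g a) := by
  rw [ENNReal.ofReal_sum_of_nonneg fun a _ => mul_nonneg ENNReal.toReal_nonneg (hg a)]
  exact sum_congr rfl fun a _ => by
    rw [ENNReal.ofReal_mul ENNReal.toReal_nonneg, ENNReal.ofReal_toReal (A.apply_ne_top a)]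

lemma sum_le {α : Type} (A : PMF α) (F : Finset α) (g : α → ℝ) (hg : ∀ a, 0 ≤ g a) {c : ℝ}
    (hc : 0 ≤ c) (h : ∑' a, A a * ENNReal.ofReal (g a) ≤ ENNReal.ofReal c) :
    ∑ a ∈ F, (A a).toReal * g a ≤ c := by
  rw [← ENNReal.ofReal_le_ofReal_iff hc, ofReal_sum A F g hg]
  exact (ENNReal.sum_le_tsum F).trans h

lemma big {α : Type} (A : PMF α) {η : ℝ} (hη : 0 < η) :
    ∃ F : Finset α, 1 - η ≤ ∑ a ∈ F, (A a).toReal := by
  have h1 : ENNReal.ofReal (1 - η) < ⨆ F : Finset α, ∑ a ∈ F, A a := by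
    rw [← ENNReal.tsum_eq_iSup_sum, A.tsum_coe]
    exact ENNReal.ofReal_lt_one.2 (by linarith)
  obtain ⟨F, hF⟩ := lt_iSup_iff.1 h1
  refine ⟨F, ?_⟩
  have h2 := ofReal_sum A F (fun _ => 1) fun _ => zero_le_one
  simp only [mul_one, ENNReal.ofReal_one] at h2
  rw [← h2] at hF
  exact (ENNReal.ofReal_le_ofReal_iff (sum_nonneg fun _ _ => ENNReal.toReal_nonneg)).1 hF.le

end Berr

theorem st_berr : St_berr := by
  intro ι f M δ δ' hδ hδ' h
  have hM : 0 ≤ M := (ENNReal.ofReal_pos.1 (lt_of_le_of_lt zero_le h)).le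
  obtain ⟨A, hA⟩ := iInf_lt_iff.1 h
  obtain ⟨he, hc⟩ := iInf_lt_iff.1 hA
  obtain ⟨F, hF⟩ := Berr.big A (sub_pos.2 hδ')
  have hs : ∑ T ∈ F, (A T).toReal ≤ 1 := by
    have := Berr.sum_le A F (fun _ => 1) (fun _ => zero_le_one) zero_le_one
      (by simp only [ENNReal.ofReal_one, mul_one, A.tsum_coe, le_refl])
    simpa only [mul_one] using this
  obtain ⟨t, ht⟩ := Berr.fin_mix F (fun T => (A T).toReal) (fun _ => ENNReal.toReal_nonneg) hs
  refine ⟨t, fun x => ⟨?_, ?_⟩⟩
  · rw [(ht x).2]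
    refine Berr.sum_le A F _ (fun T => Nat.cast_nonneg _) hM ?_
    simp only [ENNReal.ofReal_natCast]
    exact (le_iSup (fun x : ι → Bool => ∑' T, A T * (T.len x : ℝ≥0∞)) x).trans hc.le
  · have h1 := Berr.sum_le A F (fun T => if T.out x = f x then 0 else 1)
      (fun T => by split_ifs <;> norm_num) hδ (by
        refine le_trans (le_of_eq (tsum_congr fun T => ?_)) (he x)
        split_ifs <;> simp)
    rw [(ht x).1]
    cases e : f x
    · have h2 : ∑ T ∈ F, (A T).toReal * ind (T.out x) =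
          ∑ T ∈ F, (A T).toReal * (if T.out x = f x then (0 : ℝ) else 1) :=
        sum_congr rfl fun T _ => by rw [e]; cases T.out x <;> simp
      have h3 : 0 ≤ ∑ T ∈ F, (A T).toReal * ind (T.out x) :=
        sum_nonneg fun T _ => mul_nonneg ENNReal.toReal_nonneg (ind_nonneg _)
      rw [ind_false, sub_zero, abs_of_nonneg h3, h2]
      linarith
    · have h2 : ∑ T ∈ F, (A T).toReal * ind (T.out x) = ∑ T ∈ F, (A T).toReal -
          ∑ T ∈ F, (A T).toReal * (if T.out x = f x then (0 : ℝ) else 1) := by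
        rw [← sum_sub_distrib]
        exact sum_congr rfl fun T _ => by rw [e]; cases T.out x <;> simp
      have h3 : 0 ≤ ∑ T ∈ F, (A T).toReal * (if T.out x = f x then (0 : ℝ) else 1) :=
        sum_nonneg fun T _ => mul_nonneg ENNReal.toReal_nonneg (by split_ifs <;> norm_num)
      rw [ind_true, h2, abs_le]
      constructor <;> linarith

end Pool.Agent.Lib.MJ29
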