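import Pool.Agent.Lib.MP_099303_lc.Defs

/-! A finite search for the value of the query game, as a primitive recursive program. -/

namespace Pool.Agent.Lib.MJ29.Cmp

open List Pool.Agent.Lib.MP_099303_lc

/-- truth table of the majority of three copies -/
def step (t : List Bool) : List Bool :=
  (range (t.length * t.length * t.length)).map fun x =>
    maj (t.getD (x % t.length) false) (t.getD (x / t.length % t.length) false)
      (t.getD (x / t.length / t.length % t.length) false)

def tt (k : ℕ) : List Bool := step^[k] [false, true]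

def base (M : ℕ) : List (List ℕ) := (range M).map fun _ => []

def node (a : ℕ × ℕ) (b : List (List ℕ) × List (List ℕ)) : List (List ℕ) :=
  (range a.1).map fun x => a.2 :: bif x.testBit a.2 then b.2.getD x [] else b.1.getD x []

def grow (a : ℕ × ℕ) (L : List (List (List ℕ))) : List (List (List ℕ)) :=
  base a.2 :: (range a.1).flatMap fun i => L.flatMap fun l => L.map fun r => node (a.2, i) (l, r)

/-- query tables of all trees of depth at most `2 n` on `n` bits -/
def trees (n : ℕ) : List (List (List ℕ)) := (grow (n, 2 ^ n))^[2 * n] [base (2 ^ n)]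

def agree (q : List ℕ) (p : ℕ × ℕ) : Prop := ∀ i ∈ q, p.2.testBit i = p.1.testBit i

def Good (q : List (List ℕ)) (t : List Bool) : Prop :=
  ∀ x ∈ range t.length, ∀ y ∈ range t.length,
    ¬ agree (q.getD x []) (x, y) ∨ t.getD y false = t.getD x false

open Classical in
/-- cost vectors of the correct trees -/
noncomputable def costs (k : ℕ) : List (List ℕ) :=
  ((trees (3 ^ k)).filter fun q => Good q (tt k)).map fun q => q.map length

def lists (G : List (List ℕ)) (N : ℕ) : List (List (List ℕ)) :=
  (fun L => G.flatMap fun q => L.map fun l => q :: l)^[N] [[]]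

def tot (l : List (List ℕ)) (x : ℕ) : ℕ := (l.map fun c => c.getD x 0).sum

noncomputable def num (k : ℕ) : ℕ := (costs k).length * (2 * 3 ^ k)

/-- some average of `num k` correct trees has cost at most `A / B` on every input -/
def Ok (k : ℕ) (p : ℕ × ℕ) : Prop :=
  ∃ l ∈ lists (costs k) (num k), ∀ x ∈ range (2 ^ 3 ^ k), tot l x * p.2 ≤ p.1 * num k

open Classical in
noncomputable def out (C n : ℕ) : ℕ :=
  (3 * (n + 1)).findGreatest fun a => ¬ Ok (C * (n + 1)) (a ^ (C * (n + 1)), (n + 1) ^ (C * (n + 1)))

open Primrec

theorem p_pow : Primrec₂ ((· ^ ·) : ℕ → ℕ → ℕ) := Primrec₂.unpaired'.1 Nat.Primrec.pow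

theorem p_bit : Primrec₂ Nat.testBit :=
  (Primrec.eq.comp (nat_mod.comp (nat_div.comp fst (p_pow.comp (const 2) snd)) (const 2))
    (const 1)).decide.of_eq fun a => by
      rw [Nat.testBit_eq_decide_div_mod_eq]

theorem p_maj {α : Type} [Primcodable α] {a b c : α → Bool} (ha : Primrec a) (hb : Primrec b)
    (hc : Primrec c) : Primrec fun x => maj (a x) (b x) (c x) :=
  Primrec.or.comp (Primrec.or.comp (Primrec.and.comp ha hb) (Primrec.and.comp ha hc))
    (Primrec.and.comp hb hc)

theorem p_step : Primrec step := by
  have hl : Primrec fun p : List Bool × ℕ => p.1.length := list_length.comp fst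
  have g : ∀ {u : List Bool × ℕ → ℕ}, Primrec u →
      Primrec fun p : List Bool × ℕ => p.1.getD (u p % p.1.length) false := fun hu =>
    (list_getD false).comp fst (nat_mod.comp hu hl)
  exact list_map (list_range.comp (nat_mul.comp (nat_mul.comp list_length list_length) list_length))
    (p_maj (g snd) (g (nat_div.comp snd hl)) (g (nat_div.comp (nat_div.comp snd hl) hl))).to₂

theorem p_tt : Primrec tt :=
  nat_iterate (h := fun _ => step) .id (const _) (p_step.comp snd).to₂

theorem p_base : Primrec base := list_map list_range (const []).to₂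

theorem p_node : Primrec₂ node :=
  list_map (list_range.comp (fst.comp fst))
    (list_cons.comp (snd.comp (fst.comp fst))
      (Primrec.cond (p_bit.comp snd (snd.comp (fst.comp fst)))
        ((list_getD []).comp (snd.comp (snd.comp fst)) snd)
        ((list_getD []).comp (fst.comp (snd.comp fst)) snd))).to₂

theorem p_grow : Primrec₂ grow :=
  list_cons.comp (p_base.comp (snd.comp fst))
    (list_flatMap (list_range.comp (fst.comp fst))
      (list_flatMap (snd.comp fst)
        (list_map (snd.comp (fst.comp fst))
          (p_node.comp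
            ((snd.comp (fst.comp (fst.comp (fst.comp fst)))).pair (snd.comp (fst.comp fst)))
            ((snd.comp fst).pair snd)).to₂).to₂).to₂)

theorem p_trees : Primrec trees :=
  nat_iterate (h := fun n => grow (n, 2 ^ n)) nat_double
    (list_cons.comp (p_base.comp (p_pow.comp (const 2) .id)) (const []))
    (p_grow.comp (fst.pair (p_pow.comp (const 2) fst)) snd).to₂

theorem p_agree : PrimrecRel agree :=
  PrimrecRel.forall_mem_list (R := fun (i : ℕ) (p : ℕ × ℕ) => p.2.testBit i = p.1.testBit i)
    (Primrec.eq.comp (p_bit.comp (snd.comp snd) fst) (p_bit.comp (fst.comp snd) fst))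

theorem p_good : PrimrecRel Good := by
  have h1 : PrimrecRel fun (y : ℕ) (p : ℕ × List (List ℕ) × List Bool) =>
      ¬ agree (p.2.1.getD p.1 []) (p.1, y) ∨ p.2.2.getD y false = p.2.2.getD p.1 false :=
    (p_agree.comp ((list_getD []).comp (fst.comp (snd.comp snd)) (fst.comp snd))
      ((fst.comp snd).pair fst)).not.or
      (Primrec.eq.comp ((list_getD false).comp (snd.comp (snd.comp snd)) fst)
        ((list_getD false).comp (snd.comp (snd.comp snd)) (fst.comp snd)))
  have h2 : PrimrecRel fun (x : ℕ) (p : List (List ℕ) × List Bool) => ∀ y ∈ range p.2.length,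
      ¬ agree (p.1.getD x []) (x, y) ∨ p.2.getD y false = p.2.getD x false :=
    h1.forall_mem_list.comp (list_range.comp (list_length.comp (snd.comp snd))) .id
  exact h2.forall_mem_list.comp (list_range.comp (list_length.comp snd)) .id

theorem p_costs : Primrec costs := by
  classical
  exact list_map (p_good.listFilter.comp (p_trees.comp (p_pow.comp (const 3) .id)) p_tt)
    (list_map snd (list_length.comp snd).to₂).to₂

theorem p_lists : Primrec₂ lists :=
  nat_iterate (h := fun (a : List (List ℕ) × ℕ) (L : List (List (List ℕ))) =>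
      a.1.flatMap fun q => L.map fun l => q :: l) snd (const _)
    (list_flatMap (fst.comp fst)
      (list_map (snd.comp fst) (list_cons.comp (snd.comp fst) snd).to₂).to₂).to₂

theorem p_sum : Primrec (List.sum : List ℕ → ℕ) :=
  (list_foldr .id (const 0) (nat_add.comp (fst.comp snd) (snd.comp snd)).to₂).of_eq fun l => by
    induction l <;> simp_all

theorem p_tot : Primrec₂ tot :=
  p_sum.comp (list_map fst ((list_getD 0).comp snd (snd.comp fst)).to₂)

theorem p_num : Primrec num :=
  nat_mul.comp (list_length.comp p_costs) (nat_double.comp (p_pow.comp (const 3) .id))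

theorem p_ok : PrimrecRel Ok := by
  have h1 : PrimrecRel fun (x : ℕ) (p : List (List ℕ) × ℕ × ℕ × ℕ) =>
      tot p.1 x * p.2.2.2 ≤ p.2.2.1 * num p.2.1 :=
    nat_le.comp (nat_mul.comp (p_tot.comp (fst.comp snd) fst) (snd.comp (snd.comp (snd.comp snd))))
      (nat_mul.comp (fst.comp (snd.comp (snd.comp snd))) (p_num.comp (fst.comp (snd.comp snd))))
  have h2 : PrimrecRel fun (l : List (List ℕ)) (p : ℕ × ℕ × ℕ) =>
      ∀ x ∈ range (2 ^ 3 ^ p.1), tot l x * p.2.2 ≤ p.2.1 * num p.1 :=
    h1.forall_mem_list.comp
      (list_range.comp (p_pow.comp (const 2) (p_pow.comp (const 3) (fst.comp snd)))) .id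
  exact h2.exists_mem_list.comp (p_lists.comp (p_costs.comp fst) (p_num.comp fst)) .id

theorem p_out (C : ℕ) : Primrec (out C) := by
  classical
  have hk : Primrec fun p : ℕ × ℕ => C * (p.1 + 1) := nat_mul.comp (const C) (succ.comp fst)
  exact nat_findGreatest (nat_mul.comp (const 3) succ)
    (p_ok.comp hk ((p_pow.comp snd hk).pair (p_pow.comp (succ.comp fst) hk))).not

end Pool.Agent.Lib.MJ29.Cmp
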