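import Pool.Agent.Lib.MJ29.All
import Pool.Agent.Lib.MJ29.CmpA

/-! The finite search brackets the value of the query game; `cStar` is a computable real. -/

namespace Pool.Agent.Lib.MJ29.Cmp

open List Pool.Agent.Lib.MP_099303_lc

def dec (n x : ℕ) : Fin n → Bool := fun i => x.testBit i

theorem dec_surj {n : ℕ} (z : Fin n → Bool) : ∃ x < 2 ^ n, dec n x = z :=
  ⟨Nat.ofBits z, Nat.ofBits_lt_two_pow z, funext fun i => Nat.testBit_ofBits_lt z i i.2⟩

theorem dec_mod (n x : ℕ) : dec n (x % 2 ^ n) = dec n x :=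
  funext fun i => by simp [dec, Nat.testBit_mod_two_pow]

theorem getD_range {α : Type} {M x : ℕ} (h : x < M) (f : ℕ → α) (d : α) :
    ((range M).map f).getD x d = f x := by
  simp [List.getD_eq_getElem?_getD, h]

theorem tt_eq : ∀ k, tt k = (range (2 ^ 3 ^ k)).map fun x => iterMaj k (dec _ x)
  | 0 => by decide
  | k + 1 => by
    have h0 : 0 < 2 ^ 3 ^ k := by positivity
    have h1 : tt (k + 1) = step (tt k) := Function.iterate_succ_apply' _ _ _
    rw [h1, tt_eq k, step]
    simp only [length_map, length_range]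
    rw [← pow_add, ← pow_add, show 3 ^ k + 3 ^ k + 3 ^ k = 3 ^ (k + 1) by ring]
    refine map_congr_left fun x _ => ?_
    rw [getD_range (Nat.mod_lt _ h0), getD_range (Nat.mod_lt _ h0), getD_range (Nat.mod_lt _ h0),
      dec_mod, dec_mod, dec_mod, iterMaj]
    congr 2 <;> funext i <;> simp only [dec, blk, Nat.testBit_div_two_pow] <;> congr 1 <;>
      simp <;> omega

def tab (n : ℕ) (A : DT (Fin n)) : List (List ℕ) :=
  (range (2 ^ n)).map fun x => (A.queried (dec n x)).map Fin.val

def dep {ι : Type} : DT ι → ℕ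
  | .halt => 0
  | .query _ a b => max (dep a) (dep b) + 1

theorem len_le_dep {ι : Type} (A : DT ι) (x : ι → Bool) : (A.queried x).length ≤ dep A := by
  induction A with
  | halt => simp [DT.queried]
  | query i a b ha hb => cases h : x i <;> simp only [DT.queried, dep, h, cond, length_cons] <;> omega

theorem tab_halt (n : ℕ) : tab n .halt = base (2 ^ n) := rfl

theorem tab_query {n : ℕ} (i : Fin n) (a b : DT (Fin n)) :
    tab n (.query i a b) = node (2 ^ n, i) (tab n a, tab n b) := by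
  refine map_congr_left fun x hx => ?_
  rw [mem_range] at hx
  simp only [tab, getD_range hx, DT.queried, map_cons]
  have : dec n x i = x.testBit i := rfl
  rw [this]
  cases x.testBit i <;> rfl

theorem mem_iter (n : ℕ) : ∀ (d : ℕ) (q : List (List ℕ)),
    q ∈ (grow (n, 2 ^ n))^[d] [base (2 ^ n)] ↔ ∃ A : DT (Fin n), dep A ≤ d ∧ q = tab n A
  | 0, q => by
    simp only [Function.iterate_zero, id, mem_singleton]
    refine ⟨fun h => ⟨.halt, le_rfl, h⟩, ?_⟩
    rintro ⟨A, h, rfl⟩
    cases A with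
    | halt => rfl
    | query i a b => simp [dep] at h
  | d + 1, q => by
    rw [Function.iterate_succ_apply', grow]
    simp only [mem_cons, mem_flatMap, mem_map, mem_range, mem_iter n d]
    constructor
    · rintro (rfl | ⟨i, hi, _, ⟨a, ha, rfl⟩, _, ⟨b, hb, rfl⟩, rfl⟩)
      · exact ⟨.halt, Nat.zero_le _, rfl⟩
      · exact ⟨.query ⟨i, hi⟩ a b, by simp only [dep]; omega, (tab_query ⟨i, hi⟩ a b).symm⟩
    · rintro ⟨A, h, rfl⟩
      cases A with
      | halt => exact Or.inl rfl
      | query i a b =>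
        simp only [dep] at h
        exact Or.inr ⟨i, i.2, _, ⟨a, by omega, rfl⟩, _, ⟨b, by omega, rfl⟩, (tab_query i a b).symm⟩

theorem good_iff (k : ℕ) (A : DT (Fin (3 ^ k))) :
    Good (tab _ A) (tt k) ↔ A.Computes (iterMaj k) := by
  have key : ∀ x < 2 ^ 3 ^ k, ∀ y, agree ((tab _ A).getD x []) (x, y) ↔
      ∀ i ∈ A.queried (dec _ x), dec _ y i = dec _ x i := fun x hx y => by
    simp only [tab, getD_range hx, agree, forall_mem_map, dec]
  simp only [Good, tt_eq, length_map, length_range, mem_range]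
  constructor
  · intro h x y hxy
    obtain ⟨x, hx, rfl⟩ := dec_surj x
    obtain ⟨y, hy, rfl⟩ := dec_surj y
    rcases h x hx y hy with h | h
    · exact absurd ((key x hx y).2 hxy) h
    · rwa [getD_range hx, getD_range hy] at h
  · intro h x hx y hy
    rw [getD_range hx, getD_range hy, key x hx y]
    exact or_iff_not_imp_left.2 fun e => h _ _ (not_not.1 e)

theorem mem_costs (k : ℕ) (c : List ℕ) : c ∈ costs k ↔ ∃ A : DT (Fin (3 ^ k)),
    A.Computes (iterMaj k) ∧ dep A ≤ 2 * 3 ^ k ∧ c = (tab _ A).map length := by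
  simp only [costs, trees, mem_map, mem_filter, mem_iter, decide_eq_true_eq]
  constructor
  · rintro ⟨_, ⟨⟨A, h, rfl⟩, hg⟩, rfl⟩
    exact ⟨A, (good_iff k A).1 hg, h, rfl⟩
  · rintro ⟨A, hc, h, rfl⟩
    exact ⟨_, ⟨⟨A, h, rfl⟩, (good_iff k A).2 hc⟩, rfl⟩

theorem cost_tab {n x : ℕ} (hx : x < 2 ^ n) (A : DT (Fin n)) :
    ((tab n A).map length).getD x 0 = (A.queried (dec n x)).length := by
  rw [tab, map_map, getD_range hx]
  simp

theorem mem_lists (G : List (List ℕ)) : ∀ (N : ℕ) (l : List (List ℕ)),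
    l ∈ lists G N ↔ l.length = N ∧ ∀ q ∈ l, q ∈ G
  | 0, l => by
    simp only [lists, Function.iterate_zero, id, mem_singleton, length_eq_zero_iff]
    exact ⟨fun h => ⟨h, by simp [h]⟩, fun h => h.1⟩
  | N + 1, l => by
    have h : lists G (N + 1) = G.flatMap fun q => (lists G N).map fun l => q :: l :=
      Function.iterate_succ_apply' _ _ _
    simp only [h, mem_flatMap, mem_map, mem_lists G N]
    constructor
    · rintro ⟨q, hq, l, ⟨h1, h2⟩, rfl⟩
      exact ⟨by simp [h1], forall_mem_cons.2 ⟨hq, h2⟩⟩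
    · rintro ⟨h1, h2⟩
      cases l with
      | nil => simp at h1
      | cons q l =>
        exact ⟨q, (forall_mem_cons.1 h2).1, l, ⟨by simpa using h1, (forall_mem_cons.1 h2).2⟩, rfl⟩

/-- run for `d` steps, then read the whole list -/
def cut {ι : Type} (u : List ι) : ℕ → DT ι → DT ι
  | _, .halt => .halt
  | 0, .query _ _ _ => full u
  | d + 1, .query i a b => .query i (cut u d a) (cut u d b)

theorem dep_full {ι : Type} (u : List ι) : dep (full u) = u.length := by
  induction u with
  | nil => rfl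
  | cons i u ih => simp [full, dep, ih]

theorem dep_cut {ι : Type} (u : List ι) (A : DT ι) : ∀ d, dep (cut u d A) ≤ d + u.length := by
  induction A with
  | halt => intro d; simp [cut, dep]
  | query i a b ha hb =>
    intro d
    cases d with
    | zero => simp [cut, dep_full]
    | succ d =>
      have := ha d
      have := hb d
      simp only [cut, dep]
      omega

theorem q_cut {ι : Type} (u : List ι) (x : ι → Bool) (A : DT ι) : ∀ d,
    (cut u d A).queried x = A.queried x ∨
      d ≤ (A.queried x).length ∧ ∀ i ∈ u, i ∈ (cut u d A).queried x := by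
  induction A with
  | halt => intro d; left; simp [cut]
  | query i a b ha hb =>
    intro d
    cases d with
    | zero => right; simp [cut, queried_full]
    | succ d =>
      cases h : x i
      · simp only [cut, DT.queried, h, cond, length_cons]
        rcases ha d with e | ⟨e, e'⟩
        · left; rw [e]
        · exact Or.inr ⟨by omega, fun j hj => mem_cons_of_mem _ (e' j hj)⟩
      · simp only [cut, DT.queried, h, cond, length_cons]
        rcases hb d with e | ⟨e, e'⟩
        · left; rw [e]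
        · exact Or.inr ⟨by omega, fun j hj => mem_cons_of_mem _ (e' j hj)⟩

theorem shallow {n : ℕ} {f : (Fin n → Bool) → Bool} {A : DT (Fin n)} (h : A.Computes f) :
    ∃ A' : DT (Fin n), A'.Computes f ∧ dep A' ≤ 2 * n ∧
      ∀ z, (A'.queried z).length ≤ 2 * (A.queried z).length := by
  have hd : dep (cut (finRange n) n A) ≤ 2 * n := by
    have := dep_cut (finRange n) A n
    rw [length_finRange] at this
    omega
  refine ⟨cut (finRange n) n A, fun x y hxy => ?_, hd, fun z => ?_⟩
  · rcases q_cut (finRange n) x A n with e | ⟨-, e⟩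
    · exact h x y (e ▸ hxy)
    · rw [funext fun i => hxy i (e i (mem_finRange i))]
  · rcases q_cut (finRange n) z A n with e | ⟨e, -⟩
    · rw [e]; omega
    · have := len_le_dep (cut (finRange n) n A) z
      omega

theorem full_computes {n : ℕ} (f : (Fin n → Bool) → Bool) : (full (finRange n)).Computes f :=
  fun x y h => by
    rw [queried_full] at h
    rw [funext fun i => h i (mem_finRange i)]

theorem mixp {n B : ℕ} (f : (Fin n → Bool) → Bool) (c : Fin B → (Fin n → Bool) → ℝ)
    (hc : ∀ A : DT (Fin n), A.Computes f → ∃ j, ∀ z, c j z ≤ 2 * (A.queried z).length) {C : ℝ}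
    (hC : Tv f < C) : ∃ p : Fin B → ℝ, IsP p ∧ ∀ z, ∑ j, p j * c j z < 2 * C := by
  have one : ∀ j : Fin B, IsP (Pi.single j (1 : ℝ) : Fin B → ℝ) := fun j =>
    ⟨fun a => by by_cases e : a = j <;> simp [e], by simp⟩
  have h := st_mm (Fin n → Bool) (fun _ => True)
    {v | ∃ p : Fin B → ℝ, IsP p ∧ v = fun z => ∑ j, p j * c j z - 2 * C} ?_ ?_
  · rcases h with ⟨v, ⟨p, hp, rfl⟩, hv⟩ | ⟨ν, hν, -, h⟩
    · exact ⟨p, hp, fun z => by linarith [hv z trivial]⟩
    · have h0 : 0 ≤ C := ENNReal.toReal_nonneg.trans hC.le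
      have h1 := R_ge f ν hν.1 (by rw [hν.2]; exact one_pos) C h0 fun A hA => by
        obtain ⟨j, hj⟩ := hc A hA
        have h2 := h _ ⟨_, one j, rfl⟩
        have h3 : ∀ z, ∑ i, (Pi.single j (1 : ℝ) : Fin B → ℝ) i * c i z = c j z := fun z => by
          rw [Finset.sum_eq_single j (fun b _ hb => by simp [hb]) (by simp)]
          simp
        simp only [Ex, h3] at h2
        have h4 : ∑ z, ν z * (c j z - 2 * C) ≤
            ∑ z, (2 * (ν z * (A.queried z).length) - 2 * C * ν z) :=
          Finset.sum_le_sum fun z _ => by nlinarith [mul_le_mul_of_nonneg_left (hj z) (hν.1 z)]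
        rw [Finset.sum_sub_distrib, ← Finset.mul_sum, ← Finset.mul_sum] at h4
        linarith
      exact absurd ((ENNReal.ofReal_le_iff_le_toReal (st_fin _ f)).1 h1) (not_le.2 hC)
  · rintro v ⟨p, hp, rfl⟩ w ⟨q, hq, rfl⟩ a b ha hb hab
    refine ⟨fun j => a * p j + b * q j, ⟨fun j => add_nonneg (mul_nonneg ha (hp.1 j))
      (mul_nonneg hb (hq.1 j)), ?_⟩, funext fun z => ?_⟩
    · rw [Finset.sum_add_distrib, ← Finset.mul_sum, ← Finset.mul_sum, hp.2, hq.2]
      linarith
    · simp only [Pi.add_apply, Pi.smul_apply, smul_eq_mul, add_mul, mul_assoc,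
        Finset.sum_add_distrib, ← Finset.mul_sum]
      obtain rfl : b = 1 - a := by linarith
      ring
  · obtain ⟨j, -⟩ := hc _ (full_computes f)
    exact ⟨_, _, one j, rfl⟩

theorem sum_rep {α β : Type} (w : β → ℕ) (e : β → α) (g : α → ℕ) (J : List β) :
    ((J.flatMap fun j => replicate (w j) (e j)).map g).sum = (J.map fun j => w j * g (e j)).sum := by
  induction J with
  | nil => rfl
  | cons j J ih => simp [ih]

theorem round {α : Type} {B : ℕ} (p : Fin B → ℝ) (hp : IsP p) (e : Fin B → α) (N : ℕ) :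
    ∃ l : List α, l.length = N ∧ (∀ q ∈ l, ∃ j, q = e j) ∧
      ∀ g : α → ℕ, ((l.map g).sum : ℕ) ≤ ∑ j, (N * p j + 1) * g (e j) := by
  set l := (finRange B).flatMap fun j => replicate ⌈N * p j⌉₊ (e j) with hl
  have h1 : ∀ g : α → ℕ, (((l.map g).sum : ℕ) : ℝ) = ∑ j, (⌈N * p j⌉₊ : ℝ) * g (e j) := fun g => by
    rw [hl, sum_rep, ← Fin.sum_univ_def]
    push_cast
    rfl
  have h2 : N ≤ l.length := by
    have h := h1 fun _ => 1
    simp only [map_const', sum_replicate, smul_eq_mul, mul_one, Nat.cast_one] at h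
    have h3 : ∑ j, (N : ℝ) * p j ≤ ∑ j, (⌈N * p j⌉₊ : ℝ) := Finset.sum_le_sum fun j _ => Nat.le_ceil _
    rw [← Finset.mul_sum, hp.2, mul_one, ← h] at h3
    exact_mod_cast h3
  refine ⟨l.take N, by simp [h2], fun q hq => ?_, fun g => ?_⟩
  · obtain ⟨j, -, h⟩ := mem_flatMap.1 (mem_of_mem_take hq)
    exact ⟨j, eq_of_mem_replicate h⟩
  · have h3 : ((l.take N).map g).sum ≤ (l.map g).sum :=
      ((take_sublist N l).map g).sum_le_sum fun _ _ => Nat.zero_le _
    refine le_trans (by exact_mod_cast h3) ((h1 g).le.trans (Finset.sum_le_sum fun j _ => ?_))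
    exact mul_le_mul_of_nonneg_right
      (Nat.ceil_lt_add_one (mul_nonneg N.cast_nonneg (hp.1 j))).le (Nat.cast_nonneg _)

theorem exists_list (k : ℕ) : ∃ l ∈ lists (costs k) (num k), ∀ x < 2 ^ 3 ^ k,
    (tot l x : ℝ) ≤ 5 * T k * num k := by
  have hT := (a_T1 k).1
  choose A hA hd he using fun j : Fin (costs k).length =>
    (mem_costs k _).1 (getElem_mem j.2 : (costs k)[j.1] ∈ costs k)
  obtain ⟨p, hp, h⟩ := mixp (iterMaj k) (fun j z => ((A j).queried z).length) (C := 2 * T k)
    (fun A0 h0 => by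
      obtain ⟨A', h1, h2, h3⟩ := shallow h0
      obtain ⟨j, hj, e⟩ := getElem_of_mem ((mem_costs k _).2 ⟨A', h1, h2, rfl⟩)
      refine ⟨⟨j, hj⟩, fun z => ?_⟩
      obtain ⟨x, hx, rfl⟩ := dec_surj z
      rw [← cost_tab hx, ← he ⟨j, hj⟩, e, cost_tab hx]
      exact_mod_cast h3 _) (by change T k < _; linarith)
  obtain ⟨l, h1, h2, h3⟩ := round p hp (fun j => (costs k)[j.1]) (num k)
  refine ⟨l, (mem_lists _ _ _).2 ⟨h1, fun q hq => ?_⟩, fun x hx => ?_⟩
  · obtain ⟨j, rfl⟩ := h2 q hq
    exact getElem_mem j.2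
  · refine (h3 fun c => c.getD x 0).trans ?_
    simp only [he, cost_tab hx, add_mul, one_mul, mul_assoc, Finset.sum_add_distrib,
      ← Finset.mul_sum]
    have h4 : ∑ j, (((A j).queried (dec _ x)).length : ℝ) ≤ num k := by
      refine (Finset.sum_le_card_nsmul _ _ ((2 * 3 ^ k : ℕ) : ℝ) fun j _ => ?_).trans (le_of_eq ?_)
      · exact_mod_cast (len_le_dep _ _).trans (hd j)
      · simp [num]
    have h5 := mul_le_mul_of_nonneg_left (h (dec _ x)).le (Nat.cast_nonneg (α := ℝ) (num k))
    nlinarith [Nat.cast_nonneg (α := ℝ) (num k)]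

theorem avg (k : ℕ) : ∀ l : List (List ℕ), (∀ c ∈ l, c ∈ costs k) → l ≠ [] →
    ∃ t : WT (Fin (3 ^ k)), Exact (iterMaj k) t ∧
      ∀ x < 2 ^ 3 ^ k, l.length * cost t (dec _ x) = tot l x
  | [], _, h => absurd rfl h
  | c :: l, h, _ => by
    obtain ⟨A, hA, -, rfl⟩ := (mem_costs k c).1 (h c mem_cons_self)
    obtain ⟨t, ht, hc⟩ := st_ofDT _ _ A hA
    by_cases e : l = []
    · subst e
      exact ⟨t, ht, fun x hx => by simp only [tot, map_cons, cost_tab hx, hc]; simp⟩
    · obtain ⟨s, hs, hl⟩ := avg k l (fun c hc => h c (mem_cons_of_mem _ hc)) e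
      have h0 : (0 : ℝ) < l.length + 1 := by positivity
      refine ⟨.mix ⟨1 / (l.length + 1), by positivity, by
        rw [div_le_one h0]; linarith [Nat.cast_nonneg (α := ℝ) l.length]⟩ t s,
        fun x => ?_, fun x hx => ?_⟩
      · rw [P, ht x, hs x]
        ring
      · have h1 := hl x hx
        simp only [tot] at h1
        simp only [tot, map_cons, sum_cons, cost_tab hx, cost, hc, length_cons, Nat.cast_add,
          Nat.cast_one, ← h1]
        field_simp
        ring

theorem num_pos (k : ℕ) : 0 < num k := by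
  obtain ⟨A, h1, h2, -⟩ := shallow (full_computes (iterMaj k))
  exact Nat.mul_pos (length_pos_of_mem ((mem_costs k _).2 ⟨A, h1, h2, rfl⟩)) (by positivity)

theorem le_of_ok {k a b : ℕ} (hb : 0 < b) (h : Ok k (a, b)) : T k ≤ a / b := by
  obtain ⟨l, hl, h⟩ := h
  obtain ⟨h1, h2⟩ := (mem_lists _ _ _).1 hl
  have hN := num_pos k
  obtain ⟨t, ht, hc⟩ := avg k l h2 (by rintro rfl; simp at h1; omega)
  refine a_up _ _ _ ⟨t, fun z => ⟨?_, by rw [ht z, sub_self, abs_zero]⟩⟩
  obtain ⟨x, hx, rfl⟩ := dec_surj z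
  have h3 : (tot l x : ℝ) * b ≤ a * num k := by exact_mod_cast h x (mem_range.2 hx)
  rw [← hc x hx, h1] at h3
  have hN' : (0 : ℝ) < num k := by exact_mod_cast hN
  rw [le_div_iff₀ (by exact_mod_cast hb)]
  nlinarith

theorem ok_of_le {k a b : ℕ} (h : 5 * T k * b ≤ a) : Ok k (a, b) := by
  obtain ⟨l, hl, hx⟩ := exists_list k
  refine ⟨l, hl, fun x h1 => ?_⟩
  have h2 := mul_le_mul_of_nonneg_right (hx x (mem_range.1 h1)) (Nat.cast_nonneg (α := ℝ) b)
  have h3 := mul_le_mul_of_nonneg_right h (Nat.cast_nonneg (α := ℝ) (num k))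
  have h4 : (tot l x : ℝ) * b ≤ a * num k := by nlinarith
  exact_mod_cast h4

theorem computable : ∃ g : ℕ → ℕ, Primrec g ∧
    ∀ n : ℕ, |(g n : ℝ) / (n + 1) - cStar| ≤ 1 / (n + 1) := by
  classical
  obtain ⟨K, hK⟩ := a_main.2
  obtain ⟨C, hC⟩ := exists_nat_ge (15 * K)
  have c1 := low_cStar
  have c2 := high_cStar
  have K1 : 1 ≤ K := by simpa using (a_T1 0).1.trans (hK 0)
  have C0 : 0 < C := by exact_mod_cast (show (0 : ℝ) < C by linarith)
  refine ⟨out C, p_out C, fun n => ?_⟩
  have m0 : (0 : ℝ) < n + 1 := by positivity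
  set k := C * (n + 1) with hk
  have k0 : k ≠ 0 := by positivity
  have up : ∀ a : ℕ, Ok k (a ^ k, (n + 1) ^ k) → cStar ≤ a / (n + 1) := fun a h => by
    have h1 := (a_c1 k).trans (le_of_ok (by positivity) h)
    push_cast at h1
    rw [← div_pow] at h1
    exact le_of_pow_le_pow_left₀ k0 (by positivity) h1
  have lo : ∀ a : ℕ, ¬ Ok k (a ^ k, (n + 1) ^ k) → a / (n + 1) ≤ cStar + 1 / (n + 1) :=
    fun a h => by
    refine le_of_not_gt fun h1 => h (ok_of_le ?_)
    have h2 : 1 + (k : ℝ) * (1 / (3 * (n + 1))) ≤ (1 + 1 / (3 * (n + 1))) ^ k :=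
      one_add_mul_le_pow (le_trans (by norm_num) (by positivity : (0 : ℝ) ≤ _)) k
    have h3 : (k : ℝ) * (1 / (3 * (n + 1))) = C / 3 := by
      rw [hk]
      push_cast
      field_simp
    have h4 : cStar * (1 + 1 / (3 * (n + 1))) ≤ a / (n + 1) := by
      have e : cStar * (1 + 1 / (3 * (n + 1))) = cStar + cStar / 3 * (1 / (n + 1)) := by
        field_simp
      have : (0 : ℝ) < 1 / (n + 1) := by positivity
      rw [e]
      nlinarith
    have h5 := pow_le_pow_left₀ (by positivity) h4 k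
    rw [mul_pow, div_pow, le_div_iff₀ (by positivity)] at h5
    push_cast
    refine le_trans (mul_le_mul_of_nonneg_right ?_ (by positivity)) h5
    have h6 : 0 < cStar ^ k := by positivity
    nlinarith [hK k]
  have i0 : (0 : ℝ) < 1 / (n + 1) := by positivity
  rw [abs_le]
  constructor
  · by_cases e : out C n + 1 ≤ 3 * (n + 1)
    · have h1 := up _ (not_not.1 (Nat.findGreatest_is_greatest (Nat.lt_succ_self _) e))
      push_cast at h1
      rw [add_div] at h1
      change cStar ≤ (out C n : ℝ) / (n + 1) + _ at h1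
      linarith
    · have h1 : 3 * ((n : ℝ) + 1) ≤ out C n := by exact_mod_cast (by omega : 3 * (n + 1) ≤ out C n)
      rw [← le_div_iff₀ m0] at h1
      linarith
  · by_cases e : out C n = 0
    · rw [e]
      simp only [Nat.cast_zero, zero_div]
      linarith
    · have h1 := lo _ (Nat.findGreatest_of_ne_zero rfl e)
      change (out C n : ℝ) / (n + 1) ≤ _ at h1
      linarith

end Pool.Agent.Lib.MJ29.Cmp
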