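import Pool.Agent.Lib.MJ29.Defs

/-! Rows `cont` and `push`: ratio-hard laws, and laws given by a random experiment. -/

namespace Pool.Agent.Lib.MJ29

open Finset Pool.Agent.Lib.MP_099303_lc

namespace Cont

variable {ι : Type}

theorem P_ge (t : WT ι) (x : ι → Bool) : 0 ≤ P t x := by
  induction t with
  | leaf b => cases b <;> simp [P, ind]
  | query i t0 t1 h0 h1 => cases h : x i <;> simp [P, h, h0, h1]
  | mix p t0 t1 h0 h1 =>
    exact add_nonneg (mul_nonneg p.2.1 h0) (mul_nonneg (sub_nonneg.2 p.2.2) h1)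

variable [DecidableEq ι]

theorem hit_l (b : Bool) (z : ι → Bool) (l : ι) : hit (.leaf b) z l = 0 := by
  simp [hit, hitT, P, ind]

theorem hc_l (b : Bool) (z : ι → Bool) (l : ι) : hc (.leaf b) z l = 0 := by
  simp [hc, hitT, cost]

theorem hit_q (i : ι) (t0 t1 : WT ι) (z : ι → Bool) (l : ι) : hit (.query i t0 t1) z l =
    if i = l then 1 else bif z i then hit t1 z l else hit t0 z l := by
  by_cases h : i = l
  · cases h' : z i <;> simp [hit, hitT, P, ind, h]
  · simp [hit, hitT, P, h]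

theorem hc_q (i : ι) (t0 t1 : WT ι) (z : ι → Bool) (l : ι) : hc (.query i t0 t1) z l =
    if i = l then 1 else 1 + bif z i then hc t1 z l else hc t0 z l := by
  by_cases h : i = l
  · cases h' : z i <;> simp [hc, hitT, cost, h]
  · simp [hc, hitT, cost, h]

theorem hit_m (p : unitInterval) (t0 t1 : WT ι) (z : ι → Bool) (l : ι) :
    hit (.mix p t0 t1) z l = p * hit t0 z l + (1 - p) * hit t1 z l := rfl

theorem hc_m (p : unitInterval) (t0 t1 : WT ι) (z : ι → Bool) (l : ι) :
    hc (.mix p t0 t1) z l = p * hc t0 z l + (1 - p) * hc t1 z l := rfl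

/-- query all the coordinates of a list -/
def full : List ι → WT ι
  | [] => .leaf false
  | i :: L => .query i (full L) (full L)

theorem hit_full (L : List ι) (z : ι → Bool) (l : ι) (h : l ∈ L) : hit (full L) z l = 1 := by
  induction L with
  | nil => simp at h
  | cons i L ih =>
    rw [full, hit_q]
    by_cases e : i = l
    · rw [if_pos e]
    · rw [if_neg e, Bool.cond_self]
      exact ih ((List.mem_cons.1 h).resolve_left fun k => e k.symm)

theorem hc_full (L : List ι) (z : ι → Bool) (l : ι) : hc (full L) z l ≤ L.length := by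
  induction L with
  | nil => simp [full, hc_l]
  | cons i L ih =>
    rw [full, hc_q, List.length_cons, Nat.cast_succ]
    have h0 : (0 : ℝ) ≤ L.length := Nat.cast_nonneg _
    by_cases e : i = l
    · rw [if_pos e]
      linarith
    · rw [if_neg e, Bool.cond_self]
      linarith

variable [Fintype ι]

theorem hits (z : ι → Bool) (l : ι) : hit (full (univ : Finset ι).toList) z l = 1 :=
  hit_full _ z l (mem_toList.2 (mem_univ l))

theorem hard_le {f : (ι → Bool) → Bool} {r : ℝ} (h : Hard f r) :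
    r ≤ (univ : Finset ι).toList.length := by
  obtain ⟨s, ⟨s0, s1⟩, -, hs⟩ := h
  refine (hs _ fun a _ => hits a.1 a.2).trans ?_
  refine (sum_le_sum fun a _ => mul_le_mul_of_nonneg_left (hc_full _ a.1 a.2) (s0 a)).trans ?_
  rw [← sum_mul, s1, one_mul]

/-- every weight has a cheap tree that always hits -/
theorem cheap {f : (ι → Bool) → Bool} {ρ : ℝ} (h : ¬ Hard f ρ) (s : (ι → Bool) × ι → ℝ)
    (s0 : ∀ a, 0 ≤ s a) (sv : ∀ a, s a ≠ 0 → Valid f a) :
    ∃ u : WT ι, (∀ a, Valid f a → hit u a.1 a.2 = 1) ∧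
      ∑ a, s a * hc u a.1 a.2 ≤ ∑ a, s a * ρ := by
  rcases (sum_nonneg fun a (_ : a ∈ univ) => s0 a).eq_or_lt with e | e
  · have z : ∀ a, s a = 0 := fun a =>
      (sum_eq_zero_iff_of_nonneg fun a _ => s0 a).1 e.symm a (mem_univ a)
    exact ⟨_, fun a _ => hits a.1 a.2, by simp [z]⟩
  · by_contra hc'
    refine h ⟨fun a => s a / ∑ b, s b, ⟨fun a => div_nonneg (s0 a) e.le, ?_⟩,
      fun a ha => sv a fun k => ha (by simp [k]), fun u hu => ?_⟩
    · rw [← sum_div, div_self e.ne']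
    · have h1 : ∑ a, s a * ρ < ∑ a, s a * hc u a.1 a.2 := not_le.1 fun k => hc' ⟨u, hu, k⟩
      rw [← sum_mul] at h1
      unfold Ex
      simp only [div_mul_eq_mul_div]
      rw [← sum_div, le_div_iff₀ e]
      linarith

/-- every tree can be continued -/
theorem cont {f : (ι → Bool) → Bool} {ρ : ℝ} (h : ¬ Hard f ρ) (t : WT ι) :
    ∀ s : (ι → Bool) × ι → ℝ, (∀ a, 0 ≤ s a) → (∀ a, s a ≠ 0 → Valid f a) →
    ∃ u : WT ι, (∀ a, Valid f a → hit u a.1 a.2 = 1) ∧
      ∑ a, s a * hc u a.1 a.2 ≤ ∑ a, s a * (hc t a.1 a.2 + ρ * (1 - hit t a.1 a.2)) := by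
  induction t with
  | leaf b =>
    intro s s0 sv
    simpa only [hit_l, hc_l, sub_zero, mul_one, zero_add] using cheap h s s0 sv
  | query i t0 t1 h0 h1 =>
    intro s s0 sv
    obtain ⟨u0, a0, b0⟩ := h0 (fun a => if i ≠ a.2 ∧ a.1 i = false then s a else 0)
      (fun a => by split_ifs; exacts [s0 a, le_rfl]) fun a ha => sv a fun k => ha (by simp [k])
    obtain ⟨u1, a1, b1⟩ := h1 (fun a => if i ≠ a.2 ∧ a.1 i = true then s a else 0)
      (fun a => by split_ifs; exacts [s0 a, le_rfl]) fun a ha => sv a fun k => ha (by simp [k])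
    refine ⟨.query i u0 u1, fun a ha => ?_, ?_⟩
    · rw [hit_q, a0 a ha, a1 a ha, Bool.cond_self, ite_self]
    · have e1 : ∑ a, s a * hc (.query i u0 u1) a.1 a.2 = ∑ a, s a +
          (∑ a, (if i ≠ a.2 ∧ a.1 i = false then s a else 0) * hc u0 a.1 a.2 +
            ∑ a, (if i ≠ a.2 ∧ a.1 i = true then s a else 0) * hc u1 a.1 a.2) := by
        rw [← sum_add_distrib, ← sum_add_distrib]
        refine sum_congr rfl fun a _ => ?_
        rw [hc_q]
        by_cases e : i = a.2
        · simp [e]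
        · cases k : a.1 i <;> simp [e, mul_add]
      have e2 : ∑ a, s a * (hc (.query i t0 t1) a.1 a.2 + ρ * (1 - hit (.query i t0 t1) a.1 a.2)) =
          ∑ a, s a + (∑ a, (if i ≠ a.2 ∧ a.1 i = false then s a else 0) *
            (hc t0 a.1 a.2 + ρ * (1 - hit t0 a.1 a.2)) +
            ∑ a, (if i ≠ a.2 ∧ a.1 i = true then s a else 0) *
              (hc t1 a.1 a.2 + ρ * (1 - hit t1 a.1 a.2))) := by
        rw [← sum_add_distrib, ← sum_add_distrib]
        refine sum_congr rfl fun a _ => ?_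
        rw [hc_q, hit_q]
        by_cases e : i = a.2
        · simp [e]
        · cases k : a.1 i <;> simp [e, mul_add, add_assoc]
      rw [e1, e2]
      linarith
  | mix p t0 t1 h0 h1 =>
    intro s s0 sv
    obtain ⟨u0, a0, b0⟩ := h0 s s0 sv
    obtain ⟨u1, a1, b1⟩ := h1 s s0 sv
    refine ⟨.mix p u0 u1, fun a ha => ?_, ?_⟩
    · rw [hit_m, a0 a ha, a1 a ha]
      ring
    · have c := add_le_add (mul_le_mul_of_nonneg_left b0 p.2.1)
        (mul_le_mul_of_nonneg_left b1 (sub_nonneg.2 p.2.2))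
      rw [mul_sum, mul_sum, mul_sum, mul_sum, ← sum_add_distrib, ← sum_add_distrib] at c
      refine le_trans (le_of_eq (sum_congr rfl fun a _ => ?_))
        (c.trans (le_of_eq (sum_congr rfl fun a _ => ?_)))
      · rw [hc_m]
        ring
      · rw [hc_m, hit_m]
        ring

end Cont

theorem st_cont : St_cont := by
  intro ι _ _ f r ε hr hε
  classical
  have hex : ∃ n : ℕ, ¬ Hard f (r + n * ε) := by
    obtain ⟨n, hn⟩ := exists_nat_gt (((univ : Finset ι).toList.length - r) / ε)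
    refine ⟨n, fun h => ?_⟩
    have h1 := Cont.hard_le h
    rw [div_lt_iff₀ hε] at hn
    linarith
  have h0 : Nat.find hex ≠ 0 := fun e => by
    have h1 := Nat.find_spec hex
    rw [e, Nat.cast_zero, zero_mul, add_zero] at h1
    exact h1 hr
  obtain ⟨m, hm⟩ := Nat.exists_eq_succ_of_ne_zero h0
  have h1 := Nat.find_spec hex
  rw [hm, Nat.cast_succ] at h1
  obtain ⟨s, ⟨s0, s1⟩, sv, hs⟩ := not_not.1 (Nat.find_min hex (m := m) (by omega))
  refine ⟨s, ⟨s0, s1⟩, sv, fun t => ?_⟩
  obtain ⟨u, hu, h2⟩ := Cont.cont h1 t s s0 sv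
  have h3 := hs u hu
  have h4 : 0 ≤ ∑ a, s a * hit t a.1 a.2 := sum_nonneg fun a _ => mul_nonneg (s0 a) (Cont.P_ge _ _)
  have h5 : ∑ a, s a * (hc t a.1 a.2 + (r + (m + 1) * ε) * (1 - hit t a.1 a.2)) =
      ∑ a, s a * hc t a.1 a.2 + (r + (m + 1) * ε) * (∑ a, s a - ∑ a, s a * hit t a.1 a.2) := by
    rw [← sum_sub_distrib, mul_sum, ← sum_add_distrib]
    exact sum_congr rfl fun a _ => by ring
  rw [h5, s1] at h2
  have h6 : 0 ≤ ((m : ℝ) + 1) * ε * ∑ a, s a * hit t a.1 a.2 := by positivity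
  unfold Ex at h3 ⊢
  linarith

theorem st_push : St_push := by
  intro ι Ω _ _ _ f r w φ hw hv h
  classical
  have key : ∀ F : (ι → Bool) × ι → ℝ,
      ∑ a, (∑ o ∈ univ.filter fun o => φ o = a, w o) * F a = ∑ o, w o * F (φ o) := fun F => by
    rw [← sum_fiberwise univ φ fun o => w o * F (φ o)]
    refine sum_congr rfl fun a _ => ?_
    rw [sum_mul]
    exact sum_congr rfl fun o ho => by rw [(mem_filter.1 ho).2]
  refine ⟨fun a => ∑ o ∈ univ.filter fun o => φ o = a, w o,
    ⟨fun a => sum_nonneg fun o _ => hw.1 o, ?_⟩, fun a ha => ?_, fun t ht => ?_⟩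
  · simpa only [mul_one, hw.2] using key fun _ => 1
  · obtain ⟨o, ho, h1⟩ := exists_ne_zero_of_sum_ne_zero ha
    exact (mem_filter.1 ho).2 ▸ hv o h1
  · exact (h t ht).trans (le_of_eq (key fun a => hc t a.1 a.2).symm)

end Pool.Agent.Lib.MJ29
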