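import Pool.Agent.Lib.MP_099303_lc.Final

/-! Definitions and row statements for `R (iterMaj k) = Θ (cStar ^ k)`. -/

namespace Pool.Agent.Lib.MJ29

open Finset Pool.Agent.Lib.MP_099303_lc

/-- randomised labelled decision trees -/
inductive WT (ι : Type)
  | leaf : Bool → WT ι
  | query : ι → WT ι → WT ι → WT ι
  | mix : unitInterval → WT ι → WT ι → WT ι

def ind (b : Bool) : ℝ := bif b then 1 else 0

section defs

variable {ι J α Λ : Type}

/-- probability of the output `true` -/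
noncomputable def P : WT ι → (ι → Bool) → ℝ
  | .leaf b, _ => ind b
  | .query i t0 t1, x => bif x i then P t1 x else P t0 x
  | .mix p t0 t1, x => p * P t0 x + (1 - p) * P t1 x

/-- expected number of queries -/
noncomputable def cost : WT ι → (ι → Bool) → ℝ
  | .leaf _, _ => 0
  | .query i t0 t1, x => 1 + bif x i then cost t1 x else cost t0 x
  | .mix p t0 t1, x => p * cost t0 x + (1 - p) * cost t1 x

/-- expected number of queries inside `S` -/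
noncomputable def qc (S : ι → Bool) : WT ι → (ι → Bool) → ℝ
  | .leaf _, _ => 0
  | .query i t0 t1, x => ind (S i) + bif x i then qc S t1 x else qc S t0 x
  | .mix p t0 t1, x => p * qc S t0 x + (1 - p) * qc S t1 x

def bind : WT ι → (Bool → WT ι) → WT ι
  | .leaf a, k => k a
  | .query i t0 t1, k => .query i (bind t0 k) (bind t1 k)
  | .mix p t0 t1, k => .mix p (bind t0 k) (bind t1 k)

/-- run until `l` is queried; output `true` exactly if that happens -/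
def hitT [DecidableEq ι] (l : ι) : WT ι → WT ι
  | .leaf _ => .leaf false
  | .query i t0 t1 =>
      if i = l then .query i (.leaf true) (.leaf true) else .query i (hitT l t0) (hitT l t1)
  | .mix p t0 t1 => .mix p (hitT l t0) (hitT l t1)

noncomputable def hit [DecidableEq ι] (t : WT ι) (z : ι → Bool) (l : ι) : ℝ := P (hitT l t) z

noncomputable def hc [DecidableEq ι] (t : WT ι) (z : ι → Bool) (l : ι) : ℝ := cost (hitT l t) z

/-- cut at depth `n` -/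
def trunc : ℕ → WT ι → WT ι
  | _, .leaf b => .leaf b
  | 0, .query _ _ _ => .leaf false
  | n + 1, .query i t0 t1 => .query i (trunc n t0) (trunc n t1)
  | n, .mix p t0 t1 => .mix p (trunc n t0) (trunc n t1)

/-- coordinates decoded by `d` are read from `y`, the others from the background `x` -/
def ov (d : J → Option ι) (x : J → Bool) (y : ι → Bool) : J → Bool :=
  fun j => (d j).elim (x j) y

def pull (d : J → Option ι) (x : J → Bool) : WT J → WT ι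
  | .leaf b => .leaf b
  | .query j t0 t1 =>
      (d j).elim (bif x j then pull d x t1 else pull d x t0)
        fun i => .query i (pull d x t0) (pull d x t1)
  | .mix p t0 t1 => .mix p (pull d x t0) (pull d x t1)

def Ex [Fintype α] (w F : α → ℝ) : ℝ := ∑ a, w a * F a

def IsP [Fintype α] (w : α → ℝ) : Prop := (∀ a, 0 ≤ w a) ∧ ∑ a, w a = 1

def pw [Fintype Λ] (w : α → ℝ) (q : Λ → α) : ℝ := ∏ l, w (q l)

def Exact (f : (ι → Bool) → Bool) (t : WT ι) : Prop := ∀ x, P t x = ind (f x)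

/-- error at most `e`, expected cost at most `M`, on every input -/
def Apx (f : (ι → Bool) → Bool) (M e : ℝ) : Prop :=
  ∃ t : WT ι, ∀ x, cost t x ≤ M ∧ |P t x - ind (f x)| ≤ e

def Valid [DecidableEq ι] (f : (ι → Bool) → Bool) (a : (ι → Bool) × ι) : Prop :=
  ∀ b, f (Function.update a.1 a.2 b) = b

def Hard [Fintype ι] [DecidableEq ι] (f : (ι → Bool) → Bool) (r : ℝ) : Prop :=
  ∃ s : (ι → Bool) × ι → ℝ, IsP s ∧ (∀ a, s a ≠ 0 → Valid f a) ∧
    ∀ t : WT ι, (∀ a, Valid f a → hit t a.1 a.2 = 1) → r ≤ Ex s fun a => hc t a.1 a.2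

/-- ratio-hard law -/
def RH [Fintype ι] [DecidableEq ι] (s : (ι → Bool) × ι → ℝ) (r ε : ℝ) : Prop :=
  ∀ t : WT ι, r * (Ex s fun a => hit t a.1 a.2) - ε ≤ Ex s fun a => hc t a.1 a.2

def Hint (f : (ι → Bool) → Bool) (m g : ℝ) : Prop :=
  ∃ t : WT ι, (∀ x, cost t x ≤ m) ∧ ∀ x1 x0, f x1 = true → f x0 = false → g < P t x1 - P t x0

def LockL [Fintype ι] [DecidableEq ι] (ν : (ι → Bool) × (ι → Bool) → ℝ) (m g : ℝ) : Prop :=
  ∀ t : WT ι, (∀ x, cost t x ≤ m) → (Ex ν fun q => P t q.1 - P t q.2) ≤ g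

def Lock [Fintype ι] [DecidableEq ι] (f : (ι → Bool) → Bool) (m g : ℝ) : Prop :=
  ∃ ν : (ι → Bool) × (ι → Bool) → ℝ, IsP ν ∧ (∀ q, ν q ≠ 0 → f q.1 = true ∧ f q.2 = false) ∧
    LockL ν m g

noncomputable def Tv (f : (ι → Bool) → Bool) : ℝ := (R f).toReal

noncomputable def T (k : ℕ) : ℝ := Tv (iterMaj k)

/-- composition -/
def cmp {B : Type} (f : (B → Bool) → Bool) (g : (ι → Bool) → Bool) (x : B × ι → Bool) : Bool :=
  f fun b => g fun i => x (b, i)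

/-- `g` of majorities of three copies of `f` -/
def lk {B : Type} (g : (B → Bool) → Bool) (f : (ι → Bool) → Bool)
    (x : B × Option Bool × ι → Bool) : Bool :=
  g fun b => maj (f fun i => x (b, none, i)) (f fun i => x (b, some false, i))
    (f fun i => x (b, some true, i))

end defs

/-! ### Row statements -/

def St_mm : Prop := ∀ (X : Type) [Fintype X] (V : X → Prop) (S : Set (X → ℝ)), Convex ℝ S →
  S.Nonempty → (∃ v ∈ S, ∀ x, V x → v x < 0) ∨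
    ∃ ν : X → ℝ, IsP ν ∧ (∀ x, ν x ≠ 0 → V x) ∧ ∀ v ∈ S, 0 ≤ Ex ν v

def St_pmf : Prop := ∀ (ι : Type) (f : (ι → Bool) → Bool) (C : ℝ), Apx f C 0 →
  R f ≤ ENNReal.ofReal C

def St_ofDT : Prop := ∀ (ι : Type) [DecidableEq ι] (f : (ι → Bool) → Bool) (A : DT ι),
  A.Computes f → ∃ t : WT ι, Exact f t ∧ ∀ x, cost t x = (A.queried x).length

def St_fin : Prop := ∀ (ι : Type) [Fintype ι] [DecidableEq ι] (f : (ι → Bool) → Bool), R f ≠ ⊤

def St_up : Prop := ∀ (ι : Type) (f : (ι → Bool) → Bool) (C : ℝ), Apx f C 0 → Tv f ≤ C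

def St_alg : Prop := ∀ (ι : Type) [Fintype ι] [DecidableEq ι] (f : (ι → Bool) → Bool) (C : ℝ),
  Tv f < C → Apx f C 0

def St_yao : Prop := ∀ (ι : Type) [Fintype ι] [DecidableEq ι] (f : (ι → Bool) → Bool) (C : ℝ),
  C < Tv f → ∃ ν : (ι → Bool) → ℝ, IsP ν ∧ ∀ t : WT ι, Exact f t → C ≤ Ex ν (cost t)

def St_one : Prop := ∀ (ι : Type) [Fintype ι] [DecidableEq ι] (f : (ι → Bool) → Bool)
  (x1 x0 : ι → Bool), f x1 = true → f x0 = false → 1 ≤ Tv f

def St_dich : Prop := ∀ (ι : Type) [Fintype ι] [DecidableEq ι] (f : (ι → Bool) → Bool) (m g : ℝ),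
  0 ≤ m → Hint f m g ∨ Lock f m g

def St_comp : Prop := ∀ (ι J : Type) (f : (ι → Bool) → Bool) (g : ι → (J → Bool) → Bool)
  (M e C : ℝ), 0 ≤ C → Apx f M e → (∀ i, Apx (g i) C 0) →
    Apx (fun x => f fun i => g i x) (M * C) e

def St_amp : Prop := ∀ g : ℝ, 0 < g → ∃ n : ℝ, 0 < n ∧
  ∀ (ι : Type) [Fintype ι] [DecidableEq ι] (f : (ι → Bool) → Bool) (m : ℝ),
    Hint f m g → Apx f (n * m) (1 / 10)

def St_step : Prop := ∀ (J : Type) (f0 f1 f2 : (J → Bool) → Bool) (M B : ℝ),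
  Apx f0 M (1 / 10) → Apx f1 M (1 / 10) → Apx f2 M (1 / 10) →
  Apx f0 B 0 → Apx f1 B 0 → Apx f2 B 0 →
    Apx (fun x => maj (f0 x) (f1 x) (f2 x)) (3 * M + 23 / 10 * B) 0

def St_cont : Prop := ∀ (ι : Type) [Fintype ι] [DecidableEq ι] (f : (ι → Bool) → Bool) (r ε : ℝ),
  Hard f r → 0 < ε → ∃ s : (ι → Bool) × ι → ℝ, IsP s ∧ (∀ a, s a ≠ 0 → Valid f a) ∧ RH s r ε

def St_dd : Prop := ∀ (ι : Type) [Fintype ι] [DecidableEq ι] (t : WT ι),
  ∃ t' : WT ι, ∀ x, P t' x = P t x ∧ cost t' x ≤ ∑ i, hit t x i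

def St_res : Prop := ∀ (Λ α : Type) [Fintype Λ] [DecidableEq Λ] [Fintype α] (w : α → ℝ), IsP w →
  IsP (pw w : (Λ → α) → ℝ) ∧ ∀ (l : Λ) (F : (Λ → α) → ℝ),
    Ex (pw w) F = Ex (pw w) fun q => Ex w fun a => F (Function.update q l a)

def St_push : Prop := ∀ (ι Ω : Type) [Fintype ι] [DecidableEq ι] [Fintype Ω]
  (f : (ι → Bool) → Bool) (r : ℝ) (w : Ω → ℝ) (φ : Ω → (ι → Bool) × ι), IsP w →
  (∀ o, w o ≠ 0 → Valid f (φ o)) →
  (∀ t : WT ι, (∀ a, Valid f a → hit t a.1 a.2 = 1) →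
    r ≤ Ex w fun o => hc t (φ o).1 (φ o).2) → Hard f r

def St_ds : Prop := ∀ (B ι J : Type) [Fintype B] [DecidableEq B] [Fintype ι] [DecidableEq ι]
  [DecidableEq J] (s : (ι → Bool) × ι → ℝ) (r ε : ℝ) (d : B → J → Option ι) (e : B → ι → J)
  (X : (B → (ι → Bool) × ι) → J → Bool) (t : WT J), IsP s → RH s r ε →
  (∀ b j i, d b j = some i ↔ j = e b i) →
  (∀ b b' j, (d b j).isSome = true → (d b' j).isSome = true → b = b') →
  (∀ o b a, ∃ u, X (Function.update o b a) = ov (d b) (X o) (Function.update a.1 a.2 u)) →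
  r * (∑ b, Ex (pw s) fun o => hit t (X o) (e b (o b).2)) - Fintype.card B * ε ≤
    Ex (pw s) fun o => cost t (X o)

def St_hyb : Prop := ∀ (Λ ι : Type) [Fintype Λ] [DecidableEq Λ] [Fintype ι] [DecidableEq ι]
  (ν : (ι → Bool) × (ι → Bool) → ℝ) (m g : ℝ) (G : (Λ → ι → Bool) → ℝ) (u : Λ → Bool),
  IsP ν → LockL ν m g → 0 ≤ g →
  (∀ l y, ∃ t : WT ι, (∀ w, cost t w ≤ m) ∧ ∀ w, G (Function.update y l w) = P t w) →
  (Ex (pw ν) fun q => G fun l => bif u l then (q l).1 else (q l).2) ≤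
    (Ex (pw ν) fun q => G fun l => (q l).2) + Fintype.card Λ * g

def St_f2 : Prop := ∀ (B ι : Type) [Fintype B] [DecidableEq B] [Fintype ι] [DecidableEq ι]
  (f : (B → Bool) → Bool) (g : (ι → Bool) → Bool) (r : ℝ), 0 ≤ r → Hard g r →
    r * Tv f ≤ Tv (cmp f g)

def St_lock : Prop := ∀ (B ι : Type) [Fintype B] [DecidableEq B] [Nonempty B] [Fintype ι]
  [DecidableEq ι] (g : (B → Bool) → Bool) (f : (ι → Bool) → Bool) (r : ℝ), 0 < r →
  (∀ b, ∃ v, Valid g (v, b)) → Hard f r →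
  Lock f (Fintype.card B * r / 4) (1 / (8 * Fintype.card B)) →
    Hard (lk g f) (Fintype.card B * r / 16)

def St_tvE : Prop := ∀ (J J' : Type) [Fintype J] [DecidableEq J] [Fintype J'] [DecidableEq J']
  (E : J ≃ J') (G : (J → Bool) → Bool), Tv (fun x : J' → Bool => G fun j => x (E j)) = Tv G

def St_hardE : Prop := ∀ (J J' : Type) [Fintype J] [DecidableEq J] [Fintype J'] [DecidableEq J']
  (E : J ≃ J') (G : (J → Bool) → Bool) (r : ℝ), Hard G r →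
    Hard (fun x : J' → Bool => G fun j => x (E j)) r

def St_idx : Prop := ∀ k l : ℕ, ∃ E : Fin (3 ^ k) × Fin (3 ^ l) ≃ Fin (3 ^ (l + k)),
  ∀ x, iterMaj (l + k) x = cmp (iterMaj k) (iterMaj l) fun j => x (E j)

def St_idx3 : Prop := ∀ t k : ℕ,
  ∃ E : Fin (3 ^ t) × Option Bool × Fin (3 ^ k) ≃ Fin (3 ^ (k + 1 + t)),
    ∀ x, iterMaj (k + 1 + t) x = lk (iterMaj t) (iterMaj k) fun j => x (E j)

def St_valid : Prop := ∀ (t : ℕ) (b : Fin (3 ^ t)), ∃ v, Valid (iterMaj t) (v, b)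

def St_hard1 : Prop := ∀ k : ℕ, Hard (iterMaj k) 1

def St_restr : Prop := ∀ (h d : ℕ) (m g : ℝ), Hint (iterMaj (h + d)) m g → Hint (iterMaj h) m g

def St_T1 : Prop := ∀ k, 1 ≤ T k ∧ T k ≤ 3 ^ k ∧ R (iterMaj k) = ENNReal.ofReal (T k)

def St_lift : Prop := ∀ (k l : ℕ) (M e C : ℝ), Apx (iterMaj k) M e → T l < C →
  Apx (iterMaj (l + k)) (M * C) e

def St_sub : Prop := ∀ k l, T (l + k) ≤ T k * T l

def St_stepT : Prop := ∀ (H : ℕ) (M : ℝ), Apx (iterMaj H) M (1 / 10) →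
  T (H + 1) ≤ 3 * M + 23 / 10 * T H

def St_c1 : Prop := ∀ k, cStar ^ k ≤ T k

def St_c2 : Prop := ∀ c, cStar < c → ∀ᶠ k in Filter.atTop, T k ≤ c ^ k

def St_rle : Prop := ∀ (l : ℕ) (r : ℝ), Hard (iterMaj l) r → r ≤ cStar ^ l

def St_seqG : Prop := ∀ (U : ℕ → ℝ) (c a : ℝ) (k : ℕ), 13 / 5 ≤ c → 0 ≤ a →
  (∀ H, c ^ H ≤ U H) → (∀ H, U H ≤ 3 ^ H) →
  (∀ l, U (l + k + 1) ≤ a * U l + 23 / 10 * U (l + k)) → 3 / 10 * c ^ k ≤ a

def St_seqF : Prop := ∀ (U : ℕ → ℝ) (c A : ℝ), 13 / 5 ≤ c → U 0 ≤ 1 →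
  (∀ H, U (H + 1) ≤ A * c ^ H + 23 / 10 * U H) → ∃ K, ∀ H, U H ≤ K * c ^ H

def St_lockT : Prop := ∀ (t k : ℕ) (r : ℝ), 0 < r → Hard (iterMaj k) r →
  Hint (iterMaj k) (3 ^ t * r / 4) (1 / (8 * 3 ^ t)) ∨ Hard (iterMaj (k + 1 + t)) (3 ^ t * r / 16)

def St_main : Prop := 13 / 5 ≤ cStar → cStar ≤ 53 / 20 → ∃ K : ℝ, ∀ k, T k ≤ K * cStar ^ k

end Pool.Agent.Lib.MJ29
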