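import Pool.Agent.Lib.MJ29.Defs

/-! Rows `St_res`, `St_dd`, `St_ds`. -/

namespace Pool.Agent.Lib.MJ29

open Finset

namespace Ds

variable {ι J α Λ B : Type}

lemma hit_leaf [DecidableEq ι] (b : Bool) (x : ι → Bool) (l : ι) :
    hit (.leaf b) x l = 0 := by
  simp [hit, hitT, P, ind]

lemma hit_query [DecidableEq ι] (i : ι) (t0 t1 : WT ι) (x : ι → Bool) (l : ι) :
    hit (.query i t0 t1) x l =
      if i = l then 1 else bif x i then hit t1 x l else hit t0 x l := by
  unfold hit
  by_cases h : i = l
  · simp only [hitT, if_pos h, P, ind]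
    cases x i <;> simp
  · simp only [hitT, if_neg h, P]

lemma hit_mix [DecidableEq ι] (p : unitInterval) (t0 t1 : WT ι) (x : ι → Bool) (l : ι) :
    hit (.mix p t0 t1) x l = p * hit t0 x l + (1 - p) * hit t1 x l := by
  simp only [hit, hitT, P]

lemma hc_leaf [DecidableEq ι] (b : Bool) (x : ι → Bool) (l : ι) :
    hc (.leaf b) x l = 0 := by
  simp [hc, hitT, cost]

lemma hc_query [DecidableEq ι] (i : ι) (t0 t1 : WT ι) (x : ι → Bool) (l : ι) :
    hc (.query i t0 t1) x l =
      if i = l then 1 else 1 + bif x i then hc t1 x l else hc t0 x l := by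
  unfold hc
  by_cases h : i = l
  · simp only [hitT, if_pos h, cost]
    cases x i <;> simp
  · simp only [hitT, if_neg h, cost]

lemma hc_mix [DecidableEq ι] (p : unitInterval) (t0 t1 : WT ι) (x : ι → Bool) (l : ι) :
    hc (.mix p t0 t1) x l = p * hc t0 x l + (1 - p) * hc t1 x l := by
  simp only [hc, hitT, cost]

lemma p0 (p : unitInterval) : (0 : ℝ) ≤ p := p.2.1

lemma p1 (p : unitInterval) : (0 : ℝ) ≤ 1 - p := sub_nonneg.2 p.2.2

lemma cost_nonneg (t : WT ι) (x : ι → Bool) : 0 ≤ cost t x := by
  induction t with
  | leaf b => simp [cost]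
  | query i t0 t1 h0 h1 =>
    simp only [cost]
    cases x i
    · simp only [cond_false]; linarith
    · simp only [cond_true]; linarith
  | mix p t0 t1 h0 h1 =>
    simp only [cost]
    exact add_nonneg (mul_nonneg (p0 p) h0) (mul_nonneg (p1 p) h1)

lemma hc_le_cost [DecidableEq ι] (t : WT ι) (x : ι → Bool) (l : ι) : hc t x l ≤ cost t x := by
  induction t with
  | leaf b => simp [hc_leaf, cost]
  | query i t0 t1 h0 h1 =>
    rw [hc_query]
    simp only [cost]
    have a0 := cost_nonneg t0 x
    have a1 := cost_nonneg t1 x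
    split_ifs
    · cases x i
      · simp only [cond_false]; linarith
      · simp only [cond_true]; linarith
    · cases x i
      · simp only [cond_false]; linarith
      · simp only [cond_true]; linarith
  | mix p t0 t1 h0 h1 =>
    rw [hc_mix]
    simp only [cost]
    exact add_le_add (mul_le_mul_of_nonneg_left h0 (p0 p)) (mul_le_mul_of_nonneg_left h1 (p1 p))

lemma hit_update [DecidableEq ι] (t : WT ι) (x : ι → Bool) (l : ι) (u : Bool) :
    hit t (Function.update x l u) l = hit t x l := by
  induction t with
  | leaf b => simp [hit_leaf]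
  | query i t0 t1 h0 h1 =>
    rw [hit_query, hit_query]
    by_cases h : i = l
    · rw [if_pos h, if_pos h]
    · rw [if_neg h, if_neg h, Function.update_of_ne h, h0, h1]
  | mix p t0 t1 h0 h1 => rw [hit_mix, hit_mix, h0, h1]

lemma hc_update [DecidableEq ι] (t : WT ι) (x : ι → Bool) (l : ι) (u : Bool) :
    hc t (Function.update x l u) l = hc t x l := by
  induction t with
  | leaf b => simp [hc_leaf]
  | query i t0 t1 h0 h1 =>
    rw [hc_query, hc_query]
    by_cases h : i = l
    · rw [if_pos h, if_pos h]
    · rw [if_neg h, if_neg h, Function.update_of_ne h, h0, h1]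
  | mix p t0 t1 h0 h1 => rw [hc_mix, hc_mix, h0, h1]

lemma cost_pull (d : J → Option ι) (x : J → Bool) (t : WT J) (y : ι → Bool) :
    cost (pull d x t) y = qc (fun j => (d j).isSome) t (ov d x y) := by
  induction t with
  | leaf b => simp [pull, cost, qc]
  | query j t0 t1 h0 h1 =>
    cases hj : d j with
    | none =>
      have e1 : ov d x y j = x j := by simp [ov, hj]
      simp only [pull, qc, hj, Option.elim, e1, Option.isSome_none, ind, cond_false, zero_add]
      cases x j
      · simpa using h0
      · simpa using h1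
    | some i =>
      have e1 : ov d x y j = y i := by simp [ov, hj]
      simp only [pull, qc, hj, Option.elim, e1, Option.isSome_some, ind, cond_true, cost, h0, h1]
  | mix p t0 t1 h0 h1 => simp only [pull, cost, qc, h0, h1]

lemma hit_pull [DecidableEq ι] [DecidableEq J] (d : J → Option ι) (x : J → Bool) (t : WT J)
    (y : ι → Bool) (i : ι) (j0 : J) (hd : ∀ j, d j = some i ↔ j = j0) :
    hit (pull d x t) y i = hit t (ov d x y) j0 := by
  induction t with
  | leaf b => simp [pull, hit_leaf]
  | query j t0 t1 h0 h1 =>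
    cases hj : d j with
    | none =>
      have e1 : ov d x y j = x j := by simp [ov, hj]
      have hne : j ≠ j0 := fun h => by
        have := (hd j).2 h
        rw [hj] at this
        cases this
      rw [hit_query, if_neg hne, e1]
      simp only [pull, hj, Option.elim]
      cases x j
      · simpa using h0
      · simpa using h1
    | some i' =>
      have e1 : ov d x y j = y i' := by simp [ov, hj]
      rw [hit_query, e1]
      simp only [pull, hj, Option.elim]
      rw [hit_query, h0, h1]
      by_cases h : i' = i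
      · rw [if_pos h, if_pos ((hd j).1 (by rw [hj, h]))]
      · have hne : j ≠ j0 := fun h' => by
          have := (hd j).2 h'
          rw [hj] at this
          exact h (Option.some.inj this)
        rw [if_neg h, if_neg hne]
  | mix p t0 t1 h0 h1 => simp only [pull, hit_mix, h0, h1]

lemma ind_sum [Fintype B] [DecidableEq B] (c : B → Bool)
    (h : ∀ b b', c b = true → c b' = true → b = b') : ∑ b, ind (c b) ≤ 1 := by
  by_cases he : ∃ b, c b = true
  · obtain ⟨b0, hb0⟩ := he
    rw [Finset.sum_eq_single b0]
    · simp [ind, hb0]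
    · intro b _ hb
      cases hc : c b with
      | false => simp [ind]
      | true => exact absurd (h b b0 hc hb0) hb
    · intro hb
      exact absurd (Finset.mem_univ b0) hb
  · have : ∀ b, ind (c b) = 0 := fun b => by
      cases hc : c b with
      | false => simp [ind]
      | true => exact absurd ⟨b, hc⟩ he
    simp [this]

lemma qc_sum [Fintype B] [DecidableEq B] (S : B → J → Bool)
    (h : ∀ b b' j, S b j = true → S b' j = true → b = b') (t : WT J) (x : J → Bool) :
    ∑ b, qc (S b) t x ≤ cost t x := by
  induction t with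
  | leaf b => simp [qc, cost]
  | query j t0 t1 h0 h1 =>
    have a := ind_sum (fun b => S b j) fun b b' => h b b' j
    simp only [qc, cost, Finset.sum_add_distrib]
    cases x j
    · simp only [cond_false]; linarith
    · simp only [cond_true]; linarith
  | mix p t0 t1 h0 h1 =>
    simp only [qc, cost, Finset.sum_add_distrib, ← Finset.mul_sum]
    exact add_le_add (mul_le_mul_of_nonneg_left h0 (p0 p)) (mul_le_mul_of_nonneg_left h1 (p1 p))

lemma Ex_mono [Fintype α] {w F G : α → ℝ} (hw : ∀ a, 0 ≤ w a) (h : ∀ a, F a ≤ G a) :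
    Ex w F ≤ Ex w G :=
  Finset.sum_le_sum fun a _ => mul_le_mul_of_nonneg_left (h a) (hw a)

lemma Ex_aff [Fintype α] {w : α → ℝ} (hw : IsP w) (F : α → ℝ) (r ε : ℝ) :
    (Ex w fun a => r * F a - ε) = r * Ex w F - ε := by
  unfold Ex
  have : ∀ a, w a * (r * F a - ε) = r * (w a * F a) - ε * w a := fun a => by ring
  simp only [this, Finset.sum_sub_distrib, ← Finset.mul_sum, hw.2, mul_one]

lemma Ex_sum [Fintype α] [Fintype B] (w : α → ℝ) (F : B → α → ℝ) :
    ∑ b, Ex w (F b) = Ex w fun a => ∑ b, F b a := by
  unfold Ex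
  rw [Finset.sum_comm]
  simp only [Finset.mul_sum]

lemma pw_swap [Fintype Λ] [DecidableEq Λ] (w : α → ℝ) (q : Λ → α) (l : Λ) (a : α) :
    pw w q * w a = pw w (Function.update q l a) * w (q l) := by
  unfold pw
  rw [← Finset.mul_prod_erase Finset.univ _ (Finset.mem_univ l),
    ← Finset.mul_prod_erase Finset.univ (fun l' => w (Function.update q l a l'))
      (Finset.mem_univ l)]
  have : ∏ l' ∈ Finset.univ.erase l, w (Function.update q l a l') =
      ∏ l' ∈ Finset.univ.erase l, w (q l') :=
    Finset.prod_congr rfl fun l' hl' => by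
      rw [Function.update_of_ne (Finset.ne_of_mem_erase hl')]
  rw [this, Function.update_self]
  ring

/-- the swap of the coordinate `l` with a fresh sample -/
def sw [DecidableEq Λ] (l : Λ) : (Λ → α) × α ≃ (Λ → α) × α where
  toFun z := (Function.update z.1 l z.2, z.1 l)
  invFun z := (Function.update z.1 l z.2, z.1 l)
  left_inv z := by simp
  right_inv z := by simp

lemma dd_aux [Fintype ι] [DecidableEq ι] (t : WT ι) : ∀ (S : Finset ι) (y : ι → Bool),
    ∃ t' : WT ι, ∀ x, (∀ i ∈ S, x i = y i) →
      P t' x = P t x ∧ cost t' x ≤ ∑ i ∈ Sᶜ, hit t x i := by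
  induction t with
  | leaf b =>
    intro S y
    exact ⟨.leaf b, fun x _ => ⟨rfl, by simp [cost, hit_leaf]⟩⟩
  | query j t0 t1 h0 h1 =>
    intro S y
    by_cases hj : j ∈ S
    · have hs : ∀ x : ι → Bool, ∑ i ∈ Sᶜ, hit (.query j t0 t1) x i =
          ∑ i ∈ Sᶜ, bif x j then hit t1 x i else hit t0 x i := fun x =>
        Finset.sum_congr rfl fun i hi => by
          have hne : j ≠ i := fun h => (Finset.mem_compl.1 hi) (h ▸ hj)
          rw [hit_query, if_neg hne]
      cases hy : y j with
      | false =>
        obtain ⟨t', ht⟩ := h0 S y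
        refine ⟨t', fun x hx => ?_⟩
        have hxj : x j = false := (hx j hj).trans hy
        rw [hs]
        simp only [P, hxj, cond_false]
        exact ht x hx
      | true =>
        obtain ⟨t', ht⟩ := h1 S y
        refine ⟨t', fun x hx => ?_⟩
        have hxj : x j = true := (hx j hj).trans hy
        rw [hs]
        simp only [P, hxj, cond_true]
        exact ht x hx
    · have hs : ∀ x : ι → Bool, ∑ i ∈ Sᶜ, hit (.query j t0 t1) x i =
          1 + ∑ i ∈ (insert j S)ᶜ, bif x j then hit t1 x i else hit t0 x i := fun x => by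
        rw [← Finset.add_sum_erase _ _ (Finset.mem_compl.2 hj), hit_query, if_pos rfl,
          Finset.compl_insert]
        congr 1
        exact Finset.sum_congr rfl fun i hi => by
          rw [hit_query, if_neg (Finset.ne_of_mem_erase hi).symm]
      have hag : ∀ (x : ι → Bool) (u : Bool), (∀ i ∈ S, x i = y i) → x j = u →
          ∀ i ∈ insert j S, x i = Function.update y j u i := fun x u hx hu i hi => by
        rcases Finset.mem_insert.1 hi with h | h
        · rw [h, Function.update_self, hu]
        · have hne : i ≠ j := fun h' => hj (h' ▸ h)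
          rw [Function.update_of_ne hne, hx i h]
      obtain ⟨s0, hs0⟩ := h0 (insert j S) (Function.update y j false)
      obtain ⟨s1, hs1⟩ := h1 (insert j S) (Function.update y j true)
      refine ⟨.query j s0 s1, fun x hx => ?_⟩
      rw [hs]
      cases hxj : x j with
      | false =>
        have := hs0 x (hag x false hx hxj)
        simp only [P, cost, hxj, cond_false]
        exact ⟨this.1, by linarith [this.2]⟩
      | true =>
        have := hs1 x (hag x true hx hxj)
        simp only [P, cost, hxj, cond_true]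
        exact ⟨this.1, by linarith [this.2]⟩
  | mix p t0 t1 h0 h1 =>
    intro S y
    obtain ⟨s0, hs0⟩ := h0 S y
    obtain ⟨s1, hs1⟩ := h1 S y
    refine ⟨.mix p s0 s1, fun x hx => ?_⟩
    have a0 := hs0 x hx
    have a1 := hs1 x hx
    simp only [P, cost, hit_mix, Finset.sum_add_distrib, ← Finset.mul_sum, a0.1, a1.1]
    exact ⟨trivial, add_le_add (mul_le_mul_of_nonneg_left a0.2 (p0 p))
      (mul_le_mul_of_nonneg_left a1.2 (p1 p))⟩

end Ds

theorem st_res : St_res := by
  intro Λ α _ _ _ w hw
  refine ⟨⟨fun q => Finset.prod_nonneg fun l _ => hw.1 _, ?_⟩, fun l F => ?_⟩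
  · have := Finset.prod_univ_sum (fun _ : Λ => (Finset.univ : Finset α)) fun _ a => w a
    rw [Fintype.piFinset_univ] at this
    unfold pw
    rw [← this]
    simp [hw.2]
  · have e1 : (Ex (pw w) fun q => Ex w fun a => F (Function.update q l a)) =
        ∑ z : (Λ → α) × α, pw w (Ds.sw l z).1 * w (Ds.sw l z).2 * F (Ds.sw l z).1 := by
      unfold Ex
      rw [Fintype.sum_prod_type]
      refine Finset.sum_congr rfl fun q _ => ?_
      rw [Finset.mul_sum]
      refine Finset.sum_congr rfl fun a _ => ?_
      rw [← mul_assoc, Ds.pw_swap w q l a]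
      rfl
    rw [e1, Equiv.sum_comp (Ds.sw l) fun z : (Λ → α) × α => pw w z.1 * w z.2 * F z.1,
      Fintype.sum_prod_type]
    unfold Ex
    refine Finset.sum_congr rfl fun q _ => ?_
    have : ∀ a, pw w q * w a * F q = pw w q * F q * w a := fun a => by ring
    simp only [this, ← Finset.mul_sum, hw.2, mul_one]

theorem st_dd : St_dd := by
  intro ι _ _ t
  obtain ⟨t', ht⟩ := Ds.dd_aux t ∅ fun _ => false
  refine ⟨t', fun x => ?_⟩
  have := ht x fun i hi => absurd hi (Finset.notMem_empty i)
  rwa [Finset.compl_empty] at this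

theorem st_ds : St_ds := by
  intro B ι J _ _ _ _ _ s r ε d e X t hs hR hd hdis hX
  obtain ⟨hP, hres⟩ := st_res B _ s hs
  have key : ∀ b, r * (Ex (pw s) fun o => hit t (X o) (e b (o b).2)) - ε ≤
      Ex (pw s) fun o => qc (fun j => (d b j).isSome) t (X o) := by
    intro b
    rw [hres b fun o => hit t (X o) (e b (o b).2),
      hres b fun o => qc (fun j => (d b j).isSome) t (X o), ← Ds.Ex_aff hP]
    refine Ds.Ex_mono hP.1 fun o => ?_
    have h1 := hR (pull (d b) (X o) t)
    have h2 : (Ex s fun a => hit t (X (Function.update o b a))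
        (e b (Function.update o b a b).2)) =
        Ex s fun a => hit (pull (d b) (X o) t) a.1 a.2 := by
      congr 1
      funext a
      obtain ⟨u, hu⟩ := hX o b a
      rw [Function.update_self, hu, ← Ds.hit_update _ a.1 a.2 u]
      exact (Ds.hit_pull (d b) (X o) t _ a.2 (e b a.2) fun j => hd b j a.2).symm
    have h3 : (Ex s fun a => hc (pull (d b) (X o) t) a.1 a.2) ≤
        Ex s fun a => qc (fun j => (d b j).isSome) t (X (Function.update o b a)) := by
      refine Ds.Ex_mono hs.1 fun a => ?_
      obtain ⟨u, hu⟩ := hX o b a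
      rw [hu, ← Ds.cost_pull, ← Ds.hc_update _ a.1 a.2 u]
      exact Ds.hc_le_cost _ _ _
    rw [h2]
    exact h1.trans h3
  have hsum := Finset.sum_le_sum fun b (_ : b ∈ (Finset.univ : Finset B)) => key b
  rw [Finset.sum_sub_distrib, ← Finset.mul_sum, Finset.sum_const, Finset.card_univ,
    nsmul_eq_mul, Ds.Ex_sum (pw s) fun b o => qc (fun j => (d b j).isSome) t (X o)] at hsum
  exact hsum.trans (Ds.Ex_mono hP.1 fun o =>
    Ds.qc_sum (fun b j => (d b j).isSome) hdis t (X o))

end Pool.Agent.Lib.MJ29
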