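import Pool.Agent.Lib.MJ29.Base

/-! Bounded-error randomized query complexity. -/

namespace Pool.Agent.Lib.MJ29

open scoped ENNReal

/-- deterministic decision trees with an output bit at each leaf -/
inductive LT (ι : Type)
  | leaf : Bool → LT ι
  | query : ι → LT ι → LT ι → LT ι

/-- the output on input `x` -/
def LT.out {ι : Type} : LT ι → (ι → Bool) → Bool
  | .leaf b, _ => b
  | .query i t0 t1, x => bif x i then t1.out x else t0.out x

/-- the number of queries on input `x` -/
def LT.len {ι : Type} : LT ι → (ι → Bool) → ℕ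
  | .leaf _, _ => 0
  | .query i t0 t1, x => 1 + bif x i then t1.len x else t0.len x

/-- `δ`-error randomized query complexity: least worst-case expected number of queries over
probability distributions on trees whose output is wrong with probability at most `δ` on every
input -/
noncomputable def Rerr {ι : Type} (f : (ι → Bool) → Bool) (δ : ℝ) : ℝ≥0∞ :=
  ⨅ (A : PMF (LT ι))
    (_ : ∀ x, ∑' T, A T * (if T.out x = f x then 0 else 1) ≤ ENNReal.ofReal δ),
    ⨆ x : ι → Bool, ∑' T, A T * (T.len x : ℝ≥0∞)

def St_berr : Prop := ∀ (ι : Type) (f : (ι → Bool) → Bool) (M δ δ' : ℝ), 0 ≤ δ → δ < δ' →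
  Rerr f δ < ENNReal.ofReal M → Apx f M δ'

def St_errle : Prop := ∀ (ι : Type) [DecidableEq ι] (f : (ι → Bool) → Bool) (δ : ℝ),
  Rerr f δ ≤ MP_099303_lc.R f

end Pool.Agent.Lib.MJ29
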