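import Pool.Agent.Lib.MJ29.Err

/-! Bounded error is at most zero error. -/

namespace Pool.Agent.Lib.MJ29

open scoped ENNReal
open Pool.Agent.Lib.MP_099303_lc

namespace Errle

variable {ι : Type} [DecidableEq ι]

/-- label the leaves by the value on a background input updated along the path -/
def lab (f : (ι → Bool) → Bool) : DT ι → (ι → Bool) → LT ι
  | .halt, z => .leaf (f z)
  | .query i t0 t1, z =>
      .query i (lab f t0 (Function.update z i false)) (lab f t1 (Function.update z i true))

lemma lab_len (f : (ι → Bool) → Bool) (T : DT ι) (z x : ι → Bool) :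
    (lab f T z).len x = (T.queried x).length := by
  induction T generalizing z with
  | halt => rfl
  | query i t0 t1 h0 h1 =>
    cases h : x i <;> simp [lab, LT.len, DT.queried, h, h0, h1, add_comm]

lemma lab_out (f : (ι → Bool) → Bool) (T : DT ι) (z x : ι → Bool) :
    ∃ y, (lab f T z).out x = f y ∧ ∀ j, (z j = x j ∨ j ∈ T.queried x) → y j = x j := by
  induction T generalizing z with
  | halt => exact ⟨z, rfl, fun j hj => hj.resolve_right (by simp [DT.queried])⟩
  | query i t0 t1 h0 h1 =>
    have key : ∀ (L : List ι) (j : ι), (z j = x j ∨ j ∈ i :: L) →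
        (Function.update z i (x i) j = x j ∨ j ∈ L) := fun L j hj => by
      by_cases hji : j = i
      · subst hji; exact Or.inl (Function.update_self _ _ _)
      · rw [Function.update_of_ne hji]
        exact hj.imp_right fun h => (List.mem_cons.1 h).resolve_left hji
    cases h : x i
    · obtain ⟨y, e, hy⟩ := h0 (Function.update z i false)
      refine ⟨y, by simpa [lab, LT.out, h] using e, fun j hj => hy j ?_⟩
      rw [← h]
      exact key _ j (by simpa [DT.queried, h] using hj)
    · obtain ⟨y, e, hy⟩ := h1 (Function.update z i true)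
      refine ⟨y, by simpa [lab, LT.out, h] using e, fun j hj => hy j ?_⟩
      rw [← h]
      exact key _ j (by simpa [DT.queried, h] using hj)

lemma tsum_map {α β : Type} (A : PMF α) (g : α → β) (F : β → ℝ≥0∞) :
    ∑' b, A.map g b * F b = ∑' a, A a * F (g a) := by
  classical
  simp only [PMF.map_apply, ← ENNReal.tsum_mul_right]
  rw [ENNReal.tsum_comm]
  refine tsum_congr fun a => ?_
  rw [tsum_eq_single (g a) fun b hb => by rw [if_neg hb, zero_mul], if_pos rfl]

end Errle

open Errle in
theorem st_errle : St_errle := by
  intro ι _ f δ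
  unfold R Rerr
  refine le_iInf₂ fun A hA => ?_
  refine iInf₂_le_of_le (A.map fun T => lab f T fun _ => false) (fun x => ?_) (iSup_mono fun x => ?_)
  · rw [tsum_map, ENNReal.tsum_eq_zero.2 fun T => ?_]
    · exact zero_le
    · by_cases hT : T ∈ A.support
      · obtain ⟨y, e, hy⟩ := lab_out f T (fun _ => false) x
        rw [e, hA T hT x y fun i hi => hy i (Or.inr hi), if_pos rfl, mul_zero]
      · rw [(PMF.apply_eq_zero_iff A T).2 hT, zero_mul]
  · rw [tsum_map]
    simp only [lab_len, le_refl]

end Pool.Agent.Lib.MJ29
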