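import Pool.Agent.Lib.MJ29.All

/-! The constant of the growth theorem made explicit. -/

namespace Pool.Agent.Lib.MJ29.Expl

open Pool.Agent.Lib.MP_099303_lc

theorem amp {ι : Type} [Fintype ι] [DecidableEq ι] (f : (ι → Bool) → Bool) (m : ℝ)
    (h : Hint f m (1 / (8 * 3 ^ 36))) : Apx f (3 ^ 468 * m) (1 / 10) := by
  have hg : (0 : ℝ) < 1 / (8 * 3 ^ 36) := by positivity
  have hk : (2 / 5 : ℝ) ≤ 1 / (8 * 3 ^ 36) / 4 * (11 / 10) ^ 468 := by
    have h1 : (3 : ℝ) ^ 39 ≤ (11 / 10) ^ 468 := by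
      rw [show 468 = 12 * 39 from rfl, pow_mul]
      exact pow_le_pow_left₀ (by norm_num) (by norm_num) 39
    exact le_trans (by norm_num) (mul_le_mul_of_nonneg_left h1 (by positivity))
  obtain ⟨hm, h | h⟩ := Amp.shift hg h
  · refine Amp.mono h ?_ (by norm_num)
    have : (1 : ℝ) ≤ 3 ^ 468 := one_le_pow₀ (by norm_num)
    exact le_mul_of_one_le_left hm this
  · exact Amp.iter f 468 m _ hm (by positivity) hk h

theorem core {n N K0 : ℝ} {J : ℕ} (hNN : (3 : ℝ) ^ 36 = N)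
    (hamp : ∀ k m, Hint (iterMaj k) m (1 / (8 * N)) → Apx (iterMaj k) (n * m) (1 / 10))
    (K1 : cStar ^ 37 ≤ K0) (K2 : 5 * n * N < K0) (hJ : K0 < 2 ^ J) :
    (∀ k, Hard (iterMaj k) (cStar ^ k / K0)) ∧
      ∀ k, T k ≤ max 1 (10 * n * (N / 4 * cStar ^ (37 * J))) * cStar ^ k := by
  have c26 := low_cStar
  have c265 := high_cStar
  set c := cStar with hcdef
  have c1 : 1 ≤ c := by linarith
  have c0 : 0 < c := by linarith
  have hN : 2 * c ^ 37 ≤ N / 16 := by
    have : c ^ 37 ≤ (53 / 20) ^ 37 := pow_le_pow_left₀ c0.le c265 37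
    have h2 : 2 * (53 / 20 : ℝ) ^ 37 ≤ 3 ^ 36 / 16 := by norm_num
    rw [← hNN]
    linarith
  have N0 : 0 < N := by rw [← hNN]; positivity
  have hk' : ∀ k r, 0 < r → Hard (iterMaj k) r →
      Hint (iterMaj k) (N * r / 4) (1 / (8 * N)) ∨ Hard (iterMaj (k + 37)) (2 * c ^ 37 * r) := by
    intro k r hr0 h
    have := a_lockT 36 k r hr0 h
    rw [hNN] at this
    refine this.imp id fun h2 => h2.mono ?_
    nlinarith
  have K00 : 0 < K0 := lt_of_lt_of_le (by positivity) K1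
  have hA : ∀ k, Hard (iterMaj k) (c ^ k / K0) := by
    intro k
    induction k using Nat.strong_induction_on with
    | _ k ih =>
      by_cases hk37 : k < 37
      · refine (st_hard1 k).mono ((div_le_one K00).2 (le_trans ?_ K1))
        exact pow_le_pow_right₀ c1 hk37.le
      · obtain ⟨j, rfl⟩ : ∃ j, k = j + 37 := ⟨k - 37, by omega⟩
        have hp : 0 < c ^ j / K0 := by positivity
        rcases hk' j _ hp (ih j (by omega)) with h | h
        · exfalso
          have h2 := apx_lower a_lift a_stepT a_T1 a_c1 st_seqG c26 (hamp _ _ h)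
          have h3 : c ^ j = K0 * (c ^ j / K0) := by field_simp
          rw [← hcdef] at h2
          nlinarith
        · refine h.mono ?_
          rw [pow_add, div_le_iff₀ K00]
          have h3 : 2 * c ^ 37 * (c ^ j / K0) * K0 = 2 * (c ^ j * c ^ 37) := by field_simp
          have h4 : 0 < c ^ j * c ^ 37 := by positivity
          linarith
  have hB : ∀ h j : ℕ, Hint (iterMaj h) (N / 4 * c ^ (37 * j) * c ^ h) (1 / (8 * N)) ∨
      Hard (iterMaj (h + 37 * j)) (2 ^ j * c ^ (h + 37 * j) / K0) := by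
    intro h j
    induction j with
    | zero => right; simpa using hA h
    | succ j ih =>
      have hm : c ^ (37 * j) ≤ c ^ (37 * (j + 1)) := pow_le_pow_right₀ c1 (by omega)
      have hm2 : N / 4 * c ^ (37 * j) * c ^ h ≤ N / 4 * c ^ (37 * (j + 1)) * c ^ h := by gcongr
      rcases ih with h2 | h2
      · exact Or.inl (h2.mono hm2)
      · rcases hk' _ _ (by positivity) h2 with h3 | h3
        · left
          refine (st_restr h _ _ _ h3).mono (le_trans ?_ hm2)
          have h4 := a_rle _ _ h2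
          rw [← hcdef, pow_add] at h4
          rw [pow_add]
          nlinarith
        · right
          refine Hard.mono (r := 2 * c ^ 37 * (2 ^ j * c ^ (h + 37 * j) / K0)) h3 (le_of_eq ?_)
          rw [show h + 37 * (j + 1) = h + 37 * j + 37 by ring, pow_add c _ 37, pow_succ]
          ring
  have hC : ∀ h, Hint (iterMaj h) (N / 4 * c ^ (37 * J) * c ^ h) (1 / (8 * N)) := by
    intro h
    refine (hB h J).resolve_right fun h2 => ?_
    have h3 := a_rle _ _ h2
    rw [← hcdef, div_le_iff₀ K00] at h3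
    have h4 : 0 < c ^ (h + 37 * J) := by positivity
    nlinarith
  refine ⟨hA, fun H => ?_⟩
  have k1 := le_max_left 1 (10 * n * (N / 4 * c ^ (37 * J)))
  have k2 := le_max_right 1 (10 * n * (N / 4 * c ^ (37 * J)))
  generalize max 1 (10 * n * (N / 4 * c ^ (37 * J))) = K at k1 k2
  induction H with
  | zero => simpa using le_trans (by simpa using (a_T1 0).2.1) k1
  | succ H ih =>
    have h := a_stepT H _ (hamp _ _ (hC H))
    have hp : 0 < c ^ H := pow_pos c0 H
    have e1 := mul_le_mul_of_nonneg_right k2 hp.le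
    have e2 : 13 / 5 * (K * c ^ H) ≤ c * (K * c ^ H) :=
      mul_le_mul_of_nonneg_right c26 (by positivity)
    have e3 : K * c ^ (H + 1) = c * (K * c ^ H) := by ring
    linarith

theorem arith {c : ℝ} (c0 : 0 ≤ c) (c3 : c ≤ 3) {a b d e : ℕ} (h : a + b + d + 1 ≤ e) :
    max 1 (10 * 3 ^ a * ((3 : ℝ) ^ b / 4 * c ^ d)) ≤ 3 ^ e := by
  refine max_le (one_le_pow₀ (by norm_num)) (le_trans ?_ (pow_le_pow_right₀ (by norm_num) h))
  have h1 : c ^ d ≤ 3 ^ d := pow_le_pow_left₀ c0 c3 d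
  have h2 : (0 : ℝ) < 3 ^ a * 3 ^ b := by positivity
  have h3 := mul_le_mul_of_nonneg_left h1 h2.le
  have h4 : (0 : ℝ) < 3 ^ a * 3 ^ b * 3 ^ d := by positivity
  rw [pow_succ, pow_add, pow_add]
  nlinarith

theorem lt5 {a b e : ℕ} (h : a + b + 2 = e) : 5 * 3 ^ a * (3 : ℝ) ^ b < 3 ^ e := by
  have h2 : (0 : ℝ) < 3 ^ a * 3 ^ b := by positivity
  rw [← h, pow_add, pow_add]
  nlinarith

theorem pow_cmp {x y : ℝ} (hx : 1 ≤ x) {p q r s t : ℕ} (h : x ^ p < y ^ q) (hr : r ≠ 0)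
    (hs : s ≤ p * r) (ht : q * r = t) : x ^ s < y ^ t := by
  rw [← ht, pow_mul]
  refine lt_of_le_of_lt (pow_le_pow_right₀ hx hs) ?_
  rw [pow_mul]
  exact pow_lt_pow_left₀ h (by positivity) hr

theorem main : (∀ k, Hard (iterMaj k) (cStar ^ k / 3 ^ 506)) ∧
    ∀ k, T k ≤ 3 ^ 30697 * cStar ^ k := by
  have c0 : (0 : ℝ) ≤ cStar := le_trans (by norm_num) low_cStar
  have c3 : cStar ≤ 3 := high_cStar.trans (by norm_num)
  obtain ⟨h1, h2⟩ := core (n := 3 ^ 468) (K0 := 3 ^ 506) (J := 816) rfl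
    (fun k m h => amp _ m h)
    ((pow_le_pow_left₀ c0 c3 37).trans (pow_le_pow_right₀ (by norm_num) (by norm_num)))
    (lt5 rfl) (pow_cmp (p := 5) (q := 8) (r := 102) (by norm_num) (by norm_num) (by norm_num)
      (by norm_num) rfl)
  exact ⟨h1, fun k => (h2 k).trans
    (mul_le_mul_of_nonneg_right (arith c0 c3 (by norm_num)) (pow_nonneg c0 k))⟩

theorem fin {A B K x y : ℝ} (hB : 0 < B) (hx : 0 ≤ x) (h : A * B ≤ K) (hy : y ≤ A * x) :
    y ≤ K * (x / B) := by
  refine hy.trans (le_trans (le_of_eq ?_) (mul_le_mul_of_nonneg_right h (div_nonneg hx hB.le)))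
  field_simp

theorem sandwich (k : ℕ) :
    RS (iterMaj k) ≤ ENNReal.ofReal (cStar ^ k) ∧
    ENNReal.ofReal (cStar ^ k) ≤ R (iterMaj k) ∧
    R (iterMaj k) ≤ 10 ^ 15000 * RS (iterMaj k) := by
  have c0 : (0 : ℝ) ≤ cStar := le_trans (by norm_num) low_cStar
  refine ⟨sab_le (rsle29 st_mm) k, ?_, ?_⟩
  · rw [(a_T1 k).2.2]
    exact ENNReal.ofReal_le_ofReal (a_c1 k)
  · have h1 : (3 : ℝ) ^ 30697 * 3 ^ 506 ≤ 10 ^ 15000 := by
      rw [← pow_add]
      refine (pow_cmp (y := 10) (p := 23) (q := 11) (r := 1357) (by norm_num) (by norm_num)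
        (by norm_num) (by norm_num) rfl).le.trans (pow_le_pow_right₀ (by norm_num) (by norm_num))
    have h2 : (10 : ENNReal) ^ 15000 = ENNReal.ofReal (10 ^ 15000) := by
      rw [ENNReal.ofReal_pow (by norm_num), ENNReal.ofReal_ofNat]
    rw [(a_T1 k).2.2, h2]
    refine le_trans ?_ (mul_le_mul_right (st_rsge _ _ _ (main.1 k)) _)
    rw [← ENNReal.ofReal_mul (pow_nonneg (by norm_num) _)]
    exact ENNReal.ofReal_le_ofReal
      (fin (pow_pos (by norm_num) _) (pow_nonneg c0 k) h1 (main.2 k))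

end Pool.Agent.Lib.MJ29.Expl
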