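import Pool.Agent.Lib.MJ29.Defs

/-! Row F2: a hard law for the inner function multiplies the cost of the outer function. -/

namespace Pool.Agent.Lib.MJ29

open Finset Function Pool.Agent.Lib.MP_099303_lc

namespace F2

variable {ι J B : Type}

lemma P_pl (d : J → Option ι) (x : J → Bool) (y : ι → Bool) (t : WT J) :
    P (pull d x t) y = P t (ov d x y) := by
  induction t with
  | leaf b => rfl
  | query j t0 t1 h0 h1 =>
    cases h : d j with
    | none => cases hx : x j <;> simp [pull, P, ov, h, hx, h0, h1]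
    | some i => cases hy : y i <;> simp [pull, P, ov, h, hy, h0, h1]
  | mix p t0 t1 h0 h1 => simp only [pull, P, h0, h1]

lemma hit_pl [DecidableEq ι] [DecidableEq J] (d : J → Option ι) (x : J → Bool) (y : ι → Bool)
    (i : ι) (l : J) (hd : ∀ j, d j = some i ↔ j = l) (t : WT J) :
    hit (pull d x t) y i = hit t (ov d x y) l := by
  unfold hit
  induction t with
  | leaf b => rfl
  | query j t0 t1 h0 h1 =>
    cases h : d j with
    | none =>
      have hj : j ≠ l := fun e => by
        have := (hd j).2 e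
        rw [h] at this
        exact absurd this (by simp)
      cases hx : x j <;> simp [pull, hitT, P, ov, h, hx, hj, h0, h1]
    | some i' =>
      by_cases hi : i' = i
      · have hj : j = l := (hd j).1 (h.trans (congrArg some hi))
        simp [pull, hitT, P, h, hi, hj.symm]
      · have hj : j ≠ l := fun e => hi (Option.some.inj (h.symm.trans ((hd j).2 e)))
        cases hy : y i' <;> simp [pull, hitT, P, ov, h, hy, hi, hj, h0, h1]
  | mix p t0 t1 h0 h1 => simp only [pull, hitT, P, h0, h1]

/-- block `b` is the drawn input with its star set to `y b` -/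
def X [DecidableEq ι] (y : B → Bool) (o : B → (ι → Bool) × ι) (j : B × ι) : Bool :=
  update (o j.1).1 (o j.1).2 (y j.1) j.2

/-- decoder of one block -/
def dB [DecidableEq B] (b : B) (j : B × ι) : Option ι := if j.1 = b then some j.2 else none

/-- decoder of the stars -/
def dS [DecidableEq ι] (o : B → (ι → Bool) × ι) (j : B × ι) : Option B :=
  if j.2 = (o j.1).2 then some j.1 else none

lemma ov_dS [DecidableEq ι] (y : B → Bool) (o : B → (ι → Bool) × ι) :
    ov (dS o) (fun j => (o j.1).1 j.2) y = X y o := by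
  funext j
  by_cases h : j.2 = (o j.1).2
  · simp [ov, dS, X, h]
  · simp [ov, dS, X, h]

lemma dS_iff [DecidableEq ι] (o : B → (ι → Bool) × ι) (b : B) (j : B × ι) :
    dS o j = some b ↔ j = (b, (o b).2) := by
  obtain ⟨b', i⟩ := j
  unfold dS
  by_cases h : i = (o b').2
  · rw [if_pos h]
    constructor
    · intro e
      obtain rfl : b' = b := Option.some.inj e
      rw [h]
    · intro e
      exact congrArg some (congrArg Prod.fst e)
  · rw [if_neg h]
    constructor
    · intro e
      exact absurd e (by simp)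
    · intro e
      obtain ⟨rfl, rfl⟩ := Prod.mk.inj e
      exact absurd rfl h

lemma dB_iff [DecidableEq B] (b : B) (j : B × ι) (i : ι) : dB b j = some i ↔ j = (b, i) := by
  obtain ⟨b', i'⟩ := j
  by_cases h : b' = b <;> simp [dB, h]

lemma X_upd [DecidableEq B] [DecidableEq ι] (y : B → Bool) (o : B → (ι → Bool) × ι) (b : B)
    (a : (ι → Bool) × ι) : X y (update o b a) = ov (dB b) (X y o) (update a.1 a.2 (y b)) := by
  funext j
  obtain ⟨b', i⟩ := j
  by_cases h : b' = b
  · subst h
    simp [X, ov, dB]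
  · simp [X, ov, dB, h]

lemma ex_le {α : Type} [Fintype α] {w F : α → ℝ} (hw : IsP w) {c : ℝ}
    (h : ∀ a, w a ≠ 0 → F a ≤ c) : Ex w F ≤ c := by
  calc Ex w F ≤ ∑ a, w a * c := sum_le_sum fun a _ => by
        by_cases h0 : w a = 0
        · simp [h0]
        · exact mul_le_mul_of_nonneg_left (h a h0) (hw.1 a)
    _ = c := by rw [← sum_mul, hw.2, one_mul]

lemma le_ex {α : Type} [Fintype α] {w F : α → ℝ} (hw : IsP w) {c : ℝ}
    (h : ∀ a, w a ≠ 0 → c ≤ F a) : c ≤ Ex w F := by
  calc c = ∑ a, w a * c := by rw [← sum_mul, hw.2, one_mul]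
    _ ≤ Ex w F := sum_le_sum fun a _ => by
        by_cases h0 : w a = 0
        · simp [h0]
        · exact mul_le_mul_of_nonneg_left (h a h0) (hw.1 a)

lemma swap {α β : Type} [Fintype α] [Fintype β] [Fintype B] (w : α → ℝ) (v : β → ℝ) (r : ℝ)
    (h : α → β → B → ℝ) :
    (Ex w fun o => r * Ex v fun y => ∑ b, h o y b) =
      Ex v fun y => r * ∑ b, Ex w fun o => h o y b := by
  simp only [Ex, mul_sum]
  rw [sum_comm]
  refine sum_congr rfl fun y _ => ?_
  rw [sum_comm]
  exact sum_congr rfl fun b _ => sum_congr rfl fun o _ => by ring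

lemma core (hcont : St_cont) (hdd : St_dd) (hds : St_ds) (hres : St_res) (hyao : St_yao)
    (halg : St_alg) [Fintype B] [DecidableEq B] [Fintype ι] [DecidableEq ι]
    (f : (B → Bool) → Bool) (g : (ι → Bool) → Bool) {r C D ε : ℝ} (hr : 0 ≤ r) (hg : Hard g r)
    (hC : C < Tv f) (hD : Tv (cmp f g) < D) (hε : 0 < ε) : r * C ≤ D + Fintype.card B * ε := by
  obtain ⟨s, sP, sV, sR⟩ := hcont ι g r ε hg hε
  obtain ⟨ν, νP, νC⟩ := hyao B f C hC
  obtain ⟨t, ht⟩ := halg (B × ι) (cmp f g) D hD
  have wP : IsP (pw s : (B → (ι → Bool) × ι) → ℝ) := (hres B _ s sP).1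
  have h1 : ∀ o : B → (ι → Bool) × ι, pw s o ≠ 0 →
      r * C ≤ r * Ex ν fun y => ∑ b, hit t (X y o) (b, (o b).2) := by
    intro o ho
    have hv : ∀ b, Valid g (o b) := fun b => sV _ (prod_ne_zero_iff.1 ho b (mem_univ b))
    obtain ⟨t', ht'⟩ := hdd B (pull (dS o) (fun j => (o j.1).1 j.2) t)
    have ex : Exact f t' := fun y => by
      have e : cmp f g (X y o) = f y := congrArg f (funext fun b => hv b (y b))
      have := abs_nonpos_iff.1 (ht (X y o)).2
      rw [(ht' y).1, P_pl, ov_dS, ← e]
      linarith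
    refine mul_le_mul_of_nonneg_left ((νC t' ex).trans (sum_le_sum fun y _ =>
      mul_le_mul_of_nonneg_left ((ht' y).2.trans (le_of_eq (sum_congr rfl fun b _ => ?_)))
        (νP.1 y))) hr
    rw [hit_pl _ _ y b (b, (o b).2) (dS_iff o b), ov_dS]
  refine (le_ex wP h1).trans ?_
  rw [swap]
  refine ex_le νP fun y _ => ?_
  have h2 := hds B ι (B × ι) s r ε dB Prod.mk (X y) t sP sR dB_iff
    (fun b b' j k k' => by
      by_cases e : j.1 = b
      · by_cases e' : j.1 = b'
        · exact e.symm.trans e'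
        · simp [dB, e'] at k'
      · simp [dB, e] at k)
    fun o b a => ⟨y b, X_upd y o b a⟩
  have h3 : (Ex (pw s) fun o : B → (ι → Bool) × ι => cost t (X y o)) ≤ D :=
    ex_le wP fun o _ => (ht _).1
  linarith

end F2

theorem st_f2 (hcont : St_cont) (hdd : St_dd) (hds : St_ds) (hres : St_res) (hyao : St_yao)
    (halg : St_alg) : St_f2 := by
  intro B ι _ _ _ _ f g r hr hg
  refine le_of_forall_pos_le_add fun δ hδ => ?_
  have hN : (0 : ℝ) ≤ Fintype.card B := Nat.cast_nonneg _
  have h0 : 0 < δ / (r + 1 + Fintype.card B) := by positivity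
  have h1 := F2.core hcont hdd hds hres hyao halg f g hr hg (sub_lt_self (Tv f) h0)
    (lt_add_of_pos_right (Tv (cmp f g)) h0) h0
  have h2 : (r + 1 + Fintype.card B) * (δ / (r + 1 + Fintype.card B)) = δ := by field_simp
  nlinarith

end Pool.Agent.Lib.MJ29
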