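import Pool.Agent.Lib.MJ29.Defs

/-! Rows `St_hyb` (hybrid argument) and `St_hardE` (hardness is invariant under relabelling). -/

namespace Pool.Agent.Lib.MJ29

open Finset Pool.Agent.Lib.MP_099303_lc

namespace Hyb

section ex

variable {α : Type} [Fintype α]

theorem ex_mono {w F G : α → ℝ} (hw : IsP w) (h : ∀ a, F a ≤ G a) : Ex w F ≤ Ex w G :=
  Finset.sum_le_sum fun a _ => mul_le_mul_of_nonneg_left (h a) (hw.1 a)

theorem ex_const {w : α → ℝ} (hw : IsP w) (c : ℝ) : (Ex w fun _ => c) = c := by
  unfold Ex
  rw [← Finset.sum_mul, hw.2, one_mul]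

theorem ex_sub (w F G : α → ℝ) : (Ex w fun a => F a - G a) = Ex w F - Ex w G := by
  unfold Ex
  rw [← Finset.sum_sub_distrib]
  exact Finset.sum_congr rfl fun a _ => by ring

end ex

section hyb

variable {Λ ι : Type} [DecidableEq Λ]

/-- first components on `S`, second components elsewhere -/
def cfg (S : Finset Λ) (q : Λ → (ι → Bool) × (ι → Bool)) : Λ → ι → Bool :=
  fun l => if l ∈ S then (q l).1 else (q l).2

theorem cfg_in (S : Finset Λ) (l : Λ) (q : Λ → (ι → Bool) × (ι → Bool))
    (a : (ι → Bool) × (ι → Bool)) :
    cfg (insert l S) (Function.update q l a) = Function.update (cfg S q) l a.1 := by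
  funext k
  by_cases hk : k = l
  · subst hk
    simp [cfg]
  · simp [cfg, hk]

theorem cfg_out (S : Finset Λ) (l : Λ) (hl : l ∉ S) (q : Λ → (ι → Bool) × (ι → Bool))
    (a : (ι → Bool) × (ι → Bool)) :
    cfg S (Function.update q l a) = Function.update (cfg S q) l a.2 := by
  funext k
  by_cases hk : k = l
  · subst hk
    simp [cfg, hl]
  · simp [cfg, hk]

end hyb

section relabel

variable {J J' : Type}

/-- relabel the queries of a tree -/
def rel (φ : J' → J) : WT J' → WT J
  | .leaf b => .leaf b
  | .query i t0 t1 => .query (φ i) (rel φ t0) (rel φ t1)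
  | .mix p t0 t1 => .mix p (rel φ t0) (rel φ t1)

theorem P_rel (φ : J' → J) (t : WT J') (z : J → Bool) :
    P (rel φ t) z = P t fun j => z (φ j) := by
  induction t with
  | leaf b => rfl
  | query i t0 t1 h0 h1 => simp only [rel, P, h0, h1]
  | mix p t0 t1 h0 h1 => simp only [rel, P, h0, h1]

theorem cost_rel (φ : J' → J) (t : WT J') (z : J → Bool) :
    cost (rel φ t) z = cost t fun j => z (φ j) := by
  induction t with
  | leaf b => rfl
  | query i t0 t1 h0 h1 => simp only [rel, cost, h0, h1]
  | mix p t0 t1 h0 h1 => simp only [rel, cost, h0, h1]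

theorem hitT_rel [DecidableEq J] [DecidableEq J'] (E : J ≃ J') (t : WT J') (l : J) :
    hitT l (rel E.symm t) = rel E.symm (hitT (E l) t) := by
  induction t with
  | leaf b => rfl
  | query i t0 t1 h0 h1 =>
    by_cases h : i = E l
    · have h' : E.symm i = l := by rw [h]; simp
      simp only [rel, hitT, if_pos h, if_pos h']
    · have h' : ¬ E.symm i = l := fun e => h (by rw [← e]; simp)
      simp only [rel, hitT, if_neg h, if_neg h', h0, h1]
  | mix p t0 t1 h0 h1 => simp only [rel, hitT, h0, h1]

theorem upd_E [DecidableEq J] [DecidableEq J'] (E : J ≃ J') (z : J → Bool) (l : J) (b : Bool) :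
    (fun j => Function.update (fun j' => z (E.symm j')) (E l) b (E j)) = Function.update z l b := by
  funext j
  by_cases h : j = l
  · subst h
    simp
  · have h' : E j ≠ E l := fun e => h (E.injective e)
    simp [h, h']

end relabel

end Hyb

open Hyb

theorem st_hyb (hres : St_res) : St_hyb := by
  intro Λ ι _ _ _ _ ν m g G u hν hL hg hG
  obtain ⟨hp, hr⟩ := hres Λ ((ι → Bool) × (ι → Bool)) ν hν
  have key : ∀ S : Finset Λ, (Ex (pw ν) fun q => G (cfg S q)) ≤
      (Ex (pw ν) fun q => G (cfg ∅ q)) + S.card * g := by
    intro S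
    induction S using Finset.induction_on with
    | empty => simp
    | insert l S hl ih =>
      have h1 : (Ex (pw ν) fun q => G (cfg (insert l S) q) - G (cfg S q)) ≤ g := by
        rw [hr l]
        refine le_trans (ex_mono hp fun q => ?_) (ex_const hp g).le
        obtain ⟨t, ht, hPt⟩ := hG l (cfg S q)
        have := hL t ht
        simp only [cfg_in, cfg_out S l hl, hPt]
        exact this
      rw [ex_sub] at h1
      rw [Finset.card_insert_of_notMem hl]
      push_cast
      linarith
  have hS := key (univ.filter fun l => u l = true)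
  have e1 : ∀ q : Λ → (ι → Bool) × (ι → Bool),
      cfg (univ.filter fun l => u l = true) q = fun l => bif u l then (q l).1 else (q l).2 := by
    intro q
    funext l
    cases h : u l <;> simp [cfg, h]
  have e2 : ∀ q : Λ → (ι → Bool) × (ι → Bool), cfg (∅ : Finset Λ) q = fun l => (q l).2 := by
    intro q
    funext l
    simp [cfg]
  simp only [e1, e2] at hS
  have hc : ((univ.filter fun l => u l = true).card : ℝ) ≤ Fintype.card Λ := by
    exact_mod_cast Finset.card_le_univ _
  have := mul_le_mul_of_nonneg_right hc hg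
  linarith

theorem st_hardE (hpush : St_push) : St_hardE := by
  intro J J' _ _ _ _ E G r hH
  obtain ⟨s, hs, hsv, hst⟩ := hH
  have hv : ∀ a : (J → Bool) × J, Valid G a →
      Valid (fun x : J' → Bool => G fun j => x (E j)) (fun j' => a.1 (E.symm j'), E a.2) := by
    intro a ha b
    have := ha b
    simp only [upd_E]
    exact this
  refine hpush J' ((J → Bool) × J) _ r s (fun a => (fun j' => a.1 (E.symm j'), E a.2)) hs
    (fun o ho => hv o (hsv o ho)) fun t ht => ?_
  have h := hst (rel E.symm t) fun a ha => by
    have := ht _ (hv a ha)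
    unfold hit at this ⊢
    rw [hitT_rel, P_rel]
    exact this
  refine h.trans (le_of_eq ?_)
  unfold hc
  simp only [hitT_rel, cost_rel]

end Pool.Agent.Lib.MJ29
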