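import Pool.Agent.Lib.MJ29.Defs

/-! Index bookkeeping for the iterated majority. -/

namespace Pool.Agent.Lib.MJ29

open Finset Pool.Agent.Lib.MP_099303_lc

namespace Idx

def eI (k l : ℕ) : Fin (3 ^ k) × Fin (3 ^ l) ≃ Fin (3 ^ (l + k)) :=
  finProdFinEquiv.trans (finCongr (by rw [pow_add, mul_comm]))

lemma eI_val (k l : ℕ) (b : Fin (3 ^ k)) (i : Fin (3 ^ l)) :
    (eI k l (b, i) : ℕ) = i + 3 ^ l * b := rfl

lemma blk_val (k : ℕ) (c : Fin 3) (i : Fin (3 ^ k)) : (blk k c i : ℕ) = 3 ^ k * c + i := rfl

lemma blk_eI (k l : ℕ) (c : Fin 3) (b : Fin (3 ^ k)) (i : Fin (3 ^ l)) :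
    blk (l + k) c (eI k l (b, i)) = eI (k + 1) l (blk k c b, i) := by
  apply Fin.ext
  rw [blk_val, eI_val, eI_val, blk_val, pow_add]
  ring

lemma iter_eI (l : ℕ) : ∀ (k : ℕ) (x : Fin (3 ^ (l + k)) → Bool),
    iterMaj (l + k) x = iterMaj k fun b => iterMaj l fun i => x (eI k l (b, i))
  | 0, x => by
    show iterMaj l x = iterMaj l fun i => x (eI 0 l (0, i))
    refine congrArg _ (funext fun i => congrArg _ (Fin.ext ?_))
    rw [eI_val]
    simp
  | k + 1, x => by
    show maj (iterMaj (l + k) fun i => x (blk (l + k) 0 i))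
      (iterMaj (l + k) fun i => x (blk (l + k) 1 i))
      (iterMaj (l + k) fun i => x (blk (l + k) 2 i)) =
      maj (iterMaj k fun b => iterMaj l fun i => x (eI (k + 1) l (blk k 0 b, i)))
        (iterMaj k fun b => iterMaj l fun i => x (eI (k + 1) l (blk k 1 b, i)))
        (iterMaj k fun b => iterMaj l fun i => x (eI (k + 1) l (blk k 2 b, i)))
    rw [iter_eI l k, iter_eI l k, iter_eI l k]
    simp only [blk_eI]

def e3 (k : ℕ) : Fin 3 × Fin (3 ^ k) ≃ Fin (3 ^ (k + 1)) :=
  finProdFinEquiv.trans (finCongr (by rw [pow_succ, mul_comm]))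

lemma e3_eq (k : ℕ) (c : Fin 3) (i : Fin (3 ^ k)) : e3 k (c, i) = blk k c i := by
  apply Fin.ext
  rw [blk_val]
  exact add_comm _ _

def ob : Option Bool ≃ Fin 3 where
  toFun o := match o with
    | none => 0
    | some false => 1
    | some true => 2
  invFun c := if c = 0 then none else if c = 1 then some false else some true
  left_inv := by decide
  right_inv := by decide

lemma iter_const : ∀ (k : ℕ) (a : Bool), iterMaj k (fun _ => a) = a
  | 0, _ => rfl
  | k + 1, a => by
    show maj (iterMaj k fun _ => a) (iterMaj k fun _ => a) (iterMaj k fun _ => a) = a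
    rw [iter_const k a]
    cases a <;> rfl

lemma valid : ∀ (t : ℕ) (b : Fin (3 ^ t)), ∃ v, Valid (iterMaj t) (v, b)
  | 0, b => by
    refine ⟨fun _ => false, fun β => ?_⟩
    have hb : b = 0 := by
      apply Fin.ext
      have := b.2
      simp only [pow_zero] at this
      simp only [Fin.val_zero]
      omega
    subst hb
    exact Function.update_self _ _ _
  | t + 1, b => by
    obtain ⟨⟨c, i⟩, rfl⟩ := (e3 t).surjective b
    obtain ⟨v, hv⟩ := valid t i
    let w : Fin 3 × Fin (3 ^ t) → Bool := fun p =>
      if p.1 = c then v p.2 else decide (p.1 = c + 1)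
    refine ⟨fun j => w ((e3 t).symm j), fun β => ?_⟩
    have key : ∀ c' : Fin 3, (iterMaj t fun i' =>
        Function.update (fun j => w ((e3 t).symm j)) (e3 t (c, i)) β (blk t c' i')) =
        if c' = c then β else decide (c' = c + 1) := by
      intro c'
      by_cases h : c' = c
      · subst h
        rw [if_pos rfl, ← hv β]
        congr 1
        funext i'
        rw [← e3_eq]
        by_cases hi : i' = i
        · subst hi
          rw [hv β]
          simp
        · rw [Function.update_of_ne (fun h => hi (congrArg Prod.snd ((e3 t).injective h))),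
            Function.update_of_ne hi]
          simp [w]
      · rw [if_neg h, ← iter_const t (decide (c' = c + 1))]
        congr 1
        funext i'
        rw [← e3_eq,
          Function.update_of_ne (fun h' => h (congrArg Prod.fst ((e3 t).injective h')))]
        simp [w, h]
    show maj (iterMaj t fun i' => _) (iterMaj t fun i' => _) (iterMaj t fun i' => _) = β
    rw [key 0, key 1, key 2]
    clear key hv
    revert c β
    decide

lemma hit_le {ι : Type} [DecidableEq ι] (l : ι) (z : ι → Bool) :
    ∀ t : WT ι, P (hitT l t) z ≤ cost (hitT l t) z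
  | .leaf _ => by simp [hitT, P, cost, ind]
  | .query i t0 t1 => by
    have h0 := hit_le l z t0
    have h1 := hit_le l z t1
    unfold hitT
    split_ifs
    · cases hz : z i <;> simp [P, cost, ind, hz]
    · cases hz : z i <;> simp only [P, cost, hz, cond_true, cond_false] <;> linarith
  | .mix p t0 t1 => by
    have h0 := hit_le l z t0
    have h1 := hit_le l z t1
    have hp := p.2.1
    have hq : (0 : ℝ) ≤ 1 - p := sub_nonneg.2 p.2.2
    simp only [hitT, P, cost]
    exact add_le_add (mul_le_mul_of_nonneg_left h0 hp) (mul_le_mul_of_nonneg_left h1 hq)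

lemma pull_spec {ι J : Type} (d : J → Option ι) (x : J → Bool) (y : ι → Bool) :
    ∀ t : WT J, P (pull d x t) y = P t (ov d x y) ∧ cost (pull d x t) y ≤ cost t (ov d x y)
  | .leaf _ => ⟨rfl, le_rfl⟩
  | .query j t0 t1 => by
    obtain ⟨a0, b0⟩ := pull_spec d x y t0
    obtain ⟨a1, b1⟩ := pull_spec d x y t1
    cases hd : d j with
    | none =>
      have ho : ov d x y j = x j := by simp [ov, hd]
      cases hx : x j <;>
        simp only [pull, P, cost, hd, ho, hx, Option.elim, cond_true, cond_false] <;>
        exact ⟨by assumption, by linarith⟩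
    | some i =>
      have ho : ov d x y j = y i := by simp [ov, hd]
      cases hx : y i <;>
        simp only [pull, P, cost, hd, ho, hx, Option.elim, cond_true, cond_false] <;>
        exact ⟨by assumption, by linarith⟩
  | .mix p t0 t1 => by
    obtain ⟨a0, b0⟩ := pull_spec d x y t0
    obtain ⟨a1, b1⟩ := pull_spec d x y t1
    have hp := p.2.1
    have hq : (0 : ℝ) ≤ 1 - p := sub_nonneg.2 p.2.2
    simp only [pull, P, cost, a0, a1, true_and]
    exact add_le_add (mul_le_mul_of_nonneg_left b0 hp) (mul_le_mul_of_nonneg_left b1 hq)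

end Idx

open Idx

theorem st_idx : St_idx := fun k l => ⟨eI k l, fun x => iter_eI l k x⟩

theorem st_idx3 : St_idx3 := by
  intro t k
  refine ⟨(Equiv.prodCongr (Equiv.refl _)
    ((Equiv.prodCongr ob (Equiv.refl _)).trans (e3 k))).trans (eI t (k + 1)), fun x => ?_⟩
  rw [iter_eI]
  unfold lk
  congr 1
  funext b
  show maj _ _ _ = maj (iterMaj k fun i => x (eI t (k + 1) (b, e3 k (0, i))))
    (iterMaj k fun i => x (eI t (k + 1) (b, e3 k (1, i))))
    (iterMaj k fun i => x (eI t (k + 1) (b, e3 k (2, i))))
  simp only [e3_eq]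

theorem st_valid : St_valid := valid

theorem st_hard1 : St_hard1 := by
  intro k
  obtain ⟨v, hv⟩ := valid k 0
  refine ⟨fun a => if a = (v, 0) then 1 else 0, ⟨fun a => ?_, by simp⟩, fun a ha => ?_,
    fun t ht => ?_⟩
  · dsimp only
    split_ifs <;> norm_num
  · have : a = (v, 0) := by
      by_contra h
      exact ha (if_neg h)
    rw [this]
    exact hv
  · have h1 := ht _ hv
    have h2 := hit_le (0 : Fin (3 ^ k)) v t
    simp only [Ex, ite_mul, one_mul, zero_mul, sum_ite_eq', mem_univ, if_true]
    unfold hit at h1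
    unfold hc
    linarith

theorem st_restr : St_restr := by
  rintro h d m g ⟨t, hc, hg⟩
  obtain ⟨v, hv⟩ := valid d 0
  let D : Fin (3 ^ (h + d)) → Option (Fin (3 ^ h)) := fun j =>
    if ((eI d h).symm j).1 = 0 then some ((eI d h).symm j).2 else none
  let X : Fin (3 ^ (h + d)) → Bool := fun j => v ((eI d h).symm j).1
  have key : ∀ y, iterMaj (h + d) (ov D X y) = iterMaj h y := by
    intro y
    rw [iter_eI, ← hv (iterMaj h y)]
    congr 1
    funext b
    by_cases hb : b = 0
    · subst hb
      simp [ov, D]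
    · rw [Function.update_of_ne hb]
      simp [ov, D, X, hb, iter_const]
  refine ⟨pull D X t, fun y => (pull_spec D X y t).2.trans (hc _), fun y1 y0 h1 h0 => ?_⟩
  rw [(pull_spec D X y1 t).1, (pull_spec D X y0 t).1]
  exact hg _ _ ((key y1).trans h1) ((key y0).trans h0)

end Pool.Agent.Lib.MJ29
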