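import Pool.Agent.Lib.MJ29.Defs

/-! Row LOCK: hiding a star behind locks. -/

namespace Pool.Agent.Lib.MJ29

open Finset Function Pool.Agent.Lib.MP_099303_lc

namespace Lock

section trees

variable {ι J : Type}

theorem mixle (p : unitInterval) {a b c d : ℝ} (h1 : a ≤ c) (h2 : b ≤ d) :
    p * a + (1 - p) * b ≤ p * c + (1 - p) * d :=
  add_le_add (mul_le_mul_of_nonneg_left h1 p.2.1)
    (mul_le_mul_of_nonneg_left h2 (sub_nonneg.2 p.2.2))

theorem P01 (t : WT ι) (x : ι → Bool) : 0 ≤ P t x ∧ P t x ≤ 1 := by
  induction t with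
  | leaf b => cases b <;> simp [P, ind]
  | query i t0 t1 h0 h1 => cases h : x i <;> simp [P, h, h0.1, h0.2, h1.1, h1.2]
  | mix p t0 t1 h0 h1 =>
    have a := mixle p h0.1 h1.1
    have b := mixle p h0.2 h1.2
    simp only [P]
    constructor <;> linarith

theorem cost0 (t : WT ι) (x : ι → Bool) : 0 ≤ cost t x := by
  induction t with
  | leaf b => simp [cost]
  | query i t0 t1 h0 h1 => cases h : x i <;> simp only [cost, h, cond_true, cond_false] <;> linarith
  | mix p t0 t1 h0 h1 =>
    have a := mixle p h0 h1
    simp only [cost]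
    linarith

theorem Ppull (d : J → Option ι) (x : J → Bool) (t : WT J) (y : ι → Bool) :
    P (pull d x t) y = P t (ov d x y) ∧ cost (pull d x t) y ≤ cost t (ov d x y) := by
  induction t with
  | leaf b => simp [pull, P, cost]
  | query j t0 t1 h0 h1 =>
    cases hd : d j with
    | none =>
      have e : ov d x y j = x j := by simp [ov, hd]
      cases h : x j <;> simp only [pull, hd, Option.elim, P, cost, e, h, cond_true, cond_false]
      · exact ⟨h0.1, by linarith [h0.2]⟩
      · exact ⟨h1.1, by linarith [h1.2]⟩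
    | some i =>
      have e : ov d x y j = y i := by simp [ov, hd]
      cases h : y i <;> simp only [pull, hd, Option.elim, P, cost, e, h, cond_true, cond_false]
      · exact ⟨h0.1, by linarith [h0.2]⟩
      · exact ⟨h1.1, by linarith [h1.2]⟩
  | mix p t0 t1 h0 h1 =>
    simp only [pull, P, cost, h0.1, h1.1, true_and]
    exact mixle p h0.2 h1.2

theorem costT (t : WT ι) (x : ι → Bool) : ∀ n : ℕ, cost (trunc n t) x ≤ n := by
  induction t with
  | leaf b => intro n; simp [trunc, cost]
  | query i t0 t1 h0 h1 =>
    intro n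
    cases n with
    | zero => simp [trunc, cost]
    | succ n =>
      have a := h0 n
      have b := h1 n
      cases h : x i <;> simp only [trunc, cost, h, cond_true, cond_false] <;> push_cast <;> linarith
  | mix p t0 t1 h0 h1 =>
    intro n
    have a := mixle p (h0 n) (h1 n)
    have e : trunc n (.mix p t0 t1) = .mix p (trunc n t0) (trunc n t1) := by cases n <;> rfl
    rw [e]
    simp only [cost]
    linarith

variable [DecidableEq ι]

theorem costH (l : ι) (t : WT ι) (x : ι → Bool) : cost (hitT l t) x ≤ cost t x := by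
  induction t with
  | leaf b => simp [hitT, cost]
  | query i t0 t1 h0 h1 =>
    have a := cost0 t0 x
    have b := cost0 t1 x
    by_cases e : i = l <;> cases h : x i <;>
      simp only [hitT, e, if_true, if_false, cost, h, cond_true, cond_false] <;>
      first | linarith | (rw [← e, h]; simp only [cond_true, cond_false]; linarith)
  | mix p t0 t1 h0 h1 => exact mixle p h0 h1

theorem markov' (l : ι) (t : WT ι) (x : ι → Bool) : ∀ n : ℕ,
    ((n : ℝ) + 1) * (hit t x l - hit (trunc n t) x l) ≤ hc t x l := by
  unfold hit hc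
  induction t with
  | leaf b => intro n; cases n <;> simp [trunc, hitT, cost, P]
  | query i t0 t1 h0 h1 =>
    intro n
    have a0 := P01 (hitT l t0) x
    have a1 := P01 (hitT l t1) x
    by_cases e : i = l
    · cases n with
      | zero => cases h : x i <;> simp [trunc, hitT, e, cost, P, ind]
      | succ n => cases h : x i <;> simp [trunc, hitT, e, cost, P, ind]
    · cases n with
      | zero =>
        have c0 := cost0 (hitT l t0) x
        have c1 := cost0 (hitT l t1) x
        cases h : x i <;>
          simp only [trunc, hitT, e, if_false, cost, P, ind, h, cond_true, cond_false] <;>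
          push_cast <;> linarith [a0.2, a1.2]
      | succ n =>
        have b0 := P01 (hitT l (trunc n t0)) x
        have b1 := P01 (hitT l (trunc n t1)) x
        have c0 := h0 n
        have c1 := h1 n
        cases h : x i <;>
          simp only [trunc, hitT, e, if_false, cost, P, h, cond_true, cond_false] <;>
          push_cast <;> linarith [a0.2, a1.2, b0.1, b1.1]
  | mix p t0 t1 h0 h1 =>
    intro n
    have a := mixle p (h0 n) (h1 n)
    have e : trunc n (.mix p t0 t1) = .mix p (trunc n t0) (trunc n t1) := by cases n <;> rfl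
    rw [e]
    simp only [hitT, cost, P]
    linarith

end trees

section ex

variable {α β : Type} [Fintype α] [Fintype β]

theorem exle {w F G : α → ℝ} (hw : IsP w) (h : ∀ a, w a ≠ 0 → F a ≤ G a) : Ex w F ≤ Ex w G :=
  sum_le_sum fun a _ => by
    by_cases e : w a = 0
    · simp [e]
    · exact mul_le_mul_of_nonneg_left (h a e) (hw.1 a)

theorem exaff {w : α → ℝ} (hw : IsP w) (F : α → ℝ) (c k : ℝ) :
    (Ex w fun a => c * F a + k) = c * Ex w F + k := by
  unfold Ex
  simp only [mul_add, sum_add_distrib, ← sum_mul, hw.2, one_mul, mul_sum]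
  congr 1
  exact sum_congr rfl fun a _ => by ring

theorem exswap (w : α → ℝ) (v : β → ℝ) (F : α → β → ℝ) :
    (Ex w fun a => Ex v fun b => F a b) = Ex v fun b => Ex w fun a => F a b := by
  unfold Ex
  simp only [mul_sum]
  rw [sum_comm]
  exact sum_congr rfl fun b _ => sum_congr rfl fun a _ => by ring

theorem exprod (w : α → ℝ) (v : β → ℝ) (F : α × β → ℝ) :
    Ex (fun z : α × β => w z.1 * v z.2) F = Ex w fun a => Ex v fun b => F (a, b) := by
  unfold Ex
  rw [Fintype.sum_prod_type]
  simp only [mul_sum, mul_assoc]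

theorem isprod {w : α → ℝ} {v : β → ℝ} (hw : IsP w) (hv : IsP v) :
    IsP fun z : α × β => w z.1 * v z.2 := by
  refine ⟨fun z => mul_nonneg (hw.1 _) (hv.1 _), ?_⟩
  rw [Fintype.sum_prod_type]
  simp only [← mul_sum, hv.2, mul_one, hw.2]

end ex

section blocks

variable {B ι : Type}

/-- the input with data cells `o` and locks `y` -/
def inp (o : B → (ι → Bool) × ι) (y : B × Bool → ι → Bool) (j : B × Option Bool × ι) : Bool :=
  j.2.1.elim ((o j.1).1 j.2.2) fun c => y (j.1, c) j.2.2

variable [DecidableEq B]

/-- decoder of one cell -/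
def dec (b : B) (c : Option Bool) (j : B × Option Bool × ι) : Option ι :=
  if j.1 = b ∧ j.2.1 = c then some j.2.2 else none

theorem ov_lock (o : B → (ι → Bool) × ι) (y : B × Bool → ι → Bool) (l : B × Bool) (w : ι → Bool) :
    ov (dec l.1 (some l.2)) (inp o y) w = inp o (update y l w) := by
  funext ⟨b, c, i⟩
  obtain ⟨b', c'⟩ := l
  cases c with
  | none => simp [ov, dec, inp]
  | some c =>
    by_cases h : (b, c) = (b', c')
    · obtain ⟨rfl, rfl⟩ := Prod.mk.inj h
      simp [ov, dec, inp]
    · have h' : ¬ (b = b' ∧ c = c') := fun e => h (Prod.ext e.1 e.2)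
      simp [ov, dec, inp, h']

theorem ov_data (o : B → (ι → Bool) × ι) (y : B × Bool → ι → Bool) (b' : B)
    (a : (ι → Bool) × ι) : inp (update o b' a) y = ov (dec b' none) (inp o y) a.1 := by
  funext ⟨b, c, i⟩
  cases c with
  | some c => simp [ov, dec, inp]
  | none =>
    by_cases h : b = b'
    · subst h
      simp [ov, dec, inp]
    · simp [ov, dec, inp, h]

theorem valid [DecidableEq ι] {g : (B → Bool) → Bool} {f : (ι → Bool) → Bool} {v : B → Bool}
    {b : B} (hv : Valid g (v, b)) {o : B → (ι → Bool) × ι} (ho : Valid f (o b))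
    {y : B × Bool → ι → Bool} (hy : ∀ l, f (y l) = if l.1 = b then l.2 else v l.1) :
    Valid (lk g f) (inp o y, (b, none, (o b).2)) := by
  intro β
  refine Eq.trans ?_ (hv β)
  unfold lk
  congr 1
  funext b'
  have e : ∀ c, (fun i => update (inp o y) (b, none, (o b).2) β (b', some c, i)) = y (b', c) :=
    fun c => funext fun i => by
      rw [update_of_ne (by simp)]
      rfl
  show maj (f fun i => update (inp o y) (b, none, (o b).2) β (b', none, i))
    (f fun i => update (inp o y) (b, none, (o b).2) β (b', some false, i))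
    (f fun i => update (inp o y) (b, none, (o b).2) β (b', some true, i)) = update v b β b'
  rw [e, e, hy, hy]
  by_cases h : b' = b
  · subst h
    have e2 : (fun i => update (inp o y) (b', none, (o b').2) β (b', none, i)) =
        update (o b').1 (o b').2 β := funext fun i => by
      by_cases hi : i = (o b').2
      · rw [hi, update_self, update_self]
      · rw [update_of_ne (by simpa using hi), update_of_ne hi]
        rfl
    rw [e2, ho β, update_self]
    cases β <;> simp [maj]
  · rw [update_of_ne h]
    simp only [h, if_false]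
    generalize f _ = z
    cases z <;> cases v b' <;> rfl

end blocks

end Lock

open Lock in
theorem st_lock (hC : St_cont) (hD : St_ds) (hH : St_hyb) (hR : St_res) (hP : St_push) :
    St_lock := by
  intro B ι _ _ _ _ _ g f r hr hv hh hl
  choose v hv using hv
  obtain ⟨s, s1, s2, s3⟩ := hC ι f r (r / 4) hh (by linarith)
  obtain ⟨ν, n1, n2, n3⟩ := hl
  set N : ℝ := (Fintype.card B : ℝ) with hN
  have N0 : 0 < N := Nat.cast_pos.2 Fintype.card_pos
  have pB : IsP fun _ : B => N⁻¹ := ⟨fun _ => inv_nonneg.2 N0.le, by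
    rw [sum_const, card_univ, nsmul_eq_mul, ← hN, mul_inv_cancel₀ N0.ne']⟩
  have pS := (hR B _ s s1).1
  have pN := (hR (B × Bool) _ ν n1).1
  set u : B → B × Bool → Bool := fun b l => if l.1 = b then l.2 else v b l.1 with hu
  have pW := isprod pB (isprod pS pN)
  have hval : ∀ z : B × (B → (ι → Bool) × ι) × (B × Bool → (ι → Bool) × (ι → Bool)),
      N⁻¹ * (pw s z.2.1 * pw ν z.2.2) ≠ 0 → Valid (lk g f)
        (inp z.2.1 fun l => bif u z.1 l then (z.2.2 l).1 else (z.2.2 l).2,
          (z.1, none, (z.2.1 z.1).2)) := by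
    rintro ⟨b, o, q⟩ hz
    have h1 := right_ne_zero_of_mul hz
    have h2 := prod_ne_zero_iff.1 (left_ne_zero_of_mul h1) b (mem_univ _)
    refine valid (hv b) (s2 _ h2) fun l => ?_
    have h3 := n2 _ (prod_ne_zero_iff.1 (right_ne_zero_of_mul h1) l (mem_univ _))
    show f (bif u b l then (q l).1 else (q l).2) = u b l
    cases u b l
    · exact h3.2
    · exact h3.1
  refine hP _ _ (lk g f) _ _ _ pW hval fun t ht => ?_
  set n := ⌊N * r / 4⌋₊ with hn
  have hn1 : (n : ℝ) ≤ N * r / 4 := Nat.floor_le (by positivity)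
  have hn2 : N * r / 4 < n + 1 := Nat.lt_floor_add_one _
  set t' := trunc n t with ht'
  have null : ∀ y : B × Bool → ι → Bool,
      (Ex (fun _ : B => N⁻¹) fun b => Ex (pw s) fun o : B → (ι → Bool) × ι =>
        hit t' (inp o y) (b, none, (o b).2)) ≤ 1 / 2 := by
    intro y
    have h := hD B ι _ s r (r / 4) (fun b => dec b none) (fun b i => (b, none, i))
      (fun o => inp o y) t' s1 s3
      (by
        rintro b ⟨b', c, i'⟩ i
        unfold dec
        split_ifs with h
        · obtain ⟨rfl, rfl⟩ : b' = b ∧ c = none := h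
          simp
        · simp only [Prod.mk.injEq, false_iff]
          exact fun e => h ⟨e.1, e.2.1⟩)
      (by
        intro b b' j h1 h2
        unfold dec at h1 h2
        split_ifs at h1 h2 with e1 e2
        · exact e1.1.symm.trans e2.1
        all_goals simp at h1 h2)
      (fun o b a => ⟨a.1 a.2, by rw [update_eq_self]; exact ov_data o y b a⟩)
    have h2 : (Ex (pw s) fun o : B → (ι → Bool) × ι => cost t' (inp o y)) ≤
        Ex (pw s) fun _ : B → (ι → Bool) × ι => 0 * 0 + (n : ℝ) :=
      exle pS fun o _ => by simpa using costT t _ n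
    rw [exaff pS (fun _ => 0)] at h2
    unfold Ex at h ⊢
    rw [← mul_sum, inv_mul_le_iff₀ N0]
    refine le_of_mul_le_mul_left ?_ hr
    unfold Ex at h2
    linarith
  have real : ∀ (b : B) (o : B → (ι → Bool) × ι),
      (Ex (pw ν) fun q : B × Bool → (ι → Bool) × (ι → Bool) =>
        hit t' (inp o fun l => bif u b l then (q l).1 else (q l).2) (b, none, (o b).2)) ≤
      1 * (Ex (pw ν) fun q : B × Bool → (ι → Bool) × (ι → Bool) =>
        hit t' (inp o fun l => (q l).2) (b, none, (o b).2)) + 1 / 4 := by
    intro b o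
    have h := hH (B × Bool) ι ν _ _ (fun y => hit t' (inp o y) (b, none, (o b).2)) (u b) n1 n3
      (by positivity) fun l y => by
        refine ⟨pull (dec l.1 (some l.2)) (inp o y) (hitT (b, none, (o b).2) t'), fun w => ?_,
          fun w => ?_⟩
        · exact (Ppull _ _ _ w).2.trans ((costH _ _ _).trans ((costT t _ n).trans hn1))
        · rw [(Ppull _ _ _ w).1, ov_lock]
          rfl
    have e : (Fintype.card (B × Bool) : ℝ) * (1 / (8 * N)) = 1 / 4 := by
      rw [Fintype.card_prod, Fintype.card_bool, Nat.cast_mul, ← hN]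
      field_simp
      norm_num
    rw [e] at h
    rw [one_mul]
    exact h
  have tot : (Ex (fun z : B × (B → (ι → Bool) × ι) × (B × Bool → (ι → Bool) × (ι → Bool)) =>
      N⁻¹ * (pw s z.2.1 * pw ν z.2.2)) fun z => hit t'
        (inp z.2.1 fun l => bif u z.1 l then (z.2.2 l).1 else (z.2.2 l).2)
          (z.1, none, (z.2.1 z.1).2)) ≤ 3 / 4 := by
    rw [exprod (fun _ : B => N⁻¹) (fun z : (B → (ι → Bool) × ι) ×
      (B × Bool → (ι → Bool) × (ι → Bool)) => pw s z.1 * pw ν z.2)]
    simp only [exprod (pw s) (pw ν)]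
    refine (exle pB fun b _ => exle pS fun o _ => real b o).trans ?_
    simp only [exaff pS]
    rw [exaff pB, one_mul]
    simp only [exswap (pw s) (pw ν)]
    rw [exswap (fun _ : B => N⁻¹) (pw ν)]
    have h := exle pN (G := fun _ => 0 * 0 + 1 / 2)
      fun (q : B × Bool → (ι → Bool) × (ι → Bool)) _ => (null fun l => (q l).2).trans (by norm_num)
    rw [exaff pN (fun _ => 0)] at h
    linarith
  refine le_trans ?_ (exle pW (F := fun z => -((n : ℝ) + 1) * hit t'
    (inp z.2.1 fun l => bif u z.1 l then (z.2.2 l).1 else (z.2.2 l).2)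
      (z.1, none, (z.2.1 z.1).2) + ((n : ℝ) + 1)) fun z hz => ?_)
  · rw [exaff pW]
    have := mul_le_mul_of_nonneg_left tot (by positivity : (0 : ℝ) ≤ (n : ℝ) + 1)
    linarith
  · have h1 := ht _ (hval z hz)
    have h2 := markov' (z.1, none, (z.2.1 z.1).2) t
      (inp z.2.1 fun l => bif u z.1 l then (z.2.2 l).1 else (z.2.2 l).2) n
    simp only at h1 ⊢
    rw [h1] at h2
    linarith

end Pool.Agent.Lib.MJ29
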