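import Pool.Agent.Lib.MJ29.Defs

/-! Separation of a convex set from the negative orthant, and the hint or lock dichotomy. -/

namespace Pool.Agent.Lib.MJ29

open Finset Pool.Agent.Lib.MP_099303_lc

namespace Mm

lemma apply_eq {X : Type} [Fintype X] [DecidableEq X] (f : (X → ℝ) →L[ℝ] ℝ) (v : X → ℝ) :
    f v = ∑ x, f (Pi.single x 1) * v x := by
  have h : v = ∑ x, v x • (Pi.single x (1 : ℝ) : X → ℝ) := by
    funext y
    simp [Finset.sum_apply, Pi.single_apply]
  conv_lhs => rw [h]
  rw [map_sum]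
  exact sum_congr rfl fun x _ => by rw [map_smul, smul_eq_mul, mul_comm]

lemma nonpos_of_ray {a c u : ℝ} (h : ∀ t : ℝ, 0 ≤ t → c + t * a < u) : a ≤ 0 := by
  by_contra ha
  have ha : 0 < a := not_le.mp ha
  have h0 := h 0 le_rfl
  have h1 := h ((u - c) / a) (div_nonneg (by linarith) ha.le)
  rw [div_mul_cancel₀ _ ha.ne'] at h1
  linarith

end Mm

open Mm

theorem st_mm : St_mm := by
  intro X _ V S hS hne
  classical
  by_cases h1 : ∃ v ∈ S, ∀ x, V x → v x < 0
  · exact Or.inl h1
  right
  set U : Set (X → ℝ) := {u | ∀ x, V x → u x < 0} with hU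
  have hUc : Convex ℝ U := by
    intro u hu v hv a b ha hb hab x hx
    have h2 := hu x hx
    have h3 := hv x hx
    simp only [Pi.add_apply, Pi.smul_apply, smul_eq_mul]
    rcases ha.eq_or_lt with h | h
    · have hb1 : b = 1 := by linarith
      rw [← h, hb1]
      linarith
    · have h4 := mul_neg_of_pos_of_neg h h2
      have h5 := mul_nonpos_of_nonneg_of_nonpos hb h3.le
      linarith
  have hUo : IsOpen U := by
    have h2 : U = ⋂ x, {u : X → ℝ | V x → u x < 0} := by
      ext u
      simp [hU]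
    rw [h2]
    refine isOpen_iInter_of_finite fun x => ?_
    by_cases hx : V x
    · have h3 : {u : X → ℝ | V x → u x < 0} = {u : X → ℝ | u x < 0} := by
        ext u
        simp [hx]
      rw [h3]
      exact isOpen_lt (continuous_apply x) continuous_const
    · have h3 : {u : X → ℝ | V x → u x < 0} = Set.univ := by
        ext u
        simp [hx]
      rw [h3]
      exact isOpen_univ
  have hd : Disjoint U S := Set.disjoint_left.mpr fun u hu hs => h1 ⟨u, hs, hu⟩
  obtain ⟨f, u, hf1, hf2⟩ := geometric_hahn_banach_open hUc hUo hS hd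
  set a : X → ℝ := fun x => f (Pi.single x 1) with ha
  have ray : ∀ (x : X) (t : ℝ), (V x → t ≤ 0) →
      f (fun _ => -1) + t * a x < u := by
    intro x t ht
    have h2 : ((fun _ => -1) + t • (Pi.single x (1 : ℝ) : X → ℝ)) ∈ U := by
      intro y hy
      by_cases hxy : y = x
      · subst hxy
        have := ht hy
        simp only [Pi.add_apply, Pi.smul_apply, smul_eq_mul, Pi.single_eq_same]
        linarith
      · simp [Pi.single_eq_of_ne hxy]
    have h3 := hf1 _ h2
    rwa [map_add, map_smul, smul_eq_mul] at h3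
  have a0 : ∀ x, 0 ≤ a x := by
    intro x
    have h2 : -a x ≤ 0 := nonpos_of_ray (c := f fun _ => -1) (u := u) fun t ht => by
      have := ray x (-t) fun _ => by linarith
      linarith
    linarith
  have aV : ∀ x, a x ≠ 0 → V x := by
    intro x hx
    by_contra hv
    exact hx (le_antisymm (nonpos_of_ray fun t _ => ray x t fun h => absurd h hv) (a0 x))
  have hconst : ∀ ε : ℝ, 0 < ε → -(ε * ∑ x, a x) < u := by
    intro ε hε
    have h2 : (fun _ : X => -ε) ∈ U := fun y _ => by simpa using hε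
    have h3 := hf1 _ h2
    rw [apply_eq, ← sum_mul] at h3
    linarith
  have hA0 : 0 ≤ ∑ x, a x := sum_nonneg fun x _ => a0 x
  have hA : 0 < ∑ x, a x := by
    refine hA0.lt_of_ne fun h => ?_
    have hz : ∀ x, a x = 0 := fun x =>
      (sum_eq_zero_iff_of_nonneg fun x _ => a0 x).mp h.symm x (mem_univ x)
    obtain ⟨v, hv⟩ := hne
    have h2 := hf2 v hv
    rw [apply_eq, sum_eq_zero fun x _ => by rw [show f (Pi.single x 1) = 0 from hz x, zero_mul]]
      at h2
    have h3 := hconst 1 one_pos
    rw [← h] at h3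
    linarith
  have hu : 0 ≤ u := by
    by_contra hu
    have hu : u < 0 := not_le.mp hu
    have h2 := hconst (-u / ∑ x, a x) (div_pos (by linarith) hA)
    rw [div_mul_cancel₀ _ hA.ne'] at h2
    linarith
  refine ⟨fun x => a x / ∑ y, a y, ⟨fun x => div_nonneg (a0 x) hA0, ?_⟩, fun x hx => ?_,
    fun v hv => ?_⟩
  · rw [← sum_div, div_self hA.ne']
  · exact aV x fun h => hx (by simp [h])
  · have h2 := hf2 v hv
    rw [apply_eq] at h2
    have h3 : Ex (fun x => a x / ∑ y, a y) v = (∑ x, a x * v x) / ∑ y, a y := by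
      rw [Ex, sum_div]
      exact sum_congr rfl fun x _ => by ring
    rw [h3]
    exact div_nonneg (hu.trans h2) hA0

theorem st_dich (hmm : St_mm) : St_dich := by
  intro ι _ _ f m g hm
  set S : Set ((ι → Bool) × (ι → Bool) → ℝ) :=
    {v | ∃ t : WT ι, (∀ x, cost t x ≤ m) ∧ v = fun q => g - (P t q.1 - P t q.2)} with hS
  have hc : Convex ℝ S := by
    rintro _ ⟨t0, h0, rfl⟩ _ ⟨t1, h1, rfl⟩ a b ha hb hab
    have hb1 : b = 1 - a := by linarith
    subst hb1
    refine ⟨.mix ⟨a, ha, by linarith⟩ t0 t1, fun x => ?_, ?_⟩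
    · have h2 := mul_le_mul_of_nonneg_left (h0 x) ha
      have h3 := mul_le_mul_of_nonneg_left (h1 x) hb
      simp only [cost]
      linarith
    · funext q
      simp only [Pi.add_apply, Pi.smul_apply, smul_eq_mul, P]
      ring
  have hne : S.Nonempty := ⟨_, .leaf false, fun x => by simpa [cost] using hm, rfl⟩
  rcases hmm _ (fun q : (ι → Bool) × (ι → Bool) => f q.1 = true ∧ f q.2 = false) S hc hne with
    ⟨_, ⟨t, ht, rfl⟩, h⟩ | ⟨ν, hν, hV, h⟩
  · left
    refine ⟨t, ht, fun x1 x0 h1 h0 => ?_⟩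
    have := h (x1, x0) ⟨h1, h0⟩
    simp only at this
    linarith
  · right
    refine ⟨ν, hν, hV, fun t ht => ?_⟩
    have h2 := h _ ⟨t, ht, rfl⟩
    have h3 : Ex ν (fun q => g - (P t q.1 - P t q.2)) = g - Ex ν fun q => P t q.1 - P t q.2 := by
      simp only [Ex, mul_sub (ν _) g, sum_sub_distrib, ← sum_mul, hν.2, one_mul]
    rw [h3] at h2
    linarith

end Pool.Agent.Lib.MJ29
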