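import Pool.Agent.Lib.MJ29.Defs

/-! Passing between weighted trees and distributions on deterministic trees. -/

namespace Pool.Agent.Lib.MJ29

open Finset Pool.Agent.Lib.MP_099303_lc
open scoped ENNReal

namespace Pmf

variable {ι : Type}

lemma P_mem (t : WT ι) (x : ι → Bool) : 0 ≤ P t x ∧ P t x ≤ 1 := by
  induction t with
  | leaf a => cases a <;> simp [P, ind]
  | query i t0 t1 h0 h1 => cases h : x i <;> simp only [P, h, cond] <;> assumption
  | mix p t0 t1 h0 h1 =>
    have a := p.2.1
    have b := sub_nonneg.2 p.2.2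
    simp only [P]
    exact ⟨add_nonneg (mul_nonneg a h0.1) (mul_nonneg b h1.1), by
      nlinarith [mul_le_mul_of_nonneg_left h0.2 a, mul_le_mul_of_nonneg_left h1.2 b]⟩

lemma cost_ge (t : WT ι) (x : ι → Bool) : 0 ≤ cost t x := by
  induction t with
  | leaf a => exact le_rfl
  | query i t0 t1 h0 h1 => cases h : x i <;> simp only [cost, h, cond] <;> positivity
  | mix p t0 t1 h0 h1 =>
    exact add_nonneg (mul_nonneg p.2.1 h0) (mul_nonneg (sub_nonneg.2 p.2.2) h1)

lemma extreme {p u v : ℝ} {b : Bool} (h0 : 0 < p) (h1 : p ≤ 1) (hu : 0 ≤ u ∧ u ≤ 1)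
    (hv : 0 ≤ v ∧ v ≤ 1) (h : p * u + (1 - p) * v = ind b) : u = ind b := by
  have c := sub_nonneg.2 h1
  cases b
  · have e : p * u + (1 - p) * v = 0 := h
    have e2 : p * u ≤ p * 0 := by nlinarith [mul_nonneg c hv.1]
    exact le_antisymm (le_of_mul_le_mul_left e2 h0) hu.1
  · have e : p * u + (1 - p) * v = 1 := h
    have e2 : p * 1 ≤ p * u := by nlinarith [mul_nonneg c (sub_nonneg.2 hv.2)]
    exact le_antisymm hu.2 (le_of_mul_le_mul_left e2 h0)

lemma ind_inj {a b : Bool} (h : ind a = ind b) : a = b := by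
  cases a <;> cases b <;> simp_all [ind]

lemma mean_bind {α β : Type} (p : PMF α) (f : α → PMF β) (g : β → ℝ≥0∞) :
    ∑' b, p.bind f b * g b = ∑' a, p a * ∑' b, f a b * g b := by
  simp only [PMF.bind_apply, ← ENNReal.tsum_mul_right, ← ENNReal.tsum_mul_left, mul_assoc]
  exact ENNReal.tsum_comm

lemma mean_pure {β : Type} (a : β) (g : β → ℝ≥0∞) : ∑' b, PMF.pure a b * g b = g a := by
  rw [tsum_eq_single a fun b hb => by simp [hb]]
  simp

/-- a coin with bias `p` -/
noncomputable def coin (p : unitInterval) : PMF Bool :=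
  PMF.ofFintype (fun c => ENNReal.ofReal (bif c then (p : ℝ) else 1 - p)) (by
    rw [Fintype.sum_bool]
    simp only [cond]
    rw [← ENNReal.ofReal_add p.2.1 (sub_nonneg.2 p.2.2), add_sub_cancel, ENNReal.ofReal_one])

lemma coin_apply (p : unitInterval) (c : Bool) :
    coin p c = ENNReal.ofReal (bif c then (p : ℝ) else 1 - p) := rfl

lemma law (t : WT ι) : ∃ A : PMF (DT ι), (∀ T ∈ A.support, ∀ x y : ι → Bool,
    (∀ i ∈ T.queried x, y i = x i) → ∀ b b', P t x = ind b → P t y = ind b' → b' = b) ∧
    ∀ x, ∑' T, A T * ((T.queried x).length : ℝ≥0∞) = ENNReal.ofReal (cost t x) := by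
  induction t with
  | leaf a =>
    refine ⟨PMF.pure .halt, fun T _ x y _ b b' h h' => ind_inj (h'.symm.trans h), fun x => ?_⟩
    rw [mean_pure]
    simp [DT.queried, cost]
  | query i t0 t1 h0 h1 =>
    obtain ⟨A0, p0, q0⟩ := h0
    obtain ⟨A1, p1, q1⟩ := h1
    refine ⟨A0.bind fun T0 => A1.bind fun T1 => PMF.pure (.query i T0 T1), ?_, fun x => ?_⟩
    · intro T hT x y hxy b b' h h'
      simp only [PMF.mem_support_bind_iff, PMF.mem_support_pure_iff] at hT
      obtain ⟨T0, m0, T1, m1, rfl⟩ := hT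
      have e := hxy i (by simp [DT.queried])
      cases ex : x i
      · simp only [P, ex, e.trans ex, cond] at h h'
        exact p0 T0 m0 x y (fun j hj => hxy j (by simp [DT.queried, ex, hj])) b b' h h'
      · simp only [P, ex, e.trans ex, cond] at h h'
        exact p1 T1 m1 x y (fun j hj => hxy j (by simp [DT.queried, ex, hj])) b b' h h'
    · simp only [mean_bind, mean_pure]
      cases ex : x i
      · simp only [DT.queried, ex, cond, cost, List.length_cons, Nat.cast_succ,
          ENNReal.tsum_mul_right, PMF.tsum_coe, one_mul, mul_add, ENNReal.tsum_add, q0, mul_one]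
        rw [ENNReal.ofReal_add zero_le_one (cost_ge _ _), ENNReal.ofReal_one, add_comm]
      · simp only [DT.queried, ex, cond, cost, List.length_cons, Nat.cast_succ,
          ENNReal.tsum_mul_right, PMF.tsum_coe, one_mul, mul_add, ENNReal.tsum_add, q1, mul_one]
        rw [ENNReal.ofReal_add zero_le_one (cost_ge _ _), ENNReal.ofReal_one, add_comm]
  | mix p t0 t1 h0 h1 =>
    obtain ⟨A0, p0, q0⟩ := h0
    obtain ⟨A1, p1, q1⟩ := h1
    have a := p.2.1
    have c := sub_nonneg.2 p.2.2
    refine ⟨(coin p).bind fun r => bif r then A0 else A1, ?_, fun x => ?_⟩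
    · intro T hT x y hxy b b' h h'
      obtain ⟨r, hr, m⟩ := (PMF.mem_support_bind_iff _ _ _).1 hT
      rw [PMF.mem_support_iff, coin_apply, Ne, ENNReal.ofReal_eq_zero, not_le] at hr
      simp only [P] at h h'
      cases r
      · have k : ∀ (z : ι → Bool) (d : Bool), p * P t0 z + (1 - p) * P t1 z = ind d →
            P t1 z = ind d := fun z d e =>
          extreme (p := 1 - p) hr (by linarith) (P_mem t1 z) (P_mem t0 z) (by linarith)
        exact p1 T m x y hxy b b' (k x b h) (k y b' h')
      · exact p0 T m x y hxy b b' (extreme hr p.2.2 (P_mem t0 x) (P_mem t1 x) h)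
          (extreme hr p.2.2 (P_mem t0 y) (P_mem t1 y) h')
    · rw [mean_bind, tsum_fintype, Fintype.sum_bool]
      simp only [coin_apply, cond, q0, q1, cost]
      rw [ENNReal.ofReal_add (mul_nonneg a (cost_ge _ _)) (mul_nonneg c (cost_ge _ _)),
        ENNReal.ofReal_mul a, ENNReal.ofReal_mul c]

lemma label (f : (ι → Bool) → Bool) (A : DT ι) : ∀ S : (ι → Bool) → Prop,
    (∀ x y, S x → S y → (∀ i ∈ A.queried x, y i = x i) → f y = f x) →
    ∃ t : WT ι, (∀ x, S x → P t x = ind (f x)) ∧ ∀ x, cost t x = (A.queried x).length := by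
  induction A with
  | halt =>
    intro S h
    by_cases e : ∃ z, S z
    · obtain ⟨z, hz⟩ := e
      refine ⟨.leaf (f z), fun x hx => ?_, fun x => by simp [cost, DT.queried]⟩
      rw [h z x hz hx (by simp [DT.queried])]
      rfl
    · exact ⟨.leaf false, fun x hx => (e ⟨x, hx⟩).elim, fun x => by simp [cost, DT.queried]⟩
  | query i A0 A1 h0 h1 =>
    intro S h
    obtain ⟨t0, p0, q0⟩ := h0 (fun x => S x ∧ x i = false) fun x y hx hy e =>
      h x y hx.1 hy.1 fun j hj => by
        simp only [DT.queried, hx.2, cond, List.mem_cons] at hj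
        rcases hj with rfl | hj
        exacts [hy.2.trans hx.2.symm, e j hj]
    obtain ⟨t1, p1, q1⟩ := h1 (fun x => S x ∧ x i = true) fun x y hx hy e =>
      h x y hx.1 hy.1 fun j hj => by
        simp only [DT.queried, hx.2, cond, List.mem_cons] at hj
        rcases hj with rfl | hj
        exacts [hy.2.trans hx.2.symm, e j hj]
    refine ⟨.query i t0 t1, fun x hx => ?_, fun x => ?_⟩
    · cases ex : x i
      · simp only [P, ex, cond]
        exact p0 x ⟨hx, ex⟩
      · simp only [P, ex, cond]
        exact p1 x ⟨hx, ex⟩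
    · cases ex : x i
      · simp only [cost, DT.queried, ex, cond, q0, List.length_cons, Nat.cast_succ]
        exact add_comm _ _
      · simp only [cost, DT.queried, ex, cond, q1, List.length_cons, Nat.cast_succ]
        exact add_comm _ _

end Pmf

theorem st_pmf : St_pmf := by
  rintro ι f C ⟨t, ht⟩
  obtain ⟨A, p, q⟩ := Pmf.law t
  have e : ∀ x, P t x = ind (f x) := fun x => sub_eq_zero.1 (abs_nonpos_iff.1 (ht x).2)
  refine iInf₂_le_of_le A (fun T hT x y hxy => p T hT x y hxy _ _ (e x) (e y))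
    (iSup_le fun x => ?_)
  rw [q]
  exact ENNReal.ofReal_le_ofReal (ht x).1

theorem st_ofDT : St_ofDT := fun _ _ f A h =>
  (Pmf.label f A (fun _ => True) fun x y _ _ => h x y).imp fun _ ht =>
    ⟨fun x => ht.1 x trivial, ht.2⟩

theorem st_fin : St_fin := by
  intro ι _ _ f
  refine ne_top_of_le_ne_top (ENNReal.natCast_ne_top (univ : Finset ι).toList.length) ?_
  refine iInf₂_le_of_le (PMF.pure (full (univ : Finset ι).toList)) (fun T hT x y hxy => ?_)
    (iSup_le fun x => ?_)
  · obtain rfl := (PMF.mem_support_pure_iff _ _).1 hT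
    rw [funext fun i => hxy i (by simp [queried_full])]
  · rw [Pmf.mean_pure, queried_full]

theorem st_up (h : St_pmf) : St_up := fun ι f C hA =>
  ENNReal.toReal_le_of_le_ofReal
    (hA.elim fun t ht => (Pmf.cost_ge t fun _ => false).trans (ht _).1) (h ι f C hA)

end Pool.Agent.Lib.MJ29
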