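import Pool.Agent.Lib.MJ29.Defs

/-! Sequence lemmas and the link between `cStar` and the values `T k`. -/

namespace Pool.Agent.Lib.MJ29

open Filter Topology Pool.Agent.Lib.MP_099303_lc

namespace Seq

theorem ev_le {b c : ℝ} (hb : 0 < b) (h : b < c) (A : ℝ) :
    ∀ᶠ n : ℕ in atTop, A * b ^ n ≤ c ^ n := by
  have h1 : Tendsto (fun n : ℕ => (c / b) ^ n) atTop atTop :=
    tendsto_pow_atTop_atTop_of_one_lt ((one_lt_div hb).mpr h)
  refine (h1.eventually_ge_atTop A).mono fun n hn => ?_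
  rwa [div_pow, le_div_iff₀ (pow_pos hb n)] at hn

theorem le_of_pow {b c A : ℝ} (hb : 0 < b) (h : ∀ n : ℕ, c ^ n ≤ A * b ^ n) : c ≤ b := by
  by_contra hc
  obtain ⟨n, hn⟩ := (ev_le hb (not_le.1 hc) (A + 1)).exists
  linarith [h n, pow_pos hb n]

theorem cStar_nonneg : 0 ≤ cStar := Real.sInf_nonneg fun _ h => h.1.le

theorem grow {U : ℕ → ℝ} {b : ℝ} {k : ℕ} (hb : 1 ≤ b) (h3 : ∀ H, U H ≤ 3 ^ H)
    (hs : ∀ l, (∀ n, n < l + k + 1 → U n ≤ 3 ^ k * b ^ n) →
      U (l + k + 1) ≤ 3 ^ k * b ^ (l + k + 1)) (n : ℕ) : U n ≤ 3 ^ k * b ^ n := by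
  induction n using Nat.strong_induction_on with
  | _ n ih =>
    rcases le_or_gt n k with h | h
    · have h1 : (3 : ℝ) ^ n ≤ 3 ^ k := pow_le_pow_right₀ (by norm_num) h
      have h2 : (1 : ℝ) ≤ b ^ n := one_le_pow₀ hb
      have h4 : (0 : ℝ) < 3 ^ k := by positivity
      nlinarith [h3 n]
    · obtain ⟨l, rfl⟩ : ∃ l, n = l + k + 1 := ⟨n - k - 1, by omega⟩
      exact hs l ih

end Seq

open _root_.Pool.Agent.Lib.MJ29.Seq

theorem st_seqF : St_seqF := by
  intro U c A hc h0 h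
  refine ⟨max 1 (10 / 3 * A), fun H => ?_⟩
  have k1 := le_max_left 1 (10 / 3 * A)
  have k2 := le_max_right 1 (10 / 3 * A)
  generalize max 1 (10 / 3 * A) = K at k1 k2
  induction H with
  | zero => simpa using h0.trans k1
  | succ H ih =>
    have hp : 0 < c ^ H := pow_pos (by linarith) H
    have e1 : A * c ^ H ≤ 3 / 10 * K * c ^ H := mul_le_mul_of_nonneg_right (by linarith) hp.le
    have e2 : 13 / 5 * (K * c ^ H) ≤ c * (K * c ^ H) :=
      mul_le_mul_of_nonneg_right hc (by positivity)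
    have e3 : K * c ^ (H + 1) = c * (K * c ^ H) := by ring
    linarith [h H]

theorem st_seqG : St_seqG := by
  intro U c a k hc ha hl h3 hs
  by_contra hcon
  have hp : 0 < c ^ k := pow_pos (by linarith) k
  have h1 : a + 23 / 10 * c ^ k < c ^ (k + 1) := by
    have : 13 / 5 * c ^ k ≤ c * c ^ k := mul_le_mul_of_nonneg_right hc hp.le
    rw [pow_succ']
    linarith [not_le.1 hcon]
  have h2 : ∀ᶠ x in 𝓝 c, a + 23 / 10 * x ^ k < x ^ (k + 1) :=
    ContinuousAt.eventually_lt (f := fun x : ℝ => a + 23 / 10 * x ^ k)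
      (g := fun x : ℝ => x ^ (k + 1)) (by fun_prop) (by fun_prop) h1
  obtain ⟨b, hbc, hb, hb1⟩ := (h2.and (lt_mem_nhds (show (1 : ℝ) < c by linarith))).exists_lt
  have hb0 : 0 < b := by linarith
  have key := grow (U := U) (k := k) hb1.le h3 fun l ih => by
    have i1 := mul_le_mul_of_nonneg_left (ih l (by omega)) ha
    have i2 := ih (l + k) (by omega)
    have i3 := mul_le_mul_of_nonneg_left hb.le (by positivity : 0 ≤ 3 ^ k * b ^ l)
    have e1 : 3 ^ k * b ^ (l + k + 1) = 3 ^ k * b ^ l * b ^ (k + 1) := by ring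
    have e2 : 3 ^ k * b ^ l * (a + 23 / 10 * b ^ k) =
        a * (3 ^ k * b ^ l) + 23 / 10 * (3 ^ k * b ^ (l + k)) := by ring
    linarith [hs l]
  exact absurd (le_of_pow hb0 fun n => (hl n).trans (key n)) (not_le.2 hbc)

theorem st_c2 : St_c2 := by
  intro c hc
  obtain ⟨c', ⟨h0, h1⟩, h2⟩ := exists_lt_of_csInf_lt
    (s := {c : ℝ | 0 < c ∧ ∀ᶠ k in atTop, R (iterMaj k) ≤ ENNReal.ofReal (c ^ k)})
    ⟨3, by norm_num, Eventually.of_forall R_le⟩ hc
  refine h1.mono fun k hk => ?_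
  exact (ENNReal.toReal_le_of_le_ofReal (pow_pos h0 k).le hk).trans
    (pow_le_pow_left₀ h0.le h2.le k)

theorem st_c1 (hsub : St_sub) (hT : St_T1) : St_c1 := by
  intro k
  cases k with
  | zero => simpa using (hT 0).1
  | succ k =>
    have h1 := (hT (k + 1)).1
    obtain ⟨b, hb1, hb⟩ : ∃ b : ℝ, 1 ≤ b ∧ b ^ (k + 1) = T (k + 1) :=
      ⟨T (k + 1) ^ (((k + 1 : ℕ) : ℝ)⁻¹), Real.one_le_rpow h1 (by positivity),
        Real.rpow_inv_natCast_pow (by linarith) (Nat.succ_ne_zero k)⟩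
    have hb0 : 0 < b := by linarith
    have key := grow (U := T) (k := k) hb1 (fun H => (hT H).2.1) fun l ih => by
      have i1 := mul_le_mul_of_nonneg_left (ih l (by omega)) (by linarith : 0 ≤ T (k + 1))
      have i2 : T (l + k + 1) ≤ T (k + 1) * T l := hsub (k + 1) l
      have e1 : 3 ^ k * b ^ (l + k + 1) = b ^ (k + 1) * (3 ^ k * b ^ l) := by ring
      rw [e1, hb]
      exact i2.trans i1
    have hle : cStar ≤ b := le_of_forall_gt_imp_ge_of_dense fun c hc =>
      csInf_le ⟨0, fun _ h => h.1.le⟩ ⟨hb0.trans hc, (ev_le hb0 hc (3 ^ k)).mono fun n hn => by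
        rw [(hT n).2.2]
        exact ENNReal.ofReal_le_ofReal ((key n).trans hn)⟩
    rw [← hb]
    exact pow_le_pow_left₀ cStar_nonneg hle _

theorem st_rle (hf : St_f2) (hi : St_idx) (hE : St_tvE) (h2 : St_c2) (hT : St_T1) : St_rle := by
  intro l r hH
  rcases le_or_gt r 0 with hr | hr
  · exact hr.trans (pow_nonneg cStar_nonneg l)
  have step : ∀ k, r * T k ≤ T (l + k) := by
    intro k
    obtain ⟨E, hE'⟩ := hi k l
    have e : T (l + k) = Tv (cmp (iterMaj k) (iterMaj l)) := by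
      rw [T, funext hE']
      exact hE _ _ E _
    rw [e]
    exact hf _ _ (iterMaj k) (iterMaj l) r hr.le hH
  have pw_le : ∀ j, r ^ j ≤ T (l * j) := by
    intro j
    induction j with
    | zero => simpa using (hT 0).1
    | succ j ih =>
      rw [pow_succ', Nat.mul_succ, Nat.add_comm]
      exact (mul_le_mul_of_nonneg_left ih hr.le).trans (step _)
  rcases Nat.eq_zero_or_pos l with rfl | hl
  · have h0 := step 0
    have h1 := (hT 0).1
    rw [pow_zero]
    rw [Nat.add_zero] at h0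
    nlinarith
  by_contra hcon
  have h3 : ∀ᶠ x in 𝓝 cStar, x ^ l < r :=
    ContinuousAt.eventually_lt (f := fun x : ℝ => x ^ l) (g := fun _ : ℝ => r) (by fun_prop)
      (by fun_prop) (not_le.1 hcon)
  obtain ⟨c, hc, hcr⟩ := h3.exists_gt
  obtain ⟨N, hN⟩ := eventually_atTop.1 (h2 c hc)
  have h4 := (pw_le (N + 1)).trans (hN (l * (N + 1)) (by nlinarith))
  rw [pow_mul] at h4
  exact absurd h4 (not_le.2 (pow_lt_pow_left₀ hcr
    (pow_nonneg (cStar_nonneg.trans hc.le) l) (Nat.succ_ne_zero N)))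

end Pool.Agent.Lib.MJ29
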