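import Pool.Agent.Lib.MJ29.Defs

/-! Substitution of exact trees, and one majority step guided by hints. -/

namespace Pool.Agent.Lib.MJ29

open Finset Pool.Agent.Lib.MP_099303_lc

namespace Step

variable {ι J : Type}

lemma P_mem (t : WT ι) (x : ι → Bool) : 0 ≤ P t x ∧ P t x ≤ 1 := by
  induction t with
  | leaf b => cases b <;> simp [P, ind]
  | query i t0 t1 h0 h1 => cases h : x i <;> simp [P, h, h0, h1]
  | mix p t0 t1 h0 h1 =>
    have hp0 : (0 : ℝ) ≤ p := p.2.1
    have hp1 : (p : ℝ) ≤ 1 := p.2.2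
    simp only [P]
    constructor <;> nlinarith [h0.1, h0.2, h1.1, h1.2]

lemma cost_ge (t : WT ι) (x : ι → Bool) : 0 ≤ cost t x := by
  induction t with
  | leaf b => simp [cost]
  | query i t0 t1 h0 h1 => cases h : x i <;> simp only [cost, h, cond_true, cond_false] <;> linarith
  | mix p t0 t1 h0 h1 =>
    have hp0 : (0 : ℝ) ≤ p := p.2.1
    have hp1 : (p : ℝ) ≤ 1 := p.2.2
    simp only [cost]
    nlinarith

lemma Pb (t : WT ι) (k : Bool → WT ι) (x : ι → Bool) :
    P (bind t k) x = P t x * P (k true) x + (1 - P t x) * P (k false) x := by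
  induction t with
  | leaf b => cases b <;> simp [bind, P, ind]
  | query i t0 t1 h0 h1 => cases h : x i <;> simp [bind, P, h, h0, h1]
  | mix p t0 t1 h0 h1 => simp only [bind, P, h0, h1]; ring

lemma cb (t : WT ι) (k : Bool → WT ι) (x : ι → Bool) :
    cost (bind t k) x =
      cost t x + (P t x * cost (k true) x + (1 - P t x) * cost (k false) x) := by
  induction t with
  | leaf b => cases b <;> simp [bind, P, cost, ind]
  | query i t0 t1 h0 h1 =>
    cases h : x i <;> simp only [bind, P, cost, h, h0, h1, cond_true, cond_false] <;> ring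
  | mix p t0 t1 h0 h1 => simp only [bind, P, cost, h0, h1]; ring

/-- every query is answered by a tree -/
def subst (s : ι → WT J) : WT ι → WT J
  | .leaf b => .leaf b
  | .query i t0 t1 => bind (s i) fun b => bif b then subst s t1 else subst s t0
  | .mix p t0 t1 => .mix p (subst s t0) (subst s t1)

lemma subst_spec (s : ι → WT J) (x : J → Bool) (y : ι → Bool) (C : ℝ)
    (h : ∀ i, cost (s i) x ≤ C ∧ P (s i) x = ind (y i)) (t : WT ι) :
    P (subst s t) x = P t y ∧ cost (subst s t) x ≤ cost t y * C := by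
  induction t with
  | leaf b => simp [subst, P, cost]
  | query i t0 t1 h0 h1 =>
    have h2 := (h i).1
    simp only [subst, Pb, cb, (h i).2, P, cost, cond_true, cond_false]
    cases y i
    · simp only [ind, cond_false]
      exact ⟨by rw [h0.1]; ring, by linarith [h0.2]⟩
    · simp only [ind, cond_true]
      exact ⟨by rw [h1.1]; ring, by linarith [h1.2]⟩
  | mix p t0 t1 h0 h1 =>
    have hp0 : (0 : ℝ) ≤ p := p.2.1
    have hp1 : (0 : ℝ) ≤ 1 - p := sub_nonneg.2 p.2.2
    simp only [subst, P, cost, h0.1, h1.1, true_and]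
    have h2 := mul_le_mul_of_nonneg_left h0.2 hp0
    have h3 := mul_le_mul_of_nonneg_left h1.2 hp1
    linarith

lemma exact_of {f : (J → Bool) → Bool} {C : ℝ} (h : Apx f C 0) :
    ∃ t : WT J, ∀ x, cost t x ≤ C ∧ P t x = ind (f x) := by
  obtain ⟨t, ht⟩ := h
  exact ⟨t, fun x => ⟨(ht x).1, sub_eq_zero.1 (abs_nonpos_iff.1 (ht x).2)⟩⟩

/-- evaluate two children, and the third one only if they differ -/
def ev (a b c : WT J) : WT J := bind a fun u => bind b fun v => bif u == v then .leaf u else c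

/-- indicator of different bits -/
def df (u v : Bool) : ℝ := bif u == v then 0 else 1

lemma ev_spec {a b c : WT J} {x : J → Bool} {u v w : Bool} {B : ℝ}
    (ha : cost a x ≤ B ∧ P a x = ind u) (hb : cost b x ≤ B ∧ P b x = ind v)
    (hc : cost c x ≤ B ∧ P c x = ind w) :
    P (ev a b c) x = ind (maj u v w) ∧ cost (ev a b c) x ≤ 2 * B + df u v * B := by
  have h1 := ha.1
  have h2 := hb.1
  have h3 := hc.1
  simp only [ev, Pb, cb, ha.2, hb.2]
  cases u <;> cases v <;> cases w <;>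
    simp [P, cost, ind, maj, df, hc.2] <;> linarith

lemma tri {x y z : ℝ} (hx : 9 / 10 ≤ x) (hy : 9 / 10 ≤ y) (hz : 9 / 10 ≤ z) :
    7 / 10 ≤ x * y * z := by
  have h1 : 9 / 10 * (9 / 10) ≤ x * y := mul_le_mul hx hy (by norm_num) (by linarith)
  have h2 : 9 / 10 * (9 / 10) * (9 / 10) ≤ x * y * z :=
    mul_le_mul h1 hz (by norm_num) (by linarith)
  linarith

lemma key {p q r : ℝ} {u v w : Bool} (hp : 0 ≤ p ∧ p ≤ 1) (hq : 0 ≤ q ∧ q ≤ 1)
    (hr : 0 ≤ r ∧ r ≤ 1) (ep : |p - ind u| ≤ 1 / 10) (eq : |q - ind v| ≤ 1 / 10)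
    (er : |r - ind w| ≤ 1 / 10) :
    (p * q + (1 - p) * (1 - q)) * df u v + (p * (1 - q) * r + (1 - p) * q * (1 - r)) * df u w +
      (p * (1 - q) * (1 - r) + (1 - p) * q * r) * df v w ≤ 3 / 10 := by
  have hp' := sub_nonneg.2 hp.2
  have hq' := sub_nonneg.2 hq.2
  have hr' := sub_nonneg.2 hr.2
  have a1 := mul_nonneg (mul_nonneg hp.1 hq.1) hr.1
  have a2 := mul_nonneg (mul_nonneg hp.1 hq.1) hr'
  have a3 := mul_nonneg (mul_nonneg hp.1 hq') hr.1
  have a4 := mul_nonneg (mul_nonneg hp.1 hq') hr'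
  have a5 := mul_nonneg (mul_nonneg hp' hq.1) hr.1
  have a6 := mul_nonneg (mul_nonneg hp' hq.1) hr'
  have a7 := mul_nonneg (mul_nonneg hp' hq') hr.1
  have a8 := mul_nonneg (mul_nonneg hp' hq') hr'
  rw [abs_le] at ep eq er
  obtain ⟨p1, p2⟩ := ep
  obtain ⟨q1, q2⟩ := eq
  obtain ⟨r1, r2⟩ := er
  cases u <;> cases v <;> cases w <;>
    simp only [ind, df, cond_true, cond_false, beq_self_eq_true, Bool.true_beq, Bool.false_beq,
      Bool.not_true, Bool.not_false] at p1 p2 q1 q2 r1 r2 ⊢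
  · linarith
  · linarith [tri (x := 1 - p) (y := 1 - q) (z := r) (by linarith) (by linarith) (by linarith)]
  · linarith [tri (x := 1 - p) (y := q) (z := 1 - r) (by linarith) (by linarith) (by linarith)]
  · linarith [tri (x := 1 - p) (y := q) (z := r) (by linarith) (by linarith) (by linarith)]
  · linarith [tri (x := p) (y := 1 - q) (z := 1 - r) (by linarith) (by linarith) (by linarith)]
  · linarith [tri (x := p) (y := 1 - q) (z := r) (by linarith) (by linarith) (by linarith)]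
  · linarith [tri (x := p) (y := q) (z := 1 - r) (by linarith) (by linarith) (by linarith)]
  · linarith

end Step

open Step

theorem st_comp : St_comp := by
  intro ι J f g M e C hC hf hg
  obtain ⟨t, ht⟩ := hf
  choose s hs using fun i => exact_of (hg i)
  refine ⟨subst s t, fun x => ?_⟩
  obtain ⟨h1, h2⟩ := subst_spec s x (fun i => g i x) C (fun i => hs i x) t
  refine ⟨h2.trans (mul_le_mul_of_nonneg_right (ht _).1 hC), ?_⟩
  rw [h1]
  exact (ht _).2

theorem st_step : St_step := by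
  intro J f0 f1 f2 M B h0 h1 h2 e0 e1 e2
  obtain ⟨s0, h0⟩ := h0
  obtain ⟨s1, h1⟩ := h1
  obtain ⟨s2, h2⟩ := h2
  obtain ⟨t0, e0⟩ := exact_of e0
  obtain ⟨t1, e1⟩ := exact_of e1
  obtain ⟨t2, e2⟩ := exact_of e2
  refine ⟨bind s0 fun a => bind s1 fun b => bind s2 fun c =>
    bif a == b then ev t0 t1 t2 else bif a == c then ev t0 t2 t1 else ev t1 t2 t0, fun x => ?_⟩
  have hB : 0 ≤ B := (cost_ge t0 x).trans (e0 x).1
  obtain ⟨a1, a2⟩ := ev_spec (e0 x) (e1 x) (e2 x)
  obtain ⟨b1, b2⟩ := ev_spec (e0 x) (e2 x) (e1 x)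
  obtain ⟨c1, c2⟩ := ev_spec (e1 x) (e2 x) (e0 x)
  have m1 : maj (f0 x) (f2 x) (f1 x) = maj (f0 x) (f1 x) (f2 x) := by
    cases f0 x <;> cases f1 x <;> cases f2 x <;> rfl
  have m2 : maj (f1 x) (f2 x) (f0 x) = maj (f0 x) (f1 x) (f2 x) := by
    cases f0 x <;> cases f1 x <;> cases f2 x <;> rfl
  rw [m1] at b1
  rw [m2] at c1
  have hp := P_mem s0 x
  have hq := P_mem s1 x
  have hr := P_mem s2 x
  have hk := mul_le_mul_of_nonneg_right (key hp hq hr (h0 x).2 (h1 x).2 (h2 x).2) hB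
  have k0 := (h0 x).1
  have k1 := (h1 x).1
  have k2 := (h2 x).1
  simp only [Pb, cb, cond_true, cond_false, beq_self_eq_true, Bool.true_beq, Bool.false_beq,
    Bool.not_true, Bool.not_false, a1, b1, c1]
  generalize P s0 x = p at *
  generalize P s1 x = q at *
  generalize P s2 x = r at *
  have hp' := sub_nonneg.2 hp.2
  have hq' := sub_nonneg.2 hq.2
  have hr' := sub_nonneg.2 hr.2
  have w1 := mul_le_mul_of_nonneg_left a2
    (add_nonneg (mul_nonneg hp.1 hq.1) (mul_nonneg hp' hq'))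
  have w2 := mul_le_mul_of_nonneg_left b2
    (add_nonneg (mul_nonneg (mul_nonneg hp.1 hq') hr.1) (mul_nonneg (mul_nonneg hp' hq.1) hr'))
  have w3 := mul_le_mul_of_nonneg_left c2
    (add_nonneg (mul_nonneg (mul_nonneg hp.1 hq') hr') (mul_nonneg (mul_nonneg hp' hq.1) hr.1))
  refine ⟨by linarith, ?_⟩
  rw [abs_nonpos_iff]
  ring

end Pool.Agent.Lib.MJ29
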