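import Pool.Agent.Lib.MJ29.Err

/-! The top of the argument, from the row statements. -/

namespace Pool.Agent.Lib.MJ29

open Finset Pool.Agent.Lib.MP_099303_lc

theorem st_lift (hc : St_comp) (ha : St_alg) (hi : St_idx) : St_lift := by
  intro k l M e C h hC
  obtain ⟨E, hE⟩ := hi k l
  have h1 : Apx (iterMaj l) C 0 := ha _ _ _ hC
  have h2 := hc _ (Fin (3 ^ (l + k))) (iterMaj k)
    (fun p x => iterMaj l fun i => x (E (p, i))) M e C h1.nonneg h
    fun p => h1.map fun i => E (p, i)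
  have h3 : iterMaj (l + k) = fun x => iterMaj k fun p => iterMaj l fun i => x (E (p, i)) :=
    funext hE
  rw [h3]
  exact h2

theorem st_sub (hl : St_lift) (ha : St_alg) (hu : St_up) (h1 : St_T1) : St_sub := by
  intro k l
  have key : ∀ ε : ℝ, 0 < ε → T (l + k) ≤ (T k + ε) * (T l + ε) := fun ε hε =>
    hu _ _ _ (hl k l _ 0 _ (ha _ (iterMaj k) (T k + ε) (lt_add_of_pos_right _ hε))
      (lt_add_of_pos_right _ hε))
  have hk := (h1 k).1
  have hl' := (h1 l).1
  refine le_of_forall_pos_le_add fun η hη => ?_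
  have hp : 0 < T k + T l + 1 := by linarith
  have := key (min 1 (η / (T k + T l + 1))) (lt_min one_pos (by positivity))
  set ε := min 1 (η / (T k + T l + 1))
  have e1 : ε ≤ 1 := min_le_left _ _
  have e2 : ε * (T k + T l + 1) ≤ η := (le_div_iff₀ hp).1 (min_le_right _ _)
  have e0 : 0 < ε := lt_min one_pos (by positivity)
  nlinarith

theorem st_stepT (hs : St_step) (ha : St_alg) (hu : St_up) : St_stepT := by
  intro H M h
  refine le_of_forall_pos_le_add fun η hη => ?_
  have h1 : Apx (iterMaj H) (T H + η / 3) 0 := ha _ _ _ (lt_add_of_pos_right _ (by positivity))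
  have h2 := hs (Fin (3 ^ (H + 1))) _ _ _ M _ (h.map (blk H 0)) (h.map (blk H 1))
    (h.map (blk H 2)) (h1.map (blk H 0)) (h1.map (blk H 1)) (h1.map (blk H 2))
  have h3 : T (H + 1) ≤ _ := hu _ (iterMaj (H + 1)) _ h2
  linarith

theorem st_lockT (hd : St_dich) (hk : St_lock) (hE : St_hardE) (hi : St_idx3) (hv : St_valid) :
    St_lockT := by
  intro t k r hr h
  rcases hd _ (iterMaj k) (3 ^ t * r / 4) (1 / (8 * 3 ^ t)) (by positivity) with h1 | h1
  · exact Or.inl h1
  · right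
    have : Nonempty (Fin (3 ^ t)) := ⟨⟨0, by positivity⟩⟩
    have hc : (Fintype.card (Fin (3 ^ t)) : ℝ) = 3 ^ t := by simp
    have h2 := hk (Fin (3 ^ t)) _ (iterMaj t) (iterMaj k) r hr (hv t) h (by rw [hc]; exact h1)
    rw [hc] at h2
    obtain ⟨E, hE'⟩ := hi t k
    have h3 := hE _ _ E _ _ h2
    have h4 : iterMaj (k + 1 + t) = fun x => lk (iterMaj t) (iterMaj k) fun j => x (E j) :=
      funext hE'
    rw [h4]
    exact h3

/-- an algorithm of error `1 / 10` costs at least `cStar ^ k / 20` -/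
theorem apx_lower (hl : St_lift) (hs : St_stepT) (h1 : St_T1) (hc : St_c1) (hG : St_seqG)
    (c26 : 13 / 5 ≤ cStar) {k : ℕ} {M : ℝ} (h : Apx (iterMaj k) M (1 / 10)) :
    cStar ^ k ≤ 20 * M := by
  have hM := h.nonneg
  have := hG T cStar (6 * M) k c26 (by positivity) hc (fun H => (h1 H).2.1) fun l => by
    have h2 := hs (l + k) _ (hl k l M _ (2 * T l) h (by linarith [(h1 l).1]))
    linarith
  linarith

theorem main2 (ham : St_amp) (hl : St_lift) (hs : St_stepT) (h1 : St_T1) (hc : St_c1)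
    (hG : St_seqG) (hF : St_seqF) (hk : St_lockT) (hh : St_hard1) (hr : St_rle)
    (hre : St_restr) (c26 : 13 / 5 ≤ cStar) (c265 : cStar ≤ 53 / 20) :
    (∃ K0 : ℝ, 0 < K0 ∧ ∀ k, Hard (iterMaj k) (cStar ^ k / K0)) ∧
      ∃ K : ℝ, ∀ k, T k ≤ K * cStar ^ k := by
  set c := cStar with hcdef
  have c1 : 1 ≤ c := by linarith
  have c0 : 0 < c := by linarith
  obtain ⟨n, hn, hamp⟩ := ham (1 / (8 * 3 ^ 36)) (by positivity)
  have hN : 2 * c ^ 37 ≤ 3 ^ 36 / 16 := by
    have : c ^ 37 ≤ (53 / 20) ^ 37 := pow_le_pow_left₀ c0.le c265 37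
    have h2 : 2 * (53 / 20 : ℝ) ^ 37 ≤ 3 ^ 36 / 16 := by norm_num
    linarith
  generalize hNN : (3 : ℝ) ^ 36 = N at hamp hN
  have N0 : 0 < N := by rw [← hNN]; positivity
  have hk' : ∀ k r, 0 < r → Hard (iterMaj k) r →
      Hint (iterMaj k) (N * r / 4) (1 / (8 * N)) ∨ Hard (iterMaj (k + 37)) (2 * c ^ 37 * r) := by
    intro k r hr0 h
    have := hk 36 k r hr0 h
    rw [hNN] at this
    refine this.imp id fun h2 => h2.mono ?_
    nlinarith
  obtain ⟨K0, K1, K2⟩ : ∃ K0 : ℝ, c ^ 37 ≤ K0 ∧ 5 * n * N < K0 :=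
    ⟨max (c ^ 37) (5 * n * N + 1), le_max_left _ _, (lt_add_one _).trans_le (le_max_right _ _)⟩
  have K00 : 0 < K0 := lt_of_lt_of_le (by positivity) K1
  have hA : ∀ k, Hard (iterMaj k) (c ^ k / K0) := by
    intro k
    induction k using Nat.strong_induction_on with
    | _ k ih =>
      by_cases hk37 : k < 37
      · refine (hh k).mono ((div_le_one K00).2 (le_trans ?_ K1))
        exact pow_le_pow_right₀ c1 hk37.le
      · obtain ⟨j, rfl⟩ : ∃ j, k = j + 37 := ⟨k - 37, by omega⟩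
        have hp : 0 < c ^ j / K0 := by positivity
        rcases hk' j _ hp (ih j (by omega)) with h | h
        · exfalso
          have h2 := apx_lower hl hs h1 hc hG c26 (hamp _ _ _ h)
          have h3 : c ^ j = K0 * (c ^ j / K0) := by field_simp
          rw [← hcdef] at h2
          nlinarith
        · refine h.mono ?_
          rw [pow_add, div_le_iff₀ K00]
          have h3 : 2 * c ^ 37 * (c ^ j / K0) * K0 = 2 * (c ^ j * c ^ 37) := by field_simp
          have h4 : 0 < c ^ j * c ^ 37 := by positivity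
          linarith
  obtain ⟨J, hJ⟩ : ∃ J : ℕ, K0 < 2 ^ J := pow_unbounded_of_one_lt K0 one_lt_two
  have hB : ∀ h j : ℕ, Hint (iterMaj h) (N / 4 * c ^ (37 * j) * c ^ h) (1 / (8 * N)) ∨
      Hard (iterMaj (h + 37 * j)) (2 ^ j * c ^ (h + 37 * j) / K0) := by
    intro h j
    have hm : c ^ (37 * j) ≤ c ^ (37 * (j + 1)) := pow_le_pow_right₀ c1 (by omega)
    induction j with
    | zero => right; simpa using hA h
    | succ j ih =>
      have hm : c ^ (37 * j) ≤ c ^ (37 * (j + 1)) := pow_le_pow_right₀ c1 (by omega)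
      have hm2 : N / 4 * c ^ (37 * j) * c ^ h ≤ N / 4 * c ^ (37 * (j + 1)) * c ^ h := by gcongr
      rcases ih hm with h2 | h2
      · exact Or.inl (h2.mono hm2)
      · rcases hk' _ _ (by positivity) h2 with h3 | h3
        · left
          refine (hre h _ _ _ h3).mono (le_trans ?_ hm2)
          have h4 := hr _ _ h2
          rw [← hcdef, pow_add] at h4
          rw [pow_add]
          nlinarith
        · right
          refine Hard.mono (r := 2 * c ^ 37 * (2 ^ j * c ^ (h + 37 * j) / K0)) h3 (le_of_eq ?_)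
          rw [show h + 37 * (j + 1) = h + 37 * j + 37 by ring, pow_add c _ 37, pow_succ]
          ring
  have hC : ∀ h, Hint (iterMaj h) (N / 4 * c ^ (37 * J) * c ^ h) (1 / (8 * N)) := by
    intro h
    refine (hB h J).resolve_right fun h2 => ?_
    have h3 := hr _ _ h2
    rw [← hcdef, div_le_iff₀ K00] at h3
    have h4 : 0 < c ^ (h + 37 * J) := by positivity
    nlinarith
  refine ⟨⟨K0, K00, hA⟩, ?_⟩
  refine hF T c (3 * n * (N / 4 * c ^ (37 * J))) c26 (by simpa using (h1 0).2.1) fun H => ?_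
  have := hs H _ (hamp _ _ _ (hC H))
  linarith

/-- bounded error does not help by more than a constant factor -/
theorem err_lower (ham : St_amp) (hl : St_lift) (hs : St_stepT) (h1 : St_T1) (hc : St_c1)
    (hG : St_seqG) (hb : St_berr) (c26 : 13 / 5 ≤ cStar) {δ : ℝ} (h0 : 0 ≤ δ) (hδ : δ < 1 / 2) :
    ∃ κ : ℝ, 0 < κ ∧ ∀ k, ENNReal.ofReal (κ * cStar ^ k) ≤ Rerr (iterMaj k) δ := by
  obtain ⟨n, hn, hamp⟩ := ham ((1 / 2 - δ) / 2) (by linarith)
  refine ⟨1 / (40 * n), by positivity, fun k => le_of_not_gt fun h => ?_⟩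
  obtain ⟨t, ht⟩ := hb _ _ _ δ ((δ + 1 / 2) / 2) h0 (by linarith) h
  have h2 : Hint (iterMaj k) (1 / (40 * n) * cStar ^ k) ((1 / 2 - δ) / 2) := by
    refine ⟨t, fun x => (ht x).1, fun x1 x0 e1 e0 => ?_⟩
    have a1 := (abs_le.1 (ht x1).2).1
    have a0 := (abs_le.1 (ht x0).2).2
    rw [e1, ind_true] at a1
    rw [e0, ind_false] at a0
    linarith
  have h3 := apx_lower hl hs h1 hc hG c26 (hamp _ _ _ h2)
  have h4 : 20 * (n * (1 / (40 * n) * cStar ^ k)) = cStar ^ k / 2 := by field_simp; ring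
  have h5 : 0 < cStar ^ k := pow_pos (by linarith) k
  linarith

end Pool.Agent.Lib.MJ29
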