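import Pool.Agent.Lib.MJ29.Defs

namespace Pool.Agent.Lib.MJ29

open Finset Pool.Agent.Lib.MP_099303_lc

namespace YAO

variable {ι : Type}

theorem p_mem (t : WT ι) (x : ι → Bool) : 0 ≤ P t x ∧ P t x ≤ 1 := by
  induction t with
  | leaf b => cases b <;> simp [P, ind]
  | query i t0 t1 h0 h1 =>
    rw [P]
    cases x i
    · exact h0
    · exact h1
  | mix p t0 t1 h0 h1 =>
    rw [P]
    have hp := p.2.1
    have hq := p.2.2
    constructor <;> nlinarith [h0.1, h0.2, h1.1, h1.2]

theorem c_nonneg (t : WT ι) (x : ι → Bool) : 0 ≤ cost t x := by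
  induction t with
  | leaf b => exact le_rfl
  | query i t0 t1 h0 h1 =>
    rw [cost]
    cases x i
    · exact add_nonneg zero_le_one h0
    · exact add_nonneg zero_le_one h1
  | mix p t0 t1 h0 h1 =>
    rw [cost]
    exact add_nonneg (mul_nonneg p.2.1 h0) (mul_nonneg (sub_nonneg.2 p.2.2) h1)

theorem gap_le (t : WT ι) (x y : ι → Bool) : P t x - P t y ≤ cost t x := by
  induction t with
  | leaf b => simp [P, cost]
  | query i t0 t1 _ _ =>
    have h1 := (p_mem (.query i t0 t1) x).2
    have h2 := (p_mem (.query i t0 t1) y).1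
    have h3 : 1 ≤ cost (.query i t0 t1) x := by
      rw [cost]
      cases x i
      · exact le_add_of_nonneg_right (c_nonneg t0 x)
      · exact le_add_of_nonneg_right (c_nonneg t1 x)
    linarith
  | mix p t0 t1 h0 h1 =>
    rw [P, P, cost]
    have h2 := mul_le_mul_of_nonneg_left h0 p.2.1
    have h3 := mul_le_mul_of_nonneg_left h1 (sub_nonneg.2 p.2.2)
    linarith

theorem alt (hmm : St_mm) (hDT : St_ofDT) [Fintype ι] [DecidableEq ι] (f : (ι → Bool) → Bool)
    (C : ℝ) : Apx f C 0 ∨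
      ∃ ν : (ι → Bool) → ℝ, IsP ν ∧ ∀ t : WT ι, Exact f t → C ≤ Ex ν (cost t) := by
  have h := hmm (ι → Bool) (fun _ => True)
    {v | ∃ t : WT ι, Exact f t ∧ v = fun x => cost t x - C} ?_ ?_
  · rcases h with ⟨v, ⟨t, ht, rfl⟩, hv⟩ | ⟨ν, hν, -, h⟩
    · refine Or.inl ⟨t, fun x => ⟨by linarith [hv x trivial], ?_⟩⟩
      rw [ht x, sub_self, abs_zero]
    · refine Or.inr ⟨ν, hν, fun t ht => ?_⟩
      have h1 := h _ ⟨t, ht, rfl⟩
      simp only [Ex, mul_sub, sum_sub_distrib, ← sum_mul, hν.2, one_mul] at h1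
      simp only [Ex]
      linarith
  · rintro v ⟨t0, h0, rfl⟩ w ⟨t1, h1, rfl⟩ a b ha hb hab
    obtain rfl : b = 1 - a := by linarith
    refine ⟨.mix ⟨a, ha, by linarith⟩ t0 t1, fun x => ?_, funext fun x => ?_⟩
    · rw [P, h0 x, h1 x]
      ring
    · simp only [cost, Pi.add_apply, Pi.smul_apply, smul_eq_mul]
      ring
  · obtain ⟨t, ht, -⟩ := hDT ι f (full (univ : Finset ι).toList) fun x y h => by
      rw [queried_full] at h
      rw [show y = x from funext fun i => h i (mem_toList.2 (mem_univ i))]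
    exact ⟨_, t, ht, rfl⟩

theorem maj_self (b : Bool) : maj b b b = b := by
  cases b <;> rfl

theorem iter_const (b : Bool) : ∀ k, iterMaj k (fun _ => b) = b
  | 0 => rfl
  | k + 1 => by
    rw [iterMaj, iter_const b k, maj_self]

theorem tv_le (halg : St_alg) (hup : St_up) (hcomp : St_comp) (J J' : Type) [Fintype J]
    [DecidableEq J] (E : J → J') (G : (J → Bool) → Bool) :
    Tv (fun x : J' → Bool => G fun j => x (E j)) ≤ Tv G := by
  refine le_of_forall_gt_imp_ge_of_dense fun C hC => ?_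
  have h := hcomp J J' G (fun j x => x (E j)) C 0 1 zero_le_one (halg J G C hC) fun j =>
    ⟨.query (E j) (.leaf false) (.leaf true), fun x => by
      cases h : x (E j) <;> simp [cost, P, ind, h]⟩
  rw [mul_one] at h
  exact hup J' _ C h

end YAO

theorem st_alg (hmm : St_mm) (hDT : St_ofDT) (hfin : St_fin) : St_alg := by
  intro ι _ _ f C hC
  rcases YAO.alt hmm hDT f C with h | ⟨ν, hν, h⟩
  · exact h
  · have h0 : 0 ≤ C := ENNReal.toReal_nonneg.trans hC.le
    have h1 := R_ge f ν hν.1 (by rw [hν.2]; exact one_pos) C h0 fun A hA => by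
      obtain ⟨t, ht, hc⟩ := hDT ι f A hA
      have h2 := h t ht
      simp only [Ex, hc] at h2
      rw [hν.2, mul_one]
      exact h2
    exact absurd ((ENNReal.ofReal_le_iff_le_toReal (hfin ι f)).1 h1) (not_le.2 hC)

theorem st_yao (hmm : St_mm) (hDT : St_ofDT) (hup : St_up) : St_yao := by
  intro ι _ _ f C hC
  rcases YAO.alt hmm hDT f C with h | h
  · exact absurd (hup ι f C h) (not_le.2 hC)
  · exact h

theorem st_one (halg : St_alg) : St_one := by
  intro ι _ _ f x1 x0 h1 h0
  refine le_of_forall_gt_imp_ge_of_dense fun C hC => ?_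
  obtain ⟨t, ht⟩ := halg ι f C hC
  have h2 := abs_nonpos_iff.1 (ht x1).2
  have h3 := abs_nonpos_iff.1 (ht x0).2
  have h4 := YAO.gap_le t x1 x0
  have h5 := (ht x1).1
  rw [h1] at h2
  rw [h0] at h3
  simp only [ind, cond_true, cond_false] at h2 h3
  linarith

theorem st_T1 (hone : St_one) (hfin : St_fin) : St_T1 := by
  intro k
  refine ⟨hone _ _ _ _ (YAO.iter_const true k) (YAO.iter_const false k), ?_, ?_⟩
  · exact ENNReal.toReal_le_of_le_ofReal (by positivity) (R_le k)
  · exact (ENNReal.ofReal_toReal (hfin _ _)).symm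

theorem st_tvE (halg : St_alg) (hup : St_up) (hcomp : St_comp) : St_tvE := by
  intro J J' _ _ _ _ E G
  refine le_antisymm (YAO.tv_le halg hup hcomp J J' E G) ?_
  have h := YAO.tv_le halg hup hcomp J' J E.symm fun x : J' → Bool => G fun j => x (E j)
  simpa only [Equiv.symm_apply_apply] using h

end Pool.Agent.Lib.MJ29
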